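import Mathlib

/-!
# Abstract local bound
-/

namespace MP_7c08ba.Crys

open TensorProduct

/-! ### Linear algebra -/

section LinAlg

variable {L N Z W : Type} [Field L] [AddCommGroup N] [Module L N] [AddCommGroup Z] [Module L Z]
  [AddCommGroup W] [Module L W]

/-- rank step -/
lemma rank_step (κ : N →ₗ[L] Z) (A B : Submodule L N) (T : B →ₗ[L] W)
    (hT : ∀ b : B, T b = 0 → (b : N) ∈ A) :
    Module.rank L (B.map κ) ≤ Module.rank L (A.map κ) + Module.rank L (LinearMap.range T) := by
  -- `κB : B → κ(B)`, `K = κB (ker T)`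
  let κB : B →ₗ[L] B.map κ := κ.submoduleMap B
  have hκB : Function.Surjective κB := κ.submoduleMap_surjective B
  let K : Submodule L (B.map κ) := (LinearMap.ker T).map κB
  have h1 := rank_quotient_add_rank_of_divisionRing (K := L) K
  rw [← h1, add_comm]
  refine add_le_add ?_ ?_
  · -- rank K ≤ rank (A.map κ)
    let f : K →ₗ[L] A.map κ := LinearMap.codRestrict (A.map κ)
      ((B.map κ).subtype.comp K.subtype) (by
        rintro ⟨x, hx⟩
        obtain ⟨b, hb, rfl⟩ := hx
        exact ⟨(b : N), hT b (LinearMap.mem_ker.1 hb), rfl⟩)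
    apply LinearMap.rank_le_of_injective f
    intro x y hxy
    have := congrArg Subtype.val hxy
    exact Subtype.ext (Subtype.ext this)
  · -- rank (quotient) ≤ rank (range T)
    have h2 : Module.rank L (LinearMap.range T) = Module.rank L (B ⧸ LinearMap.ker T) :=
      (LinearMap.quotKerEquivRange T).rank_eq.symm
    rw [h2]
    apply LinearMap.rank_le_of_surjective (Submodule.mapQ (LinearMap.ker T) K κB
      (Submodule.le_comap_map _ _))
    rintro ⟨y⟩
    obtain ⟨x, rfl⟩ := hκB y
    exact ⟨Submodule.Quotient.mk x, rfl⟩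

/-- a directed union of submodules of rank at most `r` has rank at most `r` -/
lemma rank_iUnion_le (Y : ℕ → Submodule L Z) (hY : Monotone Y) (Y' : Submodule L Z)
    (hle : ∀ y ∈ Y', ∃ m, y ∈ Y m) (r : ℕ) (hr : ∀ m, Module.rank L (Y m) ≤ r) :
    Module.rank L Y' ≤ r := by
  apply rank_le
  intro s hs
  have : ∀ y : Y', ∃ m, (y : Z) ∈ Y m := fun y => hle y y.2
  choose m hm using this
  obtain ⟨M, hM⟩ : ∃ M, ∀ y ∈ s, m y ≤ M := ⟨s.sup m, fun y hy => Finset.le_sup hy⟩
  have hmem : ∀ y : s, ((y : Y') : Z) ∈ Y M := fun y => hY (hM y y.2) (hm y)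
  have hli : LinearIndependent L (fun y : s => (⟨((y : Y') : Z), hmem y⟩ : Y M)) := by
    apply LinearIndependent.of_comp (Y M).subtype
    have h1 := hs.map' Y'.subtype (Submodule.ker_subtype _)
    exact h1
  have h2 := hli.cardinal_le_rank
  have h3 := h2.trans (hr M)
  simpa using h3

end LinAlg

/-! ### Tensor products over a field -/

section Tensor

variable {k : Type} [Field k] {V B B' : Type} [AddCommGroup V] [Module k V] [AddCommGroup B]
  [Module k B] [AddCommGroup B'] [Module k B']

/-- coordinates -/
noncomputable def coord : V ⊗[k] B ≃ₗ[k] (Module.Basis.ofVectorSpaceIndex k V →₀ B) :=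
  open Classical in
  TensorProduct.equivFinsuppOfBasisLeft (Module.Basis.ofVectorSpace k V)

lemma coord_tmul (v : V) (b : B) (i) :
    coord (v ⊗ₜ[k] b) i = (Module.Basis.ofVectorSpace k V).repr v i • b := by
  classical
  rw [coord, TensorProduct.equivFinsuppOfBasisLeft_apply_tmul_apply]

lemma coord_lTensor (f : B →ₗ[k] B') (x : V ⊗[k] B) (i) :
    coord (f.lTensor V x) i = f (coord x i) := by
  induction x with
  | zero => simp
  | tmul v b => rw [LinearMap.lTensor_tmul, coord_tmul, coord_tmul, map_smul]
  | add x y hx hy => rw [map_add, map_add, Finsupp.add_apply, hx, hy, map_add, Finsupp.add_apply,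
      map_add]

lemma eq_of_coord {x y : V ⊗[k] B} (h : ∀ i, coord x i = coord y i) : x = y :=
  coord.injective (Finsupp.ext h)

/-- if every coordinate is in the image of `f` then `x` is in the image of `1 ⊗ f` -/
lemma exists_of_coord (f : B →ₗ[k] B') (x : V ⊗[k] B') (P : B → Prop) (h0 : P 0)
    (h : ∀ i, ∃ b, P b ∧ f b = coord x i) :
    ∃ y : V ⊗[k] B, f.lTensor V y = x ∧ ∀ i, P (coord y i) := by
  classical
  choose b hb hb' using h
  let y' : Module.Basis.ofVectorSpaceIndex k V →₀ B :=
    Finsupp.onFinset (coord x).support (fun i => if coord x i = 0 then 0 else b i) (by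
      intro i hi
      rw [Finsupp.mem_support_iff]
      intro h0
      simp [h0] at hi)
  refine ⟨coord.symm y', eq_of_coord fun i => ?_, fun i => ?_⟩
  · rw [coord_lTensor, LinearEquiv.apply_symm_apply]
    change f (if coord x i = 0 then 0 else b i) = _
    split_ifs with h1
    · rw [map_zero, h1]
    · exact hb' i
  · rw [LinearEquiv.apply_symm_apply]
    change P (if coord x i = 0 then 0 else b i)
    split_ifs with h1
    · exact h0
    · exact hb i

end Tensor

end MP_7c08ba.Crys
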