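import Mathlib
import Pool.Agent.Lib.MP_7c08ba_nt.Crys.Bound

/-!
# Abstract period rings and the local bound
-/

namespace MP_7c08ba.Crys

open TensorProduct

/-- abstract data of period rings with Frobenius and group action -/
structure PeriodSetup (k G C P B : Type) [Field k] [Group G] [CommRing C] [CommRing P]
    [CommRing B] [Algebra k C] [Algebra k P] [Algebra k B] where
  nt : Nontrivial B
  j : P →ₐ[k] B
  j_inj : Function.Injective j
  mu : P
  mu_unit : IsUnit (j mu)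
  surj : ∀ b : B, ∃ (m : ℕ) (x : P), j mu ^ m * b = j x
  thP : P →ₐ[k] C
  th_mu : thP mu = 0
  phP : P →ₐ[k] P
  phB : B →ₐ[k] B
  ph_j : ∀ x, phB (j x) = j (phP x)
  aP : G → P →ₐ[k] P
  aB : G → B →ₐ[k] B
  a_j : ∀ g x, aB g (j x) = j (aP g x)
  aC : G → C →ₐ[k] C
  th_a : ∀ g x, thP (aP g x) = aC g (thP x)
  om : P
  ph_mu : phP mu = mu * om
  w : G → P
  a_mu : ∀ g, aP g mu = mu * w g
  chi : G → k
  th_w : ∀ g, thP (w g) = algebraMap k C (chi g)
  F1 : ∀ x, phP x = x → ∃ a : k, x = algebraMap k P a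
  F2 : ∀ (m : ℕ) x, phP x = om ^ m * x → thP x = 0 → ∃ y, x = mu * y

variable {k G C P B : Type} [Field k] [Group G] [CommRing C] [CommRing P]
    [CommRing B] [Algebra k C] [Algebra k P] [Algebra k B]

variable {L V : Type} [Field L] [Algebra k L] [AddCommGroup V] [Module k V] [Module L V]
  [IsScalarTower k L V]

/-- diagonal action on `V ⊗ B` -/
noncomputable def act (ρ : G →* (V →ₗ[L] V)) (a : G → B →ₐ[k] B) (g : G) :
    V ⊗[k] B →ₗ[L] V ⊗[k] B :=
  AlgebraTensorModule.map (ρ g) (a g).toLinearMap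

lemma act_tmul (ρ : G →* (V →ₗ[L] V)) (a : G → B →ₐ[k] B) (g : G) (v : V) (b : B) :
    act ρ a g (v ⊗ₜ b) = ρ g v ⊗ₜ a g b := rfl

/-- `v ↦ v ⊗ 1` -/
noncomputable def inc (k L V B : Type) [Field k] [CommRing B] [Algebra k B] [Field L] [Algebra k L]
    [AddCommGroup V] [Module k V] [Module L V] [IsScalarTower k L V] : V →ₗ[L] V ⊗[k] B where
  toFun v := v ⊗ₜ 1
  map_add' _ _ := TensorProduct.add_tmul _ _ _
  map_smul' _ _ := rfl

lemma inc_apply (v : V) : inc k L V B v = v ⊗ₜ 1 := rfl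

lemma inc_injective [Nontrivial B] : Function.Injective (inc k L V B) := by
  intro v w h
  have h1 : (Module.Basis.ofVectorSpace k V).repr v = (Module.Basis.ofVectorSpace k V).repr w := by
    ext i
    have h2 := congrArg (fun x => coord x i) h
    simp only [inc_apply, coord_tmul] at h2
    rw [← Algebra.algebraMap_eq_smul_one, ← Algebra.algebraMap_eq_smul_one] at h2
    exact (algebraMap k B).injective h2
  exact (Module.Basis.ofVectorSpace k V).repr.injective h1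

/-- the coboundaries, as a submodule of all functions -/
def cobound (ρ : G →* (V →ₗ[L] V)) : Submodule L (G → V) :=
  LinearMap.range (LinearMap.pi (fun g => ρ g - LinearMap.id) : V →ₗ[L] (G → V))

lemma mem_cobound (ρ : G →* (V →ₗ[L] V)) (c : G → V) :
    c ∈ cobound ρ ↔ ∃ v, ∀ g, c g = ρ g v - v := by
  constructor
  · rintro ⟨v, rfl⟩; exact ⟨v, fun g => rfl⟩
  · rintro ⟨v, h⟩; exact ⟨v, funext fun g => (h g).symm⟩

/-- `(V ⊗ C(-m))^G` -/
def HT (ρ : G →* (V →ₗ[L] V)) (aC : G → C →ₐ[k] C) (chi : G → k) (m : ℕ) :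
    Submodule L (V ⊗[k] C) where
  carrier := {x | ∀ g, act ρ aC g x = algebraMap k L (chi g ^ m) • x}
  add_mem' := by
    intro x y hx hy g
    rw [map_add, hx g, hy g, smul_add]
  zero_mem' := fun g => by rw [map_zero, smul_zero]
  smul_mem' := by
    intro c x hx g
    rw [map_smul, hx g, smul_comm]

lemma mem_HT (ρ : G →* (V →ₗ[L] V)) (aC : G → C →ₐ[k] C) (chi : G → k) (m : ℕ)
    (x : V ⊗[k] C) : x ∈ HT ρ aC chi m ↔ ∀ g, act ρ aC g x = algebraMap k L (chi g ^ m) • x :=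
  Iff.rfl

/-- scalar multiplication through `B` -/
noncomputable def mulT (b : B) : V ⊗[k] B →ₗ[L] V ⊗[k] B :=
  AlgebraTensorModule.lTensor L V (LinearMap.mulLeft k b)

lemma mulT_tmul (b : B) (v : V) (x : B) : mulT (L := L) b (v ⊗ₜ[k] x) = v ⊗ₜ (b * x) := rfl

lemma mulT_mul (b c : B) (x : V ⊗[k] B) :
    mulT (L := L) (b * c) x = mulT (L := L) b (mulT (L := L) c x) := by
  induction x with
  | zero => simp
  | tmul v y => rw [mulT_tmul, mulT_tmul, mulT_tmul, mul_assoc]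
  | add x y hx hy => rw [map_add, map_add, map_add, hx, hy]

lemma mulT_one (x : V ⊗[k] B) : mulT (L := L) (1 : B) x = x := by
  induction x with
  | zero => simp
  | tmul v y => rw [mulT_tmul, one_mul]
  | add x y hx hy => rw [map_add, hx, hy]

lemma act_mulT (ρ : G →* (V →ₗ[L] V)) (a : G → B →ₐ[k] B) (g : G) (b : B) (x : V ⊗[k] B) :
    act ρ a g (mulT (L := L) b x) = mulT (L := L) (a g b) (act ρ a g x) := by
  induction x with
  | zero => simp
  | tmul v y => rw [mulT_tmul, act_tmul, act_tmul, mulT_tmul, map_mul]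
  | add x y hx hy => rw [map_add, map_add, map_add, map_add, hx, hy]

/-- extension of algebra homs to `V ⊗ B` -/
noncomputable def lT {B' : Type} [CommRing B'] [Algebra k B'] (f : B →ₐ[k] B') :
    V ⊗[k] B →ₗ[L] V ⊗[k] B' :=
  AlgebraTensorModule.lTensor L V f.toLinearMap

section lT

variable {B' : Type} [CommRing B'] [Algebra k B'] (f : B →ₐ[k] B')

lemma lT_tmul (v : V) (x : B) : lT (L := L) f (v ⊗ₜ[k] x) = v ⊗ₜ f x := rfl

lemma lT_mulT (b : B) (x : V ⊗[k] B) :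
    lT (L := L) f (mulT (L := L) b x) = mulT (L := L) (f b) (lT (L := L) f x) := by
  induction x with
  | zero => simp
  | tmul v y => rw [mulT_tmul, lT_tmul, lT_tmul, mulT_tmul, map_mul]
  | add x y hx hy => rw [map_add, map_add, map_add, map_add, hx, hy]

lemma coord_lT (x : V ⊗[k] B) (i) : coord (lT (L := L) f x) i = f (coord x i) :=
  coord_lTensor f.toLinearMap x i

lemma coord_mulT (b : B) (x : V ⊗[k] B) (i) : coord (mulT (L := L) b x) i = b * coord x i :=
  coord_lTensor (LinearMap.mulLeft k b) x i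

lemma lT_injective (hf : Function.Injective f) :
    Function.Injective (lT (L := L) f : V ⊗[k] B →ₗ[L] V ⊗[k] B') := by
  intro x y h
  apply eq_of_coord
  intro i
  apply hf
  rw [← coord_lT (L := L), ← coord_lT (L := L), h]

lemma lT_act (ρ : G →* (V →ₗ[L] V)) (a : G → B →ₐ[k] B) (a' : G → B' →ₐ[k] B') (g : G)
    (h : ∀ x, f (a g x) = a' g (f x)) (x : V ⊗[k] B) :
    lT (L := L) f (act ρ a g x) = act ρ a' g (lT (L := L) f x) := by
  induction x with
  | zero => simp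
  | tmul v y => rw [act_tmul, lT_tmul, lT_tmul, act_tmul, h]
  | add x y hx hy => rw [map_add, map_add, map_add, map_add, hx, hy]

lemma lT_inc (v : V) : lT (L := L) f (inc k L V B v) = inc k L V B' v := by
  rw [inc_apply, lT_tmul, map_one, inc_apply]

lemma lT_comm {B₁ B₂ : Type} [CommRing B₁] [Algebra k B₁] [CommRing B₂] [Algebra k B₂]
    (f₁ : B →ₐ[k] B₁) (f₂ : B₁ →ₐ[k] B') (g₁ : B →ₐ[k] B₂) (g₂ : B₂ →ₐ[k] B')
    (h : ∀ x, f₂ (f₁ x) = g₂ (g₁ x)) (x : V ⊗[k] B) :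
    lT (L := L) f₂ (lT (L := L) f₁ x) = lT (L := L) g₂ (lT (L := L) g₁ x) := by
  induction x with
  | zero => simp
  | tmul v y => rw [lT_tmul, lT_tmul, lT_tmul, lT_tmul, h]
  | add x y hx hy => simp only [map_add, hx, hy]

end lT

lemma act_inc (ρ : G →* (V →ₗ[L] V)) (a : G → B →ₐ[k] B) (g : G) (v : V) :
    act ρ a g (inc k L V B v) = inc k L V B (ρ g v) := by
  rw [inc_apply, act_tmul, map_one, inc_apply]

namespace PeriodSetup

variable (D : PeriodSetup k G C P B) (ρ : G →* (V →ₗ[L] V))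

/-- `{b ∈ V ⊗ B : φ b = b, g b - b ∈ V}` -/
noncomputable def H : Submodule L (V ⊗[k] B) where
  carrier := {b | lT (L := L) D.phB b = b ∧
    ∀ g, act ρ D.aB g b - b ∈ LinearMap.range (inc k L V B)}
  add_mem' := by
    rintro x y ⟨hx1, hx2⟩ ⟨hy1, hy2⟩
    refine ⟨by rw [map_add, hx1, hy1], fun g => ?_⟩
    have := Submodule.add_mem _ (hx2 g) (hy2 g)
    rw [map_add]
    convert this using 1
    abel
  zero_mem' := ⟨map_zero _, fun g => by
    rw [map_zero, sub_zero]; exact Submodule.zero_mem _⟩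
  smul_mem' := by
    rintro c x ⟨hx1, hx2⟩
    refine ⟨by rw [map_smul, hx1], fun g => ?_⟩
    rw [map_smul, ← smul_sub]
    exact Submodule.smul_mem _ _ (hx2 g)

lemma mem_H (b : V ⊗[k] B) : b ∈ D.H ρ ↔ lT (L := L) D.phB b = b ∧
    ∀ g, act ρ D.aB g b - b ∈ LinearMap.range (inc k L V B) := Iff.rfl

/-- `m`-th step of the filtration by the order of pole -/
noncomputable def Hm (m : ℕ) : Submodule L (V ⊗[k] B) where
  carrier := {b | b ∈ D.H ρ ∧ ∃ y : V ⊗[k] P, mulT (L := L) (D.j D.mu ^ m) b = lT (L := L) D.j y}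
  add_mem' := by
    rintro x y ⟨hx1, a, ha⟩ ⟨hy1, b, hb⟩
    exact ⟨Submodule.add_mem _ hx1 hy1, a + b, by rw [map_add, map_add, ha, hb]⟩
  zero_mem' := ⟨Submodule.zero_mem _, 0, by rw [map_zero, map_zero]⟩
  smul_mem' := by
    rintro c x ⟨hx1, a, ha⟩
    exact ⟨Submodule.smul_mem _ _ hx1, c • a, by rw [map_smul, map_smul, ha]⟩

lemma mem_Hm (m : ℕ) (b : V ⊗[k] B) : b ∈ D.Hm ρ m ↔
    b ∈ D.H ρ ∧ ∃ y : V ⊗[k] P, mulT (L := L) (D.j D.mu ^ m) b = lT (L := L) D.j y := Iff.rfl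

lemma Hm_mono : Monotone (D.Hm ρ) := by
  apply monotone_nat_of_le_succ
  rintro m b ⟨hb, y, hy⟩
  refine ⟨hb, mulT (L := L) D.mu y, ?_⟩
  rw [lT_mulT, ← hy, ← mulT_mul, pow_succ']

lemma exists_Hm {b : V ⊗[k] B} (hb : b ∈ D.H ρ) : ∃ m, b ∈ D.Hm ρ m := by
  have key : ∀ b : V ⊗[k] B, ∃ (m : ℕ) (y : V ⊗[k] P),
      mulT (L := L) (D.j D.mu ^ m) b = lT (L := L) D.j y := by
    intro b
    induction b with
    | zero => exact ⟨0, 0, by simp⟩
    | tmul v x =>
      obtain ⟨m, y, hy⟩ := D.surj x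
      exact ⟨m, v ⊗ₜ y, by rw [mulT_tmul, hy, lT_tmul]⟩
    | add x y hx hy =>
      obtain ⟨m, a, ha⟩ := hx
      obtain ⟨n, b, hb⟩ := hy
      refine ⟨m + n, mulT (L := L) (D.mu ^ n) a + mulT (L := L) (D.mu ^ m) b, ?_⟩
      rw [map_add, map_add, lT_mulT, lT_mulT, ← ha, ← hb, ← mulT_mul, ← mulT_mul, map_pow,
        map_pow, ← pow_add, ← pow_add, add_comm n m]
  obtain ⟨m, y, hy⟩ := key b
  exact ⟨m, hb, y, hy⟩

/-- the unique preimage in `V ⊗ P` -/
noncomputable def pre (m : ℕ) : D.Hm ρ m →ₗ[L] V ⊗[k] P :=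
  (LinearEquiv.ofInjective (lT (L := L) D.j : V ⊗[k] P →ₗ[L] V ⊗[k] B)
    (lT_injective _ D.j_inj)).symm.toLinearMap.comp
    (LinearMap.codRestrict _ ((mulT (L := L) (D.j D.mu ^ m)).comp (D.Hm ρ m).subtype) (by
      rintro ⟨b, hb, y, hy⟩
      exact ⟨y, hy.symm⟩))

lemma pre_spec (m : ℕ) (b : D.Hm ρ m) :
    lT (L := L) D.j (D.pre ρ m b) = mulT (L := L) (D.j D.mu ^ m) (b : V ⊗[k] B) := by
  have h := LinearEquiv.ofInjective_apply (lT (L := L) D.j : V ⊗[k] P →ₗ[L] V ⊗[k] B)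
    (h := lT_injective _ D.j_inj) (D.pre ρ m b)
  rw [← h, pre, LinearMap.comp_apply, LinearEquiv.coe_coe, LinearEquiv.apply_symm_apply]
  rfl

/-- the leading coefficient -/
noncomputable def lead (m : ℕ) : D.Hm ρ m →ₗ[L] V ⊗[k] C :=
  (lT (L := L) D.thP).comp (D.pre ρ m)

lemma ph_pre (m : ℕ) (b : D.Hm ρ m) :
    lT (L := L) D.phP (D.pre ρ m b) = mulT (L := L) (D.om ^ m) (D.pre ρ m b) := by
  apply lT_injective (L := L) _ D.j_inj
  rw [lT_comm D.phP D.j D.j D.phB (fun x => (D.ph_j x).symm), pre_spec, lT_mulT, lT_mulT,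
    pre_spec, b.2.1.1, map_pow, D.ph_j, D.ph_mu, map_mul, mul_pow, mul_comm, mulT_mul, map_pow]

lemma lead_mem (m : ℕ) (hm : m ≠ 0) (b : D.Hm ρ m) : D.lead ρ m b ∈ HT ρ D.aC D.chi m := by
  intro g
  obtain ⟨v, hv⟩ := b.2.1.2 g
  -- act on the preimage
  have h1 : act ρ D.aP g (D.pre ρ m b) = mulT (L := L) (D.w g ^ m)
      (D.pre ρ m b + mulT (L := L) (D.mu ^ m) (inc k L V P v)) := by
    apply lT_injective (L := L) _ D.j_inj
    rw [lT_act (L := L) D.j ρ D.aP D.aB g (fun x => (D.a_j g x).symm), pre_spec, act_mulT]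
    have h2 : act ρ D.aB g (b : V ⊗[k] B) = (b : V ⊗[k] B) + inc k L V B v := by
      rw [hv]; abel
    rw [h2, map_pow, D.a_j, D.a_mu, lT_mulT, map_add (lT (L := L) D.j), lT_mulT, lT_inc,
      pre_spec, map_pow D.j D.mu, map_mul D.j, mul_pow, mul_comm, mulT_mul, map_add, map_pow]
  rw [lead, LinearMap.comp_apply, ← lT_act (L := L) D.thP ρ D.aP D.aC g (fun x => D.th_a g x), h1,
    lT_mulT, map_add, lT_mulT, map_pow, map_pow, D.th_mu, D.th_w, zero_pow hm]
  have h3 : ∀ x : V ⊗[k] C, mulT (L := L) (0 : C) x = 0 := by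
    intro x
    induction x with
    | zero => simp
    | tmul v y => rw [mulT_tmul, zero_mul, TensorProduct.tmul_zero]
    | add x y hx hy => rw [map_add, hx, hy, add_zero]
  rw [h3, add_zero, ← map_pow]
  have h4 : ∀ (a : k) (x : V ⊗[k] C), mulT (L := L) (algebraMap k C a) x =
      algebraMap k L a • x := by
    intro a x
    induction x with
    | zero => simp
    | tmul v y =>
      rw [mulT_tmul, ← Algebra.smul_def, ← TensorProduct.smul_tmul, TensorProduct.smul_tmul',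
        algebraMap_smul]
    | add x y hx hy => rw [map_add, hx, hy, smul_add]
  rw [h4]

lemma lead_ker (m : ℕ) (b : D.Hm ρ (m + 1)) (h : D.lead ρ (m + 1) b = 0) :
    (b : V ⊗[k] B) ∈ D.Hm ρ m := by
  refine ⟨b.2.1, ?_⟩
  have h1 := D.ph_pre ρ (m + 1) b
  have h2 : ∀ i, ∃ z : P, True ∧ LinearMap.mulLeft k D.mu z = coord (D.pre ρ (m + 1) b) i := by
    intro i
    have h3 := congrArg (fun x => coord x i) h1
    simp only [coord_lT, coord_mulT] at h3
    have h4 := congrArg (fun x => coord x i) h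
    simp only [lead, LinearMap.comp_apply, coord_lT, map_zero, Finsupp.zero_apply] at h4
    obtain ⟨y, hy⟩ := D.F2 _ _ h3 h4
    exact ⟨y, trivial, hy.symm⟩
  obtain ⟨y, hy, -⟩ := exists_of_coord (LinearMap.mulLeft k D.mu) _ (fun _ => True) trivial h2
  refine ⟨y, ?_⟩
  have h5 : mulT (L := L) D.mu y = D.pre ρ (m + 1) b := hy
  have h6 := D.pre_spec ρ (m + 1) b
  rw [← h5, lT_mulT, pow_succ', mulT_mul] at h6
  obtain ⟨u, hu⟩ := D.mu_unit
  have h7 := congrArg (mulT (L := L) (↑u⁻¹ : B)) h6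
  rw [← mulT_mul, ← mulT_mul, ← hu, Units.inv_mul, mulT_one, mulT_one] at h7
  rw [← hu]
  exact h7.symm

lemma H_zero {b : V ⊗[k] B} (hb : b ∈ D.Hm ρ 0) : b ∈ LinearMap.range (inc k L V B) := by
  obtain ⟨⟨hb1, hb2⟩, y, hy⟩ := hb
  rw [pow_zero, mulT_one] at hy
  have h1 : lT (L := L) D.phP y = y := by
    apply lT_injective (L := L) _ D.j_inj
    rw [lT_comm D.phP D.j D.j D.phB (fun x => (D.ph_j x).symm), ← hy, hb1]
  have h2 : ∀ i, ∃ a : k, True ∧ (Algebra.linearMap k P) a = coord y i := by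
    intro i
    have h3 := congrArg (fun x => coord x i) h1
    simp only [coord_lT] at h3
    obtain ⟨a, ha⟩ := D.F1 _ h3
    exact ⟨a, trivial, ha.symm⟩
  obtain ⟨z, hz, -⟩ := exists_of_coord (Algebra.linearMap k P) _ (fun _ => True) trivial h2
  refine ⟨TensorProduct.rid k V z, ?_⟩
  rw [hy, ← hz]
  have key : ∀ z : V ⊗[k] k, inc k L V B (TensorProduct.rid k V z) =
      lT (L := L) D.j ((Algebra.linearMap k P).lTensor V z) := by
    intro z
    induction z with
    | zero => simp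
    | tmul v a =>
      rw [TensorProduct.rid_tmul, LinearMap.lTensor_tmul, Algebra.linearMap_apply, lT_tmul,
        AlgHom.commutes, inc_apply, Algebra.algebraMap_eq_smul_one, TensorProduct.smul_tmul]
    | add x y hx hy => rw [map_add, map_add, map_add, map_add, hx, hy]
  exact key z

/-- the cocycle attached to `b ∈ H` -/
noncomputable def coc : D.H ρ →ₗ[L] (G → V) :=
  LinearMap.pi (fun g =>
    have := D.nt
    (LinearEquiv.ofInjective (inc k L V B) inc_injective).symm.toLinearMap.comp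
    (LinearMap.codRestrict _ ((act ρ D.aB g - LinearMap.id).comp (D.H ρ).subtype) (by
      rintro ⟨b, hb⟩
      exact hb.2 g)))

lemma coc_spec (b : D.H ρ) (g : G) :
    inc k L V B (D.coc ρ b g) = act ρ D.aB g (b : V ⊗[k] B) - b := by
  have := D.nt
  have h := LinearEquiv.ofInjective_apply (inc k L V B) (h := inc_injective) (D.coc ρ b g)
  rw [← h, coc, LinearMap.pi_apply, LinearMap.comp_apply, LinearEquiv.coe_coe,
    LinearEquiv.apply_symm_apply]
  rfl

/-- classes -/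
noncomputable def cls : D.H ρ →ₗ[L] ((G → V) ⧸ cobound ρ) := (cobound ρ).mkQ.comp (D.coc ρ)

lemma cls_zero (b : D.H ρ) (hb : (b : V ⊗[k] B) ∈ D.Hm ρ 0) : D.cls ρ b = 0 := by
  have := D.nt
  rw [cls, LinearMap.comp_apply, Submodule.mkQ_apply, Submodule.Quotient.mk_eq_zero, mem_cobound]
  obtain ⟨v, hv⟩ := D.H_zero ρ hb
  refine ⟨v, fun g => ?_⟩
  apply inc_injective (k := k) (L := L) (B := B)
  rw [coc_spec, ← hv, act_inc, map_sub]

/-- the filtration inside `H` -/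
noncomputable def Fm (m : ℕ) : Submodule L (D.H ρ) := (D.Hm ρ m).comap (D.H ρ).subtype

lemma rank_Fm (m : ℕ) : Module.rank L ((D.Fm ρ m).map (D.cls ρ)) ≤
    ∑ i ∈ Finset.Icc 1 m, Module.rank L (HT ρ D.aC D.chi i) := by
  induction m with
  | zero =>
    have : (D.Fm ρ 0).map (D.cls ρ) = ⊥ := by
      rw [Submodule.eq_bot_iff]
      rintro _ ⟨b, hb, rfl⟩
      exact D.cls_zero ρ b hb
    rw [this]
    simp
  | succ m ih =>
    rw [Finset.sum_Icc_succ_top (by omega)]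
    let T : D.Fm ρ (m + 1) →ₗ[L] V ⊗[k] C :=
      (D.lead ρ (m + 1)).comp (LinearMap.codRestrict (D.Hm ρ (m + 1))
        ((D.H ρ).subtype.comp (D.Fm ρ (m + 1)).subtype) (fun b => b.2))
    refine (rank_step (D.cls ρ) (D.Fm ρ m) (D.Fm ρ (m + 1)) T ?_).trans (add_le_add ih ?_)
    · intro b hb
      exact D.lead_ker ρ m ⟨_, b.2⟩ hb
    · have hle : LinearMap.range T ≤ HT ρ D.aC D.chi (m + 1) := by
        rintro _ ⟨b, rfl⟩
        exact D.lead_mem ρ (m + 1) (Nat.succ_ne_zero m) _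
      exact Submodule.rank_mono hle

/-- the bound for the Frobenius fixed part -/
theorem rank_H (r : ℕ) (hr : ∀ m, ∑ i ∈ Finset.Icc 1 m, Module.rank L (HT ρ D.aC D.chi i) ≤ r) :
    Module.rank L (LinearMap.range (D.cls ρ)) ≤ r := by
  refine rank_iUnion_le (fun m => (D.Fm ρ m).map (D.cls ρ)) ?_ _ ?_ r
    (fun m => (D.rank_Fm ρ m).trans (hr m))
  · intro m n hmn
    exact Submodule.map_mono (Submodule.comap_mono (D.Hm_mono ρ hmn))
  · rintro _ ⟨b, rfl⟩
    obtain ⟨m, hm⟩ := D.exists_Hm ρ b.2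
    exact ⟨m, b, hm, rfl⟩

end PeriodSetup

end MP_7c08ba.Crys
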