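import Mathlib
import Pool.Agent.Lib.MP_7c08ba_nt.Crys.Period

/-!
# Cocycles which become trivial in a period ring: abstract part
-/

namespace MP_7c08ba.Crys

open TensorProduct

variable {k : Type} [Field k] {G : Type} [Group G]
variable {L V : Type} [Field L] [Algebra k L] [AddCommGroup V] [Module k V] [Module L V]
  [IsScalarTower k L V]
variable {B : Type} [CommRing B] [Algebra k B]

/-- `{b ∈ V ⊗ B : g b - b ∈ V}` -/
def HB (ρ : G →* (V →ₗ[L] V)) (aB : G → B →ₐ[k] B) : Submodule L (V ⊗[k] B) where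
  carrier := {b | ∀ g, act ρ aB g b - b ∈ LinearMap.range (inc k L V B)}
  add_mem' := by
    intro x y hx hy g
    have := Submodule.add_mem _ (hx g) (hy g)
    rw [map_add]
    convert this using 1
    abel
  zero_mem' := fun g => by rw [map_zero, sub_zero]; exact Submodule.zero_mem _
  smul_mem' := by
    intro c x hx g
    rw [map_smul, ← smul_sub]
    exact Submodule.smul_mem _ _ (hx g)

/-- `(V ⊗ B)^G` -/
def DB (ρ : G →* (V →ₗ[L] V)) (aB : G → B →ₐ[k] B) : Submodule L (V ⊗[k] B) where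
  carrier := {b | ∀ g, act ρ aB g b = b}
  add_mem' := by
    intro x y hx hy g
    rw [map_add, hx g, hy g]
  zero_mem' := fun g => map_zero _
  smul_mem' := by
    intro c x hx g
    rw [map_smul, hx g]

lemma mem_DB (ρ : G →* (V →ₗ[L] V)) (aB : G → B →ₐ[k] B) (b : V ⊗[k] B) :
    b ∈ DB ρ aB ↔ ∀ g, act ρ aB g b = b := Iff.rfl

lemma mem_HB (ρ : G →* (V →ₗ[L] V)) (aB : G → B →ₐ[k] B) (b : V ⊗[k] B) :
    b ∈ HB ρ aB ↔ ∀ g, act ρ aB g b - b ∈ LinearMap.range (inc k L V B) := Iff.rfl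

lemma DB_le_HB (ρ : G →* (V →ₗ[L] V)) (aB : G → B →ₐ[k] B) : DB ρ aB ≤ HB ρ aB := by
  intro b hb g
  rw [hb g, sub_self]
  exact Submodule.zero_mem _

section nt

variable [Nontrivial B]

/-- the cocycle attached to `b` -/
noncomputable def cocB (ρ : G →* (V →ₗ[L] V)) (aB : G → B →ₐ[k] B) :
    HB ρ aB →ₗ[L] (G → V) :=
  LinearMap.pi (fun g =>
    (LinearEquiv.ofInjective (inc k L V B) inc_injective).symm.toLinearMap.comp
    (LinearMap.codRestrict _ ((act ρ aB g - LinearMap.id).comp (HB ρ aB).subtype) (by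
      rintro ⟨b, hb⟩
      exact hb g)))

lemma cocB_spec (ρ : G →* (V →ₗ[L] V)) (aB : G → B →ₐ[k] B) (b : HB ρ aB) (g : G) :
    inc k L V B (cocB ρ aB b g) = act ρ aB g (b : V ⊗[k] B) - b := by
  have h := LinearEquiv.ofInjective_apply (inc k L V B) (h := inc_injective) (cocB ρ aB b g)
  rw [← h, cocB, LinearMap.pi_apply, LinearMap.comp_apply, LinearEquiv.coe_coe,
    LinearEquiv.apply_symm_apply]
  rfl

lemma cocB_DB (ρ : G →* (V →ₗ[L] V)) (aB : G → B →ₐ[k] B) (b : HB ρ aB)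
    (hb : (b : V ⊗[k] B) ∈ DB ρ aB) : cocB ρ aB b = 0 := by
  funext g
  apply inc_injective (k := k) (L := L) (B := B)
  rw [cocB_spec, hb g, sub_self, Pi.zero_apply, map_zero]

lemma mem_range_cocB (ρ : G →* (V →ₗ[L] V)) (aB : G → B →ₐ[k] B) (c : G → V) :
    c ∈ LinearMap.range (cocB ρ aB) ↔ ∃ b : V ⊗[k] B, ∀ g,
      act ρ aB g b - b = inc k L V B (c g) := by
  constructor
  · rintro ⟨b, rfl⟩
    exact ⟨b, fun g => (cocB_spec ρ aB b g).symm⟩
  · rintro ⟨b, hb⟩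
    refine ⟨⟨b, fun g => ⟨c g, (hb g).symm⟩⟩, ?_⟩
    funext g
    apply inc_injective (k := k) (L := L) (B := B)
    rw [cocB_spec, hb g]

end nt

section Frob

variable (ρ : G →* (V →ₗ[L] V)) (aB : G → B →ₐ[k] B) (ph : B →ₐ[k] B)
  (hph : ∀ g x, ph (aB g x) = aB g (ph x))

include hph in
lemma ph_DB {x : V ⊗[k] B} (hx : x ∈ DB ρ aB) : lT (L := L) ph x ∈ DB ρ aB := by
  intro g
  rw [← lT_act (L := L) ph ρ aB aB g (hph g), hx g]

/-- Frobenius minus one on `(V ⊗ B)^G` -/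
noncomputable def phSubB : DB ρ aB →ₗ[L] DB ρ aB :=
  (lT (L := L) ph - LinearMap.id).restrict (fun _ hx =>
    Submodule.sub_mem _ (ph_DB ρ aB ph hph hx) hx)

lemma coe_phSubB (x : DB ρ aB) :
    ((phSubB ρ aB ph hph x : DB ρ aB) : V ⊗[k] B) = lT (L := L) ph (x : V ⊗[k] B) - x :=
  rfl

/-- the map `b ↦ φ b - b` from `HB` to `(V ⊗ B)^G` -/
noncomputable def deltaB : HB ρ aB →ₗ[L] DB ρ aB :=
  LinearMap.codRestrict _ ((lT (L := L) ph - LinearMap.id).comp (HB ρ aB).subtype) (by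
    rintro ⟨b, hb⟩ g
    obtain ⟨v, hv⟩ := hb g
    have h1 : act ρ aB g b = b + inc k L V B v := by rw [hv]; abel
    change act ρ aB g (lT (L := L) ph b - b) = lT (L := L) ph b - b
    rw [map_sub, ← lT_act (L := L) ph ρ aB aB g (hph g), h1, map_add, lT_inc]
    abel)

lemma coe_deltaB (x : HB ρ aB) :
    ((deltaB ρ aB ph hph x : DB ρ aB) : V ⊗[k] B) = lT (L := L) ph (x : V ⊗[k] B) - x :=
  rfl

/-- adjusting an element to be fixed by Frobenius -/
lemma exists_fixed [Nontrivial B] (b : HB ρ aB)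
    (hb : deltaB ρ aB ph hph b ∈ LinearMap.range (phSubB ρ aB ph hph)) :
    ∃ b₁ : V ⊗[k] B, lT (L := L) ph b₁ = b₁ ∧
      ∀ g, act ρ aB g b₁ - b₁ = inc k L V B (cocB ρ aB b g) := by
  obtain ⟨d, hd⟩ := hb
  have hd' : lT (L := L) ph (d : V ⊗[k] B) - d = lT (L := L) ph (b : V ⊗[k] B) - b :=
    congrArg Subtype.val hd
  refine ⟨(b : V ⊗[k] B) - d, ?_, ?_⟩
  · rw [map_sub]
    rw [sub_eq_sub_iff_add_eq_add] at hd'
    rw [sub_eq_sub_iff_add_eq_add, ← hd']
    abel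
  · intro g
    rw [cocB_spec, map_sub, d.2 g]; abel

/-- transport to another period ring -/
lemma transport {B' : Type} [CommRing B'] [Algebra k B'] (f : B →ₐ[k] B')
    (aB' : G → B' →ₐ[k] B') (ha : ∀ g x, f (aB g x) = aB' g (f x)) {b : V ⊗[k] B} {c : G → V}
    (h : ∀ g, act ρ aB g b - b = inc k L V B (c g)) (g : G) :
    act ρ aB' g (lT (L := L) f b) - lT (L := L) f b = inc k L V B' (c g) := by
  rw [← lT_act (L := L) f ρ aB aB' g (ha g), ← map_sub, h, lT_inc]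

end Frob

/-- the abstract local bound -/
theorem rank_range_cocB {C P : Type} [CommRing C] [CommRing P] [Algebra k C] [Algebra k P]
    {B' : Type} [CommRing B'] [Algebra k B'] (D : PeriodSetup k G C P B')
    [Nontrivial B] (ρ : G →* (V →ₗ[L] V)) (aB : G → B →ₐ[k] B) (ph : B →ₐ[k] B)
    (hph : ∀ g x, ph (aB g x) = aB g (ph x)) (f : B →ₐ[k] B')
    (hf : ∀ x, f (ph x) = D.phB (f x)) (hf' : ∀ g x, f (aB g x) = D.aB g (f x)) (r : ℕ)
    (hr : ∀ m, ∑ i ∈ Finset.Icc 1 m, Module.rank L (HT ρ D.aC D.chi i) ≤ r) :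
    Module.rank L ((LinearMap.range (cocB ρ aB)).map (cobound ρ).mkQ) ≤
      r + Module.rank L (DB ρ aB ⧸ LinearMap.range (phSubB ρ aB ph hph)) := by
  let κ : HB ρ aB →ₗ[L] ((G → V) ⧸ cobound ρ) := (cobound ρ).mkQ.comp (cocB ρ aB)
  let T : HB ρ aB →ₗ[L] (DB ρ aB ⧸ LinearMap.range (phSubB ρ aB ph hph)) :=
    (LinearMap.range (phSubB ρ aB ph hph)).mkQ.comp (deltaB ρ aB ph hph)
  have h1 : (LinearMap.range (cocB ρ aB)).map (cobound ρ).mkQ =
      (⊤ : Submodule L (HB ρ aB)).map κ := by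
    rw [LinearMap.range_eq_map, ← Submodule.map_comp]
  rw [h1]
  refine (rank_step κ (LinearMap.ker T) ⊤ (T.comp (Submodule.subtype ⊤)) (fun b hb => hb)).trans
    (add_le_add ?_ (Submodule.rank_le _))
  have h2 : (LinearMap.ker T).map κ ≤ LinearMap.range (D.cls ρ) := by
    rintro _ ⟨b, hb, rfl⟩
    have hb' : deltaB ρ aB ph hph b ∈ LinearMap.range (phSubB ρ aB ph hph) := by
      have : T b = 0 := hb
      rw [LinearMap.comp_apply, Submodule.mkQ_apply, Submodule.Quotient.mk_eq_zero] at this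
      exact this
    obtain ⟨b₁, h3, h4⟩ := exists_fixed ρ aB ph hph b hb'
    have h5 : lT (L := L) D.phB (lT (L := L) f b₁) = lT (L := L) f b₁ := by
      rw [← lT_comm ph f f D.phB hf, h3]
    have h6 := transport ρ aB f D.aB hf' h4
    refine ⟨⟨lT (L := L) f b₁, h5, fun g => ⟨_, (h6 g).symm⟩⟩, ?_⟩
    rw [PeriodSetup.cls, LinearMap.comp_apply, LinearMap.comp_apply]
    congr 1
    funext g
    have := D.nt
    apply inc_injective (k := k) (L := L) (B := B')
    rw [PeriodSetup.coc_spec]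
    exact h6 g
  exact (Submodule.rank_mono h2).trans (D.rank_H ρ r hr)

end MP_7c08ba.Crys
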