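import Mathlib
import Pool.Agent.Lib.MP_7c08ba_nt.Crys.LocalAbs

/-!
# The fundamental exact sequence, abstractly: exponential and orthogonality
-/

namespace MP_7c08ba.Crys

open TensorProduct

/-- Abstract data of a ring `B` with Frobenius inside a ring `D` with a subring `D⁺`, with the
fundamental exact sequence `0 → k → B^{φ=1} → D / D⁺ → 0`. -/
structure DRSetup (k G B D : Type) [Field k] [Group G] [CommRing B] [CommRing D] [Algebra k B]
    [Algebra k D] where
  nt : Nontrivial B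
  ntD : Nontrivial D
  aB : G → B →ₐ[k] B
  a_mul : ∀ g h x, aB (g * h) x = aB g (aB h x)
  phB : B →ₐ[k] B
  ph_a : ∀ g x, phB (aB g x) = aB g (phB x)
  aD : G → D →ₐ[k] D
  jD : B →ₐ[k] D
  jD_a : ∀ g x, jD (aB g x) = aD g (jD x)
  Dp : Subalgebra k D
  aD_Dp : ∀ g x, x ∈ Dp → aD g x ∈ Dp
  fix : ∀ b, phB b = b → jD b ∈ Dp → ∃ c : k, b = algebraMap k B c
  surj : ∀ d : D, ∃ b, phB b = b ∧ jD b - d ∈ Dp

section coeff

variable {k : Type} [Field k]
variable {L : Type} [Field L] [Algebra k L]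
variable {V : Type} [AddCommGroup V] [Module k V] [Module L V] [IsScalarTower k L V]
variable {V' : Type} [AddCommGroup V'] [Module k V'] [Module L V'] [IsScalarTower k L V']
variable {W : Type} [AddCommGroup W] [Module k W] [Module L W] [IsScalarTower k L W]
variable {D : Type} [CommRing D] [Algebra k D]

/-- `V ⊗ D⁺` inside `V ⊗ D` -/
noncomputable def FilV (L V : Type) [Field L] [Algebra k L] [AddCommGroup V] [Module k V]
    [Module L V] [IsScalarTower k L V] (Dp : Subalgebra k D) : Submodule L (V ⊗[k] D) :=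
  LinearMap.range (lT (L := L) Dp.val : V ⊗[k] Dp →ₗ[L] V ⊗[k] D)

lemma mem_FilV (Dp : Subalgebra k D) (x : V ⊗[k] D) :
    x ∈ FilV L V Dp ↔ ∀ i, coord x i ∈ Dp := by
  constructor
  · rintro ⟨y, rfl⟩ i
    rw [coord_lT (L := L)]
    exact (coord y i).2
  · intro h
    obtain ⟨y, hy, -⟩ := exists_of_coord (Dp.val : Dp →ₐ[k] D).toLinearMap x (fun _ => True)
      trivial (fun i => ⟨⟨coord x i, h i⟩, trivial, rfl⟩)
    exact ⟨y, hy⟩

lemma inc_mem_FilV (Dp : Subalgebra k D) (v : V) : inc k L V D v ∈ FilV L V Dp :=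
  ⟨v ⊗ₜ 1, by rw [lT_tmul, map_one, inc_apply]⟩

/-- the product of `V ⊗ D` and `V' ⊗ D` given by a bilinear map `V × V' → W` -/
noncomputable def pairD (β : V →ₗ[L] V' →ₗ[L] W) :
    V ⊗[k] D →ₗ[L] V' ⊗[k] D →ₗ[L] W ⊗[k] D :=
  AlgebraTensorModule.lift (LinearMap.mk₂' L k
    (fun (v : V) (d : D) => (AlgebraTensorModule.map (β v) (LinearMap.mulLeft k d) :
      V' ⊗[k] D →ₗ[L] W ⊗[k] D)) (by
      intro v w d
      ext v' d'
      simp [TensorProduct.add_tmul]) (by
      intro c v d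
      ext v' d'
      simp [TensorProduct.smul_tmul']) (by
      intro v d d'
      ext v' d''
      simp [add_mul, TensorProduct.tmul_add]) (by
      intro c v d
      ext v' d'
      simp))

lemma pairD_tmul (β : V →ₗ[L] V' →ₗ[L] W) (v : V) (v' : V') (d d' : D) :
    pairD β (v ⊗ₜ[k] d) (v' ⊗ₜ[k] d') = β v v' ⊗ₜ (d * d') := rfl

/-- induction in both variables -/
lemma ind2 {P : V ⊗[k] D → V' ⊗[k] D → Prop} (x : V ⊗[k] D) (y : V' ⊗[k] D)
    (h0 : ∀ y, P 0 y) (h0' : ∀ x, P x 0)
    (ht : ∀ v d v' d', P (v ⊗ₜ d) (v' ⊗ₜ d'))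
    (ha : ∀ x x' y, P x y → P x' y → P (x + x') y)
    (ha' : ∀ x y y', P x y → P x y' → P x (y + y')) : P x y := by
  induction x with
  | zero => exact h0 y
  | tmul v d =>
    induction y with
    | zero => exact h0' _
    | tmul v' d' => exact ht _ _ _ _
    | add y y' hy hy' => exact ha' _ _ _ hy hy'
  | add x x' hx hx' => exact ha _ _ _ hx hx'

lemma lT_pairD {D' : Type} [CommRing D'] [Algebra k D'] (f : D →ₐ[k] D')
    (β : V →ₗ[L] V' →ₗ[L] W) (x : V ⊗[k] D) (y : V' ⊗[k] D) :
    lT (L := L) f (pairD β x y) = pairD β (lT (L := L) f x) (lT (L := L) f y) := by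
  refine ind2 (P := fun x y => lT (L := L) f (pairD β x y) =
    pairD β (lT (L := L) f x) (lT (L := L) f y)) x y ?_ ?_ ?_ ?_ ?_
  · intro y; simp
  · intro x; simp
  · intro v d v' d'
    rw [pairD_tmul, lT_tmul, lT_tmul, lT_tmul, pairD_tmul, map_mul]
  · intro x x' y h h'
    simp only [map_add, LinearMap.add_apply, h, h']
  · intro x y y' h h'
    simp only [map_add, h, h']

lemma act_pairD {G : Type} [Group G] (β : V →ₗ[L] V' →ₗ[L] W) (ρ : G →* (V →ₗ[L] V))
    (ρ' : G →* (V' →ₗ[L] V')) (τ : G →* (W →ₗ[L] W)) (a : G → D →ₐ[k] D) (g : G)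
    (h : ∀ v v', β (ρ g v) (ρ' g v') = τ g (β v v')) (x : V ⊗[k] D) (y : V' ⊗[k] D) :
    pairD β (act ρ a g x) (act ρ' a g y) = act τ a g (pairD β x y) := by
  refine ind2 (P := fun x y => pairD β (act ρ a g x) (act ρ' a g y) = act τ a g (pairD β x y))
    x y ?_ ?_ ?_ ?_ ?_
  · intro y; simp
  · intro x; simp
  · intro v d v' d'
    rw [act_tmul, act_tmul, pairD_tmul, pairD_tmul, act_tmul, h, map_mul]
  · intro x x' y h h'
    simp only [map_add, LinearMap.add_apply, h, h']
  · intro x y y' h h'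
    simp only [map_add, h, h']

lemma pairD_inc_inc (β : V →ₗ[L] V' →ₗ[L] W) (v : V) (v' : V') :
    pairD β (inc k L V D v) (inc k L V' D v') = inc k L W D (β v v') := by
  rw [inc_apply, inc_apply, pairD_tmul, one_mul, inc_apply]

lemma pairD_mem_FilV (Dp : Subalgebra k D) (β : V →ₗ[L] V' →ₗ[L] W) {x : V ⊗[k] D}
    {y : V' ⊗[k] D} (hx : x ∈ FilV L V Dp) (hy : y ∈ FilV L V' Dp) :
    pairD β x y ∈ FilV L W Dp := by
  obtain ⟨x, rfl⟩ := hx
  obtain ⟨y, rfl⟩ := hy
  exact ⟨pairD β x y, lT_pairD Dp.val β x y⟩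

lemma act_mem_FilV {G : Type} [Group G] (Dp : Subalgebra k D) (ρ : G →* (V →ₗ[L] V))
    (a : G → D →ₐ[k] D) (g : G) (h : ∀ x ∈ Dp, a g x ∈ Dp) {x : V ⊗[k] D}
    (hx : x ∈ FilV L V Dp) : act ρ a g x ∈ FilV L V Dp := by
  obtain ⟨y, rfl⟩ := hx
  induction y with
  | zero => rw [map_zero, map_zero]; exact Submodule.zero_mem _
  | tmul v d =>
    rw [lT_tmul, act_tmul]
    exact ⟨ρ g v ⊗ₜ ⟨a g d, h d d.2⟩, by rw [lT_tmul]; rfl⟩
  | add y z hy hz => rw [map_add, map_add]; exact Submodule.add_mem _ hy hz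

/-- construction of elements coordinatewise -/
lemma exists_coord {B : Type} [CommRing B] [Algebra k B] (R : B → D → Prop) (h0 : R 0 0)
    (h : ∀ d, ∃ b, R b d) (x : V ⊗[k] D) :
    ∃ y : V ⊗[k] B, ∀ i, R (coord y i) (coord x i) := by
  classical
  choose b hb using h
  let y' : Module.Basis.ofVectorSpaceIndex k V →₀ B :=
    Finsupp.onFinset (coord x).support (fun i => if coord x i = 0 then 0 else b (coord x i)) (by
      intro i hi
      rw [Finsupp.mem_support_iff]
      intro h0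
      simp [h0] at hi)
  refine ⟨coord.symm y', fun i => ?_⟩
  rw [LinearEquiv.apply_symm_apply]
  change R (if coord x i = 0 then 0 else b (coord x i)) _
  split_ifs with h1
  · rw [h1]; exact h0
  · exact hb _

end coeff

namespace DRSetup

variable {k G B D : Type} [Field k] [Group G] [CommRing B] [CommRing D] [Algebra k B]
    [Algebra k D] (S : DRSetup k G B D)
variable {L : Type} [Field L] [Algebra k L]
variable {V : Type} [AddCommGroup V] [Module k V] [Module L V] [IsScalarTower k L V]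
variable {V' : Type} [AddCommGroup V'] [Module k V'] [Module L V'] [IsScalarTower k L V']
variable {W : Type} [AddCommGroup W] [Module k W] [Module L W] [IsScalarTower k L W]
variable (ρ : G →* (V →ₗ[L] V)) (ρ' : G →* (V' →ₗ[L] V'))

lemma fixV {b : V ⊗[k] B} (h1 : lT (L := L) S.phB b = b)
    (h2 : lT (L := L) S.jD b ∈ FilV L V S.Dp) : b ∈ LinearMap.range (inc k L V B) := by
  rw [mem_FilV] at h2
  have h3 : ∀ i, ∃ a : k, True ∧ (Algebra.linearMap k B) a = coord b i := by
    intro i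
    have h4 := congrArg (fun x => coord x i) h1
    simp only [coord_lT] at h4
    have h5 := h2 i
    rw [coord_lT (L := L)] at h5
    obtain ⟨a, ha⟩ := S.fix _ h4 h5
    exact ⟨a, trivial, ha.symm⟩
  obtain ⟨z, hz, -⟩ := exists_of_coord (Algebra.linearMap k B) _ (fun _ => True) trivial h3
  refine ⟨TensorProduct.rid k V z, ?_⟩
  rw [← hz]
  have key : ∀ z : V ⊗[k] k, inc k L V B (TensorProduct.rid k V z) =
      (Algebra.linearMap k B).lTensor V z := by
    intro z
    induction z with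
    | zero => simp
    | tmul v a =>
      rw [TensorProduct.rid_tmul, LinearMap.lTensor_tmul, Algebra.linearMap_apply, inc_apply,
        Algebra.algebraMap_eq_smul_one, TensorProduct.smul_tmul]
    | add x y hx hy => rw [map_add, map_add, map_add, hx, hy]
  exact key z

lemma surjV (d : V ⊗[k] D) : ∃ b : V ⊗[k] B, lT (L := L) S.phB b = b ∧
    lT (L := L) S.jD b - d ∈ FilV L V S.Dp := by
  obtain ⟨y, hy⟩ := exists_coord (V := V) (fun (b : B) (d : D) => S.phB b = b ∧ S.jD b - d ∈ S.Dp)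
    ⟨map_zero _, by rw [map_zero, sub_zero]; exact S.Dp.zero_mem⟩ S.surj d
  refine ⟨y, eq_of_coord fun i => ?_, ?_⟩
  · rw [coord_lT (L := L)]; exact (hy i).1
  · rw [mem_FilV]
    intro i
    rw [map_sub, Finsupp.sub_apply, coord_lT (L := L)]
    exact (hy i).2

/-- Frobenius fixed elements congruent to an element of `D_dR` -/
noncomputable def M : Submodule L (V ⊗[k] B) where
  carrier := {b | lT (L := L) S.phB b = b ∧
    ∃ u ∈ DB ρ S.aD, lT (L := L) S.jD b - u ∈ FilV L V S.Dp}
  add_mem' := by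
    rintro x y ⟨hx, u, hu, hu'⟩ ⟨hy, v, hv, hv'⟩
    refine ⟨by rw [map_add, hx, hy], u + v, Submodule.add_mem _ hu hv, ?_⟩
    rw [map_add, add_sub_add_comm]
    exact Submodule.add_mem _ hu' hv'
  zero_mem' := ⟨map_zero _, 0, Submodule.zero_mem _, by
    rw [map_zero, sub_zero]; exact Submodule.zero_mem _⟩
  smul_mem' := by
    rintro c x ⟨hx, u, hu, hu'⟩
    refine ⟨by rw [map_smul, hx], c • u, Submodule.smul_mem _ _ hu, ?_⟩
    rw [map_smul, ← smul_sub]
    exact Submodule.smul_mem _ _ hu'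

lemma mem_M (b : V ⊗[k] B) : b ∈ S.M ρ ↔ lT (L := L) S.phB b = b ∧
    ∃ u ∈ DB ρ S.aD, lT (L := L) S.jD b - u ∈ FilV L V S.Dp := Iff.rfl

lemma inc_mem_M (v : V) : inc k L V B v ∈ S.M ρ := by
  refine ⟨lT_inc _ _, 0, Submodule.zero_mem _, ?_⟩
  rw [lT_inc, sub_zero]
  exact inc_mem_FilV _ _

lemma ph_act (g : G) {b : V ⊗[k] B} (hb : lT (L := L) S.phB b = b) :
    lT (L := L) S.phB (act ρ S.aB g b) = act ρ S.aB g b := by
  rw [lT_act (L := L) S.phB ρ S.aB S.aB g (S.ph_a g), hb]

lemma M_le_HB : S.M ρ ≤ HB ρ S.aB := by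
  rintro b ⟨h1, u, hu, hu'⟩ g
  apply S.fixV
  · rw [map_sub, S.ph_act ρ g h1, h1]
  · rw [map_sub, lT_act (L := L) S.jD ρ S.aB S.aD g (S.jD_a g)]
    have h2 : act ρ S.aD g (lT (L := L) S.jD b) - lT (L := L) S.jD b =
        act ρ S.aD g (lT (L := L) S.jD b - u) - (lT (L := L) S.jD b - u) := by
      rw [map_sub, hu g]; abel
    rw [h2]
    exact Submodule.sub_mem _ (act_mem_FilV _ ρ S.aD g (S.aD_Dp g) hu') hu'

/-- the cocycle attached to an element of `M` -/
noncomputable def coM : S.M ρ →ₗ[L] (G → V) :=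
  have := S.nt
  (cocB ρ S.aB).comp (Submodule.inclusion (S.M_le_HB ρ))

lemma coM_spec (b : S.M ρ) (g : G) :
    inc k L V B (S.coM ρ b g) = act ρ S.aB g (b : V ⊗[k] B) - b := by
  have := S.nt
  exact cocB_spec ρ S.aB (Submodule.inclusion (S.M_le_HB ρ) b) g

lemma coM_injective (h0 : ∀ b ∈ DB ρ S.aB, lT (L := L) S.phB b = b → b = 0) :
    Function.Injective (S.coM ρ) := by
  rw [← LinearMap.ker_eq_bot, LinearMap.ker_eq_bot']
  intro b hb
  apply Subtype.ext
  apply h0 _ _ b.2.1
  intro g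
  have := S.coM_spec ρ b g
  rw [hb, Pi.zero_apply, map_zero] at this
  exact (sub_eq_zero.1 this.symm)

/-- `Fil⁰ D_dR` inside `D_dR` -/
noncomputable def Fil0 : Submodule L (DB ρ S.aD) := (FilV L V S.Dp).submoduleOf (DB ρ S.aD)

lemma rank_M : Module.rank L (S.M ρ) = Module.rank L V +
    Module.rank L (DB ρ S.aD ⧸ S.Fil0 ρ) := by
  have := S.nt
  let q := (FilV L V S.Dp).mkQ
  let f : S.M ρ →ₗ[L] (V ⊗[k] D ⧸ FilV L V S.Dp) :=
    (q.comp (lT (L := L) S.jD)).comp (S.M ρ).subtype
  let h : DB ρ S.aD →ₗ[L] (V ⊗[k] D ⧸ FilV L V S.Dp) := q.comp (DB ρ S.aD).subtype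
  have h1 : LinearMap.range f = LinearMap.range h := by
    ext x
    constructor
    · rintro ⟨⟨b, hb, u, hu, hu'⟩, rfl⟩
      refine ⟨⟨u, hu⟩, ?_⟩
      change q u = q (lT (L := L) S.jD b)
      rw [eq_comm, ← sub_eq_zero, ← map_sub, Submodule.mkQ_apply, Submodule.Quotient.mk_eq_zero]
      exact hu'
    · rintro ⟨⟨u, hu⟩, rfl⟩
      obtain ⟨b, hb, hb'⟩ := S.surjV (L := L) (V := V) u
      refine ⟨⟨b, hb, u, hu, hb'⟩, ?_⟩
      change q (lT (L := L) S.jD b) = q u
      rw [← sub_eq_zero, ← map_sub, Submodule.mkQ_apply, Submodule.Quotient.mk_eq_zero]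
      exact hb'
  have h2 := LinearMap.rank_range_add_rank_ker f
  have h3 : Module.rank L (LinearMap.range h) = Module.rank L (DB ρ S.aD ⧸ S.Fil0 ρ) := by
    have h4 : LinearMap.ker h = S.Fil0 ρ := by
      ext x
      rw [LinearMap.mem_ker, LinearMap.comp_apply, Submodule.mkQ_apply,
        Submodule.Quotient.mk_eq_zero]
      rfl
    rw [← h4]
    exact (LinearMap.quotKerEquivRange h).rank_eq.symm
  have h5 : Module.rank L (LinearMap.ker f) = Module.rank L V := by
    let e : V →ₗ[L] LinearMap.ker f :=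
      { toFun := fun v => ⟨⟨inc k L V B v, S.inc_mem_M ρ v⟩, by
          rw [LinearMap.mem_ker]
          change q (lT (L := L) S.jD (inc k L V B v)) = 0
          rw [lT_inc, Submodule.mkQ_apply, Submodule.Quotient.mk_eq_zero]
          exact inc_mem_FilV _ _⟩
        map_add' := fun v w => by
          apply Subtype.ext; apply Subtype.ext
          exact map_add (inc k L V B) v w
        map_smul' := fun c v => by
          apply Subtype.ext; apply Subtype.ext
          exact map_smul (inc k L V B) c v }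
    have he : Function.Bijective e := by
      constructor
      · intro v w hvw
        apply inc_injective (k := k) (L := L) (B := B)
        exact congrArg (fun x : LinearMap.ker f => ((x : S.M ρ) : V ⊗[k] B)) hvw
      · rintro ⟨⟨b, hb⟩, hb'⟩
        have hb2 : lT (L := L) S.jD b ∈ FilV L V S.Dp := by
          rw [LinearMap.mem_ker] at hb'
          change q (lT (L := L) S.jD b) = 0 at hb'
          rw [Submodule.mkQ_apply, Submodule.Quotient.mk_eq_zero] at hb'
          exact hb'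
        obtain ⟨v, hv⟩ := S.fixV hb.1 hb2
        refine ⟨v, ?_⟩
        apply Subtype.ext; apply Subtype.ext
        exact hv
    exact (LinearEquiv.ofBijective e he).rank_eq.symm
  rw [← h2, h5, h1, h3, add_comm]

lemma act_mul' (σ : G →* (V →ₗ[L] V)) (g h : G) (x : V ⊗[k] B) :
    act σ S.aB (g * h) x = act σ S.aB g (act σ S.aB h x) := by
  induction x with
  | zero => simp
  | tmul v b => rw [act_tmul, act_tmul, act_tmul, S.a_mul, map_mul]; rfl
  | add x y hx hy => rw [map_add, map_add, map_add, hx, hy]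

/-- orthogonality: cup products of cocycles in the image of the exponential with cocycles which
become trivial in `B^{φ=1}` are coboundaries -/
theorem ortho (β : V →ₗ[L] V' →ₗ[L] W) (τ : G →* (W →ₗ[L] W))
    (hβ : ∀ g v v', β (ρ g v) (ρ' g v') = τ g (β v v')) (b : S.M ρ) {b' : V' ⊗[k] B}
    (hb' : lT (L := L) S.phB b' = b') {y : G → V'}
    (hy : ∀ g, act ρ' S.aB g b' - b' = inc k L V' B (y g)) :
    ∃ (a : W ⊗[k] B) (f : G → W),
      (∀ g, inc k L W B (f g) = pairD β (b : V ⊗[k] B) (inc k L V' B (y g)) -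
        (act τ S.aB g a - a)) ∧
      ∀ g h, β (S.coM ρ b g) (ρ' g (y h)) = τ g (f h) - f (g * h) + f g := by
  obtain ⟨b, hb, u, hu, hw⟩ := b
  obtain ⟨a, ha, ha'⟩ := S.surjV (L := L) (V := W) (pairD β u (lT (L := L) S.jD b'))
  have key : ∀ g, ∃ w : W, inc k L W B w = pairD β b (inc k L V' B (y g)) -
        (act τ S.aB g a - a) := by
    intro g
    have : pairD β b (inc k L V' B (y g)) - (act τ S.aB g a - a) ∈
        LinearMap.range (inc k L W B) := by
      apply S.fixV
      · rw [map_sub, map_sub, lT_pairD, hb, lT_inc, S.ph_act τ g ha, ha]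
      · rw [map_sub, map_sub, lT_pairD, lT_inc, lT_act (L := L) S.jD τ S.aB S.aD g (S.jD_a g)]
        -- decompose
        have e1 : pairD β (lT (L := L) S.jD b) (inc k L V' D (y g)) =
            pairD β (lT (L := L) S.jD b - u) (inc k L V' D (y g)) +
            pairD β u (inc k L V' D (y g)) := by
          rw [map_sub, LinearMap.sub_apply]; abel
        have e2 : inc k L V' D (y g) = act ρ' S.aD g (lT (L := L) S.jD b') - lT (L := L) S.jD b' :=
          (transport ρ' S.aB S.jD S.aD S.jD_a hy g).symm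
        have e3 : pairD β u (inc k L V' D (y g)) =
            act τ S.aD g (pairD β u (lT (L := L) S.jD b')) - pairD β u (lT (L := L) S.jD b') := by
          rw [e2, map_sub, ← act_pairD β ρ ρ' τ S.aD g (hβ g), hu g]
        have e4 : pairD β (lT (L := L) S.jD b) (inc k L V' D (y g)) -
            (act τ S.aD g (lT (L := L) S.jD a) - lT (L := L) S.jD a) =
            pairD β (lT (L := L) S.jD b - u) (inc k L V' D (y g)) -
            (act τ S.aD g (lT (L := L) S.jD a - pairD β u (lT (L := L) S.jD b')) -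
              (lT (L := L) S.jD a - pairD β u (lT (L := L) S.jD b'))) := by
          rw [e1, e3, map_sub (act τ S.aD g)]; abel
        rw [e4]
        refine Submodule.sub_mem _ (pairD_mem_FilV _ β hw (inc_mem_FilV _ _))
          (Submodule.sub_mem _ (act_mem_FilV _ τ S.aD g (S.aD_Dp g) ha') ha')
    exact this
  choose f hf using key
  refine ⟨a, f, hf, fun g h => ?_⟩
  have := S.nt
  apply inc_injective (k := k) (L := L) (B := B)
  have c1 := S.coM_spec ρ ⟨b, hb, u, hu, hw⟩ g
  have hmul : ∀ (U : Type) [AddCommGroup U] [Module k U] [Module L U] [IsScalarTower k L U]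
      (σ : G →* (U →ₗ[L] U)) (x : U ⊗[k] B), act σ S.aB (g * h) x =
      act σ S.aB g (act σ S.aB h x) := fun U _ _ _ _ σ x => S.act_mul' σ g h x
  have c2 : act ρ' S.aB g (inc k L V' B (y h)) = inc k L V' B (y (g * h)) -
      inc k L V' B (y g) := by
    rw [← hy, ← hy, ← hy, map_sub, hmul V' ρ']; abel
  have c3 : inc k L W B (β (S.coM ρ ⟨b, hb, u, hu, hw⟩ g) (ρ' g (y h))) =
      act τ S.aB g (pairD β b (inc k L V' B (y h))) - pairD β b (inc k L V' B (y (g * h))) +
        pairD β b (inc k L V' B (y g)) := by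
    rw [← pairD_inc_inc, c1, ← act_inc ρ' S.aB g (y h), map_sub, LinearMap.sub_apply,
      act_pairD β ρ ρ' τ S.aB g (hβ g), c2, map_sub]
    abel
  have d1 := hf h
  have d2 := hf (g * h)
  have d3 := hf g
  rw [eq_sub_iff_add_eq] at d1 d2 d3
  rw [c3, ← d1, ← d2, ← d3, map_add, map_add, map_sub, map_sub, act_inc, hmul W τ]
  abel

end DRSetup

end MP_7c08ba.Crys
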