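import Mathlib
import Pool.Agent.Lib.MP_7c08ba_nt.Crys.DRAbs

set_option autoImplicit false

/-!
# Small elements of a period ring and continuity of cocycles: abstract part
-/

namespace MP_7c08ba.Crys

open TensorProduct Filter Topology

variable {p : ℕ} [hp : Fact p.Prime]

lemma exists_zp (M : ℕ) {c : ℚ_[p]} (h : ‖c‖ ≤ (p : ℝ) ^ M) :
    ∃ z : ℤ_[p], (p : ℚ_[p]) ^ M * c = z := by
  have hp0 : (0 : ℝ) < p := by exact_mod_cast hp.1.pos
  refine ⟨⟨(p : ℚ_[p]) ^ M * c, ?_⟩, rfl⟩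
  rw [norm_mul, norm_pow, Padic.norm_p, inv_pow]
  rw [inv_mul_le_iff₀ (by positivity), mul_one]
  exact h

lemma exists_zp' (k : ℕ) {c : ℚ_[p]} (h : ‖c‖ ≤ ((p : ℝ) ^ k)⁻¹) :
    ∃ z : ℤ_[p], c = (p : ℚ_[p]) ^ k * z := by
  have hp0 : (0 : ℝ) < p := by exact_mod_cast hp.1.pos
  have hp1 : (p : ℚ_[p]) ≠ 0 := by exact_mod_cast hp.1.ne_zero
  refine ⟨⟨((p : ℚ_[p]) ^ k)⁻¹ * c, ?_⟩, ?_⟩
  · rw [norm_mul, norm_inv, norm_pow, Padic.norm_p, inv_pow, inv_inv]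
    calc (p : ℝ) ^ k * ‖c‖ ≤ (p : ℝ) ^ k * ((p : ℝ) ^ k)⁻¹ := by gcongr
      _ = 1 := mul_inv_cancel₀ (by positivity)
  · change c = (p : ℚ_[p]) ^ k * (((p : ℚ_[p]) ^ k)⁻¹ * c)
    rw [← mul_assoc, mul_inv_cancel₀ (pow_ne_zero _ hp1), one_mul]

/-- An integral ring `A` in a period ring `B`, with an element `μ` invertible in `B`. -/
structure SmSetup (p : ℕ) [Fact p.Prime] (A B : Type) [CommRing A] [CommRing B]
    [Algebra ℚ_[p] B] where
  i : A →+* B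
  inj : Function.Injective i
  mu : A
  zp : ℤ_[p] →+* A
  i_zp : ∀ z : ℤ_[p], i (zp z) = algebraMap ℚ_[p] B (z : ℚ_[p])
  ex : ∀ b : B, ∃ (N m : ℕ) (y : A), (p : B) ^ N * i mu ^ m * b = i y
  mudiv : ∀ m : ℕ, ∃ c : ℕ, ¬ (p : A) ^ c ∣ mu ^ m
  tf : ∀ x : A, (p : A) * x = 0 → x = 0

namespace SmSetup

variable {A B : Type} [CommRing A] [CommRing B] [Algebra ℚ_[p] B] (S : SmSetup p A B)

/-- `p ^ N μ ^ m x ∈ p ^ k A` -/
def Wk (N m k : ℕ) (x : B) : Prop :=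
  ∃ z : A, (p : B) ^ N * S.i S.mu ^ m * x = S.i ((p : A) ^ k * z)

variable {S}

lemma Wk.mono {N m N' m' k : ℕ} {x : B} (h : S.Wk N m k x) (hN : N ≤ N') (hm : m ≤ m') :
    S.Wk N' m' k x := by
  obtain ⟨z, hz⟩ := h
  obtain ⟨a, rfl⟩ := Nat.exists_eq_add_of_le hN
  obtain ⟨b, rfl⟩ := Nat.exists_eq_add_of_le hm
  refine ⟨(p : A) ^ a * S.mu ^ b * z, ?_⟩
  calc (p : B) ^ (N + a) * S.i S.mu ^ (m + b) * x
      = (p : B) ^ a * S.i S.mu ^ b * ((p : B) ^ N * S.i S.mu ^ m * x) := by ring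
    _ = _ := by rw [hz]; simp only [map_mul, map_pow, map_natCast]; ring

lemma Wk.add {N m k : ℕ} {x y : B} (h : S.Wk N m k x) (h' : S.Wk N m k y) :
    S.Wk N m k (x + y) := by
  obtain ⟨z, hz⟩ := h
  obtain ⟨w, hw⟩ := h'
  exact ⟨z + w, by rw [mul_add, hz, hw, mul_add, map_add]⟩

lemma Wk.neg {N m k : ℕ} {x : B} (h : S.Wk N m k x) : S.Wk N m k (-x) := by
  obtain ⟨z, hz⟩ := h
  exact ⟨-z, by rw [mul_neg, hz, mul_neg, map_neg]⟩

variable (S) in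
/-- smallness along a filter -/
def Sml {T : Type} (l : Filter T) (F : T → B) : Prop :=
  ∃ N m, ∀ k, ∀ᶠ g in l, S.Wk N m k (F g)

variable {T : Type} {l : Filter T}

lemma Sml.add {F F' : T → B} (h : S.Sml l F) (h' : S.Sml l F') :
    S.Sml l (fun g => F g + F' g) := by
  obtain ⟨N, m, h⟩ := h
  obtain ⟨N', m', h'⟩ := h'
  refine ⟨max N N', max m m', fun k => ?_⟩
  filter_upwards [h k, h' k] with g hg hg'
  exact (hg.mono (le_max_left _ _) (le_max_left _ _)).add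
    (hg'.mono (le_max_right _ _) (le_max_right _ _))

lemma Sml.neg {F : T → B} (h : S.Sml l F) : S.Sml l (fun g => - F g) := by
  obtain ⟨N, m, h⟩ := h
  refine ⟨N, m, fun k => ?_⟩
  filter_upwards [h k] with g hg
  exact hg.neg

lemma Sml.sub {F F' : T → B} (h : S.Sml l F) (h' : S.Sml l F') :
    S.Sml l (fun g => F g - F' g) := by
  have := h.add h'.neg
  simpa only [sub_eq_add_neg] using this

lemma Sml.zero : S.Sml l (fun _ => 0) :=
  ⟨0, 0, fun k => Eventually.of_forall fun g => ⟨0, by simp⟩⟩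

lemma Sml.smul {F : T → B} (h : S.Sml l F) (c : T → ℚ_[p]) (M : ℕ)
    (hc : ∀ᶠ g in l, ‖c g‖ ≤ (p : ℝ) ^ M) : S.Sml l (fun g => algebraMap ℚ_[p] B (c g) * F g) := by
  obtain ⟨N, m, h⟩ := h
  refine ⟨N + M, m, fun k => ?_⟩
  filter_upwards [h k, hc] with g hg hcg
  obtain ⟨z, hz⟩ := exists_zp M hcg
  obtain ⟨w, hw⟩ := hg
  refine ⟨S.zp z * w, ?_⟩
  have h1 : (p : B) ^ M * algebraMap ℚ_[p] B (c g) = S.i (S.zp z) := by
    rw [S.i_zp, ← hz, map_mul, map_pow, map_natCast]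
  calc (p : B) ^ (N + M) * S.i S.mu ^ m * (algebraMap ℚ_[p] B (c g) * F g)
      = ((p : B) ^ M * algebraMap ℚ_[p] B (c g)) * ((p : B) ^ N * S.i S.mu ^ m * F g) := by ring
    _ = S.i ((p : A) ^ k * (S.zp z * w)) := by
      rw [h1, hw]; simp only [map_mul]; ring

lemma Sml.tend (c : T → ℚ_[p]) (hc : Tendsto c l (𝓝 0)) (b : B) :
    S.Sml l (fun g => algebraMap ℚ_[p] B (c g) * b) := by
  have hp0 : (0 : ℝ) < p := by exact_mod_cast hp.1.pos
  obtain ⟨N, m, y, hy⟩ := S.ex b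
  refine ⟨N, m, fun k => ?_⟩
  have h1 : ∀ᶠ g in l, ‖c g‖ ≤ ((p : ℝ) ^ k)⁻¹ := by
    have h2 := hc.norm
    rw [norm_zero] at h2
    exact (h2.eventually (gt_mem_nhds (by positivity : (0 : ℝ) < ((p : ℝ) ^ k)⁻¹))).mono
      (fun g hg => hg.le)
  filter_upwards [h1] with g hg
  obtain ⟨z, hz⟩ := exists_zp' k hg
  refine ⟨S.zp z * y, ?_⟩
  have h2 : algebraMap ℚ_[p] B (c g) = (p : B) ^ k * S.i (S.zp z) := by
    rw [S.i_zp, hz, map_mul, map_pow, map_natCast]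
  calc (p : B) ^ N * S.i S.mu ^ m * (algebraMap ℚ_[p] B (c g) * b)
      = (p : B) ^ k * S.i (S.zp z) * ((p : B) ^ N * S.i S.mu ^ m * b) := by rw [h2]; ring
    _ = _ := by rw [hy]; simp only [map_mul, map_pow, map_natCast]; ring

variable (S) in
include S in
lemma tf_pow (n : ℕ) (x : A) (h : (p : A) ^ n * x = 0) : x = 0 := by
  induction n with
  | zero => simpa using h
  | succ n ih =>
    apply ih
    apply S.tf
    rw [← mul_assoc, ← pow_succ']; exact h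

lemma small_of_Wk (N m : ℕ) : ∃ C : ℕ, ∀ (k : ℕ) (c : ℚ_[p]),
    S.Wk N m (k + C) (algebraMap ℚ_[p] B c) → ‖c‖ ≤ ((p : ℝ) ^ k)⁻¹ := by
  have hp0 : (0 : ℝ) < p := by exact_mod_cast hp.1.pos
  have hp1 : (1 : ℝ) < p := by exact_mod_cast hp.1.one_lt
  have hpq : (p : ℚ_[p]) ≠ 0 := by exact_mod_cast hp.1.ne_zero
  obtain ⟨c0, hc0⟩ := S.mudiv m
  refine ⟨N + c0, fun k c h => ?_⟩
  by_contra hlt
  rw [not_le] at hlt
  apply hc0
  obtain ⟨z, hz⟩ := h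
  have hc : c ≠ 0 := by
    rintro rfl
    rw [norm_zero] at hlt
    exact absurd hlt (not_lt.2 (by positivity))
  -- `p ^ k c⁻¹` is integral
  have h1 : ‖(p : ℚ_[p]) ^ k * c⁻¹‖ ≤ 1 := by
    rw [norm_mul, norm_pow, Padic.norm_p, norm_inv, inv_pow]
    rw [← div_eq_mul_inv, div_le_one (norm_pos_iff.2 hc)]
    exact hlt.le
  let u : ℤ_[p] := ⟨(p : ℚ_[p]) ^ k * c⁻¹, h1⟩
  have hu : S.i (S.zp u) * algebraMap ℚ_[p] B c = (p : B) ^ k := by
    rw [S.i_zp, ← map_mul]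
    change algebraMap ℚ_[p] B ((p : ℚ_[p]) ^ k * c⁻¹ * c) = _
    rw [mul_assoc, inv_mul_cancel₀ hc, mul_one, map_pow, map_natCast]
  have h2 : S.i ((p : A) ^ (N + k) * (S.mu ^ m - (p : A) ^ c0 * (S.zp u * z))) = 0 := by
    have e1 := congrArg (fun x => S.i (S.zp u) * x) hz
    have e2 : S.i (S.zp u) * ((p : B) ^ N * S.i S.mu ^ m * algebraMap ℚ_[p] B c) =
        (p : B) ^ (N + k) * S.i S.mu ^ m := by
      calc _ = (p : B) ^ N * S.i S.mu ^ m * (S.i (S.zp u) * algebraMap ℚ_[p] B c) := by ring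
        _ = _ := by rw [hu]; ring
    rw [e2] at e1
    simp only [map_mul, map_pow, map_natCast, map_sub] at e1 ⊢
    rw [mul_sub, e1]
    ring
  have h3 : (p : A) ^ (N + k) * (S.mu ^ m - (p : A) ^ c0 * (S.zp u * z)) = 0 :=
    S.inj (by rw [h2, map_zero])
  have h4 := tf_pow S _ _ h3
  exact ⟨S.zp u * z, sub_eq_zero.1 h4⟩

lemma Sml.tendsto {c : T → ℚ_[p]} (h : S.Sml l (fun g => algebraMap ℚ_[p] B (c g))) :
    Tendsto c l (𝓝 0) := by
  have hp1 : (1 : ℝ) < p := by exact_mod_cast hp.1.one_lt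
  obtain ⟨N, m, h⟩ := h
  obtain ⟨C, hC⟩ := small_of_Wk (S := S) N m
  rw [tendsto_zero_iff_norm_tendsto_zero]
  rw [Metric.tendsto_nhds]
  intro ε hε
  obtain ⟨k, hk⟩ := exists_pow_lt_of_lt_one hε (inv_lt_one_of_one_lt₀ hp1)
  filter_upwards [h (k + C)] with g hg
  rw [Real.dist_eq, sub_zero, abs_of_nonneg (norm_nonneg _)]
  refine lt_of_le_of_lt (hC k _ hg) ?_
  rw [← inv_pow]; exact hk

/-- the action on `B` is continuous -/
lemma sml_act {G : Type} {l : Filter G} (sA : G → A →+* A) (sB : G → B →+* B)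
    (hs : ∀ g x, sB g (S.i x) = S.i (sA g x)) (w w' : G → A) (hw : ∀ g, sA g S.mu = S.mu * w g)
    (hw' : ∀ g, w g * w' g = 1) (hc : ∀ (y : A) (k : ℕ), ∀ᶠ g in l, (p : A) ^ k ∣ sA g y - y)
    (b : B) : S.Sml l (fun g => sB g b - b) := by
  obtain ⟨N, m, y, hy⟩ := S.ex b
  refine ⟨N, 2 * m, fun k => ?_⟩
  filter_upwards [hc y k, hc S.mu k] with g hg hg'
  obtain ⟨u, hu⟩ := hg
  -- `σ μ ^ m - μ ^ m` is divisible by `p ^ k`
  have h1 : (p : A) ^ k ∣ sA g S.mu ^ m - S.mu ^ m := hg'.trans (sub_dvd_pow_sub_pow _ _ m)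
  obtain ⟨v, hv⟩ := h1
  have h2 : (p : B) ^ N * S.i S.mu ^ m * S.i (w g) ^ m * sB g b = S.i (sA g y) := by
    have := congrArg (sB g) hy
    rw [hs, map_mul, map_mul, map_pow, map_natCast, map_pow, hs, hw, map_mul, mul_pow] at this
    rw [← this]; ring
  have hww : S.i (w g) ^ m * S.i (w' g) ^ m = 1 := by
    rw [← mul_pow, ← map_mul, hw', map_one, one_pow]
  refine ⟨w' g ^ m * (u * S.mu ^ m - y * v), ?_⟩
  have e1 : (p : B) ^ N * S.i S.mu ^ (2 * m) * sB g b =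
      S.i (w' g) ^ m * (S.i S.mu ^ m * S.i (sA g y)) := by
    rw [← h2]
    calc _ = S.i S.mu ^ m * ((p : B) ^ N * S.i S.mu ^ m * sB g b) := by ring
      _ = (S.i (w g) ^ m * S.i (w' g) ^ m) *
          (S.i S.mu ^ m * ((p : B) ^ N * S.i S.mu ^ m * sB g b)) := by rw [hww, one_mul]
      _ = _ := by ring
  have e2 : (p : B) ^ N * S.i S.mu ^ (2 * m) * b =
      S.i (w' g) ^ m * (S.i (sA g S.mu) ^ m * S.i y) := by
    rw [← hy, hw, map_mul, mul_pow]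
    calc _ = S.i S.mu ^ m * ((p : B) ^ N * S.i S.mu ^ m * b) := by ring
      _ = (S.i (w g) ^ m * S.i (w' g) ^ m) *
          (S.i S.mu ^ m * ((p : B) ^ N * S.i S.mu ^ m * b)) := by rw [hww, one_mul]
      _ = _ := by ring
  have e3 : S.mu ^ m * sA g y - sA g S.mu ^ m * y = (p : A) ^ k * (u * S.mu ^ m - y * v) := by
    linear_combination S.mu ^ m * hu - y * hv
  rw [mul_sub, e1, e2, ← mul_sub, ← map_pow S.i (sA g S.mu), ← map_pow S.i S.mu, ← map_mul,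
    ← map_mul, ← map_sub, e3, ← map_pow, ← map_mul]
  congr 1
  ring

end SmSetup

/-! ### Vectors -/

section Vec

variable {A B : Type} [CommRing A] [CommRing B] [Algebra ℚ_[p] B] (S : SmSetup p A B)
variable {V : Type} [NormedAddCommGroup V] [NormedSpace ℚ_[p] V] [FiniteDimensional ℚ_[p] V]

/-- the coordinate of a vector given by a functional -/
noncomputable def lamB (f : V →ₗ[ℚ_[p]] ℚ_[p]) : V ⊗[ℚ_[p]] B →ₗ[ℚ_[p]] B :=
  TensorProduct.lift ((LinearMap.lsmul ℚ_[p] B : ℚ_[p] →ₗ[ℚ_[p]] B →ₗ[ℚ_[p]] B) ∘ₗ f)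

omit [FiniteDimensional ℚ_[p] V] in
lemma lamB_tmul (f : V →ₗ[ℚ_[p]] ℚ_[p]) (v : V) (b : B) :
    lamB f (v ⊗ₜ b) = algebraMap ℚ_[p] B (f v) * b := by
  rw [lamB, TensorProduct.lift.tmul, LinearMap.comp_apply, LinearMap.lsmul_apply,
    Algebra.smul_def]

/-- smallness of a family of vectors -/
def SmlV {T : Type} (l : Filter T) (F : T → V ⊗[ℚ_[p]] B) : Prop :=
  ∀ f : V →ₗ[ℚ_[p]] ℚ_[p], S.Sml l (fun g => lamB f (F g))

variable {S} {T : Type} {l : Filter T}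

omit [FiniteDimensional ℚ_[p] V] in
lemma SmlV.add {F F' : T → V ⊗[ℚ_[p]] B} (h : SmlV S l F) (h' : SmlV S l F') :
    SmlV S l (fun g => F g + F' g) := by
  intro f
  have := (h f).add (h' f)
  simpa only [map_add] using this

omit [FiniteDimensional ℚ_[p] V] in
lemma SmlV.sub {F F' : T → V ⊗[ℚ_[p]] B} (h : SmlV S l F) (h' : SmlV S l F') :
    SmlV S l (fun g => F g - F' g) := by
  intro f
  have := (h f).sub (h' f)
  simpa only [map_sub] using this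

omit [FiniteDimensional ℚ_[p] V] in
lemma SmlV.zero : SmlV S l (fun _ => (0 : V ⊗[ℚ_[p]] B)) := by
  intro f
  simpa only [map_zero] using SmSetup.Sml.zero (S := S) (l := l)

lemma smlV_tmul {v : T → V} (hv : Tendsto v l (𝓝 0)) (b : B) :
    SmlV S l (fun g => v g ⊗ₜ[ℚ_[p]] b) := by
  intro f
  simp only [lamB_tmul]
  apply SmSetup.Sml.tend
  have hf : Continuous f := f.continuous_of_finiteDimensional
  have := (hf.tendsto 0).comp hv
  rwa [map_zero] at this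

lemma SmlV.tendsto {c : T → V} (h : SmlV S l (fun g => c g ⊗ₜ[ℚ_[p]] (1 : B))) :
    Tendsto c l (𝓝 0) := by
  have h1 : ∀ f : V →ₗ[ℚ_[p]] ℚ_[p], Tendsto (fun g => f (c g)) l (𝓝 0) := by
    intro f
    apply SmSetup.Sml.tendsto (S := S)
    have := h f
    simpa only [lamB_tmul, mul_one] using this
  let e := (Module.finBasis ℚ_[p] V).equivFun
  have he : Continuous e.symm.toLinearMap := e.symm.toLinearMap.continuous_of_finiteDimensional
  have h2 : Tendsto (fun g => e (c g)) l (𝓝 0) := by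
    rw [tendsto_pi_nhds]
    intro i
    exact h1 (LinearMap.proj i ∘ₗ e.toLinearMap)
  have h3 := (he.tendsto 0).comp h2
  rw [map_zero] at h3
  convert h3 using 1
  funext g
  exact (e.symm_apply_apply (c g)).symm

end Vec

end MP_7c08ba.Crys
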