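import Mathlib
import Pool.Agent.Lib.MP_7c08ba_nt.Crys.Small

set_option autoImplicit false

/-!
# Continuity of cocycles which become trivial in a period ring
-/

namespace MP_7c08ba.Crys

open TensorProduct Filter Topology

variable {p : ℕ} [hp : Fact p.Prime]

lemma continuous_of_cocycle {G V : Type} [Group G] [TopologicalSpace G] [IsTopologicalGroup G]
    [AddCommGroup V] [TopologicalSpace V] [IsTopologicalAddGroup V] (c : G → V) (R : G → V → V)
    (hR : ∀ g, Continuous (R g)) (hR0 : ∀ g, R g 0 = 0) (E : G → G → V)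
    (hE : ∀ g, Tendsto (E g) (𝓝 1) (𝓝 0)) (hc : ∀ g h, c (g * h) = c g + R g (c h) + E g h)
    (h0 : Tendsto c (𝓝 1) (𝓝 0)) : Continuous c := by
  rw [continuous_iff_continuousAt]
  intro g
  have h1 : Tendsto (fun h => c (g * h)) (𝓝 1) (𝓝 (c g)) := by
    have h2 : Tendsto (fun h => c g + R g (c h) + E g h) (𝓝 1) (𝓝 (c g + R g 0 + 0)) :=
      (tendsto_const_nhds.add (((hR g).tendsto 0).comp h0)).add (hE g)
    rw [hR0, add_zero, add_zero] at h2
    simpa only [hc] using h2
  have h3 : map (fun h => g * h) (𝓝 (1 : G)) = 𝓝 g := by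
    have := (Homeomorph.mulLeft g).map_nhds_eq 1
    rw [Homeomorph.coe_mulLeft] at this
    refine this.trans ?_
    change 𝓝 (g * 1) = 𝓝 g
    rw [mul_one]
  rw [ContinuousAt, ← h3, tendsto_map'_iff]
  exact h1

/-- linear maps over `L` are continuous -/
lemma continuous_lin (p : ℕ) [Fact p.Prime] {L V W : Type} [Field L] [Algebra ℚ_[p] L]
    [NormedAddCommGroup V] [NormedSpace ℚ_[p] V] [FiniteDimensional ℚ_[p] V]
    [Module L V] [IsScalarTower ℚ_[p] L V] [NormedAddCommGroup W] [NormedSpace ℚ_[p] W]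
    [Module L W] [IsScalarTower ℚ_[p] L W] (f : V →ₗ[L] W) : Continuous f :=
  (f.restrictScalars ℚ_[p]).continuous_of_finiteDimensional

section Vec

variable {A B : Type} [CommRing A] [CommRing B] [Algebra ℚ_[p] B] {S : SmSetup p A B}
variable {G : Type} [Group G] {l : Filter G}
variable {L : Type} [Field L] [Algebra ℚ_[p] L]
variable {V : Type} [NormedAddCommGroup V] [NormedSpace ℚ_[p] V] [FiniteDimensional ℚ_[p] V]
  [Module L V] [IsScalarTower ℚ_[p] L V]
variable {V' : Type} [NormedAddCommGroup V'] [NormedSpace ℚ_[p] V'] [FiniteDimensional ℚ_[p] V']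
  [Module L V'] [IsScalarTower ℚ_[p] L V']
variable {W : Type} [NormedAddCommGroup W] [NormedSpace ℚ_[p] W] [FiniteDimensional ℚ_[p] W]
  [Module L W] [IsScalarTower ℚ_[p] L W]


lemma smlV_act (ρ : G →* (V →ₗ[L] V)) (aB : G → B →ₐ[ℚ_[p]] B)
    (hB : ∀ b, S.Sml l (fun g => aB g b - b)) (hρ : ∀ v, Tendsto (fun g => ρ g v) l (𝓝 v))
    (b : V ⊗[ℚ_[p]] B) : SmlV S l (fun g => act ρ aB g b - b) := by
  have hp1 : (1 : ℝ) < p := by exact_mod_cast hp.1.one_lt
  induction b with
  | zero => simpa only [map_zero, sub_zero] using SmlV.zero (S := S) (l := l) (V := V)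
  | add x y hx hy =>
    have := hx.add hy
    convert this using 2
    rw [map_add]; abel
  | tmul v x =>
    have h1 : SmlV S l (fun g => (ρ g v - v) ⊗ₜ[ℚ_[p]] x) := by
      apply smlV_tmul
      have := (hρ v).sub (tendsto_const_nhds (x := v))
      rwa [sub_self] at this
    have h2 : SmlV S l (fun g => ρ g v ⊗ₜ[ℚ_[p]] (aB g x - x)) := by
      intro f
      simp only [lamB_tmul]
      have hf : Continuous f := f.continuous_of_finiteDimensional
      have h3 : Tendsto (fun g => ‖f (ρ g v)‖) l (𝓝 ‖f v‖) := ((hf.tendsto v).comp (hρ v)).norm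
      obtain ⟨M, hM⟩ := pow_unbounded_of_one_lt ‖f v‖ hp1
      exact (hB x).smul (fun g => f (ρ g v)) M
        ((h3.eventually (gt_mem_nhds hM)).mono fun g hg => hg.le)
    have := h1.add h2
    convert this using 2
    rw [act_tmul, TensorProduct.sub_tmul, TensorProduct.tmul_sub]; abel

omit [Group G] [FiniteDimensional ℚ_[p] V] in
lemma smlV_pair (β : V →ₗ[L] V' →ₗ[L] W) (b : V ⊗[ℚ_[p]] B) {y : G → V'}
    (hy : Tendsto y l (𝓝 0)) :
    SmlV S l (fun g => pairD β b (inc ℚ_[p] L V' B (y g))) := by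
  induction b with
  | zero => simpa only [map_zero, LinearMap.zero_apply] using
      SmlV.zero (S := S) (l := l) (V := W)
  | add x y hx hy =>
    have := hx.add hy
    simpa only [map_add, LinearMap.add_apply] using this
  | tmul v x =>
    simp only [inc_apply, pairD_tmul, mul_one]
    apply smlV_tmul
    have := ((continuous_lin p (β v)).tendsto 0).comp hy
    rwa [map_zero] at this

/-- the cocycle of an element is small near `1` -/
lemma tendsto_of_act (ρ : G →* (V →ₗ[L] V)) (aB : G → B →ₐ[ℚ_[p]] B)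
    (hB : ∀ b, S.Sml l (fun g => aB g b - b)) (hρ : ∀ v, Tendsto (fun g => ρ g v) l (𝓝 v))
    (b : V ⊗[ℚ_[p]] B) (c : G → V) (hc : ∀ g, inc ℚ_[p] L V B (c g) = act ρ aB g b - b) :
    Tendsto c l (𝓝 0) := by
  apply SmlV.tendsto (S := S)
  have := smlV_act (S := S) ρ aB hB hρ b
  simpa only [← hc, inc_apply] using this

end Vec

namespace DRSetup

variable {A B D : Type} [CommRing A] [CommRing B] [CommRing D] [Algebra ℚ_[p] B]
  [Algebra ℚ_[p] D] {S : SmSetup p A B}
variable {G : Type} [Group G] [TopologicalSpace G] [IsTopologicalGroup G]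
variable (R : DRSetup ℚ_[p] G B D)
variable {L : Type} [Field L] [Algebra ℚ_[p] L]
variable {V : Type} [NormedAddCommGroup V] [NormedSpace ℚ_[p] V] [FiniteDimensional ℚ_[p] V]
  [Module L V] [IsScalarTower ℚ_[p] L V]
variable {V' : Type} [NormedAddCommGroup V'] [NormedSpace ℚ_[p] V'] [FiniteDimensional ℚ_[p] V']
  [Module L V'] [IsScalarTower ℚ_[p] L V']
variable {W : Type} [NormedAddCommGroup W] [NormedSpace ℚ_[p] W] [FiniteDimensional ℚ_[p] W]
  [Module L W] [IsScalarTower ℚ_[p] L W]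
variable (ρ : G →* (V →ₗ[L] V)) (ρ' : G →* (V' →ₗ[L] V')) (τ : G →* (W →ₗ[L] W))

omit [TopologicalSpace G] [IsTopologicalGroup G] [FiniteDimensional ℚ_[p] V] in
lemma coM_mul (b : R.M ρ) (g h : G) :
    R.coM ρ b (g * h) = R.coM ρ b g + ρ g (R.coM ρ b h) := by
  have := R.nt
  apply inc_injective (k := ℚ_[p]) (L := L) (B := B)
  rw [map_add, ← act_inc ρ R.aB g, R.coM_spec, R.coM_spec, R.coM_spec, map_sub, R.act_mul']
  abel

variable (hB : ∀ b, S.Sml (𝓝 1) (fun g => R.aB g b - b))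

include hB

lemma continuous_coM (hρ : ∀ v, Tendsto (fun g => ρ g v) (𝓝 1) (𝓝 v)) (b : R.M ρ) :
    Continuous (R.coM ρ b) := by
  refine continuous_of_cocycle (R.coM ρ b) (fun g v => ρ g v)
    (fun g => continuous_lin p (ρ g)) (fun g => map_zero _) (fun _ _ => 0)
    (fun _ => tendsto_const_nhds) (fun g h => by rw [add_zero]; exact R.coM_mul ρ b g h) ?_
  exact tendsto_of_act (S := S) ρ R.aB hB hρ b _ (R.coM_spec ρ b)

theorem ortho_cont (β : V →ₗ[L] V' →ₗ[L] W)
    (hβ : ∀ g v v', β (ρ g v) (ρ' g v') = τ g (β v v'))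
    (hτ : ∀ v, Tendsto (fun g => τ g v) (𝓝 1) (𝓝 v)) (b : R.M ρ) {b' : V' ⊗[ℚ_[p]] B}
    (hb' : lT (L := L) R.phB b' = b') {y : G → V'} (hyc : Continuous y)
    (hy : ∀ g, act ρ' R.aB g b' - b' = inc ℚ_[p] L V' B (y g)) :
    ∃ f : G → W, Continuous f ∧
      ∀ g h, β (R.coM ρ b g) (ρ' g (y h)) = τ g (f h) - f (g * h) + f g := by
  obtain ⟨a, f, hf, hff⟩ := R.ortho ρ ρ' β τ hβ b hb' hy
  have := R.nt
  have hy1 : y 1 = 0 := by
    apply inc_injective (k := ℚ_[p]) (L := L) (B := B)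
    have h2 : act ρ' R.aB 1 b' = act ρ' R.aB 1 b' + inc ℚ_[p] L V' B (y 1) := by
      have h3 := hy 1
      have h4 : act ρ' R.aB 1 b' = act ρ' R.aB 1 (act ρ' R.aB 1 b') := by
        rw [← R.act_mul', mul_one]
      have h5 : act ρ' R.aB 1 b' = b' + inc ℚ_[p] L V' B (y 1) := by rw [← h3]; abel
      conv_lhs => rw [h4, h5, map_add, act_inc, map_one]
      rfl
    rw [map_zero]
    exact (left_eq_add.1 h2)
  have hy0 : Tendsto y (𝓝 1) (𝓝 0) := by
    have := hyc.tendsto 1
    rwa [hy1] at this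
  refine ⟨f, ?_, hff⟩
  refine continuous_of_cocycle f (fun g v => τ g v) (fun g => continuous_lin p (τ g))
    (fun g => map_zero _) (fun g h => - β (R.coM ρ b g) (ρ' g (y h))) (fun g => ?_)
    (fun g h => by rw [hff g h]; abel) ?_
  · have h1 : Continuous fun v => - β (R.coM ρ b g) (ρ' g v) :=
      ((continuous_lin p (β (R.coM ρ b g))).comp (continuous_lin p (ρ' g))).neg
    have h2 := (h1.tendsto 0).comp hy0
    rw [map_zero, map_zero, neg_zero] at h2
    exact h2
  · apply SmlV.tendsto (S := S)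
    have h1 := (smlV_pair (S := S) β (b : V ⊗[ℚ_[p]] B) hy0).sub
      (smlV_act (S := S) τ R.aB hB hτ a)
    have h2 : (fun g => f g ⊗ₜ[ℚ_[p]] (1 : B)) = fun g =>
        pairD β (b : V ⊗[ℚ_[p]] B) (inc ℚ_[p] L V' B (y g)) - (act τ R.aB g a - a) := by
      funext g
      rw [← hf g, inc_apply]
    rw [h2]
    exact h1

end DRSetup

end MP_7c08ba.Crys
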