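import Mathlib
import Pool.Agent.Lib.MP_7c08ba_nt.Crys.DRAbs

set_option autoImplicit false

/-!
# De Rham representations given by matrices and the dimensions of `D_dR / Fil⁰`
-/

namespace MP_7c08ba.Crys

open TensorProduct Matrix

section Phi

variable {k : Type} [Field k] {L : Type} [Field L] [Algebra k L] {n : ℕ}
variable {D : Type} [CommRing D] [Algebra k D]

/-- coordinates of `L ^ n ⊗ D` in `L ⊗ D` -/
noncomputable def Phi : (Fin n → L) ⊗[k] D →ₗ[L] (Fin n → L ⊗[k] D) :=
  LinearMap.pi (fun i => AlgebraTensorModule.map (LinearMap.proj i : (Fin n → L) →ₗ[L] L)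
    (LinearMap.id : D →ₗ[k] D))

lemma Phi_tmul (v : Fin n → L) (d : D) (i : Fin n) : Phi (k := k) (v ⊗ₜ d) i = v i ⊗ₜ d := rfl

/-- the inverse -/
noncomputable def Psi : (Fin n → L ⊗[k] D) →ₗ[L] (Fin n → L) ⊗[k] D :=
  ∑ i, (AlgebraTensorModule.map (LinearMap.single L (fun _ : Fin n => L) i : L →ₗ[L] (Fin n → L))
    (LinearMap.id : D →ₗ[k] D)).comp (LinearMap.proj i)

lemma Psi_apply (x : Fin n → L ⊗[k] D) : Psi x = ∑ i, (AlgebraTensorModule.map
    (LinearMap.single L (fun _ : Fin n => L) i : L →ₗ[L] (Fin n → L))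
    (LinearMap.id : D →ₗ[k] D)) (x i) := by
  rw [Psi, LinearMap.sum_apply]
  rfl

lemma Psi_Phi (x : (Fin n → L) ⊗[k] D) : Psi (Phi x) = x := by
  induction x with
  | zero => rw [map_zero, map_zero]
  | add x y hx hy => rw [map_add, map_add, hx, hy]
  | tmul v d =>
    rw [Psi_apply]
    simp only [Phi_tmul, AlgebraTensorModule.map_tmul, LinearMap.id_apply]
    rw [← TensorProduct.sum_tmul]
    congr 1
    funext j
    rw [Finset.sum_apply]
    simp only [LinearMap.single_apply]
    rw [Finset.sum_eq_single j (fun i _ hij => Pi.single_eq_of_ne (Ne.symm hij) _)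
      (fun h => absurd (Finset.mem_univ j) h), Pi.single_eq_same]

lemma Phi_Psi (x : Fin n → L ⊗[k] D) : Phi (Psi x) = x := by
  funext j
  rw [Psi_apply, map_sum, Finset.sum_apply]
  have key : ∀ (i : Fin n) (z : L ⊗[k] D), Phi ((AlgebraTensorModule.map
      (LinearMap.single L (fun _ : Fin n => L) i : L →ₗ[L] (Fin n → L))
      (LinearMap.id : D →ₗ[k] D)) z) j = if j = i then z else 0 := by
    intro i z
    induction z with
    | zero => simp
    | add x y hx hy =>
      rw [map_add, map_add, Pi.add_apply, hx, hy]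
      split_ifs
      · rfl
      · rw [add_zero]
    | tmul c d =>
      rw [AlgebraTensorModule.map_tmul, Phi_tmul, LinearMap.id_apply, LinearMap.single_apply]
      by_cases h : j = i
      · subst h; rw [Pi.single_eq_same, if_pos rfl]
      · rw [Pi.single_eq_of_ne h, if_neg h, TensorProduct.zero_tmul]
  simp only [key]
  rw [Finset.sum_ite_eq]
  simp

/-- the standard product -/
noncomputable def dotL (L : Type) [Field L] (n : ℕ) : (Fin n → L) →ₗ[L] (Fin n → L) →ₗ[L] L :=
  LinearMap.mk₂ L (fun v w => v ⬝ᵥ w) (fun a b c => add_dotProduct a b c)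
    (fun c a b => smul_dotProduct c a b) (fun a b c => dotProduct_add a b c)
    (fun c a b => dotProduct_smul c a b)

lemma dotL_apply (v w : Fin n → L) : dotL L n v w = v ⬝ᵥ w := rfl

lemma pairD_dotL (x y : (Fin n → L) ⊗[k] D) : pairD (dotL L n) x y = Phi x ⬝ᵥ Phi y := by
  refine ind2 (P := fun x y => pairD (dotL L n) x y = Phi x ⬝ᵥ Phi y) x y ?_ ?_ ?_ ?_ ?_
  · intro y; simp
  · intro x; simp
  · intro v d v' d'
    rw [pairD_tmul, dotL_apply, dotProduct, dotProduct, TensorProduct.sum_tmul]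
    refine Finset.sum_congr rfl fun i _ => ?_
    rw [Phi_tmul, Phi_tmul, Algebra.TensorProduct.tmul_mul_tmul]
  · intro x x' y h h'
    simp only [map_add, LinearMap.add_apply, h, h', add_dotProduct]
  · intro x y y' h h'
    simp only [map_add, h, h', dotProduct_add]

/-- representations by matrices as linear maps -/
noncomputable def rp {G : Type} [Group G] (ρ : G →* GL (Fin n) L) :
    G →* ((Fin n → L) →ₗ[L] (Fin n → L)) where
  toFun g := Matrix.mulVecLin (ρ g : Matrix (Fin n) (Fin n) L)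
  map_one' := by
    rw [map_one, Units.val_one, Matrix.mulVecLin_one]
    rfl
  map_mul' g h := by
    rw [map_mul, Units.val_mul, Matrix.mulVecLin_mul]
    rfl

lemma rp_apply {G : Type} [Group G] (ρ : G →* GL (Fin n) L) (g : G) (v : Fin n → L) :
    rp ρ g v = (ρ g : Matrix (Fin n) (Fin n) L) *ᵥ v := rfl

/-- the action on `L ⊗ D` -/
noncomputable def gR (L : Type) [Field L] [Algebra k L] (f : D →ₐ[k] D) :
    L ⊗[k] D →ₐ[L] L ⊗[k] D :=
  Algebra.TensorProduct.map (AlgHom.id L L) f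

lemma gR_tmul (f : D →ₐ[k] D) (c : L) (d : D) : gR L f (c ⊗ₜ d) = c ⊗ₜ f d := rfl

/-- matrices over `L` as matrices over `L ⊗ D` -/
noncomputable def mR (k : Type) [Field k] {L : Type} [Field L] [Algebra k L] {n : ℕ}
    (D : Type) [CommRing D] [Algebra k D] (M : Matrix (Fin n) (Fin n) L) :
    Matrix (Fin n) (Fin n) (L ⊗[k] D) :=
  M.map (algebraMap L (L ⊗[k] D))

lemma Phi_act {G : Type} [Group G] (ρ : G →* GL (Fin n) L) (a : G → D →ₐ[k] D) (g : G)
    (x : (Fin n → L) ⊗[k] D) :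
    Phi (act (rp ρ) a g x) = mR k D (ρ g : Matrix (Fin n) (Fin n) L) *ᵥ
      (fun j => gR L (a g) (Phi x j)) := by
  induction x with
  | zero =>
    rw [map_zero, map_zero]
    have : (fun j => gR L (a g) ((0 : Fin n → L ⊗[k] D) j)) = 0 := by
      funext j
      rw [Pi.zero_apply, map_zero]
    rw [this, Matrix.mulVec_zero]
  | add x y hx hy =>
    rw [map_add, map_add, hx, hy, ← Matrix.mulVec_add]
    congr 1
    funext j
    rw [map_add, Pi.add_apply, Pi.add_apply, map_add]
  | tmul v d =>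
    funext i
    rw [act_tmul, Phi_tmul, rp_apply]
    simp only [Matrix.mulVec, dotProduct, Phi_tmul, gR_tmul, mR, Matrix.map_apply]
    rw [TensorProduct.sum_tmul]
    refine Finset.sum_congr rfl fun j _ => ?_
    rw [Algebra.TensorProduct.algebraMap_apply, Algebra.TensorProduct.tmul_mul_tmul, one_mul,
      Algebra.algebraMap_self_apply]

end Phi

section Orth

variable {k : Type} [Field k] {L : Type} [Field L] [Algebra k L] {n : ℕ}
variable {D : Type} [CommRing D] [Algebra k D]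

lemma tmul_mem_FilV (Dp : Subalgebra k D) {c : L} {s : D} (h : c ⊗ₜ s ∈ FilV L L Dp)
    (hs : s ∉ Dp) : c = 0 := by
  rw [mem_FilV] at h
  by_contra hc
  have h1 : (Module.Basis.ofVectorSpace k L).repr c ≠ 0 := by
    intro h2
    exact hc ((Module.Basis.ofVectorSpace k L).repr.injective (by rw [h2, map_zero]))
  obtain ⟨i, hi⟩ := Finsupp.ne_iff.1 h1
  have h2 := h i
  rw [coord_tmul] at h2
  apply hs
  rw [Finsupp.zero_apply] at hi
  have h3 := Dp.smul_mem h2 ((Module.Basis.ofVectorSpace k L).repr c i)⁻¹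
  rwa [smul_smul, inv_mul_cancel₀ hi, one_smul] at h3

/-- the dimensions of orthogonal subspaces -/
lemma finrank_orth_le (F F' : Submodule L (Fin n → L)) (h : ∀ x ∈ F, ∀ y ∈ F', x ⬝ᵥ y = 0) :
    Module.finrank L F + Module.finrank L F' ≤ n := by
  have h1 := Subspace.finrank_add_finrank_dualAnnihilator_eq F
  have h2 : Module.finrank L F' ≤ Module.finrank L F.dualAnnihilator := by
    let f : (Fin n → L) →ₗ[L] Module.Dual L (Fin n → L) := (dotL L n).flip
    have hf : Function.Injective f := by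
      rw [← LinearMap.ker_eq_bot, LinearMap.ker_eq_bot']
      intro y hy
      funext i
      have h3 := LinearMap.congr_fun hy (Pi.single i 1)
      change Pi.single i 1 ⬝ᵥ y = 0 at h3
      rw [single_dotProduct, one_mul] at h3
      exact h3
    let f' : F' →ₗ[L] F.dualAnnihilator := (f.comp F'.subtype).codRestrict _ (by
      intro y
      rw [Submodule.mem_dualAnnihilator]
      intro x hx
      exact h x hx y y.2)
    apply LinearMap.finrank_le_finrank_of_injective (f := f')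
    intro x y hxy
    exact Subtype.ext (hf (congrArg Subtype.val hxy))
  rw [Module.finrank_fin_fun] at h1
  omega

end Orth

namespace DRSetup

variable {k G B D : Type} [Field k] [Group G] [CommRing B] [CommRing D] [Algebra k B]
    [Algebra k D] (S : DRSetup k G B D)
variable {L : Type} [Field L] [Algebra k L] {n : ℕ}

section abs

variable {V X : Type} [AddCommGroup V] [Module k V] [Module L V] [IsScalarTower k L V]
variable [AddCommGroup X] [Module L X] [FiniteDimensional L X]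

/-- the dimension of `D_dR / Fil⁰` -/
noncomputable def rkQ (ρ : G →* (V →ₗ[L] V)) : Cardinal :=
  Module.rank L (DB ρ S.aD ⧸ S.Fil0 ρ)

lemma rkQ_def (ρ : G →* (V →ₗ[L] V)) : S.rkQ ρ = Module.rank L (DB ρ S.aD ⧸ S.Fil0 ρ) := rfl

lemma rank_quot_abs {S : DRSetup k G B D} (ρ : G →* (V →ₗ[L] V)) (f : X →ₗ[L] DB ρ S.aD) :
    ((Module.finrank L X - Module.finrank L ((S.Fil0 ρ).comap f) : ℕ) : Cardinal) ≤
      S.rkQ ρ := by
  let q : X →ₗ[L] (DB ρ S.aD ⧸ S.Fil0 ρ) := (S.Fil0 ρ).mkQ.comp f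
  have h1 : LinearMap.ker q = (S.Fil0 ρ).comap f := by
    rw [LinearMap.ker_comp, Submodule.ker_mkQ]
  have h2 := LinearMap.finrank_range_add_finrank_ker q
  rw [h1] at h2
  have h3 : Module.finrank L X - Module.finrank L ((S.Fil0 ρ).comap f) =
      Module.finrank L (LinearMap.range q) := by omega
  rw [h3, Module.finrank_eq_rank]
  exact Submodule.rank_le _

end abs

/-- `P` is a matrix of periods: its columns form a basis of `V ⊗ D` of invariants. -/
def IsPer (ρ : G →* GL (Fin n) L) (P : GL (Fin n) (L ⊗[k] D)) : Prop :=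
  ∀ g : G, mR k D (ρ g : Matrix (Fin n) (Fin n) L) *
    (P : Matrix (Fin n) (Fin n) (L ⊗[k] D)).map (gR L (S.aD g)) = P

variable {S}

/-- the invariants given by a period matrix -/
noncomputable def perD {ρ : G →* GL (Fin n) L} {P : GL (Fin n) (L ⊗[k] D)} (hP : S.IsPer ρ P) :
    (Fin n → L) →ₗ[L] DB (rp ρ) S.aD :=
  LinearMap.codRestrict _
    { toFun := fun x => Psi ((P : Matrix (Fin n) (Fin n) (L ⊗[k] D)) *ᵥ
        (fun j => algebraMap L (L ⊗[k] D) (x j)))
      map_add' := fun x y => by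
        rw [← map_add, ← Matrix.mulVec_add]
        congr 2
        funext j
        rw [Pi.add_apply, Pi.add_apply, map_add]
      map_smul' := fun c x => by
        rw [RingHom.id_apply, ← map_smul, ← Matrix.mulVec_smul]
        congr 2 }
    (by
      intro x g
      change act (rp ρ) S.aD g (Psi _) = Psi _
      rw [← Psi_Phi (act (rp ρ) S.aD g (Psi _)), Phi_act, Phi_Psi]
      congr 1
      conv_rhs => rw [← hP g]
      rw [← Matrix.mulVec_mulVec]
      congr 1
      funext j
      simp only [Matrix.mulVec, dotProduct, map_sum, map_mul, Matrix.map_apply]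
      refine Finset.sum_congr rfl fun i _ => ?_
      rw [AlgHom.commutes])

lemma coe_perD {ρ : G →* GL (Fin n) L} {P : GL (Fin n) (L ⊗[k] D)} (hP : S.IsPer ρ P)
    (x : Fin n → L) : ((perD hP x : DB (rp ρ) S.aD) : (Fin n → L) ⊗[k] D) =
      Psi ((P : Matrix (Fin n) (Fin n) (L ⊗[k] D)) *ᵥ
        (fun j => algebraMap L (L ⊗[k] D) (x j))) := rfl

/-- the vectors whose combination of periods lies in `Fil⁰` -/
noncomputable def perF {ρ : G →* GL (Fin n) L} {P : GL (Fin n) (L ⊗[k] D)} (hP : S.IsPer ρ P) :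
    Submodule L (Fin n → L) := (S.Fil0 (rp ρ)).comap (perD hP)

lemma rank_quot {ρ : G →* GL (Fin n) L} {P : GL (Fin n) (L ⊗[k] D)} (hP : S.IsPer ρ P) :
    ((n - Module.finrank L (perF hP) : ℕ) : Cardinal) ≤ S.rkQ (rp ρ) := by
  have := rank_quot_abs (S := S) (rp ρ) (perD hP)
  rw [Module.finrank_fin_fun] at this
  exact this

variable (S) in
/-- the element `t⁻¹` -/
structure TInv (chi : G → k) (s : D) : Prop where
  u : IsUnit s
  a : ∀ g, chi g • S.aD g s = s
  n : s ∉ S.Dp

/-- the period matrix of the dual -/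
lemma exists_dual {ρ ρ' : G →* GL (Fin n) L} {chi : G → k} {s : D} (hs : S.TInv chi s)
    (hd : ∀ g, (ρ g : Matrix (Fin n) (Fin n) L)ᵀ * (ρ' g : Matrix (Fin n) (Fin n) L) =
      algebraMap k L (chi g) • (1 : Matrix (Fin n) (Fin n) L))
    {P : GL (Fin n) (L ⊗[k] D)} (hP : S.IsPer ρ P) :
    ∃ P' : GL (Fin n) (L ⊗[k] D), S.IsPer ρ' P' ∧
      (P : Matrix (Fin n) (Fin n) (L ⊗[k] D))ᵀ * (P' : Matrix (Fin n) (Fin n) (L ⊗[k] D)) =
        ((1 : L) ⊗ₜ[k] s) • (1 : Matrix (Fin n) (Fin n) (L ⊗[k] D)) := by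
  have hu : IsUnit ((1 : L) ⊗ₜ[k] s : L ⊗[k] D) := by
    have := hs.u.map (Algebra.TensorProduct.includeRight : D →ₐ[k] L ⊗[k] D)
    exact this
  set u := hu.unit
  have hu' : (u : L ⊗[k] D) = (1 : L) ⊗ₜ[k] s := hu.unit_spec
  set Pm : Matrix (Fin n) (Fin n) (L ⊗[k] D) := (P : Matrix (Fin n) (Fin n) (L ⊗[k] D))
  set Qm : Matrix (Fin n) (Fin n) (L ⊗[k] D) := ((P⁻¹ : GL (Fin n) (L ⊗[k] D)) :
    Matrix (Fin n) (Fin n) (L ⊗[k] D))
  have hPQ : Pm * Qm = 1 := by rw [← Units.val_mul, mul_inv_cancel, Units.val_one]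
  have hQP : Qm * Pm = 1 := by rw [← Units.val_mul, inv_mul_cancel, Units.val_one]
  have hT : Pmᵀ * Qmᵀ = 1 := by rw [← Matrix.transpose_mul, hQP, Matrix.transpose_one]
  have hT' : Qmᵀ * Pmᵀ = 1 := by rw [← Matrix.transpose_mul, hPQ, Matrix.transpose_one]
  let P' : GL (Fin n) (L ⊗[k] D) :=
    { val := (u : L ⊗[k] D) • Qmᵀ
      inv := ((u⁻¹ : (L ⊗[k] D)ˣ) : L ⊗[k] D) • Pmᵀ
      val_inv := by
        rw [Matrix.smul_mul, Matrix.mul_smul, smul_smul, hT', Units.mul_inv, one_smul]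
      inv_val := by
        rw [Matrix.smul_mul, Matrix.mul_smul, smul_smul, hT, Units.inv_mul, one_smul] }
  refine ⟨P', ?_, ?_⟩
  · intro g
    change mR k D (ρ' g : Matrix (Fin n) (Fin n) L) * ((u : L ⊗[k] D) • Qmᵀ).map (gR L (S.aD g)) =
      (u : L ⊗[k] D) • Qmᵀ
    -- multiply by `Pᵀ = (ρ g · g P)ᵀ`
    have e1 : Pmᵀ * (mR k D (ρ' g : Matrix (Fin n) (Fin n) L) *
        ((u : L ⊗[k] D) • Qmᵀ).map (gR L (S.aD g))) = (u : L ⊗[k] D) • 1 := by
      have e2 : Pmᵀ = (Pm.map (gR L (S.aD g)))ᵀ * (mR k D (ρ g : Matrix (Fin n) (Fin n) L))ᵀ := by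
        rw [← Matrix.transpose_mul]
        exact congrArg Matrix.transpose (hP g).symm
      have e3 : (mR k D (ρ g : Matrix (Fin n) (Fin n) L))ᵀ *
          mR k D (ρ' g : Matrix (Fin n) (Fin n) L) =
          algebraMap L (L ⊗[k] D) (algebraMap k L (chi g)) •
            (1 : Matrix (Fin n) (Fin n) (L ⊗[k] D)) := by
        have h4 := congrArg (fun M : Matrix (Fin n) (Fin n) L =>
          M.map (algebraMap L (L ⊗[k] D))) (hd g)
        simp only [Matrix.map_mul] at h4
        have h5 : (mR k D (ρ g : Matrix (Fin n) (Fin n) L))ᵀ *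
            mR k D (ρ' g : Matrix (Fin n) (Fin n) L) = _ := h4
        rw [h5]
        ext i j
        rw [Matrix.map_apply, Matrix.smul_apply, Matrix.smul_apply, smul_eq_mul, smul_eq_mul,
          map_mul]
        congr 1
        rw [Matrix.one_apply, Matrix.one_apply]
        split_ifs
        · rw [map_one]
        · rw [map_zero]
      have e4 : ((u : L ⊗[k] D) • Qmᵀ).map (gR L (S.aD g)) =
          gR L (S.aD g) (u : L ⊗[k] D) • (Qm.map (gR L (S.aD g)))ᵀ := by
        ext i j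
        rw [Matrix.map_apply, Matrix.smul_apply, Matrix.smul_apply, smul_eq_mul, smul_eq_mul,
          map_mul]
        rfl
      have e5 : (Pm.map (gR L (S.aD g)))ᵀ * (Qm.map (gR L (S.aD g)))ᵀ = 1 := by
        rw [← Matrix.transpose_mul, ← Matrix.map_mul, hQP]
        ext i j
        rw [Matrix.transpose_apply, Matrix.map_apply, Matrix.one_apply, Matrix.one_apply]
        by_cases h : i = j
        · subst h; simp
        · rw [if_neg h, if_neg (Ne.symm h), map_zero]
      have e6 : algebraMap L (L ⊗[k] D) (algebraMap k L (chi g)) *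
          gR L (S.aD g) (u : L ⊗[k] D) = u := by
        rw [hu', gR_tmul, Algebra.TensorProduct.algebraMap_apply,
          Algebra.TensorProduct.tmul_mul_tmul, one_mul, mul_one, Algebra.algebraMap_self_apply,
          Algebra.algebraMap_eq_smul_one, TensorProduct.smul_tmul, hs.a]
      rw [e2, e4, Matrix.mul_smul, Matrix.mul_smul, Matrix.mul_assoc,
        ← Matrix.mul_assoc _ (mR k D (ρ' g : Matrix (Fin n) (Fin n) L)), e3, Matrix.smul_mul,
        Matrix.one_mul, Matrix.mul_smul, e5, smul_smul, mul_comm, e6]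
    calc mR k D (ρ' g : Matrix (Fin n) (Fin n) L) * ((u : L ⊗[k] D) • Qmᵀ).map (gR L (S.aD g))
        = Qmᵀ * (Pmᵀ * (mR k D (ρ' g : Matrix (Fin n) (Fin n) L) *
          ((u : L ⊗[k] D) • Qmᵀ).map (gR L (S.aD g)))) := by
          rw [← Matrix.mul_assoc Qmᵀ, hT', Matrix.one_mul]
      _ = _ := by rw [e1, Matrix.mul_smul, Matrix.mul_one]
  · change Pmᵀ * ((u : L ⊗[k] D) • Qmᵀ) = _
    rw [Matrix.mul_smul, hT, hu']

/-- the sum of the codimensions of `Fil⁰` for `V` and its dual -/
lemma perF_orth {ρ ρ' : G →* GL (Fin n) L} {chi : G → k} {s : D} (hs : S.TInv chi s)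
    {P P' : GL (Fin n) (L ⊗[k] D)} (hP : S.IsPer ρ P) (hP' : S.IsPer ρ' P')
    (h : (P : Matrix (Fin n) (Fin n) (L ⊗[k] D))ᵀ *
      (P' : Matrix (Fin n) (Fin n) (L ⊗[k] D)) =
        ((1 : L) ⊗ₜ[k] s) • (1 : Matrix (Fin n) (Fin n) (L ⊗[k] D))) :
    n ≤ (n - Module.finrank L (perF hP)) + (n - Module.finrank L (perF hP')) := by
  have h1 : Module.finrank L (perF hP) + Module.finrank L (perF hP') ≤ n := by
    apply finrank_orth_le
    intro x hx y hy
    have hx' : Psi ((P : Matrix (Fin n) (Fin n) (L ⊗[k] D)) *ᵥ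
        (fun j => algebraMap L (L ⊗[k] D) (x j))) ∈ FilV L (Fin n → L) S.Dp := hx
    have hy' : Psi ((P' : Matrix (Fin n) (Fin n) (L ⊗[k] D)) *ᵥ
        (fun j => algebraMap L (L ⊗[k] D) (y j))) ∈ FilV L (Fin n → L) S.Dp := hy
    have h2 := pairD_mem_FilV S.Dp (dotL L n) hx' hy'
    rw [pairD_dotL, Phi_Psi, Phi_Psi] at h2
    have h3 : ((P : Matrix (Fin n) (Fin n) (L ⊗[k] D)) *ᵥ
        (fun j => algebraMap L (L ⊗[k] D) (x j))) ⬝ᵥ
        ((P' : Matrix (Fin n) (Fin n) (L ⊗[k] D)) *ᵥ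
        (fun j => algebraMap L (L ⊗[k] D) (y j))) = (x ⬝ᵥ y) ⊗ₜ s := by
      rw [← Matrix.vecMul_transpose, ← Matrix.dotProduct_mulVec, Matrix.mulVec_mulVec, h,
        Matrix.smul_mulVec, Matrix.one_mulVec, dotProduct_smul]
      have e1 : (fun j => algebraMap L (L ⊗[k] D) (x j)) ⬝ᵥ
          (fun j => algebraMap L (L ⊗[k] D) (y j)) = algebraMap L (L ⊗[k] D) (x ⬝ᵥ y) := by
        simp only [dotProduct, map_sum, map_mul]
      rw [e1, smul_eq_mul, Algebra.TensorProduct.algebraMap_apply,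
        Algebra.TensorProduct.tmul_mul_tmul, one_mul, mul_one]
      rfl
    rw [h3] at h2
    exact tmul_mem_FilV S.Dp h2 hs.n
  omega

end DRSetup

end MP_7c08ba.Crys
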