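import Mathlib
import Pool.Agent.Lib.MP_7c08ba_nt.Crys.Cts
import Pool.Agent.Lib.MP_7c08ba_nt.Crys.Hodge
import Pool.Agent.Lib.MP_7c08ba_nt.Odd.BKLoc

set_option autoImplicit false

/-!
# The exponential map and orthogonality for an abstract system of period rings
-/

namespace MP_7c08ba.Crys

open TensorProduct Matrix Filter Topology

section abs

variable {k : Type} [Field k] {G : Type} [Group G]
variable {L V : Type} [Field L] [Algebra k L] [AddCommGroup V] [Module k V] [Module L V]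
  [IsScalarTower k L V]
variable {B B' : Type} [CommRing B] [Algebra k B] [CommRing B'] [Algebra k B']

lemma psi_fix_abs (ph : B →ₐ[k] B) (ph' : B' →ₐ[k] B') (psi : B →ₐ[k] B') (kap : B' →ₐ[k] B)
    (h2 : ∀ x, psi (kap x) = ph' x) (h3 : ∀ x, kap (psi x) = ph x) {b : V ⊗[k] B}
    (hb : lT (L := L) ph b = b) : lT (L := L) ph' (lT (L := L) psi b) = lT (L := L) psi b := by
  apply eq_of_coord
  intro i
  have h1 := congrArg (fun x => coord x i) hb
  simp only [coord_lT (L := L)] at h1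
  rw [coord_lT (L := L), coord_lT (L := L), ← h2, h3, h1]

lemma kap_fix_abs (ph : B →ₐ[k] B) (ph' : B' →ₐ[k] B') (kap : B' →ₐ[k] B)
    (h2 : ∀ x, kap (ph' x) = ph (kap x)) {b : V ⊗[k] B'}
    (hb : lT (L := L) ph' b = b) : lT (L := L) ph (lT (L := L) kap b) = lT (L := L) kap b := by
  apply eq_of_coord
  intro i
  have h1 := congrArg (fun x => coord x i) hb
  simp only [coord_lT (L := L)] at h1
  rw [coord_lT (L := L), coord_lT (L := L), ← h2, h1]

lemma no_fixed_abs (ρ : G →* (V →ₗ[L] V)) (aB : G → B →ₐ[k] B) (aB' : G → B' →ₐ[k] B')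
    (ph : B →ₐ[k] B) (ph' : B' →ₐ[k] B') (psi : B →ₐ[k] B') (kap : B' →ₐ[k] B)
    (h1 : ∀ g x, psi (aB g x) = aB' g (psi x))
    (h2 : ∀ x, psi (kap x) = ph' x) (h3 : ∀ x, kap (psi x) = ph x)
    (hph : ∀ g x, ph' (aB' g x) = aB' g (ph' x))
    (hinj : Function.Injective (phSubB ρ aB' ph' hph)) (b : V ⊗[k] B) (hb : b ∈ DB ρ aB)
    (hbp : lT (L := L) ph b = b) : b = 0 := by
  have g1 : lT (L := L) psi b ∈ DB ρ aB' := by
    intro g
    rw [← lT_act (L := L) psi ρ aB aB' g (h1 g) b, hb g]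
  have g2 : (⟨lT (L := L) psi b, g1⟩ : DB ρ aB') = 0 := by
    apply hinj
    rw [map_zero]
    apply Subtype.ext
    rw [coe_phSubB, psi_fix_abs ph ph' psi kap h2 h3 hbp, sub_self]
    rfl
  have g3 : lT (L := L) psi b = 0 := congrArg Subtype.val g2
  rw [← hbp]
  apply eq_of_coord
  intro i
  have g4 := congrArg (fun x => coord x i) g3
  simp only [coord_lT (L := L)] at g4
  rw [coord_lT (L := L), ← h3, g4]
  simp

lemma exists_fixed_abs [Nontrivial B] [Nontrivial B'] (ρ : G →* (V →ₗ[L] V))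
    (aB : G → B →ₐ[k] B) (aB' : G → B' →ₐ[k] B')
    (ph : B →ₐ[k] B) (ph' : B' →ₐ[k] B') (kap : B' →ₐ[k] B)
    (h1 : ∀ g x, kap (aB' g x) = aB g (kap x)) (h2 : ∀ x, kap (ph' x) = ph (kap x))
    (hph : ∀ g x, ph' (aB' g x) = aB' g (ph' x))
    (hbij : Function.Surjective (phSubB ρ aB' ph' hph)) {c : G → V}
    (hc : c ∈ LinearMap.range (cocB ρ aB')) : ∃ b : V ⊗[k] B, lT (L := L) ph b = b ∧
      ∀ g, act ρ aB g b - b = inc k L V B (c g) := by
  obtain ⟨b, rfl⟩ := hc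
  have g1 : deltaB ρ aB' ph' hph b ∈ LinearMap.range (phSubB ρ aB' ph' hph) := hbij _
  obtain ⟨b₁, g2, g3⟩ := exists_fixed ρ aB' ph' hph b g1
  exact ⟨lT (L := L) kap b₁, kap_fix_abs ph ph' kap h2 g2, transport ρ aB' kap aB h1 g3⟩

lemma rank_le_abs {K M : Type} [Field K] [AddCommGroup M] [Module K M] (E Z B : Submodule K M)
    (hE : E ≤ Z) : Module.rank K E ≤
      Module.rank K ((E.submoduleOf Z).map (B.submoduleOf Z).mkQ) + Module.rank K B := by
  let E' : Submodule K Z := E.submoduleOf Z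
  let q : E' →ₗ[K] (Z ⧸ B.submoduleOf Z) := ((B.submoduleOf Z).mkQ).comp E'.subtype
  have h1 : Module.rank K E' = Module.rank K E := (Submodule.submoduleOfEquivOfLe hE).rank_eq
  have h2 := LinearMap.rank_range_add_rank_ker q
  have h3 : LinearMap.range q = E'.map (B.submoduleOf Z).mkQ := by
    rw [LinearMap.range_comp, Submodule.range_subtype]
  have h4 : Module.rank K (LinearMap.ker q) ≤ Module.rank K B := by
    let f : LinearMap.ker q →ₗ[K] B :=
      LinearMap.codRestrict _ ((Z.subtype.comp E'.subtype).comp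
        (LinearMap.ker q).subtype) (by
          rintro ⟨x, hx⟩
          rw [LinearMap.mem_ker] at hx
          change (B.submoduleOf Z).mkQ (x : Z) = 0 at hx
          rw [Submodule.mkQ_apply, Submodule.Quotient.mk_eq_zero] at hx
          exact hx)
    have hf : Function.Injective f := by
      intro x y hxy
      have h5 := congrArg Subtype.val hxy
      exact Subtype.ext (Subtype.ext (Subtype.ext h5))
    exact LinearMap.rank_le_of_injective f hf
  rw [← h1, ← h2, h3]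
  exact add_le_add_right h4 _

end abs

/-- A system of period rings: `B ⊆ D` as in the fundamental exact sequence, `C` (`= B_cris`) with
maps to and from `B`. -/
structure CrisSetup (p : ℕ) [Fact p.Prime] (G A B D C : Type) [Group G] [TopologicalSpace G]
    [CommRing A] [CommRing B] [CommRing D] [CommRing C] [Algebra ℚ_[p] B] [Algebra ℚ_[p] D]
    [Algebra ℚ_[p] C] extends DRSetup ℚ_[p] G B D where
  S : SmSetup p A B
  sml : ∀ b, S.Sml (𝓝 1) (fun g => aB g b - b)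
  ntC : Nontrivial C
  aC : G → C →ₐ[ℚ_[p]] C
  phC : C →ₐ[ℚ_[p]] C
  phC_a : ∀ g x, phC (aC g x) = aC g (phC x)
  psi : B →ₐ[ℚ_[p]] C
  kap : C →ₐ[ℚ_[p]] B
  psi_a : ∀ g x, psi (aB g x) = aC g (psi x)
  kap_a : ∀ g x, kap (aC g x) = aB g (kap x)
  psi_kap : ∀ x, psi (kap x) = phC x
  kap_psi : ∀ x, kap (psi x) = phB x
  kap_ph : ∀ x, kap (phC x) = phB (kap x)
  chi : G → ℚ_[p]
  s : D
  hs : toDRSetup.TInv chi s

namespace CrisSetup

variable {p : ℕ} [hp : Fact p.Prime]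
variable {G A B D C : Type} [Group G] [TopologicalSpace G] [CommRing A] [CommRing B]
  [CommRing D] [CommRing C] [Algebra ℚ_[p] B] [Algebra ℚ_[p] D] [Algebra ℚ_[p] C]
variable (R : CrisSetup p G A B D C)

section V

variable {L : Type} [Field L] [Algebra ℚ_[p] L]
variable {V : Type} [AddCommGroup V] [Module ℚ_[p] V]
  [Module L V] [IsScalarTower ℚ_[p] L V]
variable (ρ : G →* (V →ₗ[L] V))

/-- `φ - 1` on `D_cris` -/
noncomputable def phSubR : DB ρ R.aC →ₗ[L] DB ρ R.aC := phSubB ρ R.aC R.phC R.phC_a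

/-- functions which become trivial over `B_cris` -/
noncomputable def ZC : Submodule L (G → V) :=
  have := R.ntC
  LinearMap.range (cocB ρ R.aC)

lemma mem_ZC (c : G → V) : c ∈ R.ZC ρ ↔ ∃ b : V ⊗[ℚ_[p]] C, ∀ g,
    act ρ R.aC g b - b = inc ℚ_[p] L V C (c g) := by
  have := R.ntC
  exact mem_range_cocB ρ R.aC c

lemma coM_mem_ZC (b : R.M ρ) : R.coM ρ b ∈ R.ZC ρ := by
  rw [mem_ZC]
  exact ⟨lT (L := L) R.psi (b : V ⊗[ℚ_[p]] B), fun g =>
    transport ρ R.aB R.psi R.aC R.psi_a (fun g => (R.coM_spec ρ b g).symm) g⟩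

lemma coM_inj (h : Function.Injective (R.phSubR ρ)) : Function.Injective (R.coM ρ) :=
  R.coM_injective ρ (fun b hb hph =>
    no_fixed_abs ρ R.aB R.aC R.phB R.phC R.psi R.kap R.psi_a R.psi_kap R.kap_psi R.phC_a h b hb
      hph)

end V

section C

variable [IsTopologicalGroup G]
variable {L : Type} [Field L] [Algebra ℚ_[p] L]
variable {V : Type} [NormedAddCommGroup V] [NormedSpace ℚ_[p] V] [FiniteDimensional ℚ_[p] V]
  [Module L V] [IsScalarTower ℚ_[p] L V]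
variable {V' : Type} [NormedAddCommGroup V'] [NormedSpace ℚ_[p] V'] [FiniteDimensional ℚ_[p] V']
  [Module L V'] [IsScalarTower ℚ_[p] L V']
variable {W : Type} [NormedAddCommGroup W] [NormedSpace ℚ_[p] W] [FiniteDimensional ℚ_[p] W]
  [Module L W] [IsScalarTower ℚ_[p] L W]
variable (ρ : G →* (V →ₗ[L] V)) (ρ' : G →* (V' →ₗ[L] V')) (τ : G →* (W →ₗ[L] W))

lemma continuous_coM' (hρ : ∀ v, Tendsto (fun g => ρ g v) (𝓝 1) (𝓝 v)) (b : R.M ρ) :
    Continuous (R.coM ρ b) :=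
  R.continuous_coM (S := R.S) ρ R.sml hρ b

/-- orthogonality of the image of the exponential map and `H¹_f` of the dual -/
theorem ortho_cris (β : V →ₗ[L] V' →ₗ[L] W)
    (hβ : ∀ g v v', β (ρ g v) (ρ' g v') = τ g (β v v'))
    (hτ : ∀ v, Tendsto (fun g => τ g v) (𝓝 1) (𝓝 v))
    (hbij : Function.Surjective (R.phSubR ρ')) (b : R.M ρ)
    {y : G → V'} (hyc : Continuous y) (hy : y ∈ R.ZC ρ') :
    ∃ f : G → W, Continuous f ∧
      ∀ g h, β (R.coM ρ b g) (ρ' g (y h)) = τ g (f h) - f (g * h) + f g := by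
  have := R.nt
  have := R.ntC
  obtain ⟨b', h1, h2⟩ := exists_fixed_abs ρ' R.aB R.aC R.phB R.phC R.kap R.kap_a R.kap_ph
    R.phC_a hbij hy
  exact R.ortho_cont (S := R.S) ρ ρ' τ R.sml β hβ hτ b h1 hyc h2

end C

/-! ### Matrices -/

section mat

variable [IsTopologicalGroup G]
variable {L : Type} [NormedField L] [NormedAlgebra ℚ_[p] L] [FiniteDimensional ℚ_[p] L] {n : ℕ}

/-- cocycles which become trivial over `B_cris` -/
noncomputable def ZfR (ρ : G →* GL (Fin n) L) : Submodule L (G → Fin n → L) :=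
  BKOdd.Z1 ρ ⊓ R.ZC (rp ρ)

/-- de Rham -/
def DRR (ρ : G →* GL (Fin n) L) : Prop := ∃ P, R.toDRSetup.IsPer ρ P

omit [IsTopologicalGroup G] [FiniteDimensional ℚ_[p] L] in
lemma tendsto_rp {ρ : G →* GL (Fin n) L} (hρ : Continuous ρ) (v : Fin n → L) :
    Tendsto (fun g => rp ρ g v) (𝓝 1) (𝓝 v) := by
  have h1 : Continuous fun g => (ρ g : Matrix (Fin n) (Fin n) L) *ᵥ v :=
    (Units.continuous_val.comp hρ).matrix_mulVec continuous_const
  have h2 := h1.tendsto 1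
  simp only [map_one, Units.val_one, Matrix.one_mulVec] at h2
  exact h2

omit [IsTopologicalGroup G] [FiniteDimensional ℚ_[p] L] in
lemma B1_le (ρ : G →* GL (Fin n) L) (hρ : Continuous ρ) : BKOdd.B1 ρ ≤ R.ZfR ρ := by
  rintro x ⟨v, rfl⟩
  refine ⟨⟨?_, ?_⟩, ?_⟩
  · have h1 : Continuous fun g => (ρ g : Matrix (Fin n) (Fin n) L) *ᵥ v :=
      (Units.continuous_val.comp hρ).matrix_mulVec continuous_const
    exact h1.sub continuous_const
  · intro g h
    change (ρ (g * h) : Matrix (Fin n) (Fin n) L) *ᵥ v - v = ((ρ g : Matrix (Fin n) (Fin n) L) *ᵥ v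
      - v) + (ρ g : Matrix (Fin n) (Fin n) L) *ᵥ ((ρ h : Matrix (Fin n) (Fin n) L) *ᵥ v - v)
    rw [map_mul, Units.val_mul, Matrix.mulVec_sub, Matrix.mulVec_mulVec]
    abel
  · change _ ∈ R.ZC (rp ρ)
    rw [mem_ZC]
    refine ⟨inc ℚ_[p] L (Fin n → L) C v, fun g => ?_⟩
    rw [act_inc, ← map_sub]
    rfl

/-- the image of the exponential map, as a space of cocycles -/
noncomputable def ER (ρ : G →* GL (Fin n) L) : Submodule L (G → Fin n → L) :=
  LinearMap.range (R.coM (rp ρ))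

lemma ER_le (ρ : G →* GL (Fin n) L) (hρ : Continuous ρ) : R.ER ρ ≤ R.ZfR ρ := by
  rintro x ⟨b, rfl⟩
  refine ⟨⟨R.continuous_coM' (rp ρ) (tendsto_rp hρ) b, fun g h => ?_⟩, R.coM_mem_ZC (rp ρ) b⟩
  exact R.coM_mul (rp ρ) b g h

omit [IsTopologicalGroup G] [FiniteDimensional ℚ_[p] L] in
lemma rank_ER (ρ : G →* GL (Fin n) L) (h : Function.Injective (R.phSubR (rp ρ))) :
    Module.rank L (R.ER ρ) = n + R.rkQ (rp ρ) := by
  have h1 := (LinearEquiv.ofInjective (R.coM (rp ρ)) (R.coM_inj (rp ρ) h)).rank_eq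
  rw [R.rank_M (rp ρ), rank_fin_fun] at h1
  exact h1.symm

lemma rank_cls (ρ : G →* GL (Fin n) L) (hρ : Continuous ρ)
    (h : Function.Injective (R.phSubR (rp ρ))) :
    R.rkQ (rp ρ) ≤ Module.rank L (BKOdd.cls ρ (R.ER ρ)) := by
  have hle : R.ER ρ ≤ BKOdd.Z1 ρ := (R.ER_le ρ hρ).trans inf_le_left
  have h1 := rank_le_abs (R.ER ρ) (BKOdd.Z1 ρ) (BKOdd.B1 ρ) hle
  have h6 : Module.rank L (BKOdd.B1 ρ) ≤ n := by
    have := rank_range_le (BKOdd.cob ρ)
    rwa [rank_fin_fun] at this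
  rw [R.rank_ER ρ h] at h1
  have h5 : R.rkQ (rp ρ) + (n : Cardinal) ≤
      Module.rank L (BKOdd.cls ρ (R.ER ρ)) + (n : Cardinal) := by
    rw [add_comm]
    refine h1.trans ?_
    exact add_le_add_right h6 _
  exact (Cardinal.add_le_add_iff_of_lt_aleph0 (Cardinal.natCast_lt_aleph0 (n := n))).1 h5

/-- half of the properties -/
theorem half (ρ ρ' : G →* GL (Fin n) L) (χ : G →* L) (hχc : Continuous χ)
    (hd : ∀ g, (ρ g : Matrix (Fin n) (Fin n) L)ᵀ * (ρ' g : Matrix (Fin n) (Fin n) L) =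
      χ g • (1 : Matrix (Fin n) (Fin n) L))
    (h : Function.Surjective (R.phSubR (rp ρ'))) :
    ∀ x ∈ R.ER ρ, ∀ y ∈ R.ZfR ρ', BKOdd.cupV ρ' x y ∈ CC.B2 χ := by
  rintro x ⟨b, rfl⟩ y ⟨⟨hyc, -⟩, hy⟩
  let τ : G →* (L →ₗ[L] L) :=
    { toFun := fun g => LinearMap.lsmul L L (χ g)
      map_one' := by ext; simp
      map_mul' := fun g h => by ext; simp [mul_comm] }
  have hτ : ∀ g v, τ g v = χ g * v := fun g v => rfl
  have hβ : ∀ g v v', dotL L n (rp ρ g v) (rp ρ' g v') = τ g (dotL L n v v') := by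
    intro g v v'
    rw [hτ, dotL_apply, dotL_apply, rp_apply, rp_apply, ← Matrix.vecMul_transpose,
      ← Matrix.dotProduct_mulVec, Matrix.mulVec_mulVec, hd, Matrix.smul_mulVec,
      Matrix.one_mulVec, dotProduct_smul, smul_eq_mul]
  have hτc : ∀ v, Tendsto (fun g => τ g v) (𝓝 1) (𝓝 v) := by
    intro v
    have h1 : Continuous fun g => χ g * v := hχc.mul continuous_const
    have h2 := h1.tendsto 1
    simp only [map_one, one_mul] at h2
    exact h2
  obtain ⟨f, hf, hff⟩ := R.ortho_cris (rp ρ) (rp ρ') τ (dotL L n) hβ hτc h b hyc hy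
  refine ⟨f, hf, fun g h => ?_⟩
  have h1 := hff g h
  change (R.coM (rp ρ) b g) ⬝ᵥ ((ρ' g : Matrix (Fin n) (Fin n) L) *ᵥ (y h)) =
    χ g * f h - f (g * h) + f g at h1
  change (R.coM (rp ρ) b g) ⬝ᵥ ((ρ' g : Matrix (Fin n) (Fin n) L) *ᵥ (y h)) =
    f g + χ g * f h - f (g * h)
  rw [h1]; ring

/-- **The two properties of the exponential map.** -/
theorem hodgePair (ρ ρ' : G →* GL (Fin n) L) (hρ : Continuous ρ) (hρ' : Continuous ρ')
    (χ : G →* L) (hχ : ∀ g, χ g = algebraMap ℚ_[p] L (R.chi g)) (hχc : Continuous χ)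
    (hd : ∀ g, (ρ g : Matrix (Fin n) (Fin n) L)ᵀ * (ρ' g : Matrix (Fin n) (Fin n) L) =
      χ g • (1 : Matrix (Fin n) (Fin n) L))
    (hDR : R.DRR ρ) (h : Function.Bijective (R.phSubR (rp ρ)))
    (h' : Function.Bijective (R.phSubR (rp ρ'))) :
    ∃ r r' : ℕ, BKOdd.HodgePair χ R.ZfR ρ ρ' r r' ∧
      (r : Cardinal) ≤ R.rkQ (rp ρ) ∧ R.rkQ (rp ρ) ≤ Module.rank L (BKOdd.cls ρ (R.ZfR ρ)) ∧
      (r' : Cardinal) ≤ R.rkQ (rp ρ') ∧
      R.rkQ (rp ρ') ≤ Module.rank L (BKOdd.cls ρ' (R.ZfR ρ')) := by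
  have hd' : ∀ g, (ρ' g : Matrix (Fin n) (Fin n) L)ᵀ * (ρ g : Matrix (Fin n) (Fin n) L) =
      χ g • (1 : Matrix (Fin n) (Fin n) L) := by
    intro g
    have h1 := congrArg Matrix.transpose (hd g)
    rwa [Matrix.transpose_mul, Matrix.transpose_transpose, Matrix.transpose_smul,
      Matrix.transpose_one] at h1
  obtain ⟨P, hP⟩ := hDR
  obtain ⟨P', hP', hPP⟩ := DRSetup.exists_dual R.hs (ρ' := ρ')
    (fun g => by rw [hd g, hχ]) hP
  have key := DRSetup.perF_orth R.hs hP hP' hPP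
  have e1 := DRSetup.rank_quot hP
  have e1' := DRSetup.rank_quot hP'
  have e2 := R.rank_cls ρ hρ h.1
  have e2' := R.rank_cls ρ' hρ' h'.1
  have mono : ∀ (σ : G →* GL (Fin n) L), Continuous σ →
      BKOdd.cls σ (R.ER σ) ≤ BKOdd.cls σ (R.ZfR σ) := by
    intro σ hσ
    apply Submodule.map_mono
    intro x hx
    exact R.ER_le σ hσ hx
  refine ⟨_, _, ⟨R.B1_le ρ hρ, R.B1_le ρ' hρ', inf_le_left, inf_le_left, key,
    ⟨R.ER ρ, R.ER_le ρ hρ, ?_, R.half ρ ρ' χ hχc hd h'.2⟩,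
    ⟨R.ER ρ', R.ER_le ρ' hρ', ?_, R.half ρ' ρ χ hχc hd' h.2⟩⟩, e1,
    e2.trans (Submodule.rank_mono (mono ρ hρ)), e1', e2'.trans (Submodule.rank_mono (mono ρ' hρ'))⟩
  · intro hfd
    have h1 := e1.trans e2
    rw [← Module.finrank_eq_rank] at h1
    exact_mod_cast h1
  · intro hfd
    have h1 := e1'.trans e2'
    rw [← Module.finrank_eq_rank] at h1
    exact_mod_cast h1

end mat

end CrisSetup

end MP_7c08ba.Crys
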