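import Mathlib

/-!
# Elementary `p`-adic completeness
-/

namespace MP_7c08ba.Crys

open Finset

/-- `A` is `p`-torsion free and complete for the `p`-adic topology (elementary form). -/
structure PC (p : ℕ) (A : Type*) [CommRing A] : Prop where
  tf : ∀ x : A, (p : A) * x = 0 → x = 0
  haus : ∀ x : A, (∀ n : ℕ, (p : A) ^ n ∣ x) → x = 0
  comp : ∀ f : ℕ → A, ∃ s : A, ∀ n : ℕ, (p : A) ^ n ∣ s - ∑ i ∈ range n, (p : A) ^ i * f i

variable {p : ℕ} {A : Type*} [CommRing A]

lemma PC.of_adic (tf : ∀ x : A, (p : A) * x = 0 → x = 0)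
    [IsAdicComplete (Ideal.span {(p : A)}) A] : PC p A where
  tf := tf
  haus := by
    intro x hx
    apply (inferInstance : IsHausdorff (Ideal.span {(p : A)}) A).haus'
    intro n
    rw [SModEq.zero, smul_eq_mul, Ideal.mul_top, Ideal.span_singleton_pow,
      Ideal.mem_span_singleton]
    exact hx n
  comp := by
    intro f
    obtain ⟨L, hL⟩ := (inferInstance : IsPrecomplete (Ideal.span {(p : A)}) A).prec'
      (fun n => ∑ i ∈ range n, (p : A) ^ i * f i) (by
        intro m n hmn
        rw [SModEq.sub_mem, smul_eq_mul, Ideal.mul_top, Ideal.span_singleton_pow,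
          Ideal.mem_span_singleton, ← Finset.sum_range_add_sum_Ico _ hmn, sub_add_cancel_left]
        apply (dvd_neg).2
        apply Finset.dvd_sum
        intro i hi
        exact Dvd.dvd.mul_right (pow_dvd_pow _ (Finset.mem_Ico.1 hi).1) _)
    refine ⟨L, fun n => ?_⟩
    have := hL n
    rw [SModEq.sub_mem, smul_eq_mul, Ideal.mul_top, Ideal.span_singleton_pow,
          Ideal.mem_span_singleton] at this
    rw [← dvd_neg, neg_sub]
    exact this

lemma PC.adic (h : PC p A) : IsAdicComplete (Ideal.span {(p : A)}) A where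
  haus' := by
    intro x hx
    apply h.haus
    intro n
    have := hx n
    rw [SModEq.zero, smul_eq_mul, Ideal.mul_top, Ideal.span_singleton_pow,
      Ideal.mem_span_singleton] at this
    exact this
  prec' := by
    intro f hf
    have hf' : ∀ n, ∃ y, f (n + 1) - f n = (p : A) ^ n * y := by
      intro n
      have := hf (Nat.le_succ n)
      rw [SModEq.sub_mem, smul_eq_mul, Ideal.mul_top, Ideal.span_singleton_pow,
        Ideal.mem_span_singleton] at this
      obtain ⟨y, hy⟩ := this
      exact ⟨-y, by linear_combination -hy⟩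
    choose y hy using hf'
    obtain ⟨s, hs⟩ := h.comp y
    have hsum : ∀ n, ∑ i ∈ range n, (p : A) ^ i * y i = f n - f 0 := by
      intro n
      induction n with
      | zero => simp
      | succ n ih => rw [Finset.sum_range_succ, ih, ← hy]; ring
    refine ⟨s + f 0, fun n => ?_⟩
    rw [SModEq.sub_mem, smul_eq_mul, Ideal.mul_top, Ideal.span_singleton_pow,
        Ideal.mem_span_singleton]
    obtain ⟨t, ht⟩ := hs n
    rw [hsum] at ht
    exact ⟨-t, by linear_combination -ht⟩

lemma PC.tf_pow (h : PC p A) (n : ℕ) {x : A} (hx : (p : A) ^ n * x = 0) : x = 0 := by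
  induction n with
  | zero => simpa using hx
  | succ n ih =>
    apply ih
    apply h.tf
    rw [← mul_assoc, ← pow_succ']
    exact hx

lemma PC.cancel (h : PC p A) (n : ℕ) {x y : A} (hx : (p : A) ^ n * x = (p : A) ^ n * y) :
    x = y := by
  rw [← sub_eq_zero]
  apply h.tf_pow n
  rw [mul_sub, hx, sub_self]

lemma PC.eq_of_forall (h : PC p A) {x y : A} (hx : ∀ n : ℕ, (p : A) ^ n ∣ x - y) : x = y :=
  sub_eq_zero.1 (h.haus _ hx)

/-- The main successive approximation lemma: if every `x ∈ P` is `z * c + p * x'` with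
`x' ∈ P` then `z` divides all elements of `P`. -/
lemma PC.dvd_of_approx (h : PC p A) (P : A → Prop) (z : A)
    (hP : ∀ x, P x → ∃ c x', P x' ∧ x = z * c + (p : A) * x') {x : A} (hx : P x) : z ∣ x := by
  choose! c x' hx' hc using hP
  let it : ℕ → A := fun n => x'^[n] x
  have hit : ∀ n, P (it n) := by
    intro n
    induction n with
    | zero => exact hx
    | succ n ih =>
      simp only [it, Function.iterate_succ_apply'] at ih ⊢
      exact hx' _ ih
  obtain ⟨s, hs⟩ := h.comp (fun n => c (it n))
  have hsum : ∀ n, x = z * (∑ i ∈ range n, (p : A) ^ i * c (it i)) + (p : A) ^ n * it n := by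
    intro n
    induction n with
    | zero => simp [it]
    | succ n ih =>
      have h1 : it (n + 1) = x' (it n) := by simp only [it, Function.iterate_succ_apply']
      have h2 := hc _ (hit n)
      rw [← h1] at h2
      conv_lhs => rw [ih, h2]
      rw [Finset.sum_range_succ]
      ring
  refine ⟨s, h.eq_of_forall fun n => ?_⟩
  obtain ⟨t, ht⟩ := hs n
  have : s = (∑ i ∈ range n, (p : A) ^ i * c (it i)) + (p : A) ^ n * t := by
    rw [← ht]; ring
  have h3 := hsum n
  rw [this]
  refine ⟨it n - z * t, ?_⟩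
  conv_lhs => rw [h3]
  ring

/-- `1 + p x` is a unit -/
lemma PC.isUnit_one_add (h : PC p A) (x : A) : IsUnit (1 + (p : A) * x) := by
  rw [isUnit_iff_dvd_one]
  refine h.dvd_of_approx (fun _ => True) _ (fun y _ => ⟨y, - (x * y), trivial, ?_⟩) trivial
  ring

lemma PC.isUnit_of_mod (h : PC p A) {u v : A} (hu : IsUnit u) (hv : (p : A) ∣ v - u) :
    IsUnit v := by
  obtain ⟨w, rfl⟩ := hu
  obtain ⟨t, ht⟩ := hv
  have : v = w * (1 + (p : A) * (↑w⁻¹ * t)) := by
    have h1 : v = w + (p : A) * t := by rw [← ht]; ring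
    rw [h1, mul_add, mul_one, mul_left_comm, Units.mul_inv_cancel_left]
  rw [this]
  exact w.isUnit.mul (h.isUnit_one_add _)

/-- a natural number prime to `p` is a unit in a `p`-adically complete ring -/
lemma isUnit_natCast_of_not_dvd [hp : Fact p.Prime] (hA : PC p A) {m : ℕ} (hm : ¬ p ∣ m) :
    IsUnit (m : A) := by
  have hcop : Nat.Coprime m p := ((Nat.Prime.coprime_iff_not_dvd hp.1).2 hm).symm
  have hb := Nat.gcd_eq_gcd_ab m p
  rw [hcop] at hb
  have h1 : (1 : A) + (p : A) * (-((Nat.gcdB m p : ℤ) : A)) = (m : A) * ((Nat.gcdA m p : ℤ) : A) := by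
    have h2 := congrArg (Int.cast : ℤ → A) hb
    push_cast at h2
    rw [h2]; ring
  have h3 := hA.isUnit_one_add (-((Nat.gcdB m p : ℤ) : A))
  rw [h1] at h3
  exact isUnit_of_mul_isUnit_left h3

end MP_7c08ba.Crys
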