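import Mathlib

/-!
# The ring of integers of `ℂ_[p]`

Facts on `𝓞_ℂ_[p]`: it is `p`-adically complete, `p` is not a unit, it contains roots.
-/

namespace MP_7c08ba.Crys

open scoped NNReal

variable (p : ℕ) [hp : Fact p.Prime]

/-- The ring of integers of `ℂ_[p]`, as a type. -/
abbrev OC : Type := 𝓞_ℂ_[p]

variable {p}

lemma norm_eq_v (x : ℂ_[p]) : ‖x‖ = ((Valued.v x : ℝ≥0) : ℝ) := by
  rw [PadicComplex.norm_eq_norm, Valued.v.norm_def, PadicComplex.RankOne.hom_eq_embedding,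
    Valuation.embedding_restrict (PadicComplex.valued p).v x]

lemma nnnorm_eq_v (x : ℂ_[p]) : ‖x‖₊ = Valued.v x := by
  ext; rw [coe_nnnorm, norm_eq_v]

lemma mem_OC {x : ℂ_[p]} : x ∈ 𝓞_ℂ_[p] ↔ ‖x‖ ≤ 1 := by
  rw [norm_eq_v]
  exact Iff.symm NNReal.coe_le_one

lemma norm_p : ‖(p : ℂ_[p])‖ = (p : ℝ)⁻¹ := by
  rw [norm_eq_v, PadicComplex.valuation_p]; simp

lemma norm_p_pos : 0 < ‖(p : ℂ_[p])‖ := by
  rw [norm_p]; exact inv_pos.2 (by exact_mod_cast hp.1.pos)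

lemma norm_p_lt_one : ‖(p : ℂ_[p])‖ < 1 := by
  rw [norm_p]
  exact inv_lt_one_of_one_lt₀ (by exact_mod_cast hp.1.one_lt)

lemma norm_coe_le_one (x : OC p) : ‖(x : ℂ_[p])‖ ≤ 1 := mem_OC.1 x.2

/-- divisibility in the ring of integers -/
lemma dvd_iff_norm_le {x y : OC p} : x ∣ y ↔ ‖(y : ℂ_[p])‖ ≤ ‖(x : ℂ_[p])‖ := by
  constructor
  · rintro ⟨z, rfl⟩
    have h := norm_coe_le_one z
    simp only [MulMemClass.coe_mul, norm_mul]
    exact mul_le_of_le_one_right (norm_nonneg _) h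
  · intro h
    by_cases hx : (x : ℂ_[p]) = 0
    · rw [hx, norm_zero] at h
      have hy : (y : ℂ_[p]) = 0 := norm_le_zero_iff.1 h
      have : y = 0 := Subtype.ext hy
      rw [this]; exact dvd_zero _
    · have hpos : 0 < ‖(x : ℂ_[p])‖ := norm_pos_iff.2 hx
      refine ⟨⟨(y : ℂ_[p]) / x, mem_OC.2 ?_⟩, ?_⟩
      · rw [norm_div]; exact (div_le_one hpos).2 h
      · apply Subtype.ext
        simp only [MulMemClass.coe_mul]
        field_simp

lemma isUnit_iff_norm {x : OC p} : IsUnit x ↔ ‖(x : ℂ_[p])‖ = 1 := by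
  rw [isUnit_iff_dvd_one, dvd_iff_norm_le]
  have h := norm_coe_le_one x
  simp only [OneMemClass.coe_one, norm_one]
  exact ⟨fun h' => le_antisymm h h', fun h' => h'.ge⟩

lemma not_isUnit_p : ¬ IsUnit ((p : ℕ) : OC p) := by
  rw [isUnit_iff_norm]
  exact ne_of_lt norm_p_lt_one

instance factNotUnit : Fact (¬ IsUnit ((p : ℕ) : OC p)) := ⟨not_isUnit_p⟩

lemma pow_dvd_iff {x : OC p} {n : ℕ} :
    ((p : ℕ) : OC p) ^ n ∣ x ↔ ‖(x : ℂ_[p])‖ ≤ ‖(p : ℂ_[p])‖ ^ n := by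
  rw [dvd_iff_norm_le]
  simp

lemma OC_hausdorff {x : OC p} (h : ∀ n : ℕ, ((p : ℕ) : OC p) ^ n ∣ x) : x = 0 := by
  have h1 : ∀ n : ℕ, ‖(x : ℂ_[p])‖ ≤ ‖(p : ℂ_[p])‖ ^ n := fun n => pow_dvd_iff.1 (h n)
  have h2 : Filter.Tendsto (fun n : ℕ => ‖(p : ℂ_[p])‖ ^ n) Filter.atTop (nhds 0) :=
    tendsto_pow_atTop_nhds_zero_of_lt_one (norm_nonneg _) norm_p_lt_one
  have h3 : ‖(x : ℂ_[p])‖ ≤ 0 := ge_of_tendsto' h2 h1
  exact Subtype.ext (norm_le_zero_iff.1 h3)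

instance OC_charZero : CharZero (OC p) := inferInstance

lemma p_ne_zero_OC : ((p : ℕ) : OC p) ≠ 0 := by
  exact_mod_cast hp.1.ne_zero

instance OC_adic : IsAdicComplete (Ideal.span {((p : ℕ) : OC p)}) (OC p) where
  haus' := by
    intro x hx
    apply OC_hausdorff
    intro n
    have := hx n
    rw [SModEq.zero, smul_eq_mul, Ideal.mul_top, Ideal.span_singleton_pow,
      Ideal.mem_span_singleton] at this
    exact this
  prec' := by
    intro f hf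
    have key : ∀ {m n : ℕ}, m ≤ n → ‖((f m : OC p) : ℂ_[p]) - f n‖ ≤ ‖(p : ℂ_[p])‖ ^ m := by
      intro m n hmn
      have := hf hmn
      rw [SModEq.sub_mem, smul_eq_mul, Ideal.mul_top, Ideal.span_singleton_pow,
        Ideal.mem_span_singleton, pow_dvd_iff] at this
      exact this
    have hc : CauchySeq (fun n => ((f n : OC p) : ℂ_[p])) := by
      refine cauchySeq_of_le_tendsto_0 (fun n : ℕ => ‖(p : ℂ_[p])‖ ^ n) ?_
        (tendsto_pow_atTop_nhds_zero_of_lt_one (norm_nonneg _) norm_p_lt_one)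
      intro n m N hn hm
      rw [dist_eq_norm]
      have h1 := key hn
      have h2 := key hm
      have h3 : ((f n : OC p) : ℂ_[p]) - f m = (((f N : OC p) : ℂ_[p]) - f m)
        - (((f N : OC p) : ℂ_[p]) - f n) := by ring
      rw [h3, sub_eq_add_neg]
      refine (IsUltrametricDist.norm_add_le_max _ _).trans ?_
      rw [norm_neg]
      exact max_le h2 h1
    obtain ⟨L, hL⟩ := cauchySeq_tendsto_of_complete hc
    have hmem : L ∈ 𝓞_ℂ_[p] := by
      rw [mem_OC]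
      exact le_of_tendsto' hL.norm (fun n => norm_coe_le_one _)
    refine ⟨⟨L, hmem⟩, fun n => ?_⟩
    rw [SModEq.sub_mem, smul_eq_mul, Ideal.mul_top, Ideal.span_singleton_pow,
        Ideal.mem_span_singleton, pow_dvd_iff]
    have h4 : Filter.Tendsto (fun m => ‖((f n : OC p) : ℂ_[p]) - f m‖) Filter.atTop
        (nhds ‖((f n : OC p) : ℂ_[p]) - L‖) := (tendsto_const_nhds.sub hL).norm
    exact le_of_tendsto h4 (Filter.eventually_atTop.2 ⟨n, fun m hm => key hm⟩)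

/-- every element has an `n`-th root -/
lemma exists_root (x : OC p) {n : ℕ} (hn : 0 < n) : ∃ y : OC p, y ^ n = x := by
  obtain ⟨y, hy⟩ := IsAlgClosed.exists_pow_nat_eq (x : ℂ_[p]) hn
  have hy1 : ‖y‖ ≤ 1 := by
    have h : ‖y‖ ^ n ≤ 1 := by
      rw [← norm_pow, hy]; exact norm_coe_le_one x
    exact (pow_le_one_iff_of_nonneg (norm_nonneg _) hn.ne').1 h
  exact ⟨⟨y, mem_OC.2 hy1⟩, Subtype.ext (by simpa using hy)⟩

end MP_7c08ba.Crys
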