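import Mathlib
import Pool.Agent.Lib.MP_7c08ba_nt.Crys.Base

/-!
# The tilt of `𝓞_ℂ_[p]`
-/

namespace MP_7c08ba.Crys

open scoped NNReal
open PreTilt

variable (p : ℕ) [hp : Fact p.Prime]

/-- `𝒪_ℂ^♭`, the inverse limit perfection of `𝓞_ℂ_[p] / p`. -/
abbrev Tl : Type := PreTilt (OC p) p

variable {p}

/-- the untilt map `x ↦ x^♯` -/
noncomputable abbrev sh (x : Tl p) : OC p := PreTilt.untilt x

lemma sh_mul (x y : Tl p) : sh (x * y) = sh x * sh y := map_mul _ _ _
lemma sh_pow (x : Tl p) (n : ℕ) : sh (x ^ n) = sh x ^ n := map_pow _ _ _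
lemma sh_one : sh (1 : Tl p) = 1 := map_one _

/-- the `p ^ n`-th root -/
noncomputable def rt (n : ℕ) (x : Tl p) : Tl p := (frobeniusEquiv (Tl p) p).symm^[n] x

lemma rt_zero (x : Tl p) : rt 0 x = x := rfl

lemma rt_pow (n : ℕ) (x : Tl p) : rt n x ^ p ^ n = x := by
  unfold rt
  induction n with
  | zero => simp
  | succ n ih =>
    rw [Function.iterate_succ_apply', pow_succ', pow_mul, frobeniusEquiv_symm_pow_p, ih]

lemma rt_one_pow (x : Tl p) : rt 1 x ^ p = x := by simpa using rt_pow 1 x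

lemma rt_add (m n : ℕ) (x : Tl p) : rt m (rt n x) = rt (m + n) x := by
  unfold rt; rw [Function.iterate_add_apply]

lemma rt_mul (n : ℕ) (x y : Tl p) : rt n (x * y) = rt n x * rt n y := by
  unfold rt; exact iterate_map_mul _ _ _ _

lemma rt_of_pow (n : ℕ) (x : Tl p) : rt n (x ^ p ^ n) = x := by
  apply (show Function.Injective (fun y : Tl p => y ^ p ^ n) from ?_)
  · simp only [rt_pow]
  · have h := (iterateFrobeniusEquiv (Tl p) p n).injective
    intro a b hab
    apply h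
    simpa [iterateFrobeniusEquiv_apply, iterateFrobenius_def] using hab

lemma coeff_eq (n : ℕ) (x : Tl p) :
    PreTilt.coeff n x = Ideal.Quotient.mk _ (sh (rt n x)) := by
  rw [PreTilt.mk_untilt_eq_coeff_zero, rt, PreTilt.coeff_iterate_frobeniusEquiv_symm, zero_add]

lemma sh_rt_pow (n : ℕ) (x : Tl p) : sh (rt n x) ^ p ^ n = sh x := by
  rw [← map_pow, rt_pow]

lemma sh_rt_succ (n : ℕ) (x : Tl p) : sh (rt (n + 1) x) ^ p = sh (rt n x) := by
  rw [← map_pow, add_comm n 1, ← rt_add, rt_one_pow]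

lemma tl_ext {x y : Tl p} (h : ∀ n, sh (rt n x) = sh (rt n y)) : x = y := by
  apply Perfection.ext
  intro n
  have := coeff_eq n x
  have h2 := coeff_eq n y
  rw [h n, ← h2] at this
  exact this

lemma sh_zero : sh (0 : Tl p) = 0 := by
  have : (PreTilt.untilt (0 : Tl p)) = 0 := by
    have h := Perfection.teichmuller_zero (p := p) (I := Ideal.span {((p : ℕ) : OC p)})
    exact h
  exact this

lemma sh_eq_zero {x : Tl p} : sh x = 0 ↔ x = 0 := by
  constructor
  · intro h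
    apply tl_ext
    intro n
    have h1 : sh (rt n x) ^ p ^ n = 0 := by rw [sh_rt_pow, h]
    have h2 : sh (rt n x) = 0 := (pow_eq_zero_iff (pow_pos hp.1.pos n).ne').1 h1
    have h3 : sh (rt n (0 : Tl p)) ^ p ^ n = 0 := by rw [sh_rt_pow, sh_zero]
    have h4 : sh (rt n (0 : Tl p)) = 0 := (pow_eq_zero_iff (pow_pos hp.1.pos n).ne').1 h3
    rw [h2, h4]
  · rintro rfl; exact sh_zero

/-- an exact compatible system of `p`-power roots gives an element of the tilt -/
noncomputable def mkT (f : ℕ → OC p) (hf : ∀ n, f (n + 1) ^ p = f n) : Tl p :=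
  ⟨fun n => Ideal.Quotient.mk _ (f n), fun n => by rw [← map_pow, hf n]⟩

lemma coeff_mkT (f : ℕ → OC p) (hf : ∀ n, f (n + 1) ^ p = f n) (n : ℕ) :
    PreTilt.coeff n (mkT f hf) = Ideal.Quotient.mk _ (f n) := rfl

lemma pow_of_system (f : ℕ → OC p) (hf : ∀ n, f (n + 1) ^ p = f n) (m n : ℕ) :
    f (m + n) ^ p ^ n = f m := by
  induction n with
  | zero => simp
  | succ n ih => rw [← ih, pow_succ', pow_mul, ← add_assoc, hf]

lemma sh_mkT (f : ℕ → OC p) (hf : ∀ n, f (n + 1) ^ p = f n) : sh (mkT f hf) = f 0 := by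
  apply Perfection.teichmuller_spec
  intro n
  refine ⟨f n, rfl, ?_⟩
  have := pow_of_system f hf 0 n
  rw [zero_add] at this
  rw [this]

lemma sh_rt_mkT (f : ℕ → OC p) (hf : ∀ n, f (n + 1) ^ p = f n) (m : ℕ) :
    sh (rt m (mkT f hf)) = f m := by
  apply Perfection.teichmuller_spec
  intro n
  refine ⟨f (m + n), ?_, ?_⟩
  · have : Perfection.coeff (OC p ⧸ Ideal.span {((p : ℕ) : OC p)}) p n (rt m (mkT f hf))
      = PreTilt.coeff n (rt m (mkT f hf)) := rfl
    rw [this, rt, PreTilt.coeff_iterate_frobeniusEquiv_symm, add_comm n m]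
    rfl
  · rw [pow_of_system f hf m n]

/-- the absolute value of the tilt -/
noncomputable def nT (x : Tl p) : ℝ := ‖((sh x : OC p) : ℂ_[p])‖

lemma nT_nonneg (x : Tl p) : 0 ≤ nT x := norm_nonneg _
lemma nT_le_one (x : Tl p) : nT x ≤ 1 := norm_coe_le_one _
lemma nT_mul (x y : Tl p) : nT (x * y) = nT x * nT y := by simp [nT]
lemma nT_pow (x : Tl p) (n : ℕ) : nT (x ^ n) = nT x ^ n := by simp [nT]
lemma nT_one : nT (1 : Tl p) = 1 := by simp [nT]
lemma nT_eq_zero {x : Tl p} : nT x = 0 ↔ x = 0 := by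
  rw [nT, norm_eq_zero, ZeroMemClass.coe_eq_zero, sh_eq_zero]

lemma nT_rt_pow (n : ℕ) (x : Tl p) : nT (rt n x) ^ p ^ n = nT x := by
  rw [← nT_pow, rt_pow]

lemma tl_dvd {x y : Tl p} (h : nT x ≤ nT y) : y ∣ x := by
  by_cases hy : y = 0
  · have : nT x = 0 := le_antisymm (h.trans (nT_eq_zero.2 hy).le) (nT_nonneg x)
    rw [nT_eq_zero.1 this]; exact dvd_zero _
  · have hd : ∀ n, sh (rt n y) ∣ sh (rt n x) := by
      intro n
      rw [dvd_iff_norm_le]
      have h1 : nT (rt n x) ^ p ^ n ≤ nT (rt n y) ^ p ^ n := by rw [nT_rt_pow, nT_rt_pow]; exact h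
      exact (pow_le_pow_iff_left₀ (nT_nonneg _) (nT_nonneg _) (pow_pos hp.1.pos n).ne').1 h1
    have hy0 : ∀ n, sh (rt n y) ≠ 0 := by
      intro n h0
      apply hy
      rw [← sh_eq_zero, ← sh_rt_pow n y, h0, zero_pow (pow_pos hp.1.pos n).ne']
    choose c hc using hd
    have hcs : ∀ n, c (n + 1) ^ p = c n := by
      intro n
      have h1 := sh_rt_succ n x
      have h2 := sh_rt_succ n y
      rw [hc (n + 1), mul_pow, h2, hc n] at h1
      exact mul_left_cancel₀ (hy0 n) h1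
    refine ⟨mkT c hcs, tl_ext fun n => ?_⟩
    rw [rt_mul, sh_mul, sh_rt_mkT, hc n]

instance tl_nontrivial : Nontrivial (Tl p) := ⟨⟨0, 1, fun h => by
  have h1 := nT_one (p := p)
  rw [← h, nT_eq_zero.2 rfl] at h1
  exact zero_ne_one h1⟩⟩

instance tl_domain : IsDomain (Tl p) :=
  have : NoZeroDivisors (Tl p) := ⟨fun {a b} h => by
    have h1 : nT a * nT b = 0 := by rw [← nT_mul, h, nT_eq_zero.2 rfl]
    rcases mul_eq_zero.1 h1 with h2 | h2
    · exact Or.inl (nT_eq_zero.1 h2)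
    · exact Or.inr (nT_eq_zero.1 h2)⟩
  NoZeroDivisors.to_isDomain _

lemma exists_sh (a : OC p) : ∃ x : Tl p, sh x = a := by
  have h : ∀ b : OC p, ∃ c : OC p, c ^ p = b := fun b => exists_root b hp.1.pos
  choose r hr using h
  refine ⟨mkT (fun n => r^[n] a) (fun n => ?_), ?_⟩
  · rw [Function.iterate_succ_apply', hr]
  · rw [sh_mkT]; rfl

lemma exists_rt (x : Tl p) : ∃ y : Tl p, y ^ p = x := ⟨rt 1 x, rt_one_pow x⟩

end MP_7c08ba.Crys
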