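import Mathlib
import Pool.Agent.Lib.MP_7c08ba_nt.Crys.Tilt
import Pool.Agent.Lib.MP_7c08ba_nt.Crys.PC

/-!
# `A_inf` and Fontaine's `θ`
-/

namespace MP_7c08ba.Crys

open Finset

variable (p : ℕ) [hp : Fact p.Prime]

/-- `A_inf = W(𝒪_ℂ^♭)` -/
abbrev Ainf : Type := WittVector p (Tl p)

variable {p}

/-- Fontaine's map `θ : A_inf → 𝓞_ℂ_[p]` -/
noncomputable abbrev theta : Ainf p →+* OC p := WittVector.fontaineTheta (OC p) p

/-- Teichmueller lift -/
noncomputable abbrev tm (x : Tl p) : Ainf p := WittVector.teichmuller p x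

lemma tm_mul (x y : Tl p) : tm (x * y) = tm x * tm y :=
  map_mul (WittVector.teichmuller p) x y
lemma tm_pow (x : Tl p) (n : ℕ) : tm (x ^ n) = tm x ^ n :=
  map_pow (WittVector.teichmuller p) x n
lemma tm_one : tm (1 : Tl p) = 1 := map_one (WittVector.teichmuller p)

/-- Frobenius of `A_inf` -/
noncomputable abbrev phA : Ainf p →+* Ainf p := WittVector.frobenius

lemma theta_tm (x : Tl p) : theta (tm x) = sh x := WittVector.fontaineTheta_teichmuller x

lemma phA_tm (x : Tl p) : phA (tm x) = tm (x ^ p) := by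
  rw [phA, WittVector.frobenius_eq_map_frobenius, WittVector.map_teichmuller, frobenius_def]

lemma pcA : PC p (Ainf p) := PC.of_adic (fun x hx => by
  apply WittVector.eq_zero_of_p_mul_eq_zero
  rw [mul_comm]; exact hx)

lemma dvd_iff_coeff (x : Ainf p) : ((p : ℕ) : Ainf p) ∣ x ↔ x.coeff 0 = 0 := by
  rw [← Ideal.mem_span_singleton, WittVector.mem_span_p_iff_coeff_zero_eq_zero]

lemma coeff_sub (x y : Ainf p) : (x - y).coeff 0 = x.coeff 0 - y.coeff 0 :=
  map_sub (WittVector.constantCoeff : Ainf p →+* Tl p) x y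
lemma coeff_add (x y : Ainf p) : (x + y).coeff 0 = x.coeff 0 + y.coeff 0 :=
  map_add (WittVector.constantCoeff : Ainf p →+* Tl p) x y
lemma coeff_mul (x y : Ainf p) : (x * y).coeff 0 = x.coeff 0 * y.coeff 0 :=
  map_mul (WittVector.constantCoeff : Ainf p →+* Tl p) x y
lemma coeff_pow (x : Ainf p) (n : ℕ) : (x ^ n).coeff 0 = x.coeff 0 ^ n :=
  map_pow (WittVector.constantCoeff : Ainf p →+* Tl p) x n
lemma coeff_one : (1 : Ainf p).coeff 0 = 1 :=
  map_one (WittVector.constantCoeff : Ainf p →+* Tl p)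
lemma coeff_sum {ι : Type*} (s : Finset ι) (f : ι → Ainf p) :
    (∑ i ∈ s, f i).coeff 0 = ∑ i ∈ s, (f i).coeff 0 :=
  map_sum (WittVector.constantCoeff : Ainf p →+* Tl p) f s
lemma coeff_tm (x : Tl p) : (tm x).coeff 0 = x := WittVector.teichmuller_coeff_zero p x
lemma coeff_phA (x : Ainf p) : (phA x).coeff 0 = x.coeff 0 ^ p :=
  WittVector.coeff_frobenius_charP p x 0

lemma dvd_sub_tm (x : Ainf p) : ((p : ℕ) : Ainf p) ∣ x - tm (x.coeff 0) := by
  rw [dvd_iff_coeff, coeff_sub, coeff_tm, sub_self]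

lemma dvd_sub_of_coeff {x y : Ainf p} (h : x.coeff 0 = y.coeff 0) :
    ((p : ℕ) : Ainf p) ∣ x - y := by
  rw [dvd_iff_coeff, coeff_sub, h, sub_self]

lemma phA_mod (x : Ainf p) : ((p : ℕ) : Ainf p) ∣ phA x - x ^ p :=
  dvd_sub_of_coeff (by rw [coeff_phA, coeff_pow])

lemma theta_surj (a : OC p) : ∃ x : Ainf p, theta x = a := by
  obtain ⟨x, hx⟩ := exists_sh a
  exact ⟨tm x, by rw [theta_tm, hx]⟩

lemma theta_dvd_iff (x : Ainf p) :
    ((p : ℕ) : OC p) ∣ theta x ↔ ((p : ℕ) : OC p) ∣ sh (x.coeff 0) := by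
  have h : ((p : ℕ) : OC p) ∣ theta x - sh (x.coeff 0) := by
    obtain ⟨t, ht⟩ := dvd_sub_tm x
    refine ⟨theta t, ?_⟩
    rw [← theta_tm, ← map_sub, ht, map_mul, map_natCast]
  constructor
  · intro h1
    have := dvd_sub h1 h
    simpa using this
  · intro h1
    have := dvd_add h h1
    simpa using this

lemma nT_le_of_theta {x : Ainf p} (hx : theta x = 0) : nT (x.coeff 0) ≤ ‖(p : ℂ_[p])‖ := by
  have h : ((p : ℕ) : OC p) ∣ sh (x.coeff 0) := by
    rw [← theta_dvd_iff, hx]; exact dvd_zero _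
  have h1 := dvd_iff_norm_le.1 h
  exact h1

lemma theta_p_mul {x : Ainf p} (hx : theta ((p : Ainf p) * x) = 0) : theta x = 0 := by
  rw [map_mul, map_natCast] at hx
  rcases mul_eq_zero.1 hx with h | h
  · exact absurd h p_ne_zero_OC
  · exact h

/-- an element of `ker θ` whose reduction is not too small generates `ker θ` -/
lemma gen_of_norm {z : Ainf p} (hz : theta z = 0) (hn : ‖(p : ℂ_[p])‖ ≤ nT (z.coeff 0))
    {x : Ainf p} (hx : theta x = 0) : z ∣ x := by
  refine pcA.dvd_of_approx (fun y => theta y = 0) z ?_ hx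
  intro y hy
  obtain ⟨c, hc⟩ := tl_dvd ((nT_le_of_theta hy).trans hn)
  obtain ⟨t, ht⟩ := dvd_sub_of_coeff (x := y) (y := z * tm c)
    (by rw [hc, coeff_mul, coeff_tm])
  refine ⟨tm c, t, ?_, ?_⟩
  · apply theta_p_mul
    rw [← ht, map_sub, map_mul, hz, hy, zero_mul, sub_zero]
  · rw [← ht]; ring

end MP_7c08ba.Crys
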