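import Mathlib
import Pool.Agent.Lib.MP_7c08ba_nt.Crys.Ainf

/-!
# The action of `Gal(ℚ̄_p/ℚ_p)` on `ℂ_[p]`, `𝓞_ℂ_[p]`, the tilt and `A_inf`
-/

namespace MP_7c08ba.Crys

open Finset

variable (p : ℕ) [hp : Fact p.Prime]

/-- the absolute Galois group of `ℚ_p` -/
abbrev GQp : Type := PadicAlgCl p ≃ₐ[ℚ_[p]] PadicAlgCl p

variable {p}

lemma norm_gal (σ : GQp p) (x : PadicAlgCl p) : ‖σ x‖ = ‖x‖ := by
  rw [← PadicAlgCl.spectralNorm_eq, ← PadicAlgCl.spectralNorm_eq]
  exact (spectralNorm_eq_of_equiv σ x).symm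

/-- `σ` as a ring homomorphism -/
noncomputable def galR (σ : GQp p) : PadicAlgCl p →+* PadicAlgCl p := (σ : PadicAlgCl p ≃+* PadicAlgCl p)

lemma galR_apply (σ : GQp p) (x : PadicAlgCl p) : galR σ x = σ x := rfl

lemma continuous_galR (σ : GQp p) : Continuous (galR σ) := by
  have : Isometry (galR σ) := by
    apply AddMonoidHomClass.isometry_of_norm
    intro x
    exact norm_gal σ x
  exact this.continuous

/-- the action of the Galois group on `ℂ_[p]` by continuity -/
noncomputable def galC (σ : GQp p) : ℂ_[p] →+* ℂ_[p] :=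
  UniformSpace.Completion.mapRingHom (galR σ) (continuous_galR σ)

lemma galC_coe (σ : GQp p) (x : PadicAlgCl p) : galC σ (x : ℂ_[p]) = ((σ x : PadicAlgCl p) : ℂ_[p]) :=
  UniformSpace.Completion.mapRingHom_coe _ x

lemma continuous_galC (σ : GQp p) : Continuous (galC σ) :=
  UniformSpace.Completion.continuous_map

lemma norm_galC (σ : GQp p) (x : ℂ_[p]) : ‖galC σ x‖ = ‖x‖ := by
  induction x using UniformSpace.Completion.induction_on with
  | hp => exact isClosed_eq (continuous_galC σ).norm continuous_norm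
  | ih a => rw [galC_coe, PadicComplex.norm_extends, PadicComplex.norm_extends, norm_gal]

lemma galC_mul (σ τ : GQp p) (x : ℂ_[p]) : galC (σ * τ) x = galC σ (galC τ x) := by
  induction x using UniformSpace.Completion.induction_on with
  | hp => exact isClosed_eq (continuous_galC _) ((continuous_galC _).comp (continuous_galC _))
  | ih a => rw [galC_coe, galC_coe, galC_coe]; rfl

lemma galC_one (x : ℂ_[p]) : galC 1 x = x := by
  induction x using UniformSpace.Completion.induction_on with
  | hp => exact isClosed_eq (continuous_galC _) continuous_id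
  | ih a => rw [galC_coe]; rfl

lemma galC_algebraMap (σ : GQp p) (x : ℚ_[p]) :
    galC σ (algebraMap ℚ_[p] ℂ_[p] x) = algebraMap ℚ_[p] ℂ_[p] x := by
  have h : algebraMap ℚ_[p] ℂ_[p] x = ((algebraMap ℚ_[p] (PadicAlgCl p) x : PadicAlgCl p) : ℂ_[p]) :=
    rfl
  rw [h, galC_coe, AlgEquiv.commutes]

/-- the action on the ring of integers -/
noncomputable def galO (σ : GQp p) : OC p →+* OC p :=
  ((galC σ).comp (𝓞_ℂ_[p]).subtype).codRestrict (𝓞_ℂ_[p]) (fun x => by
    rw [mem_OC]
    change ‖galC σ x‖ ≤ 1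
    rw [norm_galC]; exact norm_coe_le_one x)

lemma coe_galO (σ : GQp p) (x : OC p) : ((galO σ x : OC p) : ℂ_[p]) = galC σ x := rfl

lemma galO_mul (σ τ : GQp p) (x : OC p) : galO (σ * τ) x = galO σ (galO τ x) :=
  Subtype.ext (by simp only [coe_galO, galC_mul])

lemma galO_one (x : OC p) : galO 1 x = x := Subtype.ext (by rw [coe_galO, galC_one])

lemma span_le_comap (σ : GQp p) :
    Ideal.span {((p : ℕ) : OC p)} ≤ Ideal.comap (galO σ) (Ideal.span {((p : ℕ) : OC p)}) := by
  rw [Ideal.span_singleton_le_iff_mem, Ideal.mem_comap, map_natCast]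
  exact Ideal.mem_span_singleton_self _

/-- the action on `𝓞 / p` -/
noncomputable def galModP (σ : GQp p) : ModP (OC p) p →+* ModP (OC p) p :=
  Ideal.quotientMap _ (galO σ) (span_le_comap σ)

/-- the action on the tilt -/
noncomputable def galT (σ : GQp p) : Tl p →+* Tl p := Perfection.map p (galModP σ)

lemma coeff_galT (σ : GQp p) (n : ℕ) (x : Tl p) :
    PreTilt.coeff n (galT σ x) = galModP σ (PreTilt.coeff n x) :=
  Perfection.coeff_map p (galModP σ) x n

lemma rt_galT (σ : GQp p) (n : ℕ) (x : Tl p) : rt n (galT σ x) = galT σ (rt n x) := by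
  conv_lhs => rw [← rt_pow n x, map_pow, rt_of_pow]

lemma sh_galT (σ : GQp p) (x : Tl p) : sh (galT σ x) = galO σ (sh x) := by
  apply Perfection.teichmuller_spec
  intro n
  refine ⟨galO σ (sh (rt n x)), ?_, ?_⟩
  · have h : Perfection.coeff (OC p ⧸ Ideal.span {((p : ℕ) : OC p)}) p n (galT σ x)
      = PreTilt.coeff n (galT σ x) := rfl
    rw [h, coeff_galT, coeff_eq]
    rfl
  · rw [← map_pow, sh_rt_pow]

lemma galT_mul (σ τ : GQp p) (x : Tl p) : galT (σ * τ) x = galT σ (galT τ x) := by
  apply tl_ext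
  intro n
  rw [rt_galT, rt_galT, rt_galT, sh_galT, sh_galT, sh_galT, galO_mul]

lemma galT_one (x : Tl p) : galT 1 x = x := by
  apply tl_ext
  intro n
  rw [rt_galT, sh_galT, galO_one]

/-- the action on `A_inf` -/
noncomputable def galA (σ : GQp p) : Ainf p →+* Ainf p := WittVector.map (galT σ)

lemma galA_tm (σ : GQp p) (x : Tl p) : galA σ (tm x) = tm (galT σ x) :=
  WittVector.map_teichmuller _ _ _

lemma coeff_galA (σ : GQp p) (n : ℕ) (x : Ainf p) : (galA σ x).coeff n = galT σ (x.coeff n) :=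
  WittVector.map_coeff _ _ _

lemma galA_mul (σ τ : GQp p) (x : Ainf p) : galA (σ * τ) x = galA σ (galA τ x) := by
  ext n
  simp only [coeff_galA, galT_mul]

lemma galA_one (x : Ainf p) : galA 1 x = x := by
  ext n
  simp only [coeff_galA, galT_one]

lemma phA_galA (σ : GQp p) (x : Ainf p) : phA (galA σ x) = galA σ (phA x) := by
  ext n
  rw [WittVector.coeff_frobenius_charP, coeff_galA, coeff_galA, WittVector.coeff_frobenius_charP,
    map_pow]

/-- uniqueness for homs out of `A_inf` -/
lemma hom_ext_Ainf {R : Type*} [CommRing R] (hR : ∀ x : R, (∀ n : ℕ, (p : R) ^ n ∣ x) → x = 0)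
    {f g : Ainf p →+* R} (h : ∀ x, f (tm x) = g (tm x)) : f = g := by
  ext x
  rw [← sub_eq_zero]
  apply hR
  intro n
  induction n generalizing x with
  | zero => simp
  | succ n ih =>
    obtain ⟨t, ht⟩ := dvd_sub_tm x
    obtain ⟨c, hc⟩ := ih t
    refine ⟨c, ?_⟩
    have hx : x = tm (x.coeff 0) + p * t := by rw [← ht]; ring
    rw [hx, map_add, map_add, h, map_mul, map_mul, map_natCast, map_natCast, pow_succ']
    linear_combination (p : R) * hc

lemma theta_galA (σ : GQp p) (x : Ainf p) : theta (galA σ x) = galO σ (theta x) := by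
  have : theta.comp (galA σ) = (galO σ).comp theta := by
    apply hom_ext_Ainf (fun y hy => OC_hausdorff hy)
    intro y
    simp only [RingHom.comp_apply]
    rw [galA_tm, theta_tm, theta_tm, sh_galT]
  exact RingHom.congr_fun this x

end MP_7c08ba.Crys
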