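import Mathlib
import Pool.Agent.Lib.MP_7c08ba_nt.Crys.Ainf

/-!
# Roots of unity in the tilt, the element `μ = [ε] - 1`
-/

namespace MP_7c08ba.Crys

open Finset

variable {p : ℕ} [hp : Fact p.Prime]

/-- all primitive `n`-th roots of unity have the same distance to `1` -/
lemma norm_sub_one_le {n : ℕ} [NeZero n] {z w : ℂ_[p]} (hz : IsPrimitiveRoot z n)
    (hw : IsPrimitiveRoot w n) : ‖1 - w‖ ≤ ‖1 - z‖ := by
  obtain ⟨i, -, hi⟩ := hz.eq_pow_of_pow_eq_one hw.pow_eq_one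
  have hz1 : ‖z‖ ≤ 1 := by
    have h1 : ‖z‖ ^ n = 1 := by rw [← norm_pow, hz.pow_eq_one, norm_one]
    exact (pow_le_one_iff_of_nonneg (norm_nonneg _) (NeZero.ne n)).1 h1.le
  rw [← hi, ← mul_neg_geom_sum, norm_mul]
  apply mul_le_of_le_one_right (norm_nonneg _)
  apply IsUltrametricDist.norm_sum_le_of_forall_le_of_nonneg zero_le_one
  intro k _
  rw [norm_pow]
  exact pow_le_one₀ (norm_nonneg _) hz1

lemma norm_one_sub_pow {k : ℕ} {z : ℂ_[p]} (hz : IsPrimitiveRoot z (p ^ (k + 1))) :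
    ‖1 - z‖ ^ (p ^ k * (p - 1)) = ‖(p : ℂ_[p])‖ := by
  have : NeZero (p ^ (k + 1)) := ⟨(pow_pos hp.1.pos _).ne'⟩
  have h1 := Polynomial.eval_one_cyclotomic_prime_pow (R := ℂ_[p]) k (p := p)
  rw [Polynomial.cyclotomic_eq_prod_X_sub_primitiveRoots hz, Polynomial.eval_prod] at h1
  rw [← h1, norm_prod, Finset.prod_congr rfl (g := fun _ => ‖1 - z‖)]
  · rw [Finset.prod_const, hz.card_primitiveRoots, Nat.totient_prime_pow_succ hp.1]
  · intro w hw
    have hw' := (mem_primitiveRoots (pow_pos hp.1.pos _)).1 hw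
    simp only [Polynomial.eval_sub, Polynomial.eval_X, Polynomial.eval_C]
    exact le_antisymm (norm_sub_one_le hz hw') (norm_sub_one_le hw' hz)

/-- `e ^ p` is a compatible system of primitive `p ^ n`-th roots of unity -/
structure IsGen (e : Tl p) : Prop where
  pow : sh e ^ p = 1
  ne : sh e ≠ 1

lemma exists_isGen : ∃ e : Tl p, IsGen e := by
  have : NeZero ((p : ℕ) : ℂ_[p]) := ⟨by exact_mod_cast hp.1.ne_zero⟩
  obtain ⟨z, hz⟩ := HasEnoughRootsOfUnity.exists_primitiveRoot ℂ_[p] p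
  have hz1 : ‖z‖ ≤ 1 := by
    have h1 : ‖z‖ ^ p = 1 := by rw [← norm_pow, hz.pow_eq_one, norm_one]
    exact (pow_le_one_iff_of_nonneg (norm_nonneg _) hp.1.ne_zero).1 h1.le
  obtain ⟨e, he⟩ := exists_sh (⟨z, mem_OC.2 hz1⟩ : OC p)
  refine ⟨e, ?_, ?_⟩
  · rw [he]; exact Subtype.ext (by simpa using hz.pow_eq_one)
  · rw [he]
    intro h
    exact hz.ne_one hp.1.one_lt (congrArg Subtype.val h)

namespace IsGen

variable {e : Tl p} (he : IsGen e)

include he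

lemma prim (k : ℕ) : IsPrimitiveRoot (((sh (rt k e) : OC p)) : ℂ_[p]) (p ^ (k + 1)) := by
  rw [IsPrimitiveRoot.iff_orderOf]
  apply orderOf_eq_prime_pow
  · intro h
    apply he.ne
    rw [← sh_rt_pow k e]
    exact Subtype.ext (by simpa using h)
  · have h1 := congrArg (Subtype.val) he.pow
    rw [pow_succ, pow_mul]
    rw [← sh_rt_pow k e] at h1
    simpa using h1

lemma ne_one : e ≠ 1 := by
  rintro rfl
  exact he.ne sh_one

lemma pow_ne_one : e ^ p ≠ 1 := by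
  intro h
  apply he.ne_one
  have h1 : (e - 1) ^ p = 0 := by
    rw [sub_pow_char, h, one_pow, sub_self]
  have h2 := (pow_eq_zero_iff hp.1.ne_zero).1 h1
  exact sub_eq_zero.1 h2

/-- `|ε^{1/p} - 1| ^ (p - 1) = |p|` -/
lemma nT_sub_one : nT (e - 1) ^ (p - 1) = ‖(p : ℂ_[p])‖ := by
  have h1 := Perfection.teichmuller₀_sModEq (p := p) (R := OC p)
    (I := Ideal.span {((p : ℕ) : OC p)}) (x := (e - 1 : Tl p)) (y := sh (rt 1 e) - 1) (n := 1) (by
      have h2 : Perfection.coeff (OC p ⧸ Ideal.span {((p : ℕ) : OC p)}) p 1 (e - 1 : Tl p)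
        = PreTilt.coeff 1 (e - 1 : Tl p) := rfl
      have h2' : PreTilt.coeff 1 (e - 1 : Tl p) = PreTilt.coeff 1 e - 1 := by
        rw [map_sub, map_one]
      rw [h2, h2', coeff_eq, map_sub, map_one])
  rw [SModEq.sub_mem, Ideal.span_singleton_pow, Ideal.mem_span_singleton, pow_one] at h1
  have h3 : ((p : ℕ) : OC p) ^ (1 + 1) ∣ sh (e - 1) - (sh (rt 1 e) - 1) ^ p := h1
  rw [pow_dvd_iff] at h3
  have hprim := he.prim 1
  have hk := norm_one_sub_pow hprim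
  rw [pow_one, ← norm_neg, neg_sub] at hk
  set w : ℂ_[p] := ((sh (rt 1 e) : OC p) : ℂ_[p]) - 1 with hw
  have h4 : ‖(((sh (e - 1) : OC p)) : ℂ_[p]) - w ^ p‖ ≤ ‖(p : ℂ_[p])‖ ^ 2 := by
    have := h3
    push_cast at this
    exact this
  have hwp : (‖w‖ ^ p) ^ (p - 1) = ‖(p : ℂ_[p])‖ := by rw [← pow_mul, hk]
  have hp1 : 1 ≤ p - 1 := by have := hp.1.two_le; omega
  have hwle : ‖w‖ ^ p ≤ 1 := by
    by_contra hcon
    push Not at hcon
    have := one_lt_pow₀ hcon (n := p - 1) (by omega)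
    rw [hwp] at this
    exact absurd norm_p_lt_one (not_lt.2 this.le)
  have h5 : ‖(p : ℂ_[p])‖ ≤ ‖w‖ ^ p := by
    rw [← hwp]
    calc (‖w‖ ^ p) ^ (p - 1) ≤ (‖w‖ ^ p) ^ 1 :=
          pow_le_pow_of_le_one (by positivity) hwle hp1
      _ = _ := pow_one _
  have h6 : ‖(p : ℂ_[p])‖ ^ 2 < ‖w ^ p‖ := by
    rw [norm_pow]
    refine lt_of_lt_of_le ?_ h5
    rw [pow_two]
    exact mul_lt_of_lt_one_left norm_p_pos norm_p_lt_one
  have h7 : ‖(((sh (e - 1) : OC p)) : ℂ_[p])‖ = ‖w ^ p‖ := by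
    have h8 := lt_of_le_of_lt h4 h6
    have h9 : ‖w ^ p‖ ≠ ‖(((sh (e - 1) : OC p)) : ℂ_[p]) - w ^ p‖ := ne_of_gt h8
    have h10 := IsUltrametricDist.norm_add_eq_max_of_norm_ne_norm h9
    rw [add_sub_cancel, max_eq_left h8.le] at h10
    exact h10
  rw [nT, h7, norm_pow, hwp]

end IsGen

end MP_7c08ba.Crys
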