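import Mathlib
import Pool.Agent.Lib.MP_7c08ba_nt.Crys.Eps

/-!
# `μ = [ε] - 1`, `ω = μ / φ⁻¹(μ)`
-/

namespace MP_7c08ba.Crys

open Finset

variable {p : ℕ} [hp : Fact p.Prime]

/-- `[ε^{1/p}] - 1` -/
noncomputable def mu1 (e : Tl p) : Ainf p := tm e - 1
/-- `[ε] - 1` -/
noncomputable def mu (e : Tl p) : Ainf p := tm (e ^ p) - 1
/-- `ω = 1 + [ε^{1/p}] + .. + [ε^{1/p}]^{p-1}` -/
noncomputable def om (e : Tl p) : Ainf p := ∑ i ∈ range p, tm e ^ i

lemma mu_eq (e : Tl p) : mu e = mu1 e * om e := by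
  rw [mu, mu1, om, tm_pow, mul_geom_sum]

lemma phA_mu1 (e : Tl p) : phA (mu1 e) = mu e := by
  rw [mu1, mu, map_sub, map_one, phA_tm]

lemma phA_iter_tm (k : ℕ) (x : Tl p) : phA^[k] (tm x) = tm (x ^ p ^ k) := by
  induction k with
  | zero => simp
  | succ k ih => rw [Function.iterate_succ_apply', ih, phA_tm, ← pow_mul, ← pow_succ]

/-- iterates of `phA` as ring homs -/
noncomputable def phAk (k : ℕ) : Ainf p →+* Ainf p := (phA : Ainf p →+* Ainf p) ^ k

lemma phAk_eq (k : ℕ) (x : Ainf p) : phAk k x = phA^[k] x := by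
  rw [phAk, RingHom.coe_pow]

namespace IsGen

variable {e : Tl p} (he : IsGen e)

include he

lemma sh_pow_pow (k : ℕ) : sh (e ^ p ^ (k + 1)) = 1 := by
  rw [sh_pow, pow_succ', pow_mul, he.pow, one_pow]

lemma theta_om : theta (om e) = 0 := by
  have h1 : (sh e - 1) * theta (om e) = 0 := by
    rw [om, map_sum]
    simp only [map_pow, theta_tm]
    rw [mul_geom_sum, he.pow, sub_self]
  rcases mul_eq_zero.1 h1 with h | h
  · exact absurd (sub_eq_zero.1 h) he.ne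
  · exact h

lemma theta_phA_om (k : ℕ) : theta (phA^[k + 1] (om e)) = p := by
  rw [← phAk_eq, om, map_sum, map_sum]
  have h : ∀ i, theta (phAk (k + 1) (tm e ^ i)) = 1 := by
    intro i
    rw [map_pow, map_pow, phAk_eq, phA_iter_tm, theta_tm, he.sh_pow_pow, one_pow]
  rw [Finset.sum_congr rfl (fun i _ => h i)]
  simp

lemma theta_phA_mu (k : ℕ) : theta (phA^[k] (mu e)) = 0 := by
  rw [← phAk_eq, mu, map_sub, map_one, phAk_eq, phA_iter_tm, map_sub, map_one, theta_tm, sh_pow,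
    sh_pow, he.pow, one_pow, sub_self]

lemma theta_mu : theta (mu e) = 0 := he.theta_phA_mu 0

lemma coeff_om : (om e).coeff 0 = (e - 1) ^ (p - 1) := by
  have h1 : (e - 1) * (om e).coeff 0 = (e - 1) * (e - 1) ^ (p - 1) := by
    rw [om, coeff_sum]
    simp only [coeff_pow, coeff_tm]
    rw [mul_geom_sum, ← pow_succ', Nat.sub_add_cancel hp.1.one_le, sub_pow_char, one_pow]
  exact mul_left_cancel₀ (sub_ne_zero.2 he.ne_one) h1

lemma nT_om : nT ((om e).coeff 0) = ‖(p : ℂ_[p])‖ := by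
  rw [he.coeff_om, nT_pow, he.nT_sub_one]

lemma gen_om {x : Ainf p} (hx : theta x = 0) : om e ∣ x :=
  gen_of_norm he.theta_om he.nT_om.ge hx

lemma nT_mu : nT ((mu e).coeff 0) ^ (p - 1) = ‖(p : ℂ_[p])‖ ^ p := by
  have : (mu e).coeff 0 = (e - 1) ^ p := by
    rw [mu, coeff_sub, coeff_tm, coeff_one, sub_pow_char, one_pow]
  rw [this, nT_pow, ← pow_mul, mul_comm, pow_mul, he.nT_sub_one]

lemma mu_coeff_ne : (mu e).coeff 0 ≠ 0 := by
  intro h
  have h1 := he.nT_mu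
  rw [h, nT_eq_zero.2 rfl, zero_pow (by have := hp.1.two_le; omega)] at h1
  exact absurd h1.symm (pow_pos norm_p_pos _).ne'

/-- elements killed by all `θ ∘ φ^k` -/
def InI (x : Ainf p) : Prop := ∀ k : ℕ, theta (phA^[k] x) = 0

omit he in
lemma InI.exists_om (he : IsGen e) {x : Ainf p} (hx : InI x) :
    ∃ y, x = om e * y ∧ InI (phA y) := by
  obtain ⟨y, hy⟩ := he.gen_om (hx 0)
  refine ⟨y, hy, fun k => ?_⟩
  have h1 := hx (k + 1)
  have hy' : x = om e * y := hy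
  rw [hy', ← phAk_eq, map_mul, map_mul, phAk_eq, he.theta_phA_om, phAk_eq] at h1
  rw [← Function.iterate_succ_apply]
  rcases mul_eq_zero.1 h1 with h | h
  · exact absurd h p_ne_zero_OC
  · exact h

lemma nT_le_of_InI {x : Ainf p} (hx : InI x) : nT (x.coeff 0) ≤ nT ((mu e).coeff 0) := by
  set S : Set ℝ := {t | ∃ x : Ainf p, InI x ∧ t = nT (x.coeff 0)} with hS
  have hbdd : BddAbove S := ⟨1, by rintro t ⟨x, -, rfl⟩; exact nT_le_one _⟩
  have hne : S.Nonempty := ⟨_, x, hx, rfl⟩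
  set s := sSup S with hs
  have hle : ∀ y : Ainf p, InI y → nT (y.coeff 0) ≤ s := fun y hy =>
    le_csSup hbdd ⟨y, hy, rfl⟩
  have hs0 : 0 ≤ s := (nT_nonneg _).trans (hle x hx)
  have hkey : ∀ y : Ainf p, InI y → nT (y.coeff 0) ^ p ≤ ‖(p : ℂ_[p])‖ ^ p * s := by
    intro y hy
    obtain ⟨z, hz, hz'⟩ := hy.exists_om he
    have h1 := hle _ hz'
    rw [coeff_phA, nT_pow] at h1
    have : y.coeff 0 = (om e).coeff 0 * z.coeff 0 := by rw [hz, coeff_mul]
    rw [this, nT_mul, mul_pow, he.nT_om]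
    exact mul_le_mul_of_nonneg_left h1 (pow_nonneg (norm_nonneg _) _)
  have hsp : s ^ p ≤ ‖(p : ℂ_[p])‖ ^ p * s := by
    have h0 : 0 ≤ ‖(p : ℂ_[p])‖ ^ p * s := mul_nonneg (pow_nonneg (norm_nonneg _) _) hs0
    have h1 : s ≤ (‖(p : ℂ_[p])‖ ^ p * s) ^ ((p : ℝ)⁻¹) := by
      apply csSup_le hne
      rintro t ⟨y, hy, rfl⟩
      rw [Real.le_rpow_inv_iff_of_pos (nT_nonneg _) h0 (by exact_mod_cast hp.1.pos),
        Real.rpow_natCast]
      exact hkey y hy
    rw [Real.le_rpow_inv_iff_of_pos hs0 h0 (by exact_mod_cast hp.1.pos), Real.rpow_natCast] at h1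
    exact h1
  refine (hle x hx).trans ?_
  rcases hs0.eq_or_lt with h | h
  · rw [← h]; exact nT_nonneg _
  · have h2 : s ^ (p - 1) ≤ ‖(p : ℂ_[p])‖ ^ p := by
      have h3 : s ^ p = s ^ (p - 1) * s := by
        rw [← pow_succ, Nat.sub_add_cancel hp.1.one_le]
      rw [h3] at hsp
      exact le_of_mul_le_mul_right hsp h
    rw [← he.nT_mu] at h2
    exact (pow_le_pow_iff_left₀ hs0 (nT_nonneg _) (by have := hp.1.two_le; omega)).1 h2

/-- elements of `A_inf` killed by all `θ ∘ φ^k` are multiples of `μ` -/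
lemma mu_dvd {x : Ainf p} (hx : InI x) : mu e ∣ x := by
  refine pcA.dvd_of_approx InI (mu e) ?_ hx
  intro y hy
  obtain ⟨c, hc⟩ := tl_dvd (he.nT_le_of_InI hy)
  obtain ⟨t, ht⟩ := dvd_sub_of_coeff (x := y) (y := mu e * tm c)
    (by rw [hc, coeff_mul, coeff_tm])
  refine ⟨tm c, t, fun k => ?_, ?_⟩
  · have h1 : theta (phA^[k] ((p : Ainf p) * t)) = 0 := by
      rw [← ht, ← phAk_eq, map_sub, map_sub, map_mul, map_mul, phAk_eq, phAk_eq, hy k,
        he.theta_phA_mu k, zero_mul, sub_zero]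
    rw [← phAk_eq, map_mul, map_natCast, phAk_eq] at h1
    exact theta_p_mul h1
  · rw [← ht]; ring

end IsGen

end MP_7c08ba.Crys
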