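import Mathlib
import Pool.Agent.Lib.MP_7c08ba_nt.Crys.Gal
import Pool.Agent.Lib.MP_7c08ba_nt.Crys.Mu

/-!
# The cyclotomic character
-/

namespace MP_7c08ba.Crys

open Finset

variable {p : ℕ} [hp : Fact p.Prime]

/-- the `p`-adic cyclotomic character -/
noncomputable def chiZ : GQp p →* ℤ_[p]ˣ :=
  (cyclotomicCharacter (PadicAlgCl p) p).comp
    (MulSemiringAction.toRingAut (GQp p) (PadicAlgCl p))

lemma neZero_pow (n : ℕ) : NeZero ((p ^ n : ℕ) : PadicAlgCl p) :=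
  ⟨by exact_mod_cast (pow_pos hp.1.pos n).ne'⟩

instance enough (n : ℕ) : HasEnoughRootsOfUnity (PadicAlgCl p) (p ^ n) := by
  have := neZero_pow (p := p) n
  infer_instance

/-- the exponent modulo `p ^ n` -/
noncomputable def chiN (n : ℕ) (σ : GQp p) : ℕ :=
  (PadicInt.toZModPow n ((chiZ σ : ℤ_[p]ˣ) : ℤ_[p])).val

lemma gal_root (σ : GQp p) {n : ℕ} (t : PadicAlgCl p) (ht : t ^ p ^ n = 1) :
    σ t = t ^ chiN n σ :=
  cyclotomicCharacter.spec (L := PadicAlgCl p) p (MulSemiringAction.toRingAut (GQp p) _ σ) t ht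

lemma galC_root (σ : GQp p) {n : ℕ} (z : ℂ_[p]) (hz : z ^ p ^ n = 1) :
    galC σ z = z ^ chiN n σ := by
  obtain ⟨ζ, hζ⟩ := HasEnoughRootsOfUnity.exists_primitiveRoot (PadicAlgCl p) (p ^ n)
  have : NeZero (p ^ n) := ⟨(pow_pos hp.1.pos n).ne'⟩
  have hζ' : IsPrimitiveRoot ((ζ : PadicAlgCl p) : ℂ_[p]) (p ^ n) := by
    have h := hζ.map_of_injective (f := algebraMap (PadicAlgCl p) ℂ_[p])
      (algebraMap (PadicAlgCl p) ℂ_[p]).injective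
    exact h
  obtain ⟨i, -, hi⟩ := hζ'.eq_pow_of_pow_eq_one hz
  rw [← hi, map_pow, galC_coe, gal_root σ ζ hζ.pow_eq_one, ← pow_mul, mul_comm, pow_mul]
  congr 1
  exact map_pow (algebraMap (PadicAlgCl p) ℂ_[p]) ζ _

lemma norm_chi_sub (σ : GQp p) (n : ℕ) :
    ‖algebraMap ℚ_[p] ℂ_[p] (((chiZ σ : ℤ_[p]ˣ) : ℤ_[p]) : ℚ_[p]) - (chiN n σ : ℂ_[p])‖ ≤
      ‖(p : ℂ_[p])‖ ^ n := by
  have h1 : ‖(((chiZ σ : ℤ_[p]ˣ) : ℤ_[p])) - (chiN n σ : ℤ_[p])‖ ≤ (p : ℝ) ^ (-n : ℤ) := by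
    rw [PadicInt.norm_le_pow_iff_mem_span_pow, ← PadicInt.ker_toZModPow, RingHom.mem_ker,
      map_sub, map_natCast, chiN, ZMod.natCast_val, ZMod.cast_id', id, sub_self]
  have h2 : algebraMap ℚ_[p] ℂ_[p] (((chiZ σ : ℤ_[p]ˣ) : ℤ_[p]) : ℚ_[p]) - (chiN n σ : ℂ_[p]) =
      algebraMap ℚ_[p] ℂ_[p] ((((chiZ σ : ℤ_[p]ˣ) : ℤ_[p]) - (chiN n σ : ℤ_[p]) : ℤ_[p]) : ℚ_[p]) := by
    rw [PadicInt.coe_sub, PadicInt.coe_natCast, map_sub, map_natCast]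
  rw [h2, norm_algebraMap', norm_p]
  rw [PadicInt.padic_norm_e_of_padicInt]
  refine h1.trans (le_of_eq ?_)
  rw [zpow_neg, zpow_natCast, inv_pow]

section w

variable {e : Tl p} (he : IsGen e)

lemma InI_tm {η : Tl p} (h : sh η = 1) : IsGen.InI (tm η - 1) := by
  intro k
  rw [← phAk_eq, map_sub, map_one, phAk_eq, phA_iter_tm, map_sub, map_one, theta_tm, sh_pow, h,
    one_pow, sub_self]

lemma one_add_pow_eq {A : Type*} [CommRing A] (x : A) (k : ℕ) :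
    ∃ d, (1 + x) ^ k = 1 + k * x + x ^ 2 * d := by
  induction k with
  | zero => exact ⟨0, by simp⟩
  | succ k ih =>
    obtain ⟨d, hd⟩ := ih
    refine ⟨d + k + x * d, ?_⟩
    rw [pow_succ, hd]; push_cast; ring

include he

lemma nT_eps : nT (e ^ p) = 1 := by
  rw [nT, sh_pow, he.pow]; simp

lemma sh_rt_eps_pow (j n : ℕ) (h : j ≤ n) : sh (rt j (e ^ p)) ^ p ^ n = 1 := by
  obtain ⟨k, rfl⟩ := Nat.exists_eq_add_of_le h
  rw [pow_add, pow_mul, sh_rt_pow, sh_pow, he.pow, one_pow]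

lemma galO_sh_rt (σ : GQp p) (j n : ℕ) (h : j ≤ n) :
    galO σ (sh (rt j (e ^ p))) = sh (rt j (e ^ p)) ^ chiN n σ := by
  apply Subtype.ext
  rw [coe_galO]
  have h1 := congrArg Subtype.val (sh_rt_eps_pow he j n h)
  have h2 : (((sh (rt j (e ^ p)) : OC p)) : ℂ_[p]) ^ p ^ n = 1 := by simpa using h1
  rw [galC_root σ _ h2]
  rfl

lemma galT_eps (σ : GQp p) (n : ℕ) : ∃ η : Tl p, sh η = 1 ∧
    galT σ (e ^ p) = (e ^ p) ^ chiN n σ * η ^ p ^ n := by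
  have h1 : nT (galT σ (e ^ p)) ≤ nT ((e ^ p) ^ chiN n σ) := by
    rw [nT_pow, nT_eps he, one_pow]; exact nT_le_one _
  obtain ⟨η', hη'⟩ := tl_dvd h1
  refine ⟨rt n η', ?_, ?_⟩
  · have h2 := congrArg (fun x => sh (rt n x)) hη'
    simp only [rt_galT, sh_galT, rt_mul, sh_mul] at h2
    rw [galO_sh_rt he σ n n le_rfl] at h2
    have h3 : rt n ((e ^ p) ^ chiN n σ) = rt n (e ^ p) ^ chiN n σ := by
      unfold rt
      exact iterate_map_pow _ _ _ _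
    rw [h3, sh_pow] at h2
    have h4 : sh (rt n (e ^ p)) ^ chiN n σ ≠ 0 := by
      apply pow_ne_zero
      intro h0
      have h5 := sh_rt_eps_pow he n n le_rfl
      rw [h0, zero_pow (pow_pos hp.1.pos n).ne'] at h5
      exact zero_ne_one h5
    apply mul_left_cancel₀ h4
    rw [mul_one]
    exact h2.symm
  · rw [rt_pow]; exact hη'

lemma exists_w (σ : GQp p) : ∃ w : Ainf p, galA σ (mu e) = mu e * w ∧
    ((theta w : OC p) : ℂ_[p]) =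
      algebraMap ℚ_[p] ℂ_[p] (((chiZ σ : ℤ_[p]ˣ) : ℤ_[p]) : ℚ_[p]) := by
  have h1 : IsGen.InI (galA σ (mu e)) := by
    have h2 : galA σ (mu e) = tm (galT σ (e ^ p)) - 1 := by
      rw [mu, map_sub, map_one, galA_tm]
    rw [h2]
    apply InI_tm
    rw [sh_galT, sh_pow, he.pow, map_one]
  obtain ⟨w, hw⟩ := he.mu_dvd h1
  refine ⟨w, hw, ?_⟩
  have hmu : mu e ≠ 0 := by
    intro h
    apply he.mu_coeff_ne
    rw [h, WittVector.zero_coeff]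
  have key : ∀ n : ℕ, ‖((theta w : OC p) : ℂ_[p]) - (chiN n σ : ℂ_[p])‖ ≤
      ‖(p : ℂ_[p])‖ ^ n := by
    intro n
    obtain ⟨η, h3, h4⟩ := galT_eps he σ n
    obtain ⟨c, hc⟩ := he.mu_dvd (InI_tm h3)
    obtain ⟨d1, hd1⟩ := one_add_pow_eq (mu e) (chiN n σ)
    obtain ⟨d2, hd2⟩ := one_add_pow_eq (mu e * c) (p ^ n)
    have h5 : galA σ (mu e) = (1 + mu e) ^ chiN n σ * (1 + mu e * c) ^ p ^ n - 1 := by
      have e1 : 1 + mu e = tm (e ^ p) := by rw [mu]; ring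
      have e2 : 1 + mu e * c = tm η := by rw [← hc]; ring
      rw [e1, e2, ← tm_pow, ← tm_pow, ← tm_mul, ← h4, mu, map_sub, map_one, galA_tm]
    have h6 : w = chiN n σ + ((p ^ n : ℕ) : Ainf p) * c + mu e * (d1 + c ^ 2 * d2 +
        (chiN n σ + mu e * d1) * (((p ^ n : ℕ) : Ainf p) * c + mu e * (c ^ 2 * d2))) := by
      apply mul_left_cancel₀ hmu
      rw [← hw, h5, hd1, hd2]
      ring
    have h7 : theta w = chiN n σ + ((p : ℕ) : OC p) ^ n * theta c := by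
      conv_lhs => rw [h6]
      rw [map_add, map_add, map_mul, map_mul, he.theta_mu, zero_mul, add_zero, map_natCast,
        map_natCast, Nat.cast_pow]
    have h8 : ((p : ℕ) : OC p) ^ n ∣ theta w - chiN n σ := ⟨theta c, by rw [h7]; ring⟩
    rw [pow_dvd_iff] at h8
    have h9 : ((theta w - (chiN n σ : OC p) : OC p) : ℂ_[p]) =
        ((theta w : OC p) : ℂ_[p]) - (chiN n σ : ℂ_[p]) := by push_cast; rfl
    rw [h9] at h8
    exact h8
  rw [← sub_eq_zero, ← norm_le_zero_iff]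
  have h2 : Filter.Tendsto (fun n : ℕ => ‖(p : ℂ_[p])‖ ^ n) Filter.atTop (nhds 0) :=
    tendsto_pow_atTop_nhds_zero_of_lt_one (norm_nonneg _) norm_p_lt_one
  refine ge_of_tendsto' h2 (fun n => ?_)
  have h10 : ((theta w : OC p) : ℂ_[p]) -
      algebraMap ℚ_[p] ℂ_[p] (((chiZ σ : ℤ_[p]ˣ) : ℤ_[p]) : ℚ_[p]) =
      (((theta w : OC p) : ℂ_[p]) - (chiN n σ : ℂ_[p])) +
      -(algebraMap ℚ_[p] ℂ_[p] (((chiZ σ : ℤ_[p]ˣ) : ℤ_[p]) : ℚ_[p]) - (chiN n σ : ℂ_[p])) := by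
    ring
  rw [h10]
  refine (IsUltrametricDist.norm_add_le_max _ _).trans ?_
  rw [norm_neg]
  exact max_le (key n) (norm_chi_sub σ n)

end w

end MP_7c08ba.Crys
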