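import Mathlib
import Pool.Agent.Lib.MP_7c08ba_nt.Crys.PC

/-!
# `p`-adic completion of a ring
-/

namespace MP_7c08ba.Crys

open Finset

variable (p : ℕ) (S : Type*) [CommRing S]

/-- the `p`-adic completion `lim S / p^n` -/
abbrev Cpl : Type _ := AdicCompletion (Ideal.span {(p : S)}) S

variable {S}

/-- the natural map `S → Ŝ` -/
noncomputable def ofC : S →+* Cpl p S := algebraMap S _

/-- the natural map `Ŝ → S / p^n` -/
noncomputable def ev (n : ℕ) : Cpl p S →+* S ⧸ (Ideal.span {(p : S)}) ^ n :=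
  (AdicCompletion.evalₐ (Ideal.span {(p : S)}) n : _ →ₐ[S] _).toRingHom

variable {p}

lemma ev_ofC (n : ℕ) (s : S) : ev p n (ofC p s) = Ideal.Quotient.mk _ s :=
  AdicCompletion.evalₐ_of _ n s

lemma ext_ev {x y : Cpl p S} (h : ∀ n, ev p n x = ev p n y) : x = y :=
  AdicCompletion.ext_evalₐ h

lemma smul_eq (s : S) (x : Cpl p S) : s • x = ofC p s * x := Algebra.smul_def s x

lemma mem_smul_iff (n : ℕ) (x : Cpl p S) :
    x ∈ ((Ideal.span {(p : S)}) ^ n • ⊤ : Submodule S (Cpl p S)) ↔ ((p : ℕ) : Cpl p S) ^ n ∣ x := by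
  rw [Ideal.span_singleton_pow, Submodule.ideal_span_singleton_smul,
    Submodule.mem_smul_pointwise_iff_exists]
  constructor
  · rintro ⟨y, -, rfl⟩
    refine ⟨y, ?_⟩
    rw [smul_eq, map_pow, map_natCast]
  · rintro ⟨y, rfl⟩
    refine ⟨y, trivial, ?_⟩
    rw [smul_eq, map_pow, map_natCast]

lemma ev_eq_zero_iff (n : ℕ) (x : Cpl p S) : ev p n x = 0 ↔ ((p : ℕ) : Cpl p S) ^ n ∣ x := by
  have hfg : (Ideal.span {(p : S)}).FG := ⟨{(p : S)}, by simp⟩
  rw [← mem_smul_iff, AdicCompletion.pow_smul_top_eq_ker_eval hfg, LinearMap.mem_ker]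
  constructor
  · intro h
    have := AdicCompletion.factor_evalₐ_eq_eval (Ideal.span {(p : S)}) (n := n) x (by simp)
    rw [← this]
    have h' : AdicCompletion.evalₐ (Ideal.span {(p : S)}) n x = 0 := h
    rw [h', map_zero]
  · intro h
    have := AdicCompletion.factor_eval_eq_evalₐ (Ideal.span {(p : S)}) (n := n) x (by simp)
    change AdicCompletion.evalₐ (Ideal.span {(p : S)}) n x = 0
    rw [← this, h, map_zero]

lemma exists_approx (n : ℕ) (x : Cpl p S) : ∃ (s : S) (y : Cpl p S),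
    x = ofC p s + (p : Cpl p S) ^ n * y := by
  obtain ⟨s, hs⟩ := Ideal.Quotient.mk_surjective (ev p n x)
  have h : ev p n (x - ofC p s) = 0 := by rw [map_sub, ev_ofC, hs, sub_self]
  obtain ⟨y, hy⟩ := (ev_eq_zero_iff n _).1 h
  exact ⟨s, y, by rw [← hy]; ring⟩

lemma dvd_ofC_iff (n : ℕ) (s : S) : ((p : ℕ) : Cpl p S) ^ n ∣ ofC p s ↔ (p : S) ^ n ∣ s := by
  rw [← ev_eq_zero_iff, ev_ofC, Ideal.Quotient.eq_zero_iff_mem, Ideal.span_singleton_pow,
    Ideal.mem_span_singleton]

lemma pcCpl (tf : ∀ s : S, (p : S) * s = 0 → s = 0) : PC p (Cpl p S) where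
  tf := by
    intro x hx
    apply ext_ev
    intro n
    rw [map_zero, ev_eq_zero_iff]
    obtain ⟨s, y, rfl⟩ := exists_approx (n + 1) x
    have h1 : ((p : ℕ) : Cpl p S) ^ (n + 1) ∣ ofC p ((p : S) * s) := by
      refine ⟨-((p : Cpl p S) * y), ?_⟩
      rw [map_mul, map_natCast]
      linear_combination hx
    rw [dvd_ofC_iff] at h1
    obtain ⟨t, ht⟩ := h1
    have h2 : (p : S) * (s - (p : S) ^ n * t) = 0 := by
      rw [mul_sub, ht]; ring
    have h3 := sub_eq_zero.1 (tf _ h2)
    rw [h3]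
    refine ⟨ofC p t + (p : Cpl p S) * y, ?_⟩
    rw [map_mul, map_pow, map_natCast]
    ring
  haus := by
    intro x hx
    apply ext_ev
    intro n
    rw [map_zero, ev_eq_zero_iff]
    exact hx n
  comp := by
    intro f
    have hfg : (Ideal.span {(p : S)}).FG := ⟨{(p : S)}, by simp⟩
    have := AdicCompletion.isAdicComplete (I := Ideal.span {(p : S)}) (M := S) hfg
    obtain ⟨L, hL⟩ := (inferInstance : IsPrecomplete (Ideal.span {(p : S)}) (Cpl p S)).prec'
      (fun n => ∑ i ∈ range n, (p : Cpl p S) ^ i * f i) (by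
        intro m n hmn
        rw [SModEq.sub_mem, mem_smul_iff, ← Finset.sum_range_add_sum_Ico _ hmn,
          sub_add_cancel_left]
        apply (dvd_neg).2
        apply Finset.dvd_sum
        intro i hi
        exact Dvd.dvd.mul_right (pow_dvd_pow _ (Finset.mem_Ico.1 hi).1) _)
    refine ⟨L, fun n => ?_⟩
    have := hL n
    rw [SModEq.sub_mem, mem_smul_iff] at this
    rw [← dvd_neg, neg_sub]
    exact this

section map

variable {T : Type*} [CommRing T] {U : Type*} [CommRing U]

lemma le_comap (f : S →+* T) (n : ℕ) :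
    Ideal.span {(p : S)} ^ n ≤ Ideal.comap f (Ideal.span {(p : T)} ^ n) := by
  rw [Ideal.span_singleton_pow, Ideal.span_singleton_pow, Ideal.span_singleton_le_iff_mem,
    Ideal.mem_comap, Ideal.mem_span_singleton, map_pow, map_natCast]

lemma mapC_compat (f : S →+* T) {m n : ℕ} (hmn : m ≤ n) :
    (Ideal.Quotient.factorPow (Ideal.span {(p : T)}) hmn).comp
        ((Ideal.quotientMap (Ideal.span {(p : T)} ^ n) f (le_comap f n)).comp (ev p n)) =
      (Ideal.quotientMap (Ideal.span {(p : T)} ^ m) f (le_comap f m)).comp (ev p m) := by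
  ext x
  obtain ⟨s, y, rfl⟩ := exists_approx n x
  simp only [RingHom.comp_apply, map_add, map_mul]
  have h1 : ev p n ((p : Cpl p S) ^ n) = 0 := by rw [ev_eq_zero_iff]
  have h2 : ev p m ((p : Cpl p S) ^ n) = 0 := by
    rw [ev_eq_zero_iff]; exact pow_dvd_pow _ hmn
  rw [h1, h2, ev_ofC, ev_ofC]
  simp

/-- functoriality of the completion -/
noncomputable def mapC (f : S →+* T) : Cpl p S →+* Cpl p T :=
  AdicCompletion.liftRingHom (Ideal.span {(p : T)})
    (fun n => (Ideal.quotientMap _ f (le_comap f n)).comp (ev p n)) (mapC_compat f)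

lemma ev_mapC (f : S →+* T) (n : ℕ) (x : Cpl p S) :
    ev p n (mapC f x) = Ideal.quotientMap _ f (le_comap f n) (ev p n x) :=
  AdicCompletion.evalₐ_liftRingHom _ _ (mapC_compat f) n x

lemma mapC_ofC (f : S →+* T) (s : S) : mapC f (ofC p s) = ofC p (f s) := by
  apply ext_ev
  intro n
  rw [ev_mapC, ev_ofC, ev_ofC, Ideal.quotientMap_mk]

/-- extension of a hom to the completion, when the target is complete -/
noncomputable def liftC (hT : PC p T) (f : S →+* T) : Cpl p S →+* T :=
  have := hT.adic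
  IsAdicComplete.liftRingHom (Ideal.span {(p : T)})
    (fun n => (Ideal.quotientMap _ f (le_comap f n)).comp (ev p n)) (mapC_compat f)

lemma liftC_ofC (hT : PC p T) (f : S →+* T) (s : S) : liftC hT f (ofC p s) = f s := by
  have := hT.adic
  apply hT.eq_of_forall
  intro n
  have h := IsAdicComplete.mk_liftRingHom (Ideal.span {(p : T)})
    (fun n => (Ideal.quotientMap _ f (le_comap f n)).comp (ev p n)) (mapC_compat f) n (ofC p s)
  have h' : Ideal.Quotient.mk (Ideal.span {(p : T)} ^ n) (liftC hT f (ofC p s)) =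
      Ideal.Quotient.mk _ (f s) := by
    rw [liftC, h, RingHom.comp_apply, ev_ofC, Ideal.quotientMap_mk]
  rw [Ideal.Quotient.eq, Ideal.span_singleton_pow, Ideal.mem_span_singleton] at h'
  exact h'

/-- two ring homs out of the completion into a `p`-adically separated ring agree if they agree
on `S` -/
lemma hom_ext_Cpl {R : Type*} [CommRing R] (hR : ∀ x : R, (∀ n : ℕ, (p : R) ^ n ∣ x) → x = 0)
    {f g : Cpl p S →+* R} (h : ∀ s, f (ofC p s) = g (ofC p s)) : f = g := by
  ext x
  rw [← sub_eq_zero]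
  apply hR
  intro n
  obtain ⟨s, y, rfl⟩ := exists_approx n x
  refine ⟨f y - g y, ?_⟩
  simp only [map_add, map_mul, map_pow, map_natCast, h]
  ring

lemma haus_Cpl (x : Cpl p S) (hx : ∀ n : ℕ, (p : Cpl p S) ^ n ∣ x) : x = 0 := by
  apply ext_ev
  intro n
  rw [map_zero, ev_eq_zero_iff]
  exact hx n

lemma mapC_comp (f : S →+* T) (g : T →+* U) (x : Cpl p S) :
    mapC g (mapC f x) = mapC (g.comp f) x := by
  have : (mapC g).comp (mapC f) = (mapC (g.comp f) : Cpl p S →+* Cpl p U) := by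
    apply hom_ext_Cpl haus_Cpl
    intro s
    simp only [RingHom.comp_apply, mapC_ofC]
  exact RingHom.congr_fun this x

lemma mapC_id (x : Cpl p S) : mapC (RingHom.id S) x = x := by
  have : (mapC (RingHom.id S)) = RingHom.id (Cpl p S) := by
    apply hom_ext_Cpl haus_Cpl
    intro s
    simp only [mapC_ofC, RingHom.id_apply]
  exact RingHom.congr_fun this x

end map

end MP_7c08ba.Crys
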