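import Mathlib
import Pool.Agent.Lib.MP_7c08ba_nt.Crys.Cpl

/-!
# Abstract study of the completion of `A[ω/p]`
-/

namespace MP_7c08ba.Crys

open Finset Polynomial

/-- abstract data: `A` complete, `θ : A → R` onto with kernel `(ω)`, `S = A[ω/p]` -/
structure MaxSetup (p : ℕ) (A R S : Type*) [CommRing A] [CommRing R] [CommRing S] where
  pcA : PC p A
  pcR : PC p R
  tfS : ∀ s : S, (p : S) * s = 0 → s = 0
  io : A →+* S
  thA : A →+* R
  thA_surj : ∀ r, ∃ a, thA a = r
  thS : S →+* R
  thS_io : ∀ a, thS (io a) = thA a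
  om : A
  X : S
  pX : (p : S) * X = io om
  thX : thS X = 0
  Xnz : ∀ s, X * s = 0 → s = 0
  ker : ∀ a, thA a = 0 → om ∣ a
  poly : ∀ s, ∃ f : A[X], s = f.eval₂ io X

namespace MaxSetup

variable {p : ℕ} {A R S : Type*} [CommRing A] [CommRing R] [CommRing S] (D : MaxSetup p A R S)

include D

/-- expansion -/
lemma expand (s : S) : ∃ (a : A) (s' : S), s = D.io a + D.X * s' := by
  obtain ⟨f, rfl⟩ := D.poly s
  refine ⟨f.coeff 0, f.divX.eval₂ D.io D.X, ?_⟩
  conv_lhs => rw [← Polynomial.divX_mul_X_add f]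
  rw [Polynomial.eval₂_add, Polynomial.eval₂_mul, Polynomial.eval₂_X, Polynomial.eval₂_C]
  ring

lemma ker_thS {s : S} (hs : D.thS s = 0) : D.X ∣ s := by
  obtain ⟨a, s', rfl⟩ := D.expand s
  rw [map_add, map_mul, D.thX, zero_mul, add_zero, D.thS_io] at hs
  obtain ⟨c, hc⟩ := D.ker _ hs
  refine ⟨(p : S) * D.io c + s', ?_⟩
  rw [hc, map_mul, ← D.pX]; ring

lemma pcM : PC p (Cpl p S) := pcCpl D.tfS

/-- `θ` on the completion -/
noncomputable def thM : Cpl p S →+* R := liftC D.pcR D.thS

lemma thM_ofC (s : S) : D.thM (ofC p s) = D.thS s := liftC_ofC _ _ _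

/-- `A → M` -/
noncomputable def toM : A →+* Cpl p S := (ofC p).comp D.io

lemma toM_apply (a : A) : D.toM a = ofC p (D.io a) := rfl

lemma thM_toM (a : A) : D.thM (D.toM a) = D.thA a := by
  rw [toM_apply, thM_ofC, D.thS_io]

/-- `X` in the completion -/
noncomputable def XM : Cpl p S := ofC p D.X

lemma p_mul_XM : (p : Cpl p S) * D.XM = D.toM D.om := by
  have := congrArg (ofC p) D.pX
  rw [map_mul, map_natCast] at this
  exact this

lemma thM_XM : D.thM D.XM = 0 := by rw [XM, thM_ofC, D.thX]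

lemma ker_thM {x : Cpl p S} (hx : D.thM x = 0) : D.XM ∣ x := by
  refine D.pcM.dvd_of_approx (fun y => D.thM y = 0) _ ?_ hx
  intro y hy
  obtain ⟨s, z, rfl⟩ := exists_approx 1 y
  obtain ⟨b, hb⟩ := D.thA_surj (D.thM z)
  have h1 : D.thS (s + (p : S) * D.io b) = 0 := by
    rw [map_add, map_mul, map_natCast, D.thS_io, hb]
    rw [map_add, map_mul, pow_one, map_natCast, thM_ofC] at hy
    exact hy
  obtain ⟨t, ht⟩ := D.ker_thS h1
  refine ⟨ofC p t, z - D.toM b, ?_, ?_⟩
  · rw [map_sub, thM_toM, hb, sub_self]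
  · have h2 := congrArg (ofC p) ht
    rw [map_add, map_mul, map_natCast, map_mul] at h2
    rw [XM, ← h2, toM_apply]; ring

/-- `X` is a nonzerodivisor -/
lemma XM_mul_eq_zero {x : Cpl p S} (hx : D.XM * x = 0) : x = 0 := by
  have key : ∀ x : Cpl p S, D.XM * x = 0 → ∃ x', x = (p : Cpl p S) * x' ∧ D.XM * x' = 0 := by
    intro x hx
    obtain ⟨s, y, rfl⟩ := exists_approx 1 x
    have h1 : ((p : ℕ) : Cpl p S) ^ 1 ∣ ofC p (D.X * s) := by
      refine ⟨-(D.XM * y), ?_⟩
      rw [map_mul]
      change D.XM * ofC p s = _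
      linear_combination hx
    rw [dvd_ofC_iff, pow_one] at h1
    obtain ⟨t, ht⟩ := h1
    have h2 : D.thS t = 0 := by
      apply D.pcR.tf
      have := congrArg D.thS ht
      rw [map_mul, D.thX, zero_mul, map_mul, map_natCast] at this
      exact this.symm
    obtain ⟨t', ht'⟩ := D.ker_thS h2
    have h3 : s = (p : S) * t' := by
      rw [← sub_eq_zero]
      apply D.Xnz
      rw [mul_sub, ht, ht']; ring
    have h4 : ofC p s + (p : Cpl p S) ^ 1 * y = (p : Cpl p S) * (ofC p t' + y) := by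
      rw [h3, map_mul, map_natCast]; ring
    refine ⟨ofC p t' + y, h4, D.pcM.tf _ ?_⟩
    rw [h4] at hx
    rw [← hx]; ring
  apply D.pcM.haus
  intro n
  induction n generalizing x with
  | zero => simp
  | succ n ih =>
    obtain ⟨x', hx', hx''⟩ := key x hx
    rw [hx', pow_succ']
    exact mul_dvd_mul_left _ (ih hx'')

lemma XM_cancel {x y : Cpl p S} (h : D.XM * x = D.XM * y) : x = y := by
  rw [← sub_eq_zero]
  apply D.XM_mul_eq_zero
  rw [mul_sub, h, sub_self]

lemma p_dvd_of_XM_pow {n : ℕ} {x y : Cpl p S} (h : (p : Cpl p S) * x = D.XM ^ n * y) :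
    (p : Cpl p S) ∣ y := by
  induction n generalizing x with
  | zero => exact ⟨x, by rw [h, pow_zero, one_mul]⟩
  | succ n ih =>
    have h1 : D.thM x = 0 := by
      apply D.pcR.tf
      have := congrArg D.thM h
      rw [map_mul, map_natCast, map_mul, map_pow, thM_XM, zero_pow (Nat.succ_ne_zero n),
        zero_mul] at this
      exact this
    obtain ⟨x', hx'⟩ := D.ker_thM h1
    apply ih (x := x')
    apply D.XM_cancel
    rw [pow_succ', mul_assoc] at h
    rw [← h, hx']; ring

lemma dvd_p_of_poly (f : A[X]) {n : ℕ} (hn : f.natDegree < n) {t u : Cpl p S}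
    (h : ofC p (f.eval₂ D.io D.X) = D.XM ^ n * t + (p : Cpl p S) * u) :
    (p : Cpl p S) ∣ ofC p (f.eval₂ D.io D.X) := by
  induction n generalizing f t u with
  | zero => exact absurd hn (Nat.not_lt_zero _)
  | succ n ih =>
    have hdec : ofC p (f.eval₂ D.io D.X) =
        D.XM * ofC p (f.divX.eval₂ D.io D.X) + D.toM (f.coeff 0) := by
      conv_lhs => rw [← Polynomial.divX_mul_X_add f]
      rw [Polynomial.eval₂_add, Polynomial.eval₂_mul, Polynomial.eval₂_X, Polynomial.eval₂_C,
        map_add, map_mul, XM, toM_apply]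
      ring
    -- apply θ
    have h1 : D.thA (f.coeff 0) = p * D.thM u := by
      have := congrArg D.thM (hdec.symm.trans h)
      rw [map_add, map_mul, thM_XM, zero_mul, zero_add, thM_toM, map_add, map_mul, map_pow,
        thM_XM, zero_pow (Nat.succ_ne_zero n), zero_mul, zero_add, map_mul, map_natCast] at this
      exact this
    obtain ⟨b, hb⟩ := D.thA_surj (D.thM u)
    have h2 : D.thA (f.coeff 0 - p * b) = 0 := by
      rw [map_sub, h1, map_mul, map_natCast, hb, sub_self]
    obtain ⟨c, hc⟩ := D.ker _ h2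
    have h3 : D.toM (f.coeff 0) = (p : Cpl p S) * (D.toM b + D.XM * D.toM c) := by
      have : f.coeff 0 = p * b + D.om * c := by rw [← hc]; ring
      rw [this, map_add, map_mul, map_mul, map_natCast, ← p_mul_XM]; ring
    by_cases hdeg : f.natDegree = 0
    · have : f.divX = 0 := by
        rw [Polynomial.divX_eq_zero_iff]
        exact Polynomial.eq_C_of_natDegree_eq_zero hdeg
      rw [hdec, this, h3]
      simp
    · have hdlt : f.divX.natDegree < n := by
        rw [Polynomial.natDegree_divX_eq_natDegree_tsub_one]; omega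
      -- θ (u - toM b - X c) = 0
      have h4 : D.thM (u - D.toM b - D.XM * D.toM c) = 0 := by
        rw [map_sub, map_sub, thM_toM, hb, sub_self, map_mul, thM_XM, zero_mul, sub_zero]
      obtain ⟨v, hv⟩ := D.ker_thM h4
      have h5 : ofC p (f.divX.eval₂ D.io D.X) = D.XM ^ n * t + (p : Cpl p S) * v := by
        apply D.XM_cancel
        have h6 : u = D.toM b + D.XM * D.toM c + D.XM * v := by rw [← hv]; ring
        have h7 := hdec.symm.trans h
        rw [h3] at h7
        rw [h6] at h7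
        linear_combination h7
      have := ih f.divX hdlt h5
      rw [hdec, h3]
      exact dvd_add (Dvd.dvd.mul_left this _) (Dvd.intro _ rfl)

/-- the completion is `X`-adically separated -/
lemma XM_haus {x : Cpl p S} (hx : ∀ n : ℕ, D.XM ^ n ∣ x) : x = 0 := by
  have key : ∀ x : Cpl p S, (∀ n : ℕ, D.XM ^ n ∣ x) →
      ∃ x', x = (p : Cpl p S) * x' ∧ ∀ n : ℕ, D.XM ^ n ∣ x' := by
    intro x hx
    obtain ⟨s, y, hs⟩ := exists_approx 1 x
    obtain ⟨f, hf⟩ := D.poly s
    obtain ⟨t, ht⟩ := hx (f.natDegree + 1)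
    have h1 : (p : Cpl p S) ∣ ofC p (f.eval₂ D.io D.X) := by
      apply D.dvd_p_of_poly f (Nat.lt_succ_self _) (t := t) (u := -y)
      rw [← hf]
      rw [pow_one] at hs
      rw [← ht, hs]; ring
    rw [← hf] at h1
    obtain ⟨z, hz⟩ := h1
    have h2 : x = (p : Cpl p S) * (z + y) := by rw [hs, hz]; ring
    refine ⟨z + y, h2, fun n => ?_⟩
    obtain ⟨t, ht⟩ := hx n
    rw [h2] at ht
    obtain ⟨t', ht'⟩ := D.p_dvd_of_XM_pow ht
    refine ⟨t', ?_⟩
    apply D.pcM.cancel 1
    rw [pow_one, ht, ht']; ring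
  apply D.pcM.haus
  intro n
  induction n generalizing x with
  | zero => simp
  | succ n ih =>
    obtain ⟨x', hx', hx''⟩ := key x hx
    rw [hx', pow_succ']
    exact mul_dvd_mul_left _ (ih hx'')

/-- an element of `A` with nonzero image under `θ` is a nonzerodivisor in the completion -/
lemma nzd_of_theta [IsDomain R] {a : A} (ha : D.thA a ≠ 0) {x : Cpl p S}
    (hx : D.toM a * x = 0) : x = 0 := by
  have key : ∀ y : Cpl p S, D.toM a * y = 0 → ∃ z, y = D.XM * z ∧ D.toM a * z = 0 := by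
    intro y hy
    have h2 : D.thM y = 0 := by
      have := congrArg D.thM hy
      rw [map_mul, thM_toM, map_zero] at this
      exact (mul_eq_zero.1 this).resolve_left ha
    obtain ⟨z, hz⟩ := D.ker_thM h2
    refine ⟨z, hz, D.XM_mul_eq_zero ?_⟩
    rw [← hy, hz]; ring
  apply D.XM_haus
  intro n
  induction n generalizing x with
  | zero => simp
  | succ n ih =>
    obtain ⟨z, hz, hz'⟩ := key x hx
    rw [hz, pow_succ']
    exact mul_dvd_mul_left _ (ih hz')

lemma nzd_mu [IsDomain R] {a : A} (ha : D.thA a ≠ 0) {x : Cpl p S}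
    (hx : D.toM (a * D.om) * x = 0) : x = 0 := by
  apply D.nzd_of_theta ha
  apply D.XM_mul_eq_zero
  apply D.pcM.tf
  rw [map_mul, ← p_mul_XM] at hx
  rw [← hx]; ring

end MaxSetup

end MP_7c08ba.Crys
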