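import Mathlib
import Pool.Agent.Lib.MP_7c08ba_nt.Crys.MaxAbs

/-!
# Abstract study of the completion of `A[ω/p]`: Frobenius
-/

namespace MP_7c08ba.Crys

open Finset Polynomial

/-- `MaxSetup` with a Frobenius and `μ = ω * φ⁻¹(μ)` -/
structure FrobSetup (p : ℕ) (A R S : Type*) [CommRing A] [CommRing R] [CommRing S]
    extends MaxSetup p A R S where
  two_le : 2 ≤ p
  dom : IsDomain R
  phA : A →+* A
  phS : S →+* S
  phS_io : ∀ a, phS (io a) = io (phA a)
  phA_mod : ∀ a, (p : A) ∣ phA a - a ^ p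
  mu1 : A
  mu : A
  mu_eq : mu = mu1 * om
  thA_mu1 : thA mu1 ≠ 0
  mu1_pow : (p : R) ∣ thA mu1 ^ (p - 1)
  thA_ph_mu : ∀ k, thA (phA^[k] mu) = 0
  mu_dvd : ∀ x, (∀ k, thA (phA^[k] x) = 0) → mu ∣ x
  ph_om : ∃ h, phA om = p + mu * h
  ph_om' : ∃ u v, phA om = u * mu ^ (p - 1) + p * v
  res : ∀ r : R, (p : R) ∣ r ^ p - r → ∃ i : ℕ, (p : R) ∣ r - i

namespace FrobSetup

variable {p : ℕ} {A R S : Type*} [CommRing A] [CommRing R] [CommRing S] (D : FrobSetup p A R S)

include D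

/-- Frobenius on the completion -/
noncomputable def phM : Cpl p S →+* Cpl p S := mapC D.phS

lemma phM_ofC (s : S) : D.phM (ofC p s) = ofC p (D.phS s) := mapC_ofC _ _

lemma phM_toM (a : A) : D.phM (D.toM a) = D.toM (D.phA a) := by
  rw [MaxSetup.toM_apply, phM_ofC, D.phS_io, MaxSetup.toM_apply]

/-- `q = μ / p` -/
def q : S := D.X * D.io D.mu1

lemma p_mul_q : (p : S) * D.q = D.io D.mu := by
  rw [q, D.mu_eq, map_mul, ← D.pX]; ring

/-- `q = μ / p` in the completion -/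
noncomputable def qM : Cpl p S := ofC p D.q

lemma p_mul_qM : (p : Cpl p S) * D.qM = D.toM D.mu := by
  have := congrArg (ofC p) D.p_mul_q
  rw [map_mul, map_natCast] at this
  exact this

lemma mem_of_poly (W : Subring S) (h1 : ∀ a, D.io a ∈ W) (h2 : D.X ∈ W) (s : S) : s ∈ W := by
  obtain ⟨f, rfl⟩ := D.poly s
  rw [Polynomial.eval₂_eq_sum_range]
  exact W.sum_mem fun i _ => W.mul_mem (h1 _) (W.pow_mem h2 _)

lemma phS_mod_p (s : S) : ∃ a z, D.phS s = D.io a + (p : S) * z := by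
  let W : Subring S :=
    { carrier := {s | ∃ a z, D.phS s = D.io a + (p : S) * z}
      mul_mem' := by
        rintro x y ⟨a, z, hx⟩ ⟨b, w, hy⟩
        refine ⟨a * b, D.io a * w + D.io b * z + p * z * w, ?_⟩
        rw [map_mul, hx, hy, map_mul]; ring
      one_mem' := ⟨1, 0, by simp⟩
      add_mem' := by
        rintro x y ⟨a, z, hx⟩ ⟨b, w, hy⟩
        refine ⟨a + b, z + w, ?_⟩
        rw [map_add, hx, hy, map_add]; ring
      zero_mem' := ⟨0, 0, by simp⟩
      neg_mem' := by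
        rintro x ⟨a, z, hx⟩
        refine ⟨-a, -z, ?_⟩
        rw [map_neg, hx, map_neg]; ring }
  refine D.mem_of_poly W (fun a => ⟨D.phA a, 0, by rw [D.phS_io]; simp⟩) ?_ s
  obtain ⟨t, ht⟩ := D.phA_mod D.om
  obtain ⟨k, hk⟩ : ∃ k, p = k + 2 := ⟨p - 2, by have := D.two_le; omega⟩
  refine ⟨t, (p : S) ^ (p - 2) * D.X ^ p, ?_⟩
  rw [← sub_eq_zero]
  apply D.tfS
  have h1 : (p : S) * D.phS D.X = D.io (D.phA D.om) := by
    rw [← D.phS_io, ← D.pX, map_mul, map_natCast]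
  have h2 : D.phA D.om = D.om ^ p + p * t := by rw [← ht]; ring
  have h3 : (p : S) ^ 2 * ((p : S) ^ (p - 2) * D.X ^ p) = (D.io D.om) ^ p := by
    rw [← D.pX, mul_pow, ← mul_assoc, ← pow_add]
    congr 2
    omega
  rw [mul_sub, h1, h2, map_add, map_pow, ← h3, map_mul, map_natCast]; ring

lemma phS_mod_q (s : S) : ∃ a z, D.phS s = D.io a + D.q * z := by
  let W : Subring S :=
    { carrier := {s | ∃ a z, D.phS s = D.io a + D.q * z}
      mul_mem' := by
        rintro x y ⟨a, z, hx⟩ ⟨b, w, hy⟩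
        refine ⟨a * b, D.io a * w + D.io b * z + D.q * z * w, ?_⟩
        rw [map_mul, hx, hy, map_mul]; ring
      one_mem' := ⟨1, 0, by simp⟩
      add_mem' := by
        rintro x y ⟨a, z, hx⟩ ⟨b, w, hy⟩
        refine ⟨a + b, z + w, ?_⟩
        rw [map_add, hx, hy, map_add]; ring
      zero_mem' := ⟨0, 0, by simp⟩
      neg_mem' := by
        rintro x ⟨a, z, hx⟩
        refine ⟨-a, -z, ?_⟩
        rw [map_neg, hx, map_neg]; ring }
  refine D.mem_of_poly W (fun a => ⟨D.phA a, 0, by rw [D.phS_io]; simp⟩) ?_ s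
  obtain ⟨u, v, huv⟩ := D.ph_om'
  refine ⟨v, (p : S) ^ (p - 2) * D.io u * D.q ^ (p - 2), ?_⟩
  rw [← sub_eq_zero]
  apply D.tfS
  have h1 : (p : S) * D.phS D.X = D.io (D.phA D.om) := by
    rw [← D.phS_io, ← D.pX, map_mul, map_natCast]
  have h3 : (p : S) * ((p : S) ^ (p - 2) * D.io u * D.q ^ (p - 2) * D.q) =
      D.io u * D.io D.mu ^ (p - 1) := by
    rw [← D.p_mul_q, mul_pow]
    obtain ⟨k, hk⟩ : ∃ k, p = k + 2 := ⟨p - 2, by have := D.two_le; omega⟩
    have e1 : p - 1 = (p - 2) + 1 := by omega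
    rw [e1, pow_succ, pow_succ]; ring
  rw [mul_sub, h1, huv, map_add, map_mul, map_pow, ← h3, map_mul, map_natCast]; ring

lemma phM_mod_p (x : Cpl p S) : ∃ a z, D.phM x = D.toM a + (p : Cpl p S) * z := by
  obtain ⟨s, y, rfl⟩ := exists_approx 1 x
  obtain ⟨a, z, h⟩ := D.phS_mod_p s
  refine ⟨a, ofC p z + D.phM y, ?_⟩
  rw [map_add, phM_ofC, h, map_add, map_mul, map_natCast, map_mul, map_pow, map_natCast,
    MaxSetup.toM_apply]; ring

lemma phM_mod_q (x : Cpl p S) : ∃ a z, D.phM x = D.toM a + D.qM * z := by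
  have hstep : ∀ x : Cpl p S, ∃ (s : S) (y : Cpl p S), x = ofC p s + (p : Cpl p S) * y := by
    intro x
    obtain ⟨s, y, h⟩ := exists_approx 1 x
    exact ⟨s, y, by rw [pow_one] at h; exact h⟩
  choose s y hsy using hstep
  choose a z haz using D.phS_mod_q
  let it : ℕ → Cpl p S := fun n => y^[n] x
  obtain ⟨a', ha'⟩ := D.pcA.comp (fun n => a (s (it n)))
  obtain ⟨z', hz'⟩ := D.pcM.comp (fun n => ofC p (z (s (it n))))
  refine ⟨a', z', D.pcM.eq_of_forall fun n => ?_⟩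
  have hsum : ∀ n, D.phM x = D.toM (∑ i ∈ range n, (p : A) ^ i * a (s (it i))) +
      D.qM * (∑ i ∈ range n, (p : Cpl p S) ^ i * ofC p (z (s (it i)))) +
      (p : Cpl p S) ^ n * D.phM (it n) := by
    intro n
    induction n with
    | zero => simp [it]
    | succ n ih =>
      have h1 : it (n + 1) = y (it n) := by simp only [it, Function.iterate_succ_apply']
      have h2 := congrArg D.phM (hsy (it n))
      rw [map_add, phM_ofC, haz, map_add, map_mul, map_mul, map_natCast, ← h1] at h2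
      rw [ih, h2, Finset.sum_range_succ, Finset.sum_range_succ, map_add, map_mul, map_pow,
        map_natCast, MaxSetup.toM_apply D.toMaxSetup (a (s (it n))), qM]
      ring
  obtain ⟨α, hα⟩ := ha' n
  obtain ⟨β, hβ⟩ := hz' n
  have h3 : a' = (∑ i ∈ range n, (p : A) ^ i * a (s (it i))) + (p : A) ^ n * α := by
    rw [← hα]; ring
  have h4 : z' = (∑ i ∈ range n, (p : Cpl p S) ^ i * ofC p (z (s (it i)))) +
      (p : Cpl p S) ^ n * β := by
    rw [← hβ]; ring
  refine ⟨D.phM (it n) - D.toM α - D.qM * β, ?_⟩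
  rw [hsum n, h3, h4, map_add, map_mul, map_pow, map_natCast]
  ring

/-- (F1) elements of the completion fixed by Frobenius -/
lemma fixed_step {x : Cpl p S} (hx : D.phM x = x) :
    ∃ (i : ℕ) (x' : Cpl p S), x = i + (p : Cpl p S) * x' ∧ D.phM x' = x' := by
  obtain ⟨a, y, h⟩ := D.phM_mod_p x
  rw [hx] at h
  have h1 := congrArg D.phM h
  rw [hx, map_add, phM_toM, map_mul, map_natCast] at h1
  have h2 : (p : R) ∣ D.thA (D.phA a) - D.thA a := by
    refine ⟨D.thM (y - D.phM y), ?_⟩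
    have h3 : D.toM (D.phA a) - D.toM a = (p : Cpl p S) * (y - D.phM y) := by
      linear_combination h1.symm.trans h
    have h4 := congrArg D.thM h3
    rw [map_sub, MaxSetup.thM_toM, MaxSetup.thM_toM, map_mul, map_natCast] at h4
    exact h4
  obtain ⟨t, ht⟩ := D.phA_mod a
  have h5 : (p : R) ∣ D.thA a ^ p - D.thA a := by
    obtain ⟨w, hw⟩ := h2
    refine ⟨w - D.thA t, ?_⟩
    have h6 := congrArg D.thA ht
    rw [map_sub, map_pow, map_mul, map_natCast] at h6
    linear_combination hw - h6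
  obtain ⟨i, r, hr⟩ := D.res _ h5
  obtain ⟨b, hb⟩ := D.thA_surj r
  have h7 : D.thA (a - i - p * b) = 0 := by
    rw [map_sub, map_sub, map_natCast, hr, map_mul, map_natCast, hb, sub_self]
  obtain ⟨c, hc⟩ := D.ker _ h7
  have h8 : a = i + p * b + D.om * c := by rw [← hc]; ring
  have h9 : x = i + (p : Cpl p S) * (D.toM b + D.XM * D.toM c + y) := by
    rw [h, h8, map_add, map_add, map_natCast, map_mul, map_natCast, map_mul,
      ← MaxSetup.p_mul_XM]
    ring
  refine ⟨i, _, h9, ?_⟩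
  apply D.pcM.cancel 1
  rw [h9, map_add, map_natCast, map_mul, map_natCast] at hx
  rw [pow_one]
  linear_combination hx

lemma fixed_approx {x : Cpl p S} (hx : D.phM x = x) (n : ℕ) :
    ∃ (i : ℕ) (x' : Cpl p S), x = i + (p : Cpl p S) ^ n * x' ∧ D.phM x' = x' := by
  induction n with
  | zero => exact ⟨0, x, by simp, hx⟩
  | succ n ih =>
    obtain ⟨i, x', h1, h2⟩ := ih
    obtain ⟨j, x'', h3, h4⟩ := D.fixed_step h2
    refine ⟨i + p ^ n * j, x'', ?_, h4⟩
    rw [h1, h3]; push_cast; ring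

lemma iter_dvd {y c : Cpl p S} (h : D.phM y = c * y) (k : ℕ) : y ∣ D.phM^[k] y := by
  induction k with
  | zero => simp
  | succ k ih =>
    rw [Function.iterate_succ_apply']
    obtain ⟨w, hw⟩ := ih
    rw [hw, map_mul, h]
    exact ⟨c * D.phM w, by ring⟩

lemma iter_map (k : ℕ) (x : Cpl p S) : D.phM^[k] x = (D.phM ^ k) x := by
  rw [RingHom.coe_pow]

lemma iterA_map (k : ℕ) (x : A) : D.phA^[k] x = (D.phA ^ k) x := by
  rw [RingHom.coe_pow]

lemma iter_toM (k : ℕ) (a : A) : D.phM^[k] (D.toM a) = D.toM (D.phA^[k] a) := by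
  induction k with
  | zero => rfl
  | succ k ih => rw [Function.iterate_succ_apply', ih, phM_toM, Function.iterate_succ_apply']

/-- (F2) -/
lemma mu_dvd_of_theta {y : Cpl p S} {m : ℕ} (h : D.phM y = D.toM (D.phA D.om) ^ m * y)
    (hy : D.thM y = 0) : ∃ z, (p : Cpl p S) ^ (m + 1) * y = D.toM D.mu * z := by
  have := D.dom
  obtain ⟨a, z, haz⟩ := D.phM_mod_q y
  obtain ⟨h0, hh0⟩ := D.ph_om
  obtain ⟨hm, hhm⟩ : D.mu ∣ D.phA D.om ^ m - (p : A) ^ m := by
    refine Dvd.dvd.trans ?_ (sub_dvd_pow_sub_pow _ _ m)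
    exact ⟨h0, by rw [hh0]; ring⟩
  have h1 : D.toM (D.phA D.om) ^ m = (p : Cpl p S) ^ m + D.toM D.mu * D.toM hm := by
    rw [← map_pow, ← map_mul, ← hhm, map_sub, map_pow D.toM (p : A), map_natCast]; ring
  set z' := z - (p : Cpl p S) * (D.toM hm * y) with hz'
  have h2 : (p : Cpl p S) ^ (m + 1) * y = D.toM (p * a) + D.toM D.mu * z' := by
    rw [h, h1] at haz
    have h3 : (p : Cpl p S) * D.qM * z = D.toM D.mu * z := by rw [p_mul_qM]
    rw [map_mul, map_natCast, hz', mul_sub, ← h3]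
    linear_combination (p : Cpl p S) * haz
  have h4 : ∀ k, D.thA (D.phA^[k] ((p : A) * a)) = 0 := by
    intro k
    have h5 := congrArg (D.phM ^ k) h2
    rw [map_mul (D.phM ^ k), map_add (D.phM ^ k), map_mul (D.phM ^ k) (D.toM D.mu),
      ← iter_map, ← iter_map, ← iter_map, ← iter_map, iter_toM, iter_toM] at h5
    have h6 := congrArg D.thM h5
    obtain ⟨w, hw⟩ := D.iter_dvd h k
    rw [map_mul, map_add, map_mul, MaxSetup.thM_toM, MaxSetup.thM_toM, D.thA_ph_mu k, zero_mul,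
      add_zero, hw, map_mul, hy, zero_mul, mul_zero] at h6
    exact h6.symm
  obtain ⟨b, hb⟩ := D.mu_dvd _ h4
  refine ⟨D.toM b + z', ?_⟩
  rw [h2, hb, map_mul]; ring

lemma isUnit_one_add_of_pow {x y : Cpl p S} {n : ℕ} (h : x ^ n = (p : Cpl p S) * y) :
    IsUnit (1 + x) := by
  have h1 : (1 + x) * (∑ i ∈ range n, (-x) ^ i) = 1 - (-x) ^ n := by
    have := mul_neg_geom_sum (-x) n
    rw [sub_neg_eq_add] at this
    exact this
  have h2 : IsUnit (1 - (-x) ^ n) := by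
    rw [neg_pow, h]
    have := D.pcM.isUnit_one_add (-((-1) ^ n * y))
    have e : 1 + (p : Cpl p S) * -((-1) ^ n * y) = 1 - (-1) ^ n * (↑p * y) := by ring
    rw [e] at this
    exact this
  rw [← h1] at h2
  exact isUnit_of_mul_isUnit_left h2

lemma mu1_pow_M : ∃ d : S, D.io D.mu1 ^ (p - 1) = (p : S) * d := by
  obtain ⟨r, hr⟩ := D.mu1_pow
  obtain ⟨b, hb⟩ := D.thA_surj r
  have h7 : D.thA (D.mu1 ^ (p - 1) - p * b) = 0 := by
    rw [map_sub, map_pow, hr, map_mul, map_natCast, hb, sub_self]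
  obtain ⟨c, hc⟩ := D.ker _ h7
  refine ⟨D.io b + D.X * D.io c, ?_⟩
  have h8 : D.mu1 ^ (p - 1) = p * b + D.om * c := by rw [← hc]; ring
  rw [← map_pow, h8, map_add, map_mul, map_natCast, map_mul, ← D.pX]; ring

lemma q_pow : ∃ d : S, D.q ^ (p - 1) = (p : S) * d := by
  obtain ⟨d, hd⟩ := D.mu1_pow_M
  refine ⟨D.X ^ (p - 1) * d, ?_⟩
  rw [q, mul_pow, hd]; ring

lemma isUnit_one_add_q (h : Cpl p S) : IsUnit (1 + D.qM * h) := by
  obtain ⟨d, hd⟩ := D.q_pow
  apply D.isUnit_one_add_of_pow (n := p - 1) (y := ofC p d * h ^ (p - 1))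
  have := congrArg (ofC p) hd
  rw [map_pow, map_mul, map_natCast] at this
  rw [mul_pow, qM, this]; ring

/-- `p + μ a` is `p` times a unit -/
lemma p_add_mu (a : A) : ∃ u : Cpl p S, IsUnit u ∧
    D.toM ((p : A) + D.mu * a) = (p : Cpl p S) * u := by
  refine ⟨1 + D.qM * D.toM a, D.isUnit_one_add_q _, ?_⟩
  rw [map_add, map_mul, map_natCast, ← p_mul_qM]; ring

/-- the terms of the logarithm series -/
lemma exists_log_term [hp : Fact p.Prime] (i : ℕ) : ∃ r : S,
    ((i + 1 : ℕ) : S) * ((p : S) ^ i * r) = D.io D.mu ^ i := by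
  obtain ⟨v, m, hm, hfac⟩ := Nat.exists_eq_pow_mul_and_not_dvd (Nat.succ_ne_zero i) p
    hp.1.ne_one
  set n := i / (p - 1) with hn
  set r := i % (p - 1) with hr
  have hi : i = (p - 1) * n + r := (Nat.div_add_mod i (p - 1)).symm
  have hp1 : 0 < p - 1 := by have := D.two_le; omega
  have hv : v ≤ n := by
    have h1 : p ^ v ≤ i + 1 := by
      rw [Nat.succ_eq_add_one] at hfac
      rw [hfac]
      exact Nat.le_mul_of_pos_right _ (Nat.pos_of_ne_zero (by rintro rfl; exact hm (dvd_zero _)))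
    have h2 : 1 + v * (p - 1) ≤ p ^ v := by
      have h3 := one_add_mul_le_pow (a := ((p - 1 : ℕ) : ℤ)) (by
        have : (0 : ℤ) ≤ ((p - 1 : ℕ) : ℤ) := Int.natCast_nonneg _
        linarith) v
      have h4 : (1 : ℤ) + ((p - 1 : ℕ) : ℤ) = p := by
        have := D.two_le
        push_cast [Nat.cast_sub (by omega : 1 ≤ p)]
        ring
      rw [h4] at h3
      exact_mod_cast h3
    rw [hn, Nat.le_div_iff_mul_le hp1]
    omega
  obtain ⟨d, hd⟩ := D.q_pow
  have hmu : IsUnit (m : A) := isUnit_natCast_of_not_dvd D.pcA hm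
  obtain ⟨w, hw⟩ := hmu
  refine ⟨(p : S) ^ (n - v) * D.io ↑w⁻¹ * d ^ n * D.q ^ r, ?_⟩
  have hwS : (m : S) * D.io ↑w⁻¹ = 1 := by
    have : (m : S) = D.io (m : A) := (map_natCast _ _).symm
    rw [this, ← hw, ← map_mul, Units.mul_inv, map_one]
  rw [Nat.succ_eq_add_one] at hfac
  rw [hfac]
  push_cast
  have h5 : D.io D.mu ^ i = (p : S) ^ i * ((p : S) ^ n * d ^ n * D.q ^ r) := by
    rw [← D.p_mul_q, mul_pow]
    congr 1
    conv_lhs => rw [hi]
    rw [pow_add, pow_mul, hd, mul_pow]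
  rw [h5]
  have h6 : (p : S) ^ n = (p : S) ^ v * (p : S) ^ (n - v) := by
    rw [← pow_add, Nat.add_sub_cancel' hv]
  rw [h6]
  linear_combination ((p : S) ^ v * (p : S) ^ i * (p : S) ^ (n - v) * d ^ n * D.q ^ r) * hwS

end FrobSetup

end MP_7c08ba.Crys
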