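import Mathlib
import Pool.Agent.Lib.MP_7c08ba_nt.Crys.Gal

/-!
# `A_inf[1/p]`, the divided power envelope and `A_inf[ξ/p]`
-/

namespace MP_7c08ba.Crys

open Finset

variable (p : ℕ) [hp : Fact p.Prime]

/-- `A_inf[1/p]` -/
abbrev AP : Type := Localization.Away ((p : ℕ) : Ainf p)

/-- `A_inf → A_inf[1/p]` -/
noncomputable def io : Ainf p →+* AP p := algebraMap _ _

/-- The divided power envelope of `ker θ`, inside `A_inf[1/p]`: the subring generated by `A_inf`
and all `x ^ n / n !` with `x ∈ ker θ`. -/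
noncomputable def ACris0 : Subring (AP p) :=
  Subring.closure (Set.range (io p) ∪
    {y | ∃ x : Ainf p, theta x = 0 ∧ ∃ n : ℕ, (n.factorial : AP p) * y = io p x ^ n})

/-- The subring of `A_inf[1/p]` generated by `A_inf` and all `x / p` with `x ∈ ker θ`. -/
noncomputable def AMax0 : Subring (AP p) :=
  Subring.closure (Set.range (io p) ∪
    {y | ∃ x : Ainf p, theta x = 0 ∧ (p : AP p) * y = io p x})

variable {p}

lemma p_ne_zero_A : ((p : ℕ) : Ainf p) ≠ 0 := WittVector.p_nonzero p _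

instance AP_domain : IsDomain (AP p) :=
  IsLocalization.isDomain_localization (powers_le_nonZeroDivisors_of_noZeroDivisors p_ne_zero_A)

lemma io_injective : Function.Injective (io p) :=
  IsLocalization.injective _ (powers_le_nonZeroDivisors_of_noZeroDivisors p_ne_zero_A)

lemma isUnit_p_AP : IsUnit ((p : ℕ) : AP p) := by
  have := IsLocalization.Away.algebraMap_isUnit (S := AP p) ((p : ℕ) : Ainf p)
  simpa using this

lemma p_ne_zero_AP : ((p : ℕ) : AP p) ≠ 0 := isUnit_p_AP.ne_zero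

instance charZero_A : CharZero (Ainf p) := by
  apply charZero_of_inj_zero
  intro n hn
  by_contra h0
  obtain ⟨a, m, hm, rfl⟩ := Nat.exists_eq_pow_mul_and_not_dvd h0 p hp.1.ne_one
  rw [Nat.cast_mul, Nat.cast_pow] at hn
  have h1 := pcA.tf_pow a hn
  have h2 : ((m : Ainf p)).coeff 0 = ((m : ℕ) : Tl p) :=
    map_natCast (WittVector.constantCoeff : Ainf p →+* Tl p) m
  rw [h1] at h2
  have h3 : ((m : ℕ) : Tl p) = 0 := by rw [← h2, WittVector.zero_coeff]
  rw [CharP.cast_eq_zero_iff (Tl p) p] at h3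
  exact hm h3

/-- a natural number prime to `p` is a unit in a `p`-adically complete ring -/
lemma isUnit_of_not_dvd {A : Type*} [CommRing A] (hA : PC p A) {m : ℕ} (hm : ¬ p ∣ m) :
    IsUnit (m : A) := by
  have hcop : Nat.Coprime m p := ((Nat.Prime.coprime_iff_not_dvd hp.1).2 hm).symm
  have hb := Nat.gcd_eq_gcd_ab m p
  rw [hcop] at hb
  have h1 : (1 : A) + (p : A) * (-((Nat.gcdB m p : ℤ) : A)) = (m : A) * ((Nat.gcdA m p : ℤ) : A) := by
    have h2 := congrArg (Int.cast : ℤ → A) hb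
    push_cast at h2
    rw [h2]; ring
  have h3 := hA.isUnit_one_add (-((Nat.gcdB m p : ℤ) : A))
  rw [h1] at h3
  exact isUnit_of_mul_isUnit_left h3

instance charZero_AP : CharZero (AP p) :=
  charZero_of_injective_ringHom io_injective

lemma factorial_ne_zero_AP (n : ℕ) : (n.factorial : AP p) ≠ 0 := by
  exact_mod_cast n.factorial_ne_zero

/-- `p ^ n / n !` is integral -/
lemma exists_p_pow_div_factorial {A : Type*} [CommRing A] (hA : PC p A) (n : ℕ) :
    ∃ z : A, (n.factorial : A) * z = (p : A) ^ n := by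
  obtain ⟨a, m, hm, hfac⟩ := Nat.exists_eq_pow_mul_and_not_dvd n.factorial_ne_zero p hp.1.ne_one
  have ha : a ≤ n := by
    have h1 : padicValNat p n.factorial ≤ n := by
      rcases Nat.eq_zero_or_pos n with rfl | hn
      · simp
      · exact (padicValNat_factorial_lt_of_ne_zero p hn.ne').le
    have h2 : padicValNat p n.factorial = a := by
      rw [hfac, padicValNat.mul (pow_pos hp.1.pos _).ne' (by rintro rfl; exact hm (dvd_zero _)),
        padicValNat.prime_pow, padicValNat.eq_zero_of_not_dvd hm, add_zero]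
    rw [← h2]; exact h1
  obtain ⟨u, hu⟩ := isUnit_of_not_dvd hA hm
  refine ⟨(p : A) ^ (n - a) * ↑u⁻¹, ?_⟩
  rw [hfac]
  push_cast
  rw [← hu]
  calc (p : A) ^ a * ↑u * ((p : A) ^ (n - a) * ↑u⁻¹)
      = (p : A) ^ a * (p : A) ^ (n - a) * (↑u * ↑u⁻¹) := by ring
    _ = _ := by rw [Units.mul_inv, mul_one, ← pow_add, Nat.add_sub_cancel' ha]

lemma io_mem_ACris0 (a : Ainf p) : io p a ∈ ACris0 p :=
  Subring.subset_closure (Or.inl ⟨a, rfl⟩)

lemma io_mem_AMax0 (a : Ainf p) : io p a ∈ AMax0 p :=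
  Subring.subset_closure (Or.inl ⟨a, rfl⟩)

/-- elements of `A_inf[1/p]` with divided powers in the subring `R` -/
def DPIn (R : Subring (AP p)) (a : AP p) : Prop :=
  ∀ n : ℕ, ∃ y ∈ R, (n.factorial : AP p) * y = a ^ n

lemma DPIn.add {R : Subring (AP p)} {a b : AP p} (ha : DPIn R a) (hb : DPIn R b) :
    DPIn R (a + b) := by
  intro n
  choose f hf hf' using ha
  choose g hg hg' using hb
  refine ⟨∑ i ∈ range (n + 1), f i * g (n - i),
    R.sum_mem fun i _ => R.mul_mem (hf i) (hg _), ?_⟩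
  rw [add_pow, Finset.mul_sum]
  apply Finset.sum_congr rfl
  intro i hi
  have hin : i ≤ n := Nat.lt_succ_iff.1 (Finset.mem_range.1 hi)
  rw [← hf', ← hg', ← Nat.choose_mul_factorial_mul_factorial hin]
  push_cast
  ring

lemma DPIn.mul {R : Subring (AP p)} {a b : AP p} (ha : DPIn R a) (hb : b ∈ R) :
    DPIn R (a * b) := by
  intro n
  obtain ⟨y, hy, hy'⟩ := ha n
  refine ⟨y * b ^ n, R.mul_mem hy (R.pow_mem hb n), ?_⟩
  rw [mul_pow, ← hy']; ring

lemma DPIn.ofP (R : Subring (AP p)) (hR : ∀ a, io p a ∈ R) : DPIn R (p : AP p) := by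
  intro n
  obtain ⟨z, hz⟩ := exists_p_pow_div_factorial (pcA (p := p)) n
  refine ⟨io p z, hR z, ?_⟩
  have := congrArg (io p) hz
  rw [map_mul, map_natCast, map_pow, map_natCast] at this
  exact this

lemma DPIn.ker (x : Ainf p) (hx : theta x = 0) : DPIn (ACris0 p) (io p x) := by
  intro n
  have hu : IsUnit (n.factorial : AP p) := by
    obtain ⟨z, hz⟩ := exists_p_pow_div_factorial (pcA (p := p)) n
    have := congrArg (io p) hz
    rw [map_mul, map_natCast, map_pow, map_natCast] at this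
    have h2 : IsUnit ((n.factorial : AP p) * io p z) := by
      rw [this]; exact isUnit_p_AP.pow n
    exact isUnit_of_mul_isUnit_left h2
  obtain ⟨u, hu⟩ := hu
  have h3 : (n.factorial : AP p) * (↑u⁻¹ * io p x ^ n) = io p x ^ n := by
    rw [← hu, Units.mul_inv_cancel_left]
  exact ⟨↑u⁻¹ * io p x ^ n, Subring.subset_closure (Or.inr ⟨x, hx, n, h3⟩), h3⟩

lemma exists_div_p (x : Ainf p) (hx : theta x = 0) : ∃ y ∈ AMax0 p, (p : AP p) * y = io p x := by
  obtain ⟨u, hu⟩ := isUnit_p_AP (p := p)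
  have h3 : (p : AP p) * (↑u⁻¹ * io p x) = io p x := by
    rw [← hu, Units.mul_inv_cancel_left]
  exact ⟨_, Subring.subset_closure (Or.inr ⟨x, hx, h3⟩), h3⟩

lemma ACris0_le_AMax0 : ACris0 p ≤ AMax0 p := by
  rw [ACris0, Subring.closure_le]
  rintro y (⟨a, rfl⟩ | ⟨x, hx, n, hn⟩)
  · exact io_mem_AMax0 a
  · obtain ⟨w, hw, hw'⟩ := exists_div_p x hx
    obtain ⟨z, hz⟩ := exists_p_pow_div_factorial (pcA (p := p)) n
    have h1 := congrArg (io p) hz
    rw [map_mul, map_natCast, map_pow, map_natCast] at h1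
    have h2 : y = io p z * w ^ n := by
      apply mul_left_cancel₀ (factorial_ne_zero_AP (p := p) n)
      rw [hn, ← hw', mul_pow, ← h1]; ring
    rw [h2]
    exact (AMax0 p).mul_mem (io_mem_AMax0 z) ((AMax0 p).pow_mem hw n)

/-! ### Extension of endomorphisms of `A_inf` -/

/-- extension of an endomorphism to `A_inf[1/p]` -/
noncomputable def extP (f : Ainf p →+* Ainf p) : AP p →+* AP p :=
  IsLocalization.Away.lift ((p : ℕ) : Ainf p) (g := (io p).comp f) (by
    rw [map_natCast]; exact isUnit_p_AP)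

lemma extP_io (f : Ainf p →+* Ainf p) (a : Ainf p) : extP f (io p a) = io p (f a) :=
  IsLocalization.Away.lift_eq _ _ _

lemma hom_ext_AP {R : Type*} [CommRing R] {f g : AP p →+* R}
    (h : ∀ a, f (io p a) = g (io p a)) : f = g :=
  IsLocalization.ringHom_ext (Submonoid.powers ((p : ℕ) : Ainf p)) (RingHom.ext h)

/-- endomorphisms of `A_inf` which map `ker θ` to elements with divided powers in `ACris0` and
divisible by `p` in `AMax0` -/
structure GoodEnd (f : Ainf p →+* Ainf p) : Prop where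
  dp : ∀ x, theta x = 0 → DPIn (ACris0 p) (io p (f x))
  dv : ∀ x, theta x = 0 → ∃ y ∈ AMax0 p, (p : AP p) * y = io p (f x)

lemma goodEnd_gal (σ : GQp p) : GoodEnd (galA σ) where
  dp := fun x hx => DPIn.ker _ (by rw [theta_galA, hx, map_zero])
  dv := fun x hx => exists_div_p _ (by rw [theta_galA, hx, map_zero])

lemma goodEnd_phA : GoodEnd (phA : Ainf p →+* Ainf p) where
  dp := by
    intro x hx
    obtain ⟨t, ht⟩ := phA_mod x
    have h1 : io p (phA x) = io p x * io p (x ^ (p - 1)) + (p : AP p) * io p t := by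
      have h2 : phA x = x * x ^ (p - 1) + (p : Ainf p) * t := by
        rw [← ht, ← pow_succ', Nat.sub_add_cancel hp.1.one_le]; ring
      rw [h2, map_add, map_mul, map_mul, map_natCast]
    rw [h1]
    exact ((DPIn.ker x hx).mul (io_mem_ACris0 _)).add
      ((DPIn.ofP _ io_mem_ACris0).mul (io_mem_ACris0 _))
  dv := by
    intro x hx
    obtain ⟨t, ht⟩ := phA_mod x
    obtain ⟨y, hy, hy'⟩ := exists_div_p x hx
    refine ⟨y * io p (x ^ (p - 1)) + io p t, (AMax0 p).add_mem ((AMax0 p).mul_mem hy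
      (io_mem_AMax0 _)) (io_mem_AMax0 _), ?_⟩
    have h2 : phA x = x * x ^ (p - 1) + (p : Ainf p) * t := by
      rw [← ht, ← pow_succ', Nat.sub_add_cancel hp.1.one_le]; ring
    rw [h2, map_add, map_mul, map_mul, map_natCast, mul_add, ← mul_assoc, hy']

lemma extP_mem_ACris0 {f : Ainf p →+* Ainf p} (hf : GoodEnd f) {s : AP p} (hs : s ∈ ACris0 p) :
    extP f s ∈ ACris0 p := by
  have : ACris0 p ≤ (ACris0 p).comap (extP f) := by
    conv_lhs => rw [ACris0]
    rw [Subring.closure_le]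
    rintro y (⟨a, rfl⟩ | ⟨x, hx, n, hn⟩)
    · rw [SetLike.mem_coe, Subring.mem_comap, extP_io]; exact io_mem_ACris0 _
    · rw [SetLike.mem_coe, Subring.mem_comap]
      obtain ⟨w, hw, hw'⟩ := hf.dp x hx n
      have h1 := congrArg (extP f) hn
      rw [map_mul, map_natCast, map_pow, extP_io, ← hw'] at h1
      rw [mul_left_cancel₀ (factorial_ne_zero_AP (p := p) n) h1]
      exact hw
  exact this hs

lemma extP_mem_AMax0 {f : Ainf p →+* Ainf p} (hf : GoodEnd f) {s : AP p} (hs : s ∈ AMax0 p) :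
    extP f s ∈ AMax0 p := by
  have : AMax0 p ≤ (AMax0 p).comap (extP f) := by
    conv_lhs => rw [AMax0]
    rw [Subring.closure_le]
    rintro y (⟨a, rfl⟩ | ⟨x, hx, hn⟩)
    · rw [SetLike.mem_coe, Subring.mem_comap, extP_io]; exact io_mem_AMax0 _
    · rw [SetLike.mem_coe, Subring.mem_comap]
      obtain ⟨w, hw, hw'⟩ := hf.dv x hx
      have h1 := congrArg (extP f) hn
      rw [map_mul, map_natCast, extP_io, ← hw'] at h1
      rw [mul_left_cancel₀ p_ne_zero_AP h1]
      exact hw
  exact this hs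

/-- induced endomorphism of the divided power envelope -/
noncomputable def endC0 (f : Ainf p →+* Ainf p) (hf : GoodEnd f) : ACris0 p →+* ACris0 p :=
  (extP f).restrict _ _ (fun _ hs => extP_mem_ACris0 hf hs)

lemma coe_endC0 (f : Ainf p →+* Ainf p) (hf : GoodEnd f) (s : ACris0 p) :
    ((endC0 f hf s : ACris0 p) : AP p) = extP f s := rfl

/-- induced endomorphism of `A_inf[ξ/p]` -/
noncomputable def endM0 (f : Ainf p →+* Ainf p) (hf : GoodEnd f) : AMax0 p →+* AMax0 p :=
  (extP f).restrict _ _ (fun _ hs => extP_mem_AMax0 hf hs)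

lemma coe_endM0 (f : Ainf p →+* Ainf p) (hf : GoodEnd f) (s : AMax0 p) :
    ((endM0 f hf s : AMax0 p) : AP p) = extP f s := rfl

lemma extP_comp (f g : Ainf p →+* Ainf p) (x : AP p) : extP g (extP f x) = extP (g.comp f) x := by
  have : (extP g).comp (extP f) = (extP (g.comp f) : AP p →+* AP p) := by
    apply hom_ext_AP
    intro a
    simp only [RingHom.comp_apply, extP_io]
  exact RingHom.congr_fun this x

lemma extP_id (x : AP p) : extP (RingHom.id (Ainf p)) x = x := by
  have : extP (RingHom.id (Ainf p)) = RingHom.id (AP p) := by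
    apply hom_ext_AP
    intro a
    simp only [extP_io, RingHom.id_apply]
  exact RingHom.congr_fun this x

end MP_7c08ba.Crys
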