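import Mathlib
import Pool.Agent.Lib.MP_7c08ba_nt.Crys.Lattice
import Pool.Agent.Lib.MP_7c08ba_nt.Crys.Cpl

/-!
# `A_cris` and `B_cris`
-/

namespace MP_7c08ba.Crys

open Finset

section LocS

variable {A : Type} [CommRing A] (S : Submonoid A)

/-- the localisation of `A` at `S` -/
def LocS : Type := Localization S

noncomputable instance LocS.commRing : CommRing (LocS S) :=
  inferInstanceAs (CommRing (Localization S))

noncomputable instance LocS.algebra : Algebra A (LocS S) :=
  inferInstanceAs (Algebra A (Localization S))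

instance LocS.isLoc : IsLocalization S (LocS S) :=
  inferInstanceAs (IsLocalization S (Localization S))

/-- the algebra structure of `LocS S` over a base ring of `A` -/
noncomputable def LocS.algK (K : Type) [CommRing K] [Algebra K A] : Algebra K (LocS S) :=
  ((algebraMap A (LocS S)).comp (algebraMap K A)).toAlgebra

lemma LocS.tower (K : Type) [CommRing K] [Algebra K A] :
    letI := LocS.algK S K; IsScalarTower K A (LocS S) :=
  letI := LocS.algK S K
  IsScalarTower.of_algebraMap_eq (fun _ => rfl)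

end LocS

variable (p : ℕ) [hp : Fact p.Prime]

/-- `A_cris`, the `p`-adic completion of the divided power envelope of `ker θ`. -/
abbrev ACris : Type := Cpl p (ACris0 p)

/-- partial sums of `log [η]`: `∑_{i < N} (-1)^i ([η] - 1)^(i+1) / (i+1)` in `A_inf[1/p]` -/
noncomputable def logSum (η : Tl p) (N : ℕ) : AP p :=
  ∑ i ∈ range N, (-1) ^ i * (Ring.inverse ((i + 1 : ℕ) : AP p) * (io p (tm η - 1)) ^ (i + 1))

/-- `t = log [η]` in `A_cris` -/
def IsLog (η : Tl p) (t : ACris p) : Prop :=
  ∀ n : ℕ, ∃ N₀ : ℕ, ∀ N ≥ N₀, ∃ s : ACris0 p, (s : AP p) = logSum p η N ∧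
    (p : ACris p) ^ n ∣ t - ofC p s

/-- The multiplicative set generated by `p` and by the elements `log [η]`, where `η ≠ 1` runs
through the elements of the tilt with `η^♯ = 1` (that is `ℤ_p(1)`). -/
noncomputable def tSub : Submonoid (ACris p) :=
  Submonoid.closure ({(p : ACris p)} ∪ {t | ∃ η : Tl p, sh η = 1 ∧ η ≠ 1 ∧ IsLog p η t})

/-- `B_cris = A_cris[1/p, 1/t]` -/
abbrev BCris : Type := LocS (tSub p)

variable {p}

/-- endomorphisms of `A_inf` (Frobenius, Galois) act on `A_cris` -/
noncomputable def endC (f : Ainf p →+* Ainf p) (hf : GoodEnd f) : ACris p →+* ACris p :=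
  mapC (endC0 f hf)

lemma extP_logSum (f : Ainf p →+* Ainf p) {η η' : Tl p} (h : f (tm η) = tm η') (N : ℕ) :
    extP f (logSum p η N) = logSum p η' N := by
  have hu : ∀ i : ℕ, IsUnit (((i + 1 : ℕ)) : AP p) := by
    intro i
    obtain ⟨z, hz⟩ := exists_p_pow_div_factorial (pcA (p := p)) (i + 1)
    have := congrArg (io p) hz
    rw [map_mul, map_natCast, map_pow, map_natCast] at this
    have h2 : IsUnit (((i + 1).factorial : AP p) * io p z) := by
      rw [this]; exact isUnit_p_AP.pow _
    have h3 := isUnit_of_mul_isUnit_left h2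
    rw [Nat.factorial_succ, Nat.cast_mul] at h3
    exact isUnit_of_mul_isUnit_left h3
  have hinv : ∀ i : ℕ, extP f (Ring.inverse ((i + 1 : ℕ) : AP p)) =
      Ring.inverse ((i + 1 : ℕ) : AP p) := by
    intro i
    apply (hu i).mul_left_cancel
    rw [Ring.mul_inverse_cancel _ (hu i)]
    have := congrArg (extP f) (Ring.mul_inverse_cancel _ (hu i))
    rw [map_mul, map_natCast, map_one] at this
    exact this
  unfold logSum
  rw [map_sum]
  apply Finset.sum_congr rfl
  intro i _
  rw [map_mul, map_mul, hinv, map_pow, map_pow, map_neg, map_one, extP_io, map_sub, map_one, h]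

lemma IsLog.map {f : Ainf p →+* Ainf p} (hf : GoodEnd f) {η η' : Tl p} (h : f (tm η) = tm η')
    {t : ACris p} (ht : IsLog p η t) : IsLog p η' (endC f hf t) := by
  intro n
  obtain ⟨N₀, hN⟩ := ht n
  refine ⟨N₀, fun N hN' => ?_⟩
  obtain ⟨s, hs, y, hy⟩ := hN N hN'
  refine ⟨endC0 f hf s, ?_, endC f hf y, ?_⟩
  · rw [coe_endC0, hs, extP_logSum f h]
  · have := congrArg (endC f hf) hy
    rw [map_sub, map_mul, map_pow, map_natCast] at this
    rw [← this]
    simp only [endC, mapC_ofC]

lemma tSub_le_comap {f : Ainf p →+* Ainf p} (hf : GoodEnd f) (g : Tl p → Tl p)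
    (hg : ∀ η, f (tm η) = tm (g η)) (hg1 : ∀ η, sh η = 1 → sh (g η) = 1)
    (hg2 : ∀ η, η ≠ 1 → g η ≠ 1) : tSub p ≤ (tSub p).comap (endC f hf) := by
  conv_lhs => rw [tSub]
  rw [Submonoid.closure_le]
  rintro x (hx | ⟨η, h1, h2, h3⟩)
  · rw [Set.mem_singleton_iff] at hx
    rw [hx, SetLike.mem_coe, Submonoid.mem_comap, map_natCast]
    exact Submonoid.subset_closure (Or.inl rfl)
  · rw [SetLike.mem_coe, Submonoid.mem_comap]
    exact Submonoid.subset_closure (Or.inr ⟨g η, hg1 η h1, hg2 η h2, h3.map hf (hg η)⟩)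

lemma galT_injective (σ : GQp p) : Function.Injective (galT σ) := by
  intro x y h
  have := congrArg (galT σ⁻¹) h
  rwa [← galT_mul, ← galT_mul, inv_mul_cancel, galT_one, galT_one] at this

lemma tSub_le_gal (σ : GQp p) : tSub p ≤ (tSub p).comap (endC (galA σ) (goodEnd_gal σ)) :=
  tSub_le_comap _ (galT σ) (galA_tm σ) (fun η h => by rw [sh_galT, h, map_one])
    (fun η h h' => h (galT_injective σ (by rw [h', map_one])))

lemma tSub_le_phi : tSub p ≤ (tSub p).comap (endC (phA : Ainf p →+* Ainf p) goodEnd_phA) :=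
  tSub_le_comap _ (fun η => η ^ p) phA_tm (fun η h => by rw [sh_pow, h, one_pow])
    (fun η h h' => h (by
      have h1 : (η - 1) ^ p = 0 := by rw [sub_pow_char, h', one_pow, sub_self]
      exact sub_eq_zero.1 ((pow_eq_zero_iff hp.1.ne_zero).1 h1)))

/-- the Galois action on `B_cris` -/
noncomputable def galB (σ : GQp p) : BCris p →+* BCris p :=
  IsLocalization.map _ (endC (galA σ) (goodEnd_gal σ)) (tSub_le_gal σ)

/-- the Frobenius of `B_cris` -/
noncomputable def phB : BCris p →+* BCris p :=
  IsLocalization.map _ (endC (phA : Ainf p →+* Ainf p) goodEnd_phA) tSub_le_phi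

/-- `A_cris → B_cris` -/
noncomputable def toB : ACris p →+* BCris p := algebraMap _ _

lemma galB_toB (σ : GQp p) (x : ACris p) : galB σ (toB x) = toB (endC (galA σ) (goodEnd_gal σ) x) :=
  IsLocalization.map_eq _ _

lemma phB_toB (x : ACris p) : phB (toB x) = toB (endC phA goodEnd_phA x) :=
  IsLocalization.map_eq _ _

lemma hom_ext_BCris {R : Type*} [CommRing R] {f g : BCris p →+* R}
    (h : ∀ a, f (toB a) = g (toB a)) : f = g :=
  IsLocalization.ringHom_ext (tSub p) (RingHom.ext h)

end MP_7c08ba.Crys
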