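import Mathlib
import Pool.Agent.Lib.MP_7c08ba_nt.Crys.Cris

/-!
# `ℚ_p`-algebra structures
-/

namespace MP_7c08ba.Crys

open Finset

variable {p : ℕ} [hp : Fact p.Prime]

/-- two ring homs from `ℤ_[p]` to a `p`-adically separated ring are equal -/
lemma hom_ext_Zp {R : Type*} [CommRing R] (hR : ∀ x : R, (∀ n : ℕ, (p : R) ^ n ∣ x) → x = 0)
    (f g : ℤ_[p] →+* R) : f = g := by
  ext x
  rw [← sub_eq_zero]
  apply hR
  intro n
  have h := PadicInt.appr_spec n x
  rw [Ideal.mem_span_singleton] at h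
  obtain ⟨y, hy⟩ := h
  have hx : x = (PadicInt.appr x n : ℤ_[p]) + (p : ℤ_[p]) ^ n * y := by rw [← hy]; ring
  refine ⟨f y - g y, ?_⟩
  rw [hx]
  simp only [map_add, map_mul, map_pow, map_natCast]
  ring

/-- lift a hom from `ℤ_[p]` to `ℚ_[p]` -/
noncomputable def qpLift {B : Type*} [CommRing B] (f : ℤ_[p] →+* B) (h : IsUnit (p : B)) :
    ℚ_[p] →+* B :=
  IsLocalization.lift (M := nonZeroDivisors ℤ_[p]) (S := ℚ_[p]) (g := f) (by
    rintro ⟨y, hy⟩
    have hy0 : y ≠ 0 := nonZeroDivisors.ne_zero hy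
    have h1 := PadicInt.unitCoeff_spec hy0
    simp only
    rw [h1, map_mul, map_pow, map_natCast]
    exact ((PadicInt.unitCoeff hy0).isUnit.map f).mul (h.pow _))

lemma qpLift_coe {B : Type*} [CommRing B] (f : ℤ_[p] →+* B) (h : IsUnit (p : B)) (z : ℤ_[p]) :
    qpLift f h (z : ℚ_[p]) = f z :=
  IsLocalization.lift_eq (M := nonZeroDivisors ℤ_[p]) (S := ℚ_[p]) _ z

lemma hom_ext_Qp {B : Type*} [CommRing B] {f g : ℚ_[p] →+* B}
    (h : ∀ z : ℤ_[p], f (z : ℚ_[p]) = g (z : ℚ_[p])) : f = g :=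
  IsLocalization.ringHom_ext (nonZeroDivisors ℤ_[p]) (RingHom.ext h)

/-- `ℤ_p = W(𝔽_p) → A_inf` -/
noncomputable def zpA : ℤ_[p] →+* Ainf p :=
  (WittVector.map (ZMod.castHom (dvd_refl p) (Tl p))).comp (WittVector.equiv p).symm.toRingHom

lemma endo_zpA (f : Ainf p →+* Ainf p) (z : ℤ_[p]) : f (zpA z) = zpA z := by
  have := hom_ext_Zp (p := p) (fun x hx => pcA.haus x hx) (f.comp zpA) zpA
  exact RingHom.congr_fun this z

/-- `A_inf → A_cris⁰` -/
noncomputable def ioC : Ainf p →+* ACris0 p := (io p).codRestrict _ io_mem_ACris0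

/-- `A_inf → A_inf[ξ/p]` -/
noncomputable def ioM : Ainf p →+* AMax0 p := (io p).codRestrict _ io_mem_AMax0

/-- `A_inf → A_cris` -/
noncomputable def toC : Ainf p →+* ACris p := (ofC p).comp ioC

lemma endC_toC (f : Ainf p →+* Ainf p) (hf : GoodEnd f) (a : Ainf p) :
    endC f hf (toC a) = toC (f a) := by
  rw [toC, RingHom.comp_apply, endC, mapC_ofC, RingHom.comp_apply]
  congr 1
  apply Subtype.ext
  rw [coe_endC0]
  exact extP_io f a

lemma isUnit_p_BCris : IsUnit ((p : ℕ) : BCris p) := by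
  have h : (p : ACris p) ∈ tSub p := Submonoid.subset_closure (Or.inl rfl)
  have := IsLocalization.map_units (BCris p) (⟨_, h⟩ : tSub p)
  simpa using this

/-- `ℚ_p → B_cris` -/
noncomputable def qpB : ℚ_[p] →+* BCris p :=
  qpLift ((toB.comp toC).comp zpA) isUnit_p_BCris

noncomputable instance algQpBCris : Algebra ℚ_[p] (BCris p) := qpB.toAlgebra

lemma algebraMap_BCris : algebraMap ℚ_[p] (BCris p) = qpB := rfl

lemma galB_qp (σ : GQp p) (q : ℚ_[p]) :
    galB σ (algebraMap ℚ_[p] (BCris p) q) = algebraMap ℚ_[p] (BCris p) q := by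
  have : (galB σ).comp qpB = (qpB : ℚ_[p] →+* BCris p) := by
    apply hom_ext_Qp
    intro z
    simp only [RingHom.comp_apply, qpB, qpLift_coe]
    rw [galB_toB, endC_toC, endo_zpA]
  exact RingHom.congr_fun this q

lemma phB_qp (q : ℚ_[p]) :
    phB (algebraMap ℚ_[p] (BCris p) q) = algebraMap ℚ_[p] (BCris p) q := by
  have : phB.comp qpB = (qpB : ℚ_[p] →+* BCris p) := by
    apply hom_ext_Qp
    intro z
    simp only [RingHom.comp_apply, qpB, qpLift_coe]
    rw [phB_toB, endC_toC, endo_zpA]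
  exact RingHom.congr_fun this q

/-- Galois action on `B_cris` as a `ℚ_p`-algebra homomorphism -/
noncomputable def galBa (σ : GQp p) : BCris p →ₐ[ℚ_[p]] BCris p :=
  { galB σ with commutes' := galB_qp σ }

/-- Frobenius of `B_cris` as a `ℚ_p`-algebra homomorphism -/
noncomputable def phBa : BCris p →ₐ[ℚ_[p]] BCris p :=
  { phB with commutes' := phB_qp }

/-- Galois action on `ℂ_[p]` as a `ℚ_p`-algebra homomorphism -/
noncomputable def galCa (σ : GQp p) : ℂ_[p] →ₐ[ℚ_[p]] ℂ_[p] :=
  { galC σ with commutes' := galC_algebraMap σ }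

lemma endC_comm {f g f' g' : Ainf p →+* Ainf p} (hf : GoodEnd f) (hg : GoodEnd g)
    (hf' : GoodEnd f') (hg' : GoodEnd g') (h : ∀ a, g (f a) = g' (f' a)) (x : ACris p) :
    endC g hg (endC f hf x) = endC g' hg' (endC f' hf' x) := by
  have key : (endC g hg).comp (endC f hf) = (endC g' hg').comp (endC f' hf') := by
    apply hom_ext_Cpl haus_Cpl
    intro s
    simp only [RingHom.comp_apply, endC, mapC_ofC]
    congr 1
    apply Subtype.ext
    rw [coe_endC0, coe_endC0, coe_endC0, coe_endC0, extP_comp, extP_comp]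
    have : g.comp f = g'.comp f' := RingHom.ext h
    rw [this]
  exact RingHom.congr_fun key x

lemma goodEnd_id : GoodEnd (RingHom.id (Ainf p)) where
  dp := fun x hx => DPIn.ker _ hx
  dv := fun x hx => exists_div_p _ hx

lemma endC_id (x : ACris p) : endC (RingHom.id (Ainf p)) goodEnd_id x = x := by
  have key : endC (RingHom.id (Ainf p)) goodEnd_id = RingHom.id _ := by
    apply hom_ext_Cpl haus_Cpl
    intro s
    simp only [RingHom.id_apply, endC, mapC_ofC]
    congr 1
    apply Subtype.ext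
    rw [coe_endC0, extP_id]
  exact RingHom.congr_fun key x

lemma endC_comp' {f g k : Ainf p →+* Ainf p} (hf : GoodEnd f) (hg : GoodEnd g)
    (hk : GoodEnd k) (h : ∀ a, g (f a) = k a) (x : ACris p) :
    endC g hg (endC f hf x) = endC k hk x := by
  rw [endC_comm hf hg goodEnd_id hk (fun a => by rw [h, RingHom.id_apply]), endC_id]

lemma galB_mul (σ τ : GQp p) (x : BCris p) : galB (σ * τ) x = galB σ (galB τ x) := by
  have : galB (σ * τ) = (galB σ).comp (galB τ) := by
    apply hom_ext_BCris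
    intro a
    rw [RingHom.comp_apply, galB_toB, galB_toB, galB_toB,
      endC_comp' _ _ (goodEnd_gal (σ * τ)) (fun a => (galA_mul σ τ a).symm)]
  exact RingHom.congr_fun this x

lemma galB_one (x : BCris p) : galB 1 x = x := by
  have : galB 1 = RingHom.id (BCris p) := by
    apply hom_ext_BCris
    intro a
    rw [RingHom.id_apply, galB_toB]
    have := endC_comm goodEnd_id (goodEnd_gal (1 : GQp p)) goodEnd_id goodEnd_id
      (fun a => galA_one _) a
    rw [endC_id, endC_id] at this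
    rw [this]
  exact RingHom.congr_fun this x

lemma phB_galB (σ : GQp p) (x : BCris p) : phB (galB σ x) = galB σ (phB x) := by
  have : phB.comp (galB σ) = (galB σ).comp (phB : BCris p →+* BCris p) := by
    apply hom_ext_BCris
    intro a
    rw [RingHom.comp_apply, RingHom.comp_apply, galB_toB, phB_toB, phB_toB, galB_toB,
      endC_comm (goodEnd_gal σ) goodEnd_phA goodEnd_phA (goodEnd_gal σ) (phA_galA σ)]
  exact RingHom.congr_fun this x

end MP_7c08ba.Crys
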