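import Mathlib
import Pool.Agent.Lib.MP_7c08ba_nt.Crys.Qp
import Pool.Agent.Lib.MP_7c08ba_nt.Crys.Mu
import Pool.Agent.Lib.MP_7c08ba_nt.Crys.FrobAbs

/-!
# The concrete rings satisfy the abstract setup
-/

namespace MP_7c08ba.Crys

open Finset

variable {p : ℕ} [hp : Fact p.Prime]

lemma p_ne_zero_C : ((p : ℕ) : ℂ_[p]) ≠ 0 := norm_pos_iff.1 norm_p_pos

/-- `θ` on `A_inf[1/p]` -/
noncomputable def thP : AP p →+* ℂ_[p] :=
  IsLocalization.Away.lift ((p : ℕ) : Ainf p)
    (g := ((𝓞_ℂ_[p]).subtype : OC p →+* ℂ_[p]).comp theta) (by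
      rw [map_natCast]
      exact isUnit_iff_ne_zero.2 p_ne_zero_C)

lemma thP_io (a : Ainf p) : thP (io p a) = ((theta a : OC p) : ℂ_[p]) :=
  IsLocalization.Away.lift_eq _ _ _

lemma thP_mem {s : AP p} (hs : s ∈ AMax0 p) : thP s ∈ 𝓞_ℂ_[p] := by
  have : AMax0 p ≤ (𝓞_ℂ_[p]).toSubring.comap thP := by
    rw [AMax0, Subring.closure_le]
    rintro y (⟨a, rfl⟩ | ⟨x, hx, hn⟩)
    · rw [SetLike.mem_coe, Subring.mem_comap, thP_io]
      exact (theta a).2
    · have h1 := congrArg thP hn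
      rw [map_mul, map_natCast, thP_io, hx] at h1
      have h2 : thP y = 0 := by
        rcases mul_eq_zero.1 h1 with h | h
        · exact absurd h p_ne_zero_C
        · exact h
      rw [SetLike.mem_coe, Subring.mem_comap, h2]
      exact Subring.zero_mem _
  exact this hs

/-- `θ` on `A_inf[ξ/p]` -/
noncomputable def thM0 : AMax0 p →+* OC p :=
  (thP.comp (AMax0 p).subtype).codRestrict (𝓞_ℂ_[p]) (fun s => thP_mem s.2)

lemma coe_thM0 (s : AMax0 p) : ((thM0 s : OC p) : ℂ_[p]) = thP s := rfl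

lemma thM0_ioM (a : Ainf p) : thM0 (ioM a) = theta a :=
  Subtype.ext (by rw [coe_thM0]; exact thP_io a)

lemma tf_AMax0 (s : AMax0 p) (h : (p : AMax0 p) * s = 0) : s = 0 := by
  apply Subtype.ext
  have h1 := congrArg Subtype.val h
  rcases mul_eq_zero.1 (show ((p : ℕ) : AP p) * (s : AP p) = 0 by simpa using h1) with h2 | h2
  · exact absurd h2 p_ne_zero_AP
  · exact h2

lemma tf_OC (x : OC p) (h : ((p : ℕ) : OC p) * x = 0) : x = 0 := by
  rcases mul_eq_zero.1 h with h2 | h2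
  · exact absurd h2 p_ne_zero_OC
  · exact h2

lemma pcO : PC p (OC p) := PC.of_adic tf_OC

lemma endM0_ioM (f : Ainf p →+* Ainf p) (hf : GoodEnd f) (a : Ainf p) :
    endM0 f hf (ioM a) = ioM (f a) := Subtype.ext (by rw [coe_endM0]; exact extP_io f a)

lemma coe_ioM (a : Ainf p) : ((ioM a : AMax0 p) : AP p) = io p a := rfl

section res

open Polynomial in
lemma prod_zmod : ∏ a : ZMod p, (X - C a) = (X ^ p - X : (ZMod p)[X]) := by
  have h1 := FiniteField.roots_X_pow_card_sub_X (ZMod p)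
  rw [ZMod.card] at h1
  have hdeg := FiniteField.X_pow_card_sub_X_natDegree_eq (ZMod p) hp.1.one_lt
  have hmon : (X ^ p - X : (ZMod p)[X]).Monic := by
    apply Polynomial.monic_X_pow_sub
    rw [Polynomial.degree_X]
    exact_mod_cast hp.1.one_lt
  have h2 := Polynomial.prod_multiset_X_sub_C_of_monic_of_roots_card_eq hmon (by
    rw [h1, hdeg]
    simp [ZMod.card])
  rw [h1] at h2
  exact h2

lemma norm_one_sub_of_lt {x : OC p} (hx : ‖(x : ℂ_[p])‖ < 1) : IsUnit (1 - x) := by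
  rw [isUnit_iff_norm]
  have h1 : ‖(1 : ℂ_[p])‖ ≠ ‖-(x : ℂ_[p])‖ := by
    rw [norm_one, norm_neg]
    exact ne_of_gt hx
  have h2 := IsUltrametricDist.norm_add_eq_max_of_norm_ne_norm h1
  rw [norm_one, norm_neg, max_eq_left hx.le] at h2
  have h3 : (((1 - x : OC p)) : ℂ_[p]) = 1 + -(x : ℂ_[p]) := by
    push_cast; ring
  rw [h3, h2]

lemma res_aux (r : OC p) (h : ((p : ℕ) : OC p) ∣ r ^ p - r) :
    ∃ i : ℕ, ((p : ℕ) : OC p) ∣ r - i := by
  let Q := ModP (OC p) p
  let π : OC p →+* Q := Ideal.Quotient.mk _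
  have hπ : ∀ x : OC p, π x = 0 ↔ ((p : ℕ) : OC p) ∣ x := by
    intro x
    rw [Ideal.Quotient.eq_zero_iff_mem, Ideal.mem_span_singleton]
  have h0 : π r ^ p - π r = 0 := by
    rw [← map_pow, ← map_sub, hπ]; exact h
  let f : ZMod p →+* Q := ZMod.castHom (dvd_refl p) Q
  have h1 : ∏ a : ZMod p, (π r - f a) = 0 := by
    have := congrArg (Polynomial.eval₂ f (π r)) (prod_zmod (p := p))
    rw [Polynomial.eval₂_finsetProd] at this
    simp only [Polynomial.eval₂_sub, Polynomial.eval₂_X, Polynomial.eval₂_C,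
      Polynomial.eval₂_pow] at this
    rw [this, h0]
  obtain ⟨a, ha⟩ : ∃ a : ZMod p, ¬ IsUnit (π r - f a) := by
    by_contra hcon
    push Not at hcon
    have h2 : IsUnit (∏ a : ZMod p, (π r - f a)) :=
      IsUnit.prod_iff.2 (fun a _ => hcon a)
    rw [h1] at h2
    exact not_isUnit_zero h2
  have hfa : f a = π (a.val : OC p) := by
    have e1 : (a.val : ZMod p) = a := ZMod.natCast_zmod_val a
    rw [map_natCast]
    conv_lhs => rw [← e1, map_natCast]
  refine ⟨a.val, ?_⟩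
  set s : OC p := r - (a.val : OC p) with hs
  have hsu : ¬ IsUnit s := by
    intro hu
    apply ha
    rw [hfa, ← map_sub]
    exact hu.map π
  have hsn : ‖(s : ℂ_[p])‖ < 1 := by
    rw [isUnit_iff_norm] at hsu
    exact lt_of_le_of_ne (norm_coe_le_one s) hsu
  have h3 : ((p : ℕ) : OC p) ∣ s ^ p - s := by
    rw [← hπ, map_sub, map_pow, hs, map_sub, ← hfa, sub_pow_char, ← map_pow f, ZMod.pow_card]
    linear_combination h0
  have h4 : s ^ p - s = -(s * (1 - s ^ (p - 1))) := by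
    have : s ^ p = s * s ^ (p - 1) := by
      rw [← pow_succ', Nat.sub_add_cancel hp.1.one_le]
    rw [this]; ring
  rw [h4, dvd_neg] at h3
  have h5 : ‖((s ^ (p - 1) : OC p) : ℂ_[p])‖ < 1 := by
    have h6 : ((s ^ (p - 1) : OC p) : ℂ_[p]) = (s : ℂ_[p]) ^ (p - 1) := by push_cast; rfl
    rw [h6, norm_pow]
    exact pow_lt_one₀ (norm_nonneg _) hsn (by have := hp.1.two_le; omega)
  exact (norm_one_sub_of_lt h5).dvd_mul_right.1 h3

end res

section X

variable {e : Tl p} (he : IsGen e)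

/-- `X = ω / p` -/
noncomputable def Xm : AMax0 p :=
  ⟨(exists_div_p (om e) he.theta_om).choose, (exists_div_p (om e) he.theta_om).choose_spec.1⟩

lemma coe_p_mul_Xm : (p : AP p) * (Xm he : AP p) = io p (om e) :=
  (exists_div_p (om e) he.theta_om).choose_spec.2

lemma p_mul_Xm : (p : AMax0 p) * Xm he = ioM (om e) := by
  apply Subtype.ext
  rw [coe_ioM, ← coe_p_mul_Xm he]
  rfl

include he in
lemma om_ne_zero : om e ≠ 0 := by
  intro h3
  have h4 := he.nT_om
  rw [h3, WittVector.zero_coeff, nT_eq_zero.2 rfl] at h4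
  exact absurd h4.symm norm_p_pos.ne'

lemma Xm_ne_zero : Xm he ≠ 0 := by
  intro h
  have h1 := p_mul_Xm he
  rw [h, mul_zero] at h1
  have h2 : io p (om e) = 0 := (congrArg Subtype.val h1).symm
  exact om_ne_zero he (io_injective (by rw [h2, map_zero]))

lemma thM0_Xm : thM0 (Xm he) = 0 := by
  apply tf_OC
  have := congrArg thM0 (p_mul_Xm he)
  rw [map_mul, map_natCast, thM0_ioM, he.theta_om] at this
  exact this

/-- polynomial expression -/
lemma exists_poly (s : AMax0 p) : ∃ f : Polynomial (Ainf p),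
    s = f.eval₂ ioM (Xm he) := by
  let R : Subring (AP p) := ((Polynomial.eval₂RingHom (io p) (Xm he : AP p))).range
  have hle : AMax0 p ≤ R := by
    conv_lhs => rw [AMax0]
    rw [Subring.closure_le]
    rintro y (⟨a, rfl⟩ | ⟨x, hx, hn⟩)
    · exact ⟨Polynomial.C a, by simp⟩
    · obtain ⟨c, hc⟩ := he.gen_om hx
      refine ⟨Polynomial.C c * Polynomial.X, ?_⟩
      apply mul_left_cancel₀ (p_ne_zero_AP (p := p))
      have h2 := coe_p_mul_Xm he
      rw [hn, hc, map_mul (io p), ← h2]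
      simp only [Polynomial.coe_eval₂RingHom, Polynomial.eval₂_mul, Polynomial.eval₂_C,
        Polynomial.eval₂_X]
      ring
  obtain ⟨f, hf⟩ := hle s.2
  refine ⟨f, Subtype.ext ?_⟩
  rw [← hf]
  have : (Polynomial.eval₂RingHom (io p) (Xm he : AP p)) =
      (AMax0 p).subtype.comp (Polynomial.eval₂RingHom ioM (Xm he)) := by
    apply Polynomial.ringHom_ext
    · intro a; simp; rfl
    · simp
  rw [this]
  rfl

end X

end MP_7c08ba.Crys
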