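import Mathlib
import Pool.Agent.Lib.MP_7c08ba_nt.Crys.Conc

/-!
# The concrete `FrobSetup`
-/

namespace MP_7c08ba.Crys

open Finset

variable {p : ℕ} [hp : Fact p.Prime]

lemma IsGen.norm_theta_mu1 {e : Tl p} (he : IsGen e) :
    ‖((theta (mu1 e) : OC p) : ℂ_[p])‖ ^ (p - 1) = ‖(p : ℂ_[p])‖ := by
  have h1 := norm_one_sub_pow (he.prim 0)
  rw [pow_zero, one_mul] at h1
  have h2 : (((theta (mu1 e) : OC p)) : ℂ_[p]) = -(1 - ((sh (rt 0 e) : OC p) : ℂ_[p])) := by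
    rw [mu1, map_sub, theta_tm, map_one, rt_zero]
    push_cast; ring
  rw [h2, norm_neg, h1]

lemma IsGen.theta_mu1_ne {e : Tl p} (he : IsGen e) : theta (mu1 e) ≠ 0 := by
  rw [mu1, map_sub, theta_tm, map_one]
  exact sub_ne_zero.2 he.ne

lemma IsGen.mu1_pow {e : Tl p} (he : IsGen e) :
    ((p : ℕ) : OC p) ∣ theta (mu1 e) ^ (p - 1) := by
  rw [dvd_iff_norm_le]
  have h := he.norm_theta_mu1
  have h2 : ((theta (mu1 e) ^ (p - 1) : OC p) : ℂ_[p]) =
      ((theta (mu1 e) : OC p) : ℂ_[p]) ^ (p - 1) := by push_cast; rfl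
  rw [h2, norm_pow, h]
  exact le_of_eq rfl

lemma ph_om_aux (e : Tl p) : ∃ h : Ainf p, phA (om e) = p + mu e * h := by
  have h1 : phA (om e) = ∑ i ∈ range p, tm (e ^ p) ^ i := by
    rw [om, map_sum]
    simp only [map_pow, phA_tm]
  have h2 : mu e ∣ (∑ i ∈ range p, tm (e ^ p) ^ i) - p := by
    have h3 : (∑ i ∈ range p, tm (e ^ p) ^ i) - (p : Ainf p) =
        ∑ i ∈ range p, (tm (e ^ p) ^ i - 1) := by
      rw [Finset.sum_sub_distrib]; simp
    rw [h3]
    apply Finset.dvd_sum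
    intro i _
    have := sub_dvd_pow_sub_pow (tm (e ^ p)) 1 i
    rw [one_pow] at this
    exact this
  obtain ⟨h, hh⟩ := h2
  exact ⟨h, by rw [h1, ← hh]; ring⟩

lemma IsGen.ph_om' {e : Tl p} (he : IsGen e) :
    ∃ u v : Ainf p, phA (om e) = u * mu e ^ (p - 1) + p * v := by
  have h1 : nT ((phA (om e)).coeff 0) ≤ nT ((mu e ^ (p - 1)).coeff 0) := by
    rw [coeff_phA, nT_pow, he.nT_om, coeff_pow, nT_pow, he.nT_mu]
  obtain ⟨c, hc⟩ := tl_dvd h1
  obtain ⟨t, ht⟩ := dvd_sub_of_coeff (x := phA (om e)) (y := mu e ^ (p - 1) * tm c)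
    (by rw [hc, coeff_mul, coeff_tm])
  refine ⟨tm c, t, ?_⟩
  rw [← ht]; ring

/-- the concrete setup -/
noncomputable def FS {e : Tl p} (he : IsGen e) : FrobSetup p (Ainf p) (OC p) (AMax0 p) where
  pcA := pcA
  pcR := pcO
  tfS := tf_AMax0
  io := ioM
  thA := theta
  thA_surj := theta_surj
  thS := thM0
  thS_io := thM0_ioM
  om := om e
  X := Xm he
  pX := p_mul_Xm he
  thX := thM0_Xm he
  Xnz := fun s hs => by
    rcases mul_eq_zero.1 hs with h | h
    · exact absurd h (Xm_ne_zero he)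
    · exact h
  ker := fun a ha => he.gen_om ha
  poly := exists_poly he
  two_le := hp.1.two_le
  dom := inferInstance
  phA := phA
  phS := endM0 phA goodEnd_phA
  phS_io := endM0_ioM _ _
  phA_mod := phA_mod
  mu1 := mu1 e
  mu := mu e
  mu_eq := mu_eq e
  thA_mu1 := he.theta_mu1_ne
  mu1_pow := he.mu1_pow
  thA_ph_mu := he.theta_phA_mu
  mu_dvd := fun x hx => he.mu_dvd hx
  ph_om := ph_om_aux e
  ph_om' := he.ph_om'
  res := res_aux

end MP_7c08ba.Crys
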