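import Mathlib
import Pool.Agent.Lib.MP_7c08ba_nt.Crys.FrobAbs
import Pool.Agent.Lib.MP_7c08ba_nt.Crys.Qp

/-!
# Inverting `p`
-/

namespace MP_7c08ba.Crys

open Finset

variable {p : ℕ}

/-- inverting `p` in the `p`-adic completion -/
abbrev PR (p : ℕ) (S : Type*) [CommRing S] : Type _ := Localization.Away ((p : ℕ) : Cpl p S)

section PR

variable {S : Type*} [CommRing S]

/-- the natural map -/
noncomputable def oM : Cpl p S →+* PR p S := algebraMap _ _

lemma isUnit_p_PR : IsUnit ((p : ℕ) : PR p S) := by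
  have := IsLocalization.Away.algebraMap_isUnit (S := PR p S) ((p : ℕ) : Cpl p S)
  simpa using this

lemma exists_oM (x : PR p S) : ∃ (n : ℕ) (y : Cpl p S), (p : PR p S) ^ n * x = oM y := by
  obtain ⟨n, y, h⟩ := IsLocalization.Away.surj ((p : ℕ) : Cpl p S) x
  refine ⟨n, y, ?_⟩
  rw [oM, ← h, map_natCast, mul_comm]

lemma oM_injective (tf : ∀ s : Cpl p S, (p : Cpl p S) * s = 0 → s = 0) :
    Function.Injective (oM : Cpl p S →+* PR p S) := by
  intro x y h
  obtain ⟨n, hn⟩ := IsLocalization.Away.exists_of_eq (S := PR p S)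
    ((p : ℕ) : Cpl p S) h
  have key : ∀ (n : ℕ) (z : Cpl p S), (p : Cpl p S) ^ n * z = 0 → z = 0 := by
    intro n
    induction n with
    | zero => intro z hz; simpa using hz
    | succ n ih =>
      intro z hz
      apply ih
      apply tf
      rw [← mul_assoc, ← pow_succ']; exact hz
  rw [← sub_eq_zero]
  apply key n
  rw [mul_sub, hn, sub_self]

variable {X : Type*} [CommRing X]

/-- extension to the localization -/
noncomputable def exPR (f : Cpl p S →+* X) (h : IsUnit ((p : ℕ) : X)) : PR p S →+* X :=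
  IsLocalization.Away.lift ((p : ℕ) : Cpl p S) (g := f) (by rw [map_natCast]; exact h)

lemma exPR_oM (f : Cpl p S →+* X) (h : IsUnit ((p : ℕ) : X)) (y : Cpl p S) :
    exPR f h (oM y) = f y := IsLocalization.Away.lift_eq _ _ _

lemma hom_ext_PR {f g : PR p S →+* X} (h : ∀ a, f (oM a) = g (oM a)) : f = g :=
  IsLocalization.ringHom_ext (Submonoid.powers ((p : ℕ) : Cpl p S)) (RingHom.ext h)

/-- endomorphisms -/
noncomputable def endPR (f : Cpl p S →+* Cpl p S) : PR p S →+* PR p S :=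
  exPR (oM.comp f) isUnit_p_PR

lemma endPR_oM (f : Cpl p S →+* Cpl p S) (y : Cpl p S) : endPR f (oM y) = oM (f y) :=
  exPR_oM _ _ _

lemma p_cancel_PR {x y : PR p S} (n : ℕ) (h : (p : PR p S) ^ n * x = (p : PR p S) ^ n * y) :
    x = y := (isUnit_p_PR.pow n).mul_left_cancel h

end PR

lemma pcZp [hp : Fact p.Prime] : PC p ℤ_[p] := by
  have h : IsAdicComplete (Ideal.span {((p : ℕ) : ℤ_[p])}) ℤ_[p] := by
    rw [← PadicInt.maximalIdeal_eq_span_p]
    infer_instance
  apply PC.of_adic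
  intro x hx
  rcases mul_eq_zero.1 hx with h | h
  · exact absurd h (by exact_mod_cast hp.1.ne_zero)
  · exact h

namespace FrobSetup

variable {A R S : Type*} [CommRing A] [CommRing R] [CommRing S] (D : FrobSetup p A R S)

include D

/-- fixed points of Frobenius are `p`-adic integers -/
lemma exists_zp [hp : Fact p.Prime] (zp : ℤ_[p] →+* A) {x : Cpl p S} (hx : D.phM x = x) :
    ∃ z : ℤ_[p], x = D.toM (zp z) := by
  have hstep : ∀ y : {y : Cpl p S // D.phM y = y}, ∃ (i : ℕ) (y' : {y : Cpl p S // D.phM y = y}),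
      (y : Cpl p S) = i + (p : Cpl p S) * y' := by
    rintro ⟨y, hy⟩
    obtain ⟨i, x', h1, h2⟩ := D.fixed_step hy
    exact ⟨i, ⟨x', h2⟩, h1⟩
  choose i nx hnx using hstep
  let it : ℕ → {y : Cpl p S // D.phM y = y} := fun n => nx^[n] ⟨x, hx⟩
  obtain ⟨z, hz⟩ := (pcZp (p := p)).comp (fun n => (i (it n) : ℤ_[p]))
  refine ⟨z, D.pcM.eq_of_forall fun n => ?_⟩
  have hsum : ∀ n, x = (∑ j ∈ range n, (p : Cpl p S) ^ j * (i (it j) : Cpl p S)) +
      (p : Cpl p S) ^ n * (it n : Cpl p S) := by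
    intro n
    induction n with
    | zero => simp [it]
    | succ n ih =>
      have h1 : it (n + 1) = nx (it n) := by simp only [it, Function.iterate_succ_apply']
      have h2 := hnx (it n)
      rw [← h1] at h2
      rw [Finset.sum_range_succ]
      linear_combination ih + (p : Cpl p S) ^ n * h2
  obtain ⟨w, hw⟩ := hz n
  have h3 : z = (∑ j ∈ range n, (p : ℤ_[p]) ^ j * (i (it j) : ℤ_[p])) + (p : ℤ_[p]) ^ n * w := by
    rw [← hw]; ring
  refine ⟨it n - D.toM (zp w), ?_⟩
  have h4 : D.toM (zp z) = (∑ j ∈ range n, (p : Cpl p S) ^ j * (i (it j) : Cpl p S)) +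
      (p : Cpl p S) ^ n * D.toM (zp w) := by
    rw [h3]
    simp only [map_add, map_sum, map_mul, map_pow, map_natCast]
  rw [h4]
  linear_combination hsum n

/-- Frobenius on `P` -/
noncomputable def phP : PR p S →+* PR p S := endPR D.phM

/-- `A → P` -/
noncomputable def toP : A →+* PR p S := oM.comp D.toM

lemma toP_apply (a : A) : D.toP a = oM (D.toM a) := rfl

lemma phP_toP (a : A) : D.phP (D.toP a) = D.toP (D.phA a) := by
  rw [toP_apply, phP, endPR_oM, phM_toM, toP_apply]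

lemma oM_inj : Function.Injective (oM : Cpl p S →+* PR p S) := oM_injective D.pcM.tf

/-- F1 -/
lemma F1 [hp : Fact p.Prime] (zp : ℤ_[p] →+* A) {x : PR p S} (hx : D.phP x = x) :
    ∃ (n : ℕ) (z : ℤ_[p]), (p : PR p S) ^ n * x = D.toP (zp z) := by
  obtain ⟨n, y, h⟩ := exists_oM x
  have h1 : D.phM y = y := by
    apply D.oM_inj
    have h2 := congrArg D.phP h
    rw [map_mul, map_pow, map_natCast, hx, h, phP, endPR_oM] at h2
    exact h2.symm
  obtain ⟨z, hz⟩ := D.exists_zp zp h1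
  exact ⟨n, z, by rw [h, hz, toP_apply]⟩

/-- F2 -/
lemma F2 {C : Type*} [CommRing C] (rc : R →+* C) (hrc : Function.Injective rc)
    (hu : IsUnit ((p : ℕ) : C)) {x : PR p S} {m : ℕ}
    (h : D.phP x = D.toP (D.phA D.om) ^ m * x) (hx : exPR (rc.comp D.thM) hu x = 0) :
    ∃ z, x = D.toP D.mu * z := by
  obtain ⟨n, y, hy⟩ := exists_oM x
  have h1 : D.phM y = D.toM (D.phA D.om) ^ m * y := by
    apply D.oM_inj
    have h2 := congrArg D.phP hy
    rw [map_mul, map_pow, map_natCast, h, phP, endPR_oM] at h2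
    rw [← h2, map_mul, ← hy, map_pow, toP_apply]
    ring
  have h3 : D.thM y = 0 := by
    apply hrc
    have h4 := congrArg (exPR (rc.comp D.thM) hu) hy
    rw [map_mul, hx, mul_zero, exPR_oM] at h4
    rw [map_zero]
    exact h4.symm
  obtain ⟨z, hz⟩ := D.mu_dvd_of_theta h1 h3
  obtain ⟨u, hu'⟩ := (isUnit_p_PR (p := p) (S := S)).pow (m + 1 + n)
  refine ⟨↑u⁻¹ * oM z, ?_⟩
  apply p_cancel_PR (m + 1 + n)
  have h5 := congrArg (oM : Cpl p S →+* PR p S) hz
  rw [map_mul, map_pow, map_natCast, map_mul, ← hy] at h5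
  rw [← hu']
  calc (u : PR p S) * x = (p : PR p S) ^ (m + 1) * ((p : PR p S) ^ n * x) := by
        rw [hu', pow_add]; ring
    _ = D.toP D.mu * oM z := h5
    _ = ↑u * (D.toP D.mu * (↑u⁻¹ * oM z)) := by
        rw [mul_left_comm (D.toP D.mu), Units.mul_inv_cancel_left]

lemma toP_mu_nzd [hR : IsDomain R] {x : PR p S} (hx : D.toP D.mu * x = 0) : x = 0 := by
  obtain ⟨n, y, hy⟩ := exists_oM x
  have h1 : D.toM D.mu * y = 0 := by
    apply D.oM_inj
    rw [map_mul, ← hy, map_zero, ← toP_apply]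
    linear_combination (p : PR p S) ^ n * hx
  rw [D.mu_eq] at h1
  have h2 := D.toMaxSetup.nzd_mu D.thA_mu1 h1
  rw [h2, map_zero] at hy
  apply p_cancel_PR n
  rw [hy, mul_zero]

end FrobSetup

end MP_7c08ba.Crys
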