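import Mathlib
import Pool.Agent.Lib.MP_7c08ba_nt.Crys.Inst
import Pool.Agent.Lib.MP_7c08ba_nt.Crys.LocAbs
import Pool.Agent.Lib.MP_7c08ba_nt.Crys.Cyc
import Pool.Agent.Lib.MP_7c08ba_nt.Crys.Period

/-!
# The concrete period rings `A_max[1/p]` and `A_max[1/p, 1/μ]`
-/

namespace MP_7c08ba.Crys

open Finset

variable (p : ℕ) [hp : Fact p.Prime]

/-- a fixed compatible system of roots of unity -/
noncomputable def ee : Tl p := (exists_isGen (p := p)).choose

variable {p}

lemma hee : IsGen (ee p) := (exists_isGen (p := p)).choose_spec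

/-- the setup -/
noncomputable def FSe : FrobSetup p (Ainf p) (OC p) (AMax0 p) := FS hee

variable (p) in
/-- `A_max[1/p]` -/
abbrev PM : Type := PR p (AMax0 p)

/-- `A_inf → A_max[1/p]` -/
noncomputable def toPM : Ainf p →+* PM p := (oM.comp (ofC p)).comp ioM

lemma toPM_eq (a : Ainf p) : toPM a = (FSe (p := p)).toP a := rfl

lemma toPM_apply (a : Ainf p) : toPM a = oM (ofC p (ioM a)) := rfl

lemma oM_inj : Function.Injective (oM : Cpl p (AMax0 p) →+* PM p) :=
  oM_injective (pcCpl tf_AMax0).tf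

/-- `θ` on the completion -/
noncomputable def thM : Cpl p (AMax0 p) →+* OC p := liftC pcO thM0

lemma thM_ofC (s : AMax0 p) : thM (ofC p s) = thM0 s := liftC_ofC _ _ _

lemma isUnit_p_C : IsUnit ((p : ℕ) : ℂ_[p]) := isUnit_iff_ne_zero.2 p_ne_zero_C

/-- the inclusion -/
noncomputable def oc : OC p →+* ℂ_[p] := (𝓞_ℂ_[p]).subtype

lemma oc_apply (x : OC p) : oc x = (x : ℂ_[p]) := rfl

lemma oc_inj : Function.Injective (oc : OC p →+* ℂ_[p]) := Subtype.val_injective

/-- `θ` on `A_max[1/p]` -/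
noncomputable def thPM : PM p →+* ℂ_[p] := exPR (oc.comp thM) isUnit_p_C

lemma thPM_oM (x : Cpl p (AMax0 p)) : thPM (oM x) = oc (thM x) := exPR_oM _ _ _

lemma thPM_toPM (a : Ainf p) : thPM (toPM a) = ((theta a : OC p) : ℂ_[p]) := by
  rw [toPM_apply, thPM_oM, thM_ofC, thM0_ioM, oc_apply]

/-! ### Endomorphisms -/

/-- endomorphisms of `A_inf` act on `A_max` -/
noncomputable def endM (f : Ainf p →+* Ainf p) (hf : GoodEnd f) :
    Cpl p (AMax0 p) →+* Cpl p (AMax0 p) := mapC (endM0 f hf)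

lemma endM_ofC (f : Ainf p →+* Ainf p) (hf : GoodEnd f) (s : AMax0 p) :
    endM f hf (ofC p s) = ofC p (endM0 f hf s) := mapC_ofC _ _

/-- endomorphisms of `A_inf` act on `A_max[1/p]` -/
noncomputable def endP (f : Ainf p →+* Ainf p) (hf : GoodEnd f) : PM p →+* PM p :=
  endPR (endM f hf)

lemma endP_oM (f : Ainf p →+* Ainf p) (hf : GoodEnd f) (x : Cpl p (AMax0 p)) :
    endP f hf (oM x) = oM (endM f hf x) := endPR_oM _ _

lemma endP_toPM (f : Ainf p →+* Ainf p) (hf : GoodEnd f) (a : Ainf p) :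
    endP f hf (toPM a) = toPM (f a) := by
  rw [toPM_apply, endP_oM, endM_ofC, endM0_ioM, toPM_apply]

lemma phP_eq : (FSe (p := p)).phP = endP phA goodEnd_phA := rfl

lemma endM_comm {f g f' g' : Ainf p →+* Ainf p} (hf : GoodEnd f) (hg : GoodEnd g)
    (hf' : GoodEnd f') (hg' : GoodEnd g') (h : ∀ a, g (f a) = g' (f' a))
    (x : Cpl p (AMax0 p)) :
    endM g hg (endM f hf x) = endM g' hg' (endM f' hf' x) := by
  have key : (endM g hg).comp (endM f hf) = (endM g' hg').comp (endM f' hf') := by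
    apply hom_ext_Cpl haus_Cpl
    intro s
    simp only [RingHom.comp_apply, endM_ofC]
    congr 1
    apply Subtype.ext
    rw [coe_endM0, coe_endM0, coe_endM0, coe_endM0, extP_comp, extP_comp]
    have : g.comp f = g'.comp f' := RingHom.ext h
    rw [this]
  exact RingHom.congr_fun key x

lemma endM_id (x : Cpl p (AMax0 p)) : endM (RingHom.id (Ainf p)) goodEnd_id x = x := by
  have key : endM (RingHom.id (Ainf p)) goodEnd_id = RingHom.id _ := by
    apply hom_ext_Cpl haus_Cpl
    intro s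
    simp only [RingHom.id_apply, endM_ofC]
    congr 1
    apply Subtype.ext
    rw [coe_endM0, extP_id]
  exact RingHom.congr_fun key x

lemma endP_comm {f g f' g' : Ainf p →+* Ainf p} (hf : GoodEnd f) (hg : GoodEnd g)
    (hf' : GoodEnd f') (hg' : GoodEnd g') (h : ∀ a, g (f a) = g' (f' a)) (x : PM p) :
    endP g hg (endP f hf x) = endP g' hg' (endP f' hf' x) := by
  have key : (endP g hg).comp (endP f hf) = (endP g' hg').comp (endP f' hf') := by
    apply hom_ext_PR
    intro a
    simp only [RingHom.comp_apply, endP_oM]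
    rw [endM_comm hf hg hf' hg' h]
  exact RingHom.congr_fun key x

lemma endP_id (x : PM p) : endP (RingHom.id (Ainf p)) goodEnd_id x = x := by
  have key : endP (RingHom.id (Ainf p)) goodEnd_id = RingHom.id _ := by
    apply hom_ext_PR
    intro a
    rw [endP_oM, endM_id, RingHom.id_apply]
  exact RingHom.congr_fun key x

lemma thP_extP_gal (σ : GQp p) (x : AP p) : thP (extP (galA σ) x) = galC σ (thP x) := by
  have key : thP.comp (extP (galA σ)) = (galC σ).comp thP := by
    apply hom_ext_AP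
    intro a
    simp only [RingHom.comp_apply, extP_io, thP_io, theta_galA, coe_galO]
  exact RingHom.congr_fun key x

lemma thM_gal (σ : GQp p) (x : Cpl p (AMax0 p)) :
    thM (endM (galA σ) (goodEnd_gal σ) x) = galO σ (thM x) := by
  have key : thM.comp (endM (galA σ) (goodEnd_gal σ)) = (galO σ).comp thM := by
    apply hom_ext_Cpl pcO.haus
    intro s
    simp only [RingHom.comp_apply, endM_ofC, thM_ofC]
    apply Subtype.ext
    rw [coe_thM0, coe_endM0, thP_extP_gal, coe_galO, coe_thM0]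
  exact RingHom.congr_fun key x

lemma thPM_gal (σ : GQp p) (x : PM p) :
    thPM (endP (galA σ) (goodEnd_gal σ) x) = galC σ (thPM x) := by
  have key : thPM.comp (endP (galA σ) (goodEnd_gal σ)) = (galC σ).comp thPM := by
    apply hom_ext_PR
    intro a
    simp only [RingHom.comp_apply, endP_oM, thPM_oM, thM_gal]
    rfl
  exact RingHom.congr_fun key x

/-! ### `ℚ_p`-algebra structures -/

/-- `ℚ_p → A_max[1/p]` -/
noncomputable def qpPM : ℚ_[p] →+* PM p := qpLift (toPM.comp zpA) isUnit_p_PR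

noncomputable instance algQpPM : Algebra ℚ_[p] (PM p) := qpPM.toAlgebra

lemma algebraMap_PM_coe (z : ℤ_[p]) : algebraMap ℚ_[p] (PM p) (z : ℚ_[p]) = toPM (zpA z) :=
  qpLift_coe (toPM.comp zpA) isUnit_p_PR z

/-- `ℤ_p → 𝓞` -/
noncomputable def zpO : ℤ_[p] →+* OC p :=
  ((algebraMap ℚ_[p] ℂ_[p]).comp (PadicInt.Coe.ringHom (p := p))).codRestrict (𝓞_ℂ_[p])
    (fun z => by
      rw [mem_OC, RingHom.comp_apply, norm_algebraMap']
      exact PadicInt.norm_le_one z)

lemma coe_zpO (z : ℤ_[p]) : ((zpO z : OC p) : ℂ_[p]) = algebraMap ℚ_[p] ℂ_[p] (z : ℚ_[p]) := rfl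

lemma theta_zpA (z : ℤ_[p]) : theta (zpA z) = zpO z := by
  have := hom_ext_Zp (p := p) (fun x hx => pcO.haus x hx) (theta.comp zpA) zpO
  exact RingHom.congr_fun this z

lemma thPM_qp (q : ℚ_[p]) : thPM (algebraMap ℚ_[p] (PM p) q) = algebraMap ℚ_[p] ℂ_[p] q := by
  have : thPM.comp (algebraMap ℚ_[p] (PM p)) = algebraMap ℚ_[p] ℂ_[p] := by
    apply hom_ext_Qp
    intro z
    rw [RingHom.comp_apply, algebraMap_PM_coe, thPM_toPM, theta_zpA, coe_zpO]
  exact RingHom.congr_fun this q

lemma endP_qp (f : Ainf p →+* Ainf p) (hf : GoodEnd f) (q : ℚ_[p]) :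
    endP f hf (algebraMap ℚ_[p] (PM p) q) = algebraMap ℚ_[p] (PM p) q := by
  have : (endP f hf).comp (algebraMap ℚ_[p] (PM p)) = algebraMap ℚ_[p] (PM p) := by
    apply hom_ext_Qp
    intro z
    rw [RingHom.comp_apply, algebraMap_PM_coe, endP_toPM, endo_zpA]
  exact RingHom.congr_fun this q

/-- `θ` as an algebra hom -/
noncomputable def thPMa : PM p →ₐ[ℚ_[p]] ℂ_[p] := { thPM with commutes' := thPM_qp }

/-- endomorphisms as algebra homs -/
noncomputable def endPa (f : Ainf p →+* Ainf p) (hf : GoodEnd f) : PM p →ₐ[ℚ_[p]] PM p :=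
  { endP f hf with commutes' := endP_qp f hf }

lemma endPa_apply (f : Ainf p →+* Ainf p) (hf : GoodEnd f) (x : PM p) :
    endPa f hf x = endP f hf x := rfl

lemma thPMa_apply (x : PM p) : thPMa x = thPM x := rfl

end MP_7c08ba.Crys
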