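import Mathlib
import Pool.Agent.Lib.MP_7c08ba_nt.Crys.PM

/-!
# `A_max[1/p, 1/μ]` and the `PeriodSetup`
-/

namespace MP_7c08ba.Crys

open Finset

section LocM

variable {K P : Type} [CommRing K] [CommRing P] [Algebra K P] (m : P)

/-- the localisation `P[1/m]` -/
def LocM : Type := Localization.Away m

noncomputable instance LocM.commRing : CommRing (LocM m) :=
  inferInstanceAs (CommRing (Localization.Away m))

noncomputable instance LocM.algebra : Algebra P (LocM m) :=
  inferInstanceAs (Algebra P (Localization.Away m))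

instance LocM.away : IsLocalization.Away m (LocM m) :=
  inferInstanceAs (IsLocalization.Away m (Localization.Away m))

variable (K) in
/-- the algebra structure of `P[1/m]` over `K` -/
noncomputable def LocM.algK : Algebra K (LocM m) :=
  ((algebraMap P (LocM m)).comp (algebraMap K P)).toAlgebra

lemma LocM.tower : letI := LocM.algK K m; IsScalarTower K P (LocM m) :=
  letI := LocM.algK K m
  IsScalarTower.of_algebraMap_eq (fun _ => rfl)

end LocM

variable (p : ℕ) [hp : Fact p.Prime]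

/-- `μ` in `A_max[1/p]` -/
noncomputable def muP : PM p := toPM (mu (ee p))

/-- `A_max[1/p, 1/μ]` -/
abbrev BM : Type := LocM (muP p)

noncomputable instance BM_algQp : Algebra ℚ_[p] (BM p) := LocM.algK ℚ_[p] (muP p)

instance BM_tower : IsScalarTower ℚ_[p] (PM p) (BM p) := LocM.tower (K := ℚ_[p]) (muP p)

variable {p}

/-- the natural map -/
noncomputable def jB : PM p →ₐ[ℚ_[p]] BM p := IsScalarTower.toAlgHom ℚ_[p] (PM p) (BM p)

lemma jB_apply (x : PM p) : jB x = algebraMap (PM p) (BM p) x := rfl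

lemma isUnit_jB_mu : IsUnit (jB (muP p)) :=
  IsLocalization.Away.algebraMap_isUnit (muP p)

lemma muP_nzd {x : PM p} (hx : muP p * x = 0) : x = 0 :=
  (FSe (p := p)).toP_mu_nzd hx

lemma jB_inj : Function.Injective (jB : PM p →ₐ[ℚ_[p]] BM p) := by
  intro x y h
  obtain ⟨n, hn⟩ := IsLocalization.Away.exists_of_eq (S := BM p) (muP p) h
  have key : ∀ (n : ℕ) (z : PM p), (muP p) ^ n * z = 0 → z = 0 := by
    intro n
    induction n with
    | zero => intro z hz; simpa using hz
    | succ n ih =>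
      intro z hz
      apply ih
      apply muP_nzd
      rw [← mul_assoc, ← pow_succ']; exact hz
  rw [← sub_eq_zero]
  apply key n
  rw [mul_sub, hn, sub_self]

lemma exists_jB (b : BM p) : ∃ (m : ℕ) (x : PM p), jB (muP p) ^ m * b = jB x := by
  obtain ⟨n, y, h⟩ := IsLocalization.Away.surj (muP p) b
  refine ⟨n, y, ?_⟩
  rw [jB_apply, jB_apply, ← h, mul_comm]

instance nontrivial_PM : Nontrivial (PM p) := thPM.domain_nontrivial

instance nontrivial_BM : Nontrivial (BM p) :=
  Function.Injective.nontrivial (jB_inj (p := p))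

/-! ### Frobenius and Galois -/

section Gen

variable {K P B : Type} [CommRing K] [CommRing P] [CommRing B] [Algebra K P] [Algebra K B]
  [Algebra P B] [IsScalarTower K P B] (m : P) [IsLocalization.Away m B]

/-- extension of an endomorphism to a localisation -/
noncomputable def exG (f : P →ₐ[K] P) (h : IsUnit (IsScalarTower.toAlgHom K P B (f m))) :
    B →ₐ[K] B :=
  { IsLocalization.Away.lift m
      (g := (((IsScalarTower.toAlgHom K P B).comp f : P →ₐ[K] B) : P →+* B)) h with
    commutes' := fun q => by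
      have h1 : algebraMap K B q = algebraMap P B (algebraMap K P q) :=
        IsScalarTower.algebraMap_apply _ _ _ _
      have h2 := IsLocalization.Away.lift_eq (S := B) m
        (g := (((IsScalarTower.toAlgHom K P B).comp f : P →ₐ[K] B) : P →+* B)) h
        (algebraMap K P q)
      rw [← h1] at h2
      refine Eq.trans h2 ?_
      exact ((IsScalarTower.toAlgHom K P B).comp f).commutes q }

lemma exG_apply (f : P →ₐ[K] P) (h : IsUnit (IsScalarTower.toAlgHom K P B (f m))) (x : P) :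
    exG m f h (IsScalarTower.toAlgHom K P B x) = IsScalarTower.toAlgHom K P B (f x) :=
  IsLocalization.Away.lift_eq (S := B) m
    (g := (((IsScalarTower.toAlgHom K P B).comp f : P →ₐ[K] B) : P →+* B)) h x

include m in
lemma hom_extG {X : Type*} [CommRing X] {f g : B →+* X}
    (h : ∀ a : P, f (IsScalarTower.toAlgHom K P B a) = g (IsScalarTower.toAlgHom K P B a)) :
    f = g :=
  IsLocalization.ringHom_ext (Submonoid.powers m) (RingHom.ext h)

end Gen

/-- endomorphisms of `A_max[1/p]` mapping `μ` to a unit of `A_max[1/p,1/μ]` -/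
noncomputable def exB (f : PM p →ₐ[ℚ_[p]] PM p) (h : IsUnit (jB (f (muP p)))) :
    BM p →ₐ[ℚ_[p]] BM p := exG (muP p) f h

lemma exB_jB (f : PM p →ₐ[ℚ_[p]] PM p) (h : IsUnit (jB (f (muP p)))) (x : PM p) :
    exB f h (jB x) = jB (f x) := exG_apply (muP p) f h x

lemma hom_ext_BM {X : Type*} [CommRing X] {f g : BM p →+* X}
    (h : ∀ a : PM p, f (jB a) = g (jB a)) : f = g :=
  hom_extG (K := ℚ_[p]) (muP p) h

/-- `φ(ω)` -/
noncomputable def omP : PM p := toPM (phA (om (ee p)))

lemma phP_mu : endP phA goodEnd_phA (muP p) = muP p * omP := by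
  rw [muP, endP_toPM, omP, ← map_mul]
  congr 1
  conv_lhs => rw [mu_eq, map_mul, phA_mu1]

lemma isUnit_omP : IsUnit (omP : PM p) := by
  obtain ⟨h, hh⟩ := ph_om_aux (ee p)
  obtain ⟨u, hu, hu'⟩ := (FSe (p := p)).p_add_mu h
  have h1 : (omP : PM p) = (p : PM p) * oM u := by
    rw [omP, hh]
    have h2 := congrArg (oM : Cpl p (AMax0 p) →+* PM p) hu'
    rw [map_mul, map_natCast] at h2
    exact h2
  rw [h1]
  exact isUnit_p_PR.mul (hu.map oM)

lemma isUnit_ph_mu : IsUnit (jB (endPa phA goodEnd_phA (muP p))) := by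
  rw [endPa_apply, phP_mu, map_mul]
  exact isUnit_jB_mu.mul (isUnit_omP.map jB)

/-- the element `w` with `σ μ = μ w` -/
noncomputable def wA (σ : GQp p) : Ainf p := (exists_w (hee (p := p)) σ).choose

lemma galA_mu (σ : GQp p) : galA σ (mu (ee p)) = mu (ee p) * wA σ :=
  (exists_w (hee (p := p)) σ).choose_spec.1

lemma theta_wA (σ : GQp p) : ((theta (wA σ) : OC p) : ℂ_[p]) =
    algebraMap ℚ_[p] ℂ_[p] (((chiZ σ : ℤ_[p]ˣ) : ℤ_[p]) : ℚ_[p]) :=
  (exists_w (hee (p := p)) σ).choose_spec.2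

lemma mu_ne_zero : mu (ee p) ≠ 0 := by
  intro h
  apply (hee (p := p)).mu_coeff_ne
  rw [h, WittVector.zero_coeff]

lemma isUnit_wA (σ : GQp p) : IsUnit (wA σ) := by
  have h1 := congrArg (galA σ) (galA_mu (p := p) σ⁻¹)
  rw [← galA_mul, mul_inv_cancel, galA_one, map_mul, galA_mu] at h1
  have h2 : wA σ * galA σ (wA σ⁻¹) = 1 := by
    apply mul_left_cancel₀ (mu_ne_zero (p := p))
    rw [← mul_assoc, ← h1, mul_one]
  exact IsUnit.of_mul_eq_one _ h2

/-- `w` in `A_max[1/p]` -/
noncomputable def wP (σ : GQp p) : PM p := toPM (wA σ)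

lemma galP_mu (σ : GQp p) : endP (galA σ) (goodEnd_gal σ) (muP p) = muP p * wP σ := by
  rw [muP, endP_toPM, galA_mu, map_mul, wP]

lemma isUnit_gal_mu (σ : GQp p) : IsUnit (jB (endPa (galA σ) (goodEnd_gal σ) (muP p))) := by
  rw [endPa_apply, galP_mu, map_mul]
  exact isUnit_jB_mu.mul (((isUnit_wA σ).map toPM).map jB)

/-- Frobenius of `A_max[1/p,1/μ]` -/
noncomputable def phBM : BM p →ₐ[ℚ_[p]] BM p := exB (endPa phA goodEnd_phA) isUnit_ph_mu

/-- Galois action on `A_max[1/p,1/μ]` -/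
noncomputable def galBM (σ : GQp p) : BM p →ₐ[ℚ_[p]] BM p :=
  exB (endPa (galA σ) (goodEnd_gal σ)) (isUnit_gal_mu σ)

lemma phBM_jB (x : PM p) : phBM (jB x) = jB (endP phA goodEnd_phA x) := exB_jB _ _ _

lemma galBM_jB (σ : GQp p) (x : PM p) :
    galBM σ (jB x) = jB (endP (galA σ) (goodEnd_gal σ) x) := exB_jB _ _ _

/-- the cyclotomic character with values in `ℚ_p` -/
noncomputable def chiQ (σ : GQp p) : ℚ_[p] := (((chiZ σ : ℤ_[p]ˣ) : ℤ_[p]) : ℚ_[p])

lemma F1_PM (x : PM p) (hx : endP phA goodEnd_phA x = x) :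
    ∃ a : ℚ_[p], x = algebraMap ℚ_[p] (PM p) a := by
  obtain ⟨n, z, h⟩ := (FSe (p := p)).F1 zpA (x := x) hx
  have hp0 : (p : ℚ_[p]) ≠ 0 := by exact_mod_cast hp.1.ne_zero
  refine ⟨(z : ℚ_[p]) / (p : ℚ_[p]) ^ n, ?_⟩
  apply p_cancel_PR n
  rw [h, ← toPM_eq, ← algebraMap_PM_coe]
  have h1 : (p : PM p) ^ n = algebraMap ℚ_[p] (PM p) ((p : ℚ_[p]) ^ n) := by
    rw [map_pow, map_natCast]
  rw [h1, ← map_mul]
  congr 1
  field_simp

lemma F2_PM (m : ℕ) (x : PM p) (h : endP phA goodEnd_phA x = omP ^ m * x)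
    (hx : thPM x = 0) : ∃ y, x = muP p * y :=
  (FSe (p := p)).F2 oc oc_inj isUnit_p_C (x := x) (m := m) h hx

/-- the period rings with the action of a group `G` through a homomorphism to the Galois group -/
noncomputable def PS {G : Type} [Group G] (a : G →* GQp p) :
    PeriodSetup ℚ_[p] G ℂ_[p] (PM p) (BM p) where
  nt := inferInstance
  j := jB
  j_inj := jB_inj
  mu := muP p
  mu_unit := isUnit_jB_mu
  surj := exists_jB
  thP := thPMa
  th_mu := by rw [thPMa_apply, muP, thPM_toPM, hee.theta_mu]; rfl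
  phP := endPa phA goodEnd_phA
  phB := phBM
  ph_j := phBM_jB
  aP := fun g => endPa (galA (a g)) (goodEnd_gal (a g))
  aB := fun g => galBM (a g)
  a_j := fun g x => galBM_jB (a g) x
  aC := fun g => galCa (a g)
  th_a := fun g x => thPM_gal (a g) x
  om := omP
  ph_mu := phP_mu
  w := fun g => wP (a g)
  a_mu := fun g => galP_mu (a g)
  chi := fun g => chiQ (a g)
  th_w := fun g => by
    rw [thPMa_apply, wP, thPM_toPM, theta_wA]; rfl
  F1 := F1_PM
  F2 := F2_PM

end MP_7c08ba.Crys
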