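import Mathlib
import Pool.Agent.Lib.MP_7c08ba_nt.Crys.BM

/-!
# Logarithms: existence of `log [η]` in `A_cris` and comparison with `μ` in `A_max`
-/

namespace MP_7c08ba.Crys

open Finset

variable {p : ℕ} [hp : Fact p.Prime]

lemma pow_dvd_factorial (n : ℕ) {i : ℕ} (h : n * p ≤ i) : p ^ n ∣ i.factorial := by
  refine Dvd.dvd.trans ?_ (Nat.factorial_dvd_factorial h)
  clear h
  induction n with
  | zero => simp
  | succ n ih =>
    rw [Nat.succ_mul, pow_succ]
    refine Dvd.dvd.trans (mul_dvd_mul ih ?_) (Nat.factorial_mul_factorial_dvd_factorial_add _ _)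
    exact Nat.dvd_factorial hp.1.pos le_rfl

lemma tf_ACris0 (s : ACris0 p) (h : (p : ACris0 p) * s = 0) : s = 0 := by
  apply Subtype.ext
  have h1 := congrArg Subtype.val h
  rcases mul_eq_zero.1 (show ((p : ℕ) : AP p) * (s : AP p) = 0 by simpa using h1) with h2 | h2
  · exact absurd h2 p_ne_zero_AP
  · exact h2

lemma pcC : PC p (ACris p) := pcCpl tf_ACris0

lemma isUnit_natCast_AP (i : ℕ) : IsUnit (((i + 1 : ℕ)) : AP p) := by
  obtain ⟨z, hz⟩ := exists_p_pow_div_factorial (pcA (p := p)) (i + 1)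
  have := congrArg (io p) hz
  rw [map_mul, map_natCast, map_pow, map_natCast] at this
  have h2 : IsUnit (((i + 1).factorial : AP p) * io p z) := by
    rw [this]; exact isUnit_p_AP.pow _
  have h3 := isUnit_of_mul_isUnit_left h2
  rw [Nat.factorial_succ, Nat.cast_mul] at h3
  exact isUnit_of_mul_isUnit_left h3

/-- terms of the logarithm series -/
lemma term_eq (i : ℕ) (x y : AP p) (h : ((i + 1 : ℕ) : AP p) * y = x ^ (i + 1)) :
    (-1) ^ i * (Ring.inverse ((i + 1 : ℕ) : AP p) * x ^ (i + 1)) = (-1) ^ i * y := by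
  rw [← h, ← mul_assoc (Ring.inverse _), Ring.inverse_mul_cancel _ (isUnit_natCast_AP i), one_mul]

/-- divided powers as elements of `ACris0` -/
lemma exists_gamma {x : Ainf p} (hx : theta x = 0) (n : ℕ) :
    ∃ y : ACris0 p, (n.factorial : AP p) * (y : AP p) = io p x ^ n := by
  obtain ⟨y, hy, h⟩ := DPIn.ker x hx n
  exact ⟨⟨y, hy⟩, h⟩

lemma exists_isLog {η : Tl p} (hη : sh η = 1) : ∃ t : ACris p, IsLog p η t := by
  have hx : theta (tm η - 1) = 0 := by
    rw [map_sub, theta_tm, hη, map_one, sub_self]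
  choose y hy using fun n => exists_gamma hx n
  -- terms
  let T : ℕ → ACris0 p := fun i => (-1) ^ i * ((i.factorial : ACris0 p) * y (i + 1))
  have hT : ∀ N, ((∑ i ∈ range N, T i : ACris0 p) : AP p) = logSum p η N := by
    intro N
    rw [logSum, AddSubmonoidClass.coe_finset_sum]
    apply Finset.sum_congr rfl
    intro i _
    rw [term_eq i (io p (tm η - 1)) ((i.factorial : AP p) * (y (i + 1) : AP p))]
    · simp [T]
    · rw [← mul_assoc, ← Nat.cast_mul, ← Nat.factorial_succ, hy]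
  have hdiv : ∀ n i, n * p ≤ i → ∃ c : ACris0 p, T i = (p : ACris0 p) ^ n * c := by
    intro n i hi
    obtain ⟨c, hc⟩ := pow_dvd_factorial (p := p) n hi
    refine ⟨(-1) ^ i * ((c : ACris0 p) * y (i + 1)), ?_⟩
    simp only [T]
    rw [hc]; push_cast; ring
  have hdiv' : ∀ n, ∃ c : ACris0 p, ∑ i ∈ Ico (n * p) ((n + 1) * p), T i = (p : ACris0 p) ^ n * c := by
    intro n
    have : ((p : ACris0 p) ^ n) ∣ ∑ i ∈ Ico (n * p) ((n + 1) * p), T i := by
      apply Finset.dvd_sum
      intro i hi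
      obtain ⟨c, hc⟩ := hdiv n i (Finset.mem_Ico.1 hi).1
      exact ⟨c, hc⟩
    exact this
  choose f hf using hdiv'
  obtain ⟨t, ht⟩ := (pcC (p := p)).comp (fun n => ofC p (f n))
  have hsum : ∀ n, ∑ i ∈ range (n * p), T i = ∑ j ∈ range n, (p : ACris0 p) ^ j * f j := by
    intro n
    induction n with
    | zero => simp
    | succ n ih =>
      rw [Finset.sum_range_succ, ← ih, ← hf, Finset.sum_range_add_sum_Ico]
      exact Nat.mul_le_mul_right p (Nat.le_succ n)
  refine ⟨t, fun n => ⟨n * p, fun N hN => ⟨∑ i ∈ range N, T i, hT N, ?_⟩⟩⟩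
  have h1 : ∑ i ∈ range N, T i = ∑ i ∈ range (n * p), T i + ∑ i ∈ Ico (n * p) N, T i :=
    (Finset.sum_range_add_sum_Ico _ hN).symm
  have h2 : ((p : ACris0 p) ^ n) ∣ ∑ i ∈ Ico (n * p) N, T i := by
    apply Finset.dvd_sum
    intro i hi
    obtain ⟨c, hc⟩ := hdiv n i (Finset.mem_Ico.1 hi).1
    exact ⟨c, hc⟩
  obtain ⟨c, hc⟩ := h2
  obtain ⟨d, hd⟩ := ht n
  refine ⟨d - ofC p c, ?_⟩
  rw [h1, hsum, hc, map_add, map_sum, map_mul, map_pow, map_natCast]
  simp only [map_mul, map_pow, map_natCast]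
  linear_combination hd

/-- uniqueness of the logarithm -/
lemma IsLog.unique {η : Tl p} {t t' : ACris p} (h : IsLog p η t) (h' : IsLog p η t') : t = t' := by
  apply (pcC (p := p)).eq_of_forall
  intro n
  obtain ⟨N, hN⟩ := h n
  obtain ⟨N', hN'⟩ := h' n
  obtain ⟨s, hs, hd⟩ := hN (max N N') (le_max_left _ _)
  obtain ⟨s', hs', hd'⟩ := hN' (max N N') (le_max_right _ _)
  have : s = s' := Subtype.ext (hs.trans hs'.symm)
  rw [← this] at hd'
  have := dvd_sub hd hd'
  rwa [sub_sub_sub_cancel_right] at this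

end MP_7c08ba.Crys
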