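import Mathlib
import Pool.Agent.Lib.MP_7c08ba_nt.Crys.Log

/-!
# The maps `A_cris → A_max → A_cris`
-/

namespace MP_7c08ba.Crys

open Finset

variable {p : ℕ} [hp : Fact p.Prime]

/-! ### `A_cris → A_max` -/

/-- the inclusion -/
noncomputable def inc0 : ACris0 p →+* AMax0 p :=
  (ACris0 p).subtype.codRestrict (AMax0 p) (fun s => ACris0_le_AMax0 s.2)

/-- a version of the coercion with opaque subrings -/
lemma coe_codRestrict_aux {R : Type*} [Ring R] (S T : Subring R) (h : ∀ s : S, (s : R) ∈ T)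
    (s : S) : ((S.subtype.codRestrict T h s : T) : R) = s := rfl

lemma coe_inc0 (s : ACris0 p) : ((inc0 s : AMax0 p) : AP p) = s :=
  coe_codRestrict_aux (ACris0 p) (AMax0 p) (fun s => ACris0_le_AMax0 s.2) s

lemma coe_ioC (a : Ainf p) : ((ioC a : ACris0 p) : AP p) = io p a := rfl

/-- `A_cris → A_max` -/
noncomputable def cToM : ACris p →+* Cpl p (AMax0 p) := mapC inc0

lemma cToM_ofC (s : ACris0 p) : cToM (ofC p s) = ofC p (inc0 s) :=
  mapC_ofC _ _

lemma cToM_toC (a : Ainf p) : cToM (toC a) = ofC p (ioM a) := by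
  rw [toC, RingHom.comp_apply, cToM_ofC]
  refine congrArg (ofC p) (Subtype.ext ?_)
  rw [coe_inc0, coe_ioC, coe_ioM]

lemma cToM_endC (f : Ainf p →+* Ainf p) (hf : GoodEnd f) (x : ACris p) :
    cToM (endC f hf x) = endM f hf (cToM x) := by
  have key : (cToM).comp (endC f hf) = (endM f hf).comp cToM := by
    apply hom_ext_Cpl haus_Cpl
    intro s
    rw [RingHom.comp_apply, RingHom.comp_apply, endC, mapC_ofC, cToM_ofC, cToM_ofC, endM_ofC]
    refine congrArg (ofC p) (Subtype.ext ?_)
    rw [coe_inc0, coe_endC0, coe_endM0, coe_inc0]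
  exact RingHom.congr_fun key x

/-! ### `φ : A_max → A_cris` -/

lemma extP_phA_mem {s : AP p} (hs : s ∈ AMax0 p) : extP phA s ∈ ACris0 p := by
  have : AMax0 p ≤ (ACris0 p).comap (extP phA) := by
    rw [AMax0, Subring.closure_le]
    rintro y (⟨a, rfl⟩ | ⟨x, hx, hn⟩)
    · rw [SetLike.mem_coe, Subring.mem_comap, extP_io]; exact io_mem_ACris0 _
    · rw [SetLike.mem_coe, Subring.mem_comap]
      obtain ⟨t, ht⟩ := phA_mod x
      obtain ⟨z, hz⟩ := exists_gamma hx p
      have h1 := congrArg (extP phA) hn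
      rw [map_mul, map_natCast, extP_io] at h1
      have h2 : phA x = x ^ p + p * t := by rw [← ht]; ring
      have h3 : (p.factorial : AP p) = (p : AP p) * ((p - 1).factorial : AP p) := by
        rw [← Nat.cast_mul, Nat.mul_factorial_pred hp.1.ne_zero]
      have h4 : extP phA y = ((p - 1).factorial : AP p) * (z : AP p) + io p t := by
        apply mul_left_cancel₀ (p_ne_zero_AP (p := p))
        rw [h1, h2, map_add, map_pow, map_mul, map_natCast, ← hz, h3]; ring
      rw [h4]
      exact (ACris0 p).add_mem ((ACris0 p).mul_mem (natCast_mem _ _) z.2) (io_mem_ACris0 t)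
  exact this hs

/-- `φ : A_inf[ξ/p] → A_cris⁰` -/
noncomputable def psi0 : AMax0 p →+* ACris0 p :=
  (extP phA).restrict _ _ (fun _ hs => extP_phA_mem hs)

lemma coe_psi0 (s : AMax0 p) : ((psi0 s : ACris0 p) : AP p) = extP phA s := rfl

/-- `φ : A_max → A_cris` -/
noncomputable def psiM : Cpl p (AMax0 p) →+* ACris p := mapC psi0

lemma psiM_ofC (s : AMax0 p) : psiM (ofC p s) = ofC p (psi0 s) := mapC_ofC _ _

lemma psiM_ioM (a : Ainf p) : psiM (ofC p (ioM a)) = toC (phA a) := by
  rw [psiM_ofC, toC, RingHom.comp_apply]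
  refine congrArg (ofC p) (Subtype.ext ?_)
  rw [coe_psi0, coe_ioM, coe_ioC, extP_io]

lemma psiM_cToM (x : ACris p) : psiM (cToM x) = endC phA goodEnd_phA x := by
  have key : (psiM).comp cToM = endC (phA : Ainf p →+* Ainf p) goodEnd_phA := by
    apply hom_ext_Cpl haus_Cpl
    intro s
    rw [RingHom.comp_apply, endC, mapC_ofC, cToM_ofC, psiM_ofC]
    refine congrArg (ofC p) (Subtype.ext ?_)
    rw [coe_psi0, coe_endC0, coe_inc0]
  exact RingHom.congr_fun key x

lemma cToM_psiM (x : Cpl p (AMax0 p)) : cToM (psiM x) = endM phA goodEnd_phA x := by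
  have key : (cToM).comp psiM = endM (phA : Ainf p →+* Ainf p) goodEnd_phA := by
    apply hom_ext_Cpl haus_Cpl
    intro s
    rw [RingHom.comp_apply, endM_ofC, psiM_ofC, cToM_ofC]
    refine congrArg (ofC p) (Subtype.ext ?_)
    rw [coe_inc0, coe_psi0, coe_endM0]
  exact RingHom.congr_fun key x

lemma psiM_endM (f : Ainf p →+* Ainf p) (hf : GoodEnd f) (h : ∀ a, phA (f a) = f (phA a))
    (x : Cpl p (AMax0 p)) :
    psiM (endM f hf x) = endC f hf (psiM x) := by
  have key : (psiM).comp (endM f hf) = (endC f hf).comp psiM := by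
    apply hom_ext_Cpl haus_Cpl
    intro s
    rw [RingHom.comp_apply, RingHom.comp_apply, endM_ofC, psiM_ofC, psiM_ofC, endC, mapC_ofC]
    refine congrArg (ofC p) (Subtype.ext ?_)
    rw [coe_psi0, coe_endM0, coe_endC0, coe_psi0, extP_comp, extP_comp]
    have : (phA : Ainf p →+* Ainf p).comp f = f.comp phA := RingHom.ext h
    rw [this]
  exact RingHom.congr_fun key x

end MP_7c08ba.Crys
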