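import Mathlib
import Pool.Agent.Lib.MP_7c08ba_nt.Crys.Psi

/-!
# Comparison of `B_cris` and `A_max[1/p, 1/μ]`
-/

namespace MP_7c08ba.Crys

open Finset

variable {p : ℕ} [hp : Fact p.Prime]

/-! ### `[η] - 1` is invertible -/

lemma rt_one (n : ℕ) : rt n (1 : Tl p) = 1 := by
  unfold rt; exact iterate_map_one _ _

lemma exists_gen {η : Tl p} (h1 : sh η = 1) (h2 : η ≠ 1) :
    ∃ (k : ℕ) (e : Tl p), IsGen e ∧ η = e ^ p ^ (k + 1) := by
  classical
  have hex : ∃ n, sh (rt n η) ≠ 1 := by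
    by_contra hcon
    push Not at hcon
    apply h2
    apply tl_ext
    intro n
    rw [hcon n, rt_one, sh_one]
  obtain ⟨hn, hmin⟩ := And.intro (Nat.find_spec hex) (fun m hm => Nat.find_min hex (m := m) hm)
  set n := Nat.find hex with hndef
  have hn0 : n ≠ 0 := by
    intro h0
    rw [h0, rt_zero] at hn
    exact hn h1
  obtain ⟨k, hk⟩ := Nat.exists_eq_succ_of_ne_zero hn0
  refine ⟨k, rt (k + 1) η, ⟨?_, ?_⟩, ?_⟩
  · rw [sh_rt_succ]
    by_contra hcon
    exact hmin k (by omega) hcon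
  · rw [hk] at hn; exact hn
  · rw [rt_pow]

lemma isUnit_mu_gen {e : Tl p} (he : IsGen e) : IsUnit (jB (toPM (mu e))) := by
  obtain ⟨d, hd⟩ := he.mu_dvd (x := mu (ee p)) (fun k => (hee (p := p)).theta_phA_mu k)
  have h : IsUnit (jB (toPM (mu e) * toPM d)) := by
    rw [← map_mul, ← hd]
    exact isUnit_jB_mu
  rw [map_mul] at h
  exact isUnit_of_mul_isUnit_left h

lemma phBM_iter (k : ℕ) (a : Ainf p) :
    (phBM : BM p → BM p)^[k] (jB (toPM a)) = jB (toPM (phA^[k] a)) := by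
  induction k with
  | zero => rfl
  | succ k ih =>
    rw [Function.iterate_succ_apply', ih, phBM_jB, endP_toPM, Function.iterate_succ_apply']

lemma isUnit_iter (k : ℕ) {x : BM p} (hx : IsUnit x) : IsUnit ((phBM : BM p → BM p)^[k] x) := by
  induction k with
  | zero => exact hx
  | succ k ih =>
    rw [Function.iterate_succ_apply']
    exact ih.map phBM

lemma isUnit_tm_sub_one {η : Tl p} (h1 : sh η = 1) (h2 : η ≠ 1) :
    IsUnit (jB (toPM (tm η - 1))) := by
  obtain ⟨k, e, he, hη⟩ := exists_gen h1 h2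
  have h3 : tm η - 1 = phA^[k] (mu e) := by
    rw [← phAk_eq, mu, map_sub, map_one, phAk_eq, phA_iter_tm, hη, ← pow_mul, ← pow_succ']
  rw [h3, ← phBM_iter]
  exact isUnit_iter k (isUnit_mu_gen he)

/-! ### Logarithms in `A_max` -/

lemma IsLog.cToM_eq {η : Tl p} (h1 : sh η = 1) {t : ACris p} (ht : IsLog p η t) :
    ∃ u : Cpl p (AMax0 p), IsUnit u ∧ cToM t = ofC p (ioM (tm η - 1)) * u := by
  obtain ⟨c, hc⟩ := (hee (p := p)).mu_dvd (InI_tm h1)
  have hlog := fun i : ℕ => (FSe (p := p)).exists_log_term i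
  choose r hr using hlog
  have hr' : ∀ i : ℕ, ((i + 1 : ℕ) : AMax0 p) * ((p : AMax0 p) ^ i * r i) = ioM (mu (ee p)) ^ i :=
    hr
  let v : ℕ → AMax0 p := fun i => (-1) ^ i * (ioM c ^ i * r i)
  obtain ⟨u, hu⟩ := (pcCpl (tf_AMax0 (p := p))).comp (fun i => ofC p (v i))
  have hpc : PC p (Cpl p (AMax0 p)) := pcCpl (tf_AMax0 (p := p))
  refine ⟨u, ?_, ?_⟩
  · have h0 := hr' 0
    have hr0 : r 0 = 1 := by simpa using h0
    have h2 := hu 1
    rw [Finset.sum_range_one, pow_zero, one_mul, pow_one] at h2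
    have h3 : ofC p (v 0) = (1 : Cpl p (AMax0 p)) := by
      have : v 0 = 1 := by simp [v, hr0]
      rw [this, map_one]
    rw [h3] at h2
    exact hpc.isUnit_of_mod isUnit_one h2
  · apply hpc.eq_of_forall
    intro n
    obtain ⟨N₀, hN⟩ := ht n
    obtain ⟨s, hs, y, hy⟩ := hN (max N₀ n) (le_max_left _ _)
    set N := max N₀ n with hNdef
    obtain ⟨z, hz⟩ := hu N
    have e1 : cToM t = ofC p (inc0 s) + (p : Cpl p (AMax0 p)) ^ n * cToM y := by
      have := congrArg cToM hy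
      rw [map_sub, map_mul, map_pow, map_natCast, cToM_ofC] at this
      rw [← this]; ring
    have e2 : inc0 s = ioM (tm η - 1) * ∑ i ∈ range N, (p : AMax0 p) ^ i * v i := by
      apply Subtype.ext
      rw [coe_inc0, hs, logSum, MulMemClass.coe_mul, AddSubmonoidClass.coe_finsetSum, coe_ioM,
        Finset.mul_sum]
      apply Finset.sum_congr rfl
      intro i _
      have h4 := congrArg (Subtype.val) (hr' i)
      have h5 : ((i + 1 : ℕ) : AP p) * ((p : AP p) ^ i * (r i : AP p)) = io p (mu (ee p)) ^ i := by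
        simpa [coe_ioM] using h4
      rw [term_eq i (io p (tm η - 1))
        (io p (tm η - 1) * (io p c ^ i * ((p : AP p) ^ i * (r i : AP p)))) (by
          have h6 : io p (tm η - 1) ^ (i + 1) =
              io p (tm η - 1) * (io p c ^ i * io p (mu (ee p)) ^ i) := by
            rw [pow_succ']
            congr 1
            rw [hc, map_mul, mul_pow, mul_comm]
          rw [h6, ← h5]; ring)]
      simp only [v, MulMemClass.coe_mul, SubmonoidClass.coe_pow, coe_ioM]
      push_cast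
      ring
    have e3 : u = ofC p (∑ i ∈ range N, (p : AMax0 p) ^ i * v i) +
        (p : Cpl p (AMax0 p)) ^ N * z := by
      rw [← hz, map_sum]
      simp only [map_mul, map_pow, map_natCast]
      ring
    obtain ⟨M, hM⟩ : ∃ M, N = n + M := Nat.exists_eq_add_of_le (le_max_right N₀ n)
    refine ⟨cToM y - ofC p (ioM (tm η - 1)) * ((p : Cpl p (AMax0 p)) ^ M * z), ?_⟩
    rw [e1, e2, e3, map_mul]
    have e4 : (p : Cpl p (AMax0 p)) ^ N = (p : Cpl p (AMax0 p)) ^ n * (p : Cpl p (AMax0 p)) ^ M := by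
      rw [hM, pow_add]
    rw [e4]
    ring

/-! ### `B_cris → A_max[1/p,1/μ]` -/

/-- `A_cris → A_max[1/p,1/μ]` -/
noncomputable def cToB : ACris p →+* BM p := ((jB : PM p →ₐ[ℚ_[p]] BM p) : PM p →+* BM p).comp (oM.comp cToM)

lemma cToB_apply (x : ACris p) : cToB x = jB (oM (cToM x)) := rfl

lemma isUnit_cToB_log {η : Tl p} (h1 : sh η = 1) (h2 : η ≠ 1) {t : ACris p} (ht : IsLog p η t) :
    IsUnit (cToB t) := by
  obtain ⟨u, hu, h⟩ := ht.cToM_eq h1
  rw [cToB_apply, h, map_mul, map_mul]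
  exact (isUnit_tm_sub_one h1 h2).mul ((hu.map oM).map jB)

lemma isUnit_cToB (y : tSub p) : IsUnit (cToB (y : ACris p)) := by
  have : tSub p ≤ (IsUnit.submonoid (BM p)).comap (cToB : ACris p →+* BM p).toMonoidHom := by
    rw [tSub, Submonoid.closure_le]
    rintro x (hx | ⟨η, h1, h2, h3⟩)
    · rw [Set.mem_singleton_iff] at hx
      rw [hx]
      change IsUnit (cToB (p : ACris p))
      rw [map_natCast]
      have := (isUnit_p_PR (p := p) (S := AMax0 p)).map (jB : PM p →ₐ[ℚ_[p]] BM p)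
      rwa [map_natCast] at this
    · exact isUnit_cToB_log h1 h2 h3
  exact this y.2

/-- `B_cris → A_max[1/p,1/μ]` as a ring homomorphism -/
noncomputable def kap0 : BCris p →+* BM p :=
  IsLocalization.lift (M := tSub p) (S := BCris p) (g := cToB) isUnit_cToB

lemma kap0_toB (x : ACris p) : kap0 (toB x) = cToB x :=
  IsLocalization.lift_eq (M := tSub p) (S := BCris p) (g := cToB) isUnit_cToB x

lemma kap0_qp (q : ℚ_[p]) : kap0 (algebraMap ℚ_[p] (BCris p) q) = algebraMap ℚ_[p] (BM p) q := by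
  have : kap0.comp (algebraMap ℚ_[p] (BCris p)) = algebraMap ℚ_[p] (BM p) := by
    apply hom_ext_Qp
    intro z
    have e1 : algebraMap ℚ_[p] (BCris p) (z : ℚ_[p]) = toB (toC (zpA z)) :=
      qpLift_coe ((toB.comp toC).comp zpA) isUnit_p_BCris z
    rw [RingHom.comp_apply, e1, kap0_toB, cToB_apply, cToM_toC]
    have e2 : algebraMap ℚ_[p] (BM p) (z : ℚ_[p]) = jB (algebraMap ℚ_[p] (PM p) (z : ℚ_[p])) :=
      (jB.commutes _).symm
    rw [e2, algebraMap_PM_coe, toPM_apply]
  exact RingHom.congr_fun this q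

/-- `B_cris → A_max[1/p,1/μ]` -/
noncomputable def kap : BCris p →ₐ[ℚ_[p]] BM p := { kap0 with commutes' := kap0_qp }

lemma kap_toB (x : ACris p) : kap (toB x) = jB (oM (cToM x)) := kap0_toB x

lemma kap_phB (x : BCris p) : kap (phBa x) = phBM (kap x) := by
  have : (kap : BCris p →ₐ[ℚ_[p]] BM p).toRingHom.comp phB =
      (phBM : BM p →ₐ[ℚ_[p]] BM p).toRingHom.comp (kap : BCris p →ₐ[ℚ_[p]] BM p).toRingHom := by
    apply hom_ext_BCris
    intro a
    change kap (phB (toB a)) = phBM (kap (toB a))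
    have e1 : kap (phB (toB a)) = kap (toB (endC phA goodEnd_phA a)) := congrArg kap (phB_toB a)
    have e2 := kap_toB (endC phA goodEnd_phA a)
    have e3 : (oM (cToM (endC phA goodEnd_phA a)) : PM p) = endP phA goodEnd_phA (oM (cToM a)) :=
      (congrArg oM (cToM_endC phA goodEnd_phA a)).trans (endP_oM phA goodEnd_phA (cToM a)).symm
    exact e1.trans (e2.trans ((congrArg jB e3).trans ((phBM_jB (oM (cToM a))).symm.trans
      (congrArg phBM (kap_toB a).symm))))
  exact RingHom.congr_fun this x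

lemma kap_galB (σ : GQp p) (x : BCris p) : kap (galBa σ x) = galBM σ (kap x) := by
  have : (kap : BCris p →ₐ[ℚ_[p]] BM p).toRingHom.comp (galB σ) =
      (galBM σ : BM p →ₐ[ℚ_[p]] BM p).toRingHom.comp (kap : BCris p →ₐ[ℚ_[p]] BM p).toRingHom := by
    apply hom_ext_BCris
    intro a
    change kap (galB σ (toB a)) = galBM σ (kap (toB a))
    have e1 : kap (galB σ (toB a)) = kap (toB (endC (galA σ) (goodEnd_gal σ) a)) :=
      congrArg kap (galB_toB σ a)
    have e2 := kap_toB (endC (galA σ) (goodEnd_gal σ) a)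
    have e3 : (oM (cToM (endC (galA σ) (goodEnd_gal σ) a)) : PM p) =
        endP (galA σ) (goodEnd_gal σ) (oM (cToM a)) :=
      (congrArg oM (cToM_endC (galA σ) (goodEnd_gal σ) a)).trans
        (endP_oM (galA σ) (goodEnd_gal σ) (cToM a)).symm
    exact e1.trans (e2.trans ((congrArg jB e3).trans ((galBM_jB σ (oM (cToM a))).symm.trans
      (congrArg (galBM σ) (kap_toB a).symm))))
  exact RingHom.congr_fun this x

/-! ### `φ : A_max[1/p,1/μ] → B_cris` -/

/-- `φ : A_max[1/p] → B_cris` -/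
noncomputable def psiP : PM p →+* BCris p := exPR (toB.comp psiM) isUnit_p_BCris

lemma psiP_oM (x : Cpl p (AMax0 p)) : psiP (oM x) = toB (psiM x) := exPR_oM _ _ _

lemma psiP_toPM (a : Ainf p) : psiP (toPM a) = toB (toC (phA a)) := by
  rw [toPM_apply, psiP_oM, psiM_ioM]

lemma isUnit_toB_log {η : Tl p} (h1 : sh η = 1) (h2 : η ≠ 1) {t : ACris p} (ht : IsLog p η t) :
    IsUnit (toB t) :=
  IsLocalization.map_units (BCris p)
    (⟨t, Submonoid.subset_closure (Or.inr ⟨η, h1, h2, ht⟩)⟩ : tSub p)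

lemma pow_p_ne_one {η : Tl p} (h : η ≠ 1) : η ^ p ≠ 1 := by
  intro h'
  apply h
  have h1 : (η - 1) ^ p = 0 := by rw [sub_pow_char, h', one_pow, sub_self]
  exact sub_eq_zero.1 ((pow_eq_zero_iff hp.1.ne_zero).1 h1)

lemma isUnit_psiP_mu : IsUnit (psiP (muP p)) := by
  have h1 : sh ((ee p) ^ p) = 1 := by rw [sh_pow, (hee (p := p)).pow]
  have h2 : (ee p) ^ p ≠ 1 := (hee (p := p)).pow_ne_one
  obtain ⟨t, ht⟩ := exists_isLog h1
  obtain ⟨u, hu, h⟩ := ht.cToM_eq h1
  have h3 := congrArg psiM h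
  rw [psiM_cToM, map_mul, psiM_ioM] at h3
  have h4 : IsLog p (((ee p) ^ p) ^ p) (endC phA goodEnd_phA t) :=
    ht.map goodEnd_phA (phA_tm _)
  have h5 := isUnit_toB_log (by rw [sh_pow, h1, one_pow]) (pow_p_ne_one h2) h4
  rw [h3, map_mul] at h5
  have h6 := isUnit_of_mul_isUnit_left h5
  rw [muP, psiP_toPM]
  exact h6

lemma psiP_qp (q : ℚ_[p]) : psiP (algebraMap ℚ_[p] (PM p) q) = algebraMap ℚ_[p] (BCris p) q := by
  have : psiP.comp (algebraMap ℚ_[p] (PM p)) = algebraMap ℚ_[p] (BCris p) := by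
    apply hom_ext_Qp
    intro z
    have e1 : algebraMap ℚ_[p] (BCris p) (z : ℚ_[p]) = toB (toC (zpA z)) :=
      qpLift_coe ((toB.comp toC).comp zpA) isUnit_p_BCris z
    rw [RingHom.comp_apply, algebraMap_PM_coe, psiP_toPM, e1, endo_zpA]
  exact RingHom.congr_fun this q

/-- `φ : A_max[1/p,1/μ] → B_cris` as a ring homomorphism -/
noncomputable def psi0B : BM p →+* BCris p :=
  IsLocalization.Away.lift (muP p) (g := psiP) isUnit_psiP_mu

lemma psi0B_jB (x : PM p) : psi0B (jB x) = psiP x :=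
  IsLocalization.Away.lift_eq (S := BM p) (muP p) (g := psiP) isUnit_psiP_mu x

/-- `φ : A_max[1/p,1/μ] → B_cris` -/
noncomputable def psiB : BM p →ₐ[ℚ_[p]] BCris p :=
  { psi0B with
    commutes' := fun q => by
      have e2 : algebraMap ℚ_[p] (BM p) q = jB (algebraMap ℚ_[p] (PM p) q) :=
        (jB.commutes _).symm
      change psi0B (algebraMap ℚ_[p] (BM p) q) = _
      rw [e2, psi0B_jB, psiP_qp] }

lemma psiB_jB (x : PM p) : psiB (jB x) = psiP x := psi0B_jB x

lemma psiB_galBM (σ : GQp p) (x : BM p) : psiB (galBM σ x) = galBa σ (psiB x) := by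
  have h1 : (psiP : PM p →+* BCris p).comp (endP (galA σ) (goodEnd_gal σ)) =
      (galB σ).comp psiP := by
    apply hom_ext_PR
    intro a
    rw [RingHom.comp_apply, RingHom.comp_apply, endP_oM, psiP_oM, psiP_oM,
      psiM_endM _ _ (phA_galA σ), galB_toB]
  have : (psiB : BM p →ₐ[ℚ_[p]] BCris p).toRingHom.comp
      (galBM σ : BM p →ₐ[ℚ_[p]] BM p).toRingHom =
      (galB σ).comp (psiB : BM p →ₐ[ℚ_[p]] BCris p).toRingHom := by
    apply hom_ext_BM
    intro a
    change psiB (galBM σ (jB a)) = galB σ (psiB (jB a))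
    rw [galBM_jB, psiB_jB, psiB_jB]
    exact RingHom.congr_fun h1 a
  exact RingHom.congr_fun this x

lemma psiB_kap (x : BCris p) : psiB (kap x) = phBa x := by
  have : (psiB : BM p →ₐ[ℚ_[p]] BCris p).toRingHom.comp
      (kap : BCris p →ₐ[ℚ_[p]] BM p).toRingHom = phB := by
    apply hom_ext_BCris
    intro a
    change psiB (kap (toB a)) = phB (toB a)
    rw [kap_toB, psiB_jB, psiP_oM, psiM_cToM, phB_toB]
  exact RingHom.congr_fun this x

lemma kap_psiP (x : PM p) : kap (psiP x) = jB (endP phA goodEnd_phA x) := by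
  have h1 : (kap : BCris p →ₐ[ℚ_[p]] BM p).toRingHom.comp psiP =
      (jB : PM p →ₐ[ℚ_[p]] BM p).toRingHom.comp (endP phA goodEnd_phA) := by
    apply hom_ext_PR
    intro a
    change kap (psiP (oM a)) = jB (endP phA goodEnd_phA (oM a))
    have e1 : kap (psiP (oM a)) = kap (toB (psiM a)) := congrArg kap (psiP_oM a)
    have e3 : (oM (cToM (psiM a)) : PM p) = endP phA goodEnd_phA (oM a) :=
      (congrArg oM (cToM_psiM a)).trans (endP_oM phA goodEnd_phA a).symm
    exact e1.trans ((kap_toB (psiM a)).trans (congrArg jB e3))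
  exact RingHom.congr_fun h1 x

lemma kap_psiB_jB (x : PM p) : kap (psiB (jB x)) = jB (endP phA goodEnd_phA x) := by
  rw [psiB_jB]
  exact kap_psiP x

lemma kap_psiB (x : BM p) : kap (psiB x) = phBM x := by
  have : (kap : BCris p →ₐ[ℚ_[p]] BM p).toRingHom.comp
      (psiB : BM p →ₐ[ℚ_[p]] BCris p).toRingHom =
      (phBM : BM p →ₐ[ℚ_[p]] BM p).toRingHom :=
    hom_ext_BM (fun a => (kap_psiB_jB a).trans (phBM_jB a).symm)
  exact RingHom.congr_fun this x

instance nontrivial_BCris : Nontrivial (BCris p) := (kap0 (p := p)).domain_nontrivial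

end MP_7c08ba.Crys
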