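import Mathlib
import Pool.Agent.Lib.MP_7c08ba_nt.Crys.Cmp
import Pool.Agent.Lib.MP_7c08ba_nt.Crys.LocalAbs

/-!
# The local Bloch–Kato condition and its dimension
-/

namespace MP_7c08ba.Crys

open TensorProduct

variable {p : ℕ} [hp : Fact p.Prime]
variable {G : Type} [Group G]
variable {L V : Type} [Field L] [Algebra ℚ_[p] L] [AddCommGroup V] [Module ℚ_[p] V] [Module L V]
  [IsScalarTower ℚ_[p] L V]

/-- Galois action on `B_cris` of a group `G` with a homomorphism to the absolute Galois group of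
`ℚ_p` -/
noncomputable def gB (a : G →* GQp p) (g : G) : BCris p →ₐ[ℚ_[p]] BCris p := galBa (a g)

/-- `D_cris(V) = (V ⊗ B_cris)^G` -/
noncomputable def DCris (a : G →* GQp p) (ρ : G →* (V →ₗ[L] V)) :
    Submodule L (V ⊗[ℚ_[p]] BCris p) := DB ρ (gB a)

lemma Internal.ph_gB (a : G →* GQp p) (g : G) (x : BCris p) : phBa (gB a g x) = gB a g (phBa x) :=
  phB_galB (a g) x

export MP_7c08ba.Crys.Internal (ph_gB)

/-- Frobenius minus one on `D_cris(V)` -/
noncomputable def phSub (a : G →* GQp p) (ρ : G →* (V →ₗ[L] V)) :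
    DCris a ρ →ₗ[L] DCris a ρ := phSubB ρ (gB a) phBa (ph_gB a)

/-- functions `c : G → V` of the form `c g = g b - b` for some `b ∈ V ⊗ B_cris` -/
noncomputable def ZCris (a : G →* GQp p) (ρ : G →* (V →ₗ[L] V)) : Submodule L (G → V) :=
  LinearMap.range (cocB ρ (gB a))

lemma Internal.mem_ZCris (a : G →* GQp p) (ρ : G →* (V →ₗ[L] V)) (c : G → V) :
    c ∈ ZCris a ρ ↔ ∃ b : V ⊗[ℚ_[p]] BCris p, ∀ g,
      act ρ (gB a) g b - b = inc ℚ_[p] L V (BCris p) (c g) := mem_range_cocB ρ (gB a) c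

export MP_7c08ba.Crys.Internal (mem_ZCris)

/-- multiplicity of the Hodge–Tate weight `m` (the weight of `ℚ_p(1)` is `1`) -/
noncomputable def HTw (a : G →* GQp p) (ρ : G →* (V →ₗ[L] V)) (m : ℕ) :
    Submodule L (V ⊗[ℚ_[p]] ℂ_[p]) :=
  HT ρ (fun g => galCa (a g)) (fun g => chiQ (a g)) m

/-- the local bound -/
theorem Internal.rank_ZCris (a : G →* GQp p) (ρ : G →* (V →ₗ[L] V)) (r : ℕ)
    (hr : ∀ m, ∑ i ∈ Finset.Icc 1 m, Module.rank L (HTw a ρ i) ≤ r) :
    Module.rank L ((ZCris a ρ).map (cobound ρ).mkQ) ≤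
      r + Module.rank L (DCris a ρ ⧸ LinearMap.range (phSub a ρ)) :=
  rank_range_cocB (PS a) ρ (gB a) phBa (ph_gB a) kap kap_phB (fun g x => kap_galB (a g) x) r hr

export MP_7c08ba.Crys.Internal (rank_ZCris)

end MP_7c08ba.Crys
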