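import Mathlib
import Pool.Agent.Lib.MP_7c08ba_nt.Crys.Cmp

set_option autoImplicit false

/-!
# Statements of modules on `A_max[1/p]`
-/

namespace MP_7c08ba.Crys

open Finset

variable (p : ℕ) [hp : Fact p.Prime]

/-- Module CONT: the Galois action on `A_max` is continuous for the `p`-adic topology. -/
def StCont : Prop :=
  ∀ (y : Cpl p (AMax0 p)) (k : ℕ), ∃ U : Subgroup (GQp p), IsOpen (U : Set (GQp p)) ∧
    ∀ σ ∈ U, (p : Cpl p (AMax0 p)) ^ k ∣ endM (galA σ) (goodEnd_gal σ) y - y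

/-- Module THETA: `θ` maps the elements with `φ x = p x` onto `ℂ_p`. -/
def StTheta : Prop :=
  ∀ z : ℂ_[p], ∃ x : PM p, endP phA goodEnd_phA x = (p : PM p) * x ∧ thPM x = z

/-- Module TEL: the element `t = μ ∏ (φ^i(ω) / p)`. -/
def StTel : Prop :=
  ∃ t U : PM p, t = muP p * U ∧ IsUnit U ∧ thPM U = 1 ∧
    endP phA goodEnd_phA t = (p : PM p) * t ∧
    ∀ σ : GQp p, endP (galA σ) (goodEnd_gal σ) t = algebraMap ℚ_[p] (PM p) (chiQ σ) * t

/-- Module MUDIV: no power of `μ` is divisible by all powers of `p` in `A_max`. -/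
def StMuDiv : Prop :=
  ∀ m : ℕ, ∃ c : ℕ, ¬ (p : Cpl p (AMax0 p)) ^ c ∣ (ofC p (ioM (mu (ee p))) : Cpl p (AMax0 p)) ^ m

end MP_7c08ba.Crys
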