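import Mathlib
import Pool.Agent.Lib.MP_7c08ba_nt.Crys.StmtDR

set_option autoImplicit false

/-!
# Module CONT: continuity of the Galois action on `A_max`
-/

namespace MP_7c08ba.Crys

open Finset

/-! ### An abstract subring -/

section Abs

variable {G : Type*} [Group G] [TopologicalSpace G] {R : Type*} [CommRing R] (p : ℕ)

/-- elements moved by multiples of `p ^ k` by an open subgroup -/
def Ct (τ : G → R →+* R) (s : R) : Prop :=
  ∀ k : ℕ, ∃ U : Subgroup G, IsOpen (U : Set G) ∧ ∀ σ ∈ U, (p : R) ^ k ∣ τ σ s - s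

/-- the subring of these elements -/
def ctSub (τ : G → R →+* R) : Subring R where
  carrier := {s | Ct p τ s}
  mul_mem' := by
    intro a b ha hb k
    obtain ⟨U, hU, hU'⟩ := ha k
    obtain ⟨V, hV, hV'⟩ := hb k
    refine ⟨U ⊓ V, ?_, fun σ hσ => ?_⟩
    · rw [Subgroup.coe_inf]
      exact hU.inter hV
    · have h1 := (hU' σ hσ.1).mul_right (τ σ b)
      have h2 := (hV' σ hσ.2).mul_left a
      have h3 := dvd_add h1 h2
      have h4 : (τ σ a - a) * τ σ b + a * (τ σ b - b) = τ σ (a * b) - a * b := by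
        rw [map_mul]
        ring
      rwa [h4] at h3
  one_mem' := by
    intro k
    exact ⟨⊤, isOpen_univ, fun σ _ => by rw [map_one, sub_self]; exact dvd_zero _⟩
  add_mem' := by
    intro a b ha hb k
    obtain ⟨U, hU, hU'⟩ := ha k
    obtain ⟨V, hV, hV'⟩ := hb k
    refine ⟨U ⊓ V, ?_, fun σ hσ => ?_⟩
    · rw [Subgroup.coe_inf]
      exact hU.inter hV
    · have h3 := dvd_add (hU' σ hσ.1) (hV' σ hσ.2)
      have h4 : (τ σ a - a) + (τ σ b - b) = τ σ (a + b) - (a + b) := by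
        rw [map_add]
        ring
      rwa [h4] at h3
  zero_mem' := by
    intro k
    exact ⟨⊤, isOpen_univ, fun σ _ => by rw [map_zero, sub_self]; exact dvd_zero _⟩
  neg_mem' := by
    intro a ha k
    obtain ⟨U, hU, hU'⟩ := ha k
    refine ⟨U, hU, fun σ hσ => ?_⟩
    have h3 := (dvd_neg (α := R)).2 (hU' σ hσ)
    have h4 : -(τ σ a - a) = τ σ (-a) - (-a) := by
      rw [map_neg]
      ring
    rwa [h4] at h3

variable {p}

theorem mem_ctSub {τ : G → R →+* R} {s : R} : s ∈ ctSub p τ ↔ Ct p τ s := Iff.rfl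

theorem ct_div {τ : G → R →+* R} (tf : ∀ x : R, (p : R) * x = 0 → x = 0) {x y : R}
    (h : (p : R) * y = x) (hx : x ∈ ctSub p τ) : y ∈ ctSub p τ := by
  intro k
  obtain ⟨U, hU, hU'⟩ := hx (k + 1)
  refine ⟨U, hU, fun σ hσ => ?_⟩
  obtain ⟨t, ht⟩ := hU' σ hσ
  refine ⟨t, ?_⟩
  have h1 : (p : R) * ((τ σ y - y) - (p : R) ^ k * t) = 0 := by
    have h2 : τ σ x = (p : R) * τ σ y := by rw [← h, map_mul, map_natCast]
    have h3 : (p : R) * ((τ σ y - y) - (p : R) ^ k * t) =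
        (p : R) * τ σ y - (p : R) * y - (p : R) ^ (k + 1) * t := by ring
    rw [h3, ← h2, h, ht, sub_self]
  exact sub_eq_zero.1 (tf _ h1)

theorem eval_mem {A : Type*} [CommRing A] (S : Subring R) (f : A →+* R) (hf : ∀ a, f a ∈ S)
    {x : R} (hx : x ∈ S) (P : Polynomial A) : P.eval₂ f x ∈ S := by
  rw [Polynomial.eval₂_eq_sum_range]
  exact S.sum_mem fun i _ => S.mul_mem (hf _) (S.pow_mem hx i)

theorem comb_dvd {A B C A' B' C' : R} {k : ℕ} (h1 : A = B + (p : R) * C)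
    (h2 : A' = B' + (p : R) * C') (h3 : (p : R) ^ (k + 1) ∣ B - B') (h4 : (p : R) ^ k ∣ C - C') :
    (p : R) ^ (k + 1) ∣ A - A' := by
  obtain ⟨t, ht⟩ := h4
  have h5 : A - A' = (B - B') + (p : R) ^ (k + 1) * t := by
    rw [h1, h2]
    linear_combination (p : R) * ht
  rw [h5]
  exact dvd_add h3 (Dvd.intro _ rfl)

theorem comb_dvd' {x y d r : R} (h1 : y - (x + d) = r) (hr : (p : R) ∣ r) (hd : (p : R) ∣ d) :
    (p : R) ∣ y - x := by
  have h5 : y - x = r + d := by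
    rw [← h1]
    ring
  rw [h5]
  exact dvd_add hr hd

theorem comb_dvd3 {a s z b c : R} {k : ℕ} (h1 : a = s + (p : R) ^ k * z)
    (h2 : b = c + (p : R) ^ k * z) (h : (p : R) ^ k ∣ c - s) : (p : R) ^ k ∣ b - a := by
  have h5 : b - a = c - s := by
    rw [h1, h2]
    ring
  rw [h5]
  exact h

end Abs

variable {p : ℕ} [hp : Fact p.Prime]

lemma cont_galC (c : ℂ_[p]) {ε : ℝ} (hε : 0 < ε) : ∃ U : Subgroup (GQp p),
    IsOpen (U : Set (GQp p)) ∧ ∀ σ ∈ U, ‖galC σ c - c‖ < ε := by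
  obtain ⟨α, hα⟩ : ∃ α : PadicAlgCl p, ‖c - (α : ℂ_[p])‖ < ε := by
    have hd : DenseRange (fun α : PadicAlgCl p => (α : ℂ_[p])) :=
      UniformSpace.Completion.denseRange_coe
    obtain ⟨α, hα⟩ := hd.exists_dist_lt c hε
    exact ⟨α, by rwa [dist_eq_norm] at hα⟩
  have hint : IsIntegral ℚ_[p] α := (Algebra.IsAlgebraic.isAlgebraic α).isIntegral
  have hfd : FiniteDimensional ℚ_[p] (IntermediateField.adjoin ℚ_[p] {α}) :=
    IntermediateField.adjoin.finiteDimensional hint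
  refine ⟨(IntermediateField.adjoin ℚ_[p] {α}).fixingSubgroup,
    IntermediateField.fixingSubgroup_isOpen _, fun σ hσ => ?_⟩
  have h1 : σ α = α :=
    (IntermediateField.mem_fixingSubgroup_iff _ _).1 hσ α
      (IntermediateField.mem_adjoin_simple_self _ _)
  have h2 : galC σ c - c = galC σ (c - α) - (c - α) := by
    rw [map_sub, galC_coe, h1]
    ring
  rw [h2, sub_eq_add_neg]
  refine (IsUltrametricDist.norm_add_le_max _ _).trans_lt ?_
  rw [norm_neg, norm_galC]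
  exact max_lt hα hα

lemma cont_galT (k : ℕ) (x : Tl p) : ∃ U : Subgroup (GQp p), IsOpen (U : Set (GQp p)) ∧
    ∀ σ ∈ U, ((p : ℕ) : OC p) ∣ sh (rt k (galT σ x - x)) := by
  obtain ⟨U, hU, h⟩ := cont_galC (((sh (rt k x) : OC p)) : ℂ_[p]) (norm_p_pos (p := p))
  refine ⟨U, hU, fun σ hσ => ?_⟩
  rw [← Ideal.mem_span_singleton, ← Ideal.Quotient.eq_zero_iff_mem, ← coeff_eq, map_sub,
    coeff_galT, coeff_eq, sub_eq_zero]
  have h1 : galModP σ (Ideal.Quotient.mk _ (sh (rt k x))) =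
      Ideal.Quotient.mk _ (galO σ (sh (rt k x))) := rfl
  rw [h1, Ideal.Quotient.eq, Ideal.mem_span_singleton, dvd_iff_norm_le]
  exact (h σ hσ).le

lemma rt_add' (n : ℕ) (x y : Tl p) : rt n (x + y) = rt n x + rt n y := by
  unfold rt
  exact iterate_map_add _ _ _ _

lemma exists_p_mul {π : Tl p} (hπ : sh π = ((p : ℕ) : OC p)) :
    ∃ y : AMax0 p, ioM (tm π) = (p : AMax0 p) * y := by
  have h2 : theta (tm π - (p : Ainf p)) = 0 := by
    rw [map_sub, theta_tm, hπ, map_natCast, sub_self]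
  obtain ⟨y, hy, hy'⟩ := exists_div_p _ h2
  have h3 : (p : AMax0 p) * ⟨y, hy⟩ = ioM (tm π - (p : Ainf p)) := by
    apply Subtype.ext
    rw [coe_ioM, ← hy']
    rfl
  refine ⟨⟨y, hy⟩ + 1, ?_⟩
  rw [map_sub, map_natCast] at h3
  rw [mul_add, h3, mul_one, sub_add_cancel]

lemma dvd_ioM_tm {z : Tl p} (h : ((p : ℕ) : OC p) ∣ sh z) : (p : AMax0 p) ∣ ioM (tm z) := by
  obtain ⟨π, hπ⟩ := exists_sh ((p : ℕ) : OC p)
  have h1 : nT z ≤ nT π := by
    have h2 := dvd_iff_norm_le.1 h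
    rw [nT, nT, hπ]
    exact h2
  obtain ⟨c, hc⟩ := tl_dvd h1
  obtain ⟨y, hy⟩ := exists_p_mul hπ
  rw [hc, tm_mul, map_mul, hy]
  exact Dvd.dvd.mul_right (Dvd.intro _ rfl) _

lemma tm_close (k : ℕ) (x : Tl p) : ∃ U : Subgroup (GQp p), IsOpen (U : Set (GQp p)) ∧
    ∀ σ ∈ U, (p : AMax0 p) ^ (k + 1) ∣ ioM (tm (galT σ x)) - ioM (tm x) := by
  obtain ⟨U, hU, h⟩ := cont_galT k x
  refine ⟨U, hU, fun σ hσ => ?_⟩
  have h0 := h σ hσ
  generalize galT σ x = y at h0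
  have hd : rt k y = rt k x + rt k (y - x) := by
    rw [← rt_add', add_sub_cancel]
  have h1 : ((p : ℕ) : Ainf p) ∣ tm (rt k y) - (tm (rt k x) + tm (rt k (y - x))) :=
    dvd_sub_of_coeff (by rw [coeff_add, coeff_tm, coeff_tm, coeff_tm, hd])
  obtain ⟨r, hr⟩ := h1
  have h2 : (p : AMax0 p) ∣ ioM (tm (rt k y)) - ioM (tm (rt k x)) := by
    have h3 := congrArg (ioM (p := p)) hr
    rw [map_sub, map_add, map_mul, map_natCast] at h3
    exact comb_dvd' h3 (Dvd.intro _ rfl) (dvd_ioM_tm h0)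
  have h3 := dvd_sub_pow_of_dvd_sub h2 k
  have h4 : ∀ z : Tl p, ioM (tm (rt k z)) ^ p ^ k = ioM (tm z) := by
    intro z
    rw [← map_pow (ioM (p := p)), ← tm_pow, rt_pow]
  rw [h4, h4] at h3
  exact h3

lemma cont_Ainf (k : ℕ) : ∀ a : Ainf p, ∃ U : Subgroup (GQp p), IsOpen (U : Set (GQp p)) ∧
    ∀ σ ∈ U, (p : AMax0 p) ^ k ∣ ioM (galA σ a) - ioM a := by
  induction k with
  | zero =>
    intro a
    exact ⟨⊤, isOpen_univ, fun σ _ => by rw [pow_zero]; exact one_dvd _⟩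
  | succ k ih =>
    intro a
    obtain ⟨t, ht⟩ := dvd_sub_tm a
    obtain ⟨U, hU, hU'⟩ := tm_close k (a.coeff 0)
    obtain ⟨V, hV, hV'⟩ := ih t
    refine ⟨U ⊓ V, ?_, fun σ hσ => ?_⟩
    · rw [Subgroup.coe_inf]
      exact hU.inter hV
    · have h1 : a = tm (a.coeff 0) + (p : Ainf p) * t := by
        rw [← ht]
        ring
      have h2 := congrArg (ioM (p := p)) h1
      rw [map_add, map_mul, map_natCast] at h2
      have h3 := congrArg (fun z => ioM (p := p) (galA σ z)) h1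
      beta_reduce at h3
      rw [map_add, map_add, map_mul, map_mul, map_natCast, map_natCast, galA_tm] at h3
      exact comb_dvd h3 h2 (hU' σ hσ.1) (hV' σ hσ.2)

/-- the action on `A_inf[ξ/p]` -/
noncomputable def tauM (σ : GQp p) : AMax0 p →+* AMax0 p := endM0 (galA σ) (goodEnd_gal σ)

lemma ioM_mem_ct (a : Ainf p) : ioM a ∈ ctSub p (tauM (p := p)) := by
  intro k
  obtain ⟨U, hU, h⟩ := cont_Ainf k a
  refine ⟨U, hU, fun σ hσ => ?_⟩
  rw [tauM, endM0_ioM]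
  exact h σ hσ

lemma mem_ct (s : AMax0 p) : s ∈ ctSub p (tauM (p := p)) := by
  have he := hee (p := p)
  obtain ⟨f, hf⟩ := exists_poly he s
  rw [hf]
  refine eval_mem _ _ ioM_mem_ct ?_ f
  exact ct_div (fun x hx => tf_AMax0 x hx) (p_mul_Xm he) (ioM_mem_ct _)

/-- Module CONT. -/
theorem stCont : StCont p := by
  intro y k
  obtain ⟨s, z, hy⟩ := exists_approx k y
  obtain ⟨U, hU, h⟩ := mem_ct s k
  refine ⟨U, hU, fun σ hσ => ?_⟩
  have h1 : (p : Cpl p (AMax0 p)) ^ k ∣ ofC p (tauM σ s) - ofC p s := by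
    rw [← map_sub, dvd_ofC_iff]
    exact h σ hσ
  have h2 := congrArg (endM (galA σ) (goodEnd_gal σ)) hy
  rw [map_add, map_mul, map_pow, map_natCast, endM_ofC] at h2
  rw [h2]
  have h3 : ofC p (endM0 (galA σ) (goodEnd_gal σ) s) +
      (p : Cpl p (AMax0 p)) ^ k * endM (galA σ) (goodEnd_gal σ) z - y =
      (ofC p (tauM σ s) - ofC p s) + (p : Cpl p (AMax0 p)) ^ k *
        (endM (galA σ) (goodEnd_gal σ) z - z) := by
    conv_lhs => rw [hy]
    rw [tauM]
    ring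
  rw [h3]
  exact dvd_add h1 (Dvd.intro _ rfl)

end MP_7c08ba.Crys
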