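import Mathlib

/-!
# Completion of a ring along a principal ideal
-/

namespace MP_7c08ba.Crys

open Finset

variable {S : Type*} [CommRing S] (J : Ideal S)

/-- the natural map `S → Ŝ` -/
noncomputable def ofJ : S →+* AdicCompletion J S := algebraMap S _

/-- the natural map `Ŝ → S / J^n` -/
noncomputable def evJ (n : ℕ) : AdicCompletion J S →+* S ⧸ J ^ n :=
  (AdicCompletion.evalₐ J n : _ →ₐ[S] _).toRingHom

lemma evJ_ofJ (n : ℕ) (s : S) : evJ J n (ofJ J s) = Ideal.Quotient.mk _ s :=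
  AdicCompletion.evalₐ_of _ n s

variable {J}

lemma ext_evJ {x y : AdicCompletion J S} (h : ∀ n, evJ J n x = evJ J n y) : x = y :=
  AdicCompletion.ext_evalₐ h

lemma smul_eqJ (s : S) (x : AdicCompletion J S) : s • x = ofJ J s * x := Algebra.smul_def s x

variable {w : S} (hJ : J = Ideal.span {w})

include hJ

lemma mem_smul_iffJ (n : ℕ) (x : AdicCompletion J S) :
    x ∈ (J ^ n • ⊤ : Submodule S (AdicCompletion J S)) ↔ ofJ J w ^ n ∣ x := by
  have h1 : J ^ n = Ideal.span {w ^ n} := by rw [hJ, Ideal.span_singleton_pow]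
  rw [h1, Submodule.ideal_span_singleton_smul, Submodule.mem_smul_pointwise_iff_exists]
  constructor
  · rintro ⟨y, -, rfl⟩
    refine ⟨y, ?_⟩
    rw [smul_eqJ, map_pow]
  · rintro ⟨y, rfl⟩
    refine ⟨y, trivial, ?_⟩
    rw [smul_eqJ, map_pow]

lemma fgJ : J.FG := ⟨{w}, by simp [hJ]⟩

lemma evJ_eq_zero_iff (n : ℕ) (x : AdicCompletion J S) :
    evJ J n x = 0 ↔ ofJ J w ^ n ∣ x := by
  rw [← mem_smul_iffJ hJ, AdicCompletion.pow_smul_top_eq_ker_eval (fgJ hJ), LinearMap.mem_ker]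
  constructor
  · intro h
    have := AdicCompletion.factor_evalₐ_eq_eval J (n := n) x (by simp)
    rw [← this]
    have h' : AdicCompletion.evalₐ J n x = 0 := h
    rw [h', map_zero]
  · intro h
    have := AdicCompletion.factor_eval_eq_evalₐ J (n := n) x (by simp)
    change AdicCompletion.evalₐ J n x = 0
    rw [← this, h, map_zero]

lemma exists_approxJ (n : ℕ) (x : AdicCompletion J S) : ∃ (s : S) (y : AdicCompletion J S),
    x = ofJ J s + ofJ J w ^ n * y := by
  obtain ⟨s, hs⟩ := Ideal.Quotient.mk_surjective (evJ J n x)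
  have h : evJ J n (x - ofJ J s) = 0 := by rw [map_sub, evJ_ofJ, hs, sub_self]
  obtain ⟨y, hy⟩ := (evJ_eq_zero_iff hJ n _).1 h
  exact ⟨s, y, by rw [← hy]; ring⟩

lemma dvd_ofJ_iff (n : ℕ) (s : S) : ofJ J w ^ n ∣ ofJ J s ↔ w ^ n ∣ s := by
  rw [← evJ_eq_zero_iff hJ, evJ_ofJ, Ideal.Quotient.eq_zero_iff_mem]
  have h1 : J ^ n = Ideal.span {w ^ n} := by rw [hJ, Ideal.span_singleton_pow]
  rw [h1, Ideal.mem_span_singleton]

lemma nzdJ (tf : ∀ s : S, w * s = 0 → s = 0) {x : AdicCompletion J S} (hx : ofJ J w * x = 0) :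
    x = 0 := by
  apply ext_evJ
  intro n
  rw [map_zero, evJ_eq_zero_iff hJ]
  obtain ⟨s, y, rfl⟩ := exists_approxJ hJ (n + 1) x
  have h1 : ofJ J w ^ (n + 1) ∣ ofJ J (w * s) := by
    refine ⟨-(ofJ J w * y), ?_⟩
    rw [map_mul]
    linear_combination hx
  rw [dvd_ofJ_iff hJ] at h1
  obtain ⟨t, ht⟩ := h1
  have h2 : w * (s - w ^ n * t) = 0 := by
    rw [mul_sub, ht]; ring
  have h3 := sub_eq_zero.1 (tf _ h2)
  rw [h3]
  refine ⟨ofJ J t + ofJ J w * y, ?_⟩
  rw [map_mul, map_pow]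
  ring

lemma nzdJ_pow (tf : ∀ s : S, w * s = 0 → s = 0) (n : ℕ) {x : AdicCompletion J S}
    (hx : ofJ J w ^ n * x = 0) : x = 0 := by
  induction n with
  | zero => simpa using hx
  | succ n ih =>
    apply ih
    apply nzdJ hJ tf
    rw [← mul_assoc, ← pow_succ']
    exact hx

lemma hausJ {x : AdicCompletion J S} (hx : ∀ n : ℕ, ofJ J w ^ n ∣ x) : x = 0 := by
  apply ext_evJ
  intro n
  rw [map_zero, evJ_eq_zero_iff hJ]
  exact hx n

lemma compJ (f : ℕ → AdicCompletion J S) : ∃ s : AdicCompletion J S, ∀ n : ℕ,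
    ofJ J w ^ n ∣ s - ∑ i ∈ range n, ofJ J w ^ i * f i := by
  have := AdicCompletion.isAdicComplete (I := J) (M := S) (fgJ hJ)
  obtain ⟨L, hL⟩ := (inferInstance : IsPrecomplete J (AdicCompletion J S)).prec'
    (fun n => ∑ i ∈ range n, ofJ J w ^ i * f i) (by
      intro m n hmn
      rw [SModEq.sub_mem, mem_smul_iffJ hJ, ← Finset.sum_range_add_sum_Ico _ hmn,
        sub_add_cancel_left]
      apply (dvd_neg).2
      apply Finset.dvd_sum
      intro i hi
      exact Dvd.dvd.mul_right (pow_dvd_pow _ (Finset.mem_Ico.1 hi).1) _)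
  refine ⟨L, fun n => ?_⟩
  have := hL n
  rw [SModEq.sub_mem, mem_smul_iffJ hJ] at this
  rw [← dvd_neg, neg_sub]
  exact this

lemma isUnit_one_sub_J (y : AdicCompletion J S) : IsUnit (1 - ofJ J w * y) := by
  obtain ⟨s, hs⟩ := compJ hJ (fun i => y ^ i)
  have h : (1 - ofJ J w * y) * s = 1 := by
    rw [← sub_eq_zero]
    apply hausJ hJ
    intro n
    obtain ⟨t, ht⟩ := hs n
    have h1 : s = (∑ i ∈ range n, ofJ J w ^ i * y ^ i) + ofJ J w ^ n * t := by
      rw [← ht]; ring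
    have h2 : (1 - ofJ J w * y) * (∑ i ∈ range n, ofJ J w ^ i * y ^ i) =
        1 - (ofJ J w * y) ^ n := by
      have := mul_neg_geom_sum (ofJ J w * y) n
      simp only [mul_pow] at this ⊢
      exact this
    refine ⟨(1 - ofJ J w * y) * t - y ^ n, ?_⟩
    rw [h1, mul_add, h2]; ring
  exact IsUnit.of_mul_eq_one _ h

lemma isUnit_of_evJ_one {x : AdicCompletion J S} (hx : IsUnit (evJ J 1 x)) : IsUnit x := by
  obtain ⟨v, hv⟩ := hx.exists_right_inv
  obtain ⟨s, rfl⟩ := Ideal.Quotient.mk_surjective v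
  have h1 : evJ J 1 (x * ofJ J s - 1) = 0 := by
    rw [map_sub, map_mul, evJ_ofJ, hv, map_one, sub_self]
  obtain ⟨y, hy⟩ := (evJ_eq_zero_iff hJ 1 _).1 h1
  have h2 : x * ofJ J s = 1 - ofJ J w * (-y) := by
    rw [pow_one] at hy
    linear_combination hy
  have h3 := isUnit_one_sub_J hJ (-y)
  rw [← h2] at h3
  exact isUnit_of_mul_isUnit_left h3

omit hJ

/-- functoriality for endomorphisms preserving the ideal -/
lemma le_comapJ (f : S →+* S) (hf : J ≤ J.comap f) (n : ℕ) : J ^ n ≤ (J ^ n).comap f := by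
  rw [← Ideal.map_le_iff_le_comap, Ideal.map_pow]
  exact Ideal.pow_right_mono (Ideal.map_le_iff_le_comap.2 hf) n

lemma factor_mk {m n : ℕ} (hmn : m ≤ n) (x : AdicCompletion J S) :
    Ideal.Quotient.factorPow J hmn (evJ J n x) = evJ J m x := by
  induction x using AdicCompletion.induction_on with
  | _ f =>
    have h1 : evJ J n (AdicCompletion.mk J S f) = Ideal.Quotient.mk _ (f.val n) :=
      AdicCompletion.evalₐ_mk J n f
    have h2 : evJ J m (AdicCompletion.mk J S f) = Ideal.Quotient.mk _ (f.val m) :=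
      AdicCompletion.evalₐ_mk J m f
    rw [h1, h2]
    have h3 := f.2 hmn
    rw [SModEq.sub_mem, smul_eq_mul, Ideal.mul_top] at h3
    have h4 : Ideal.Quotient.factorPow J hmn (Ideal.Quotient.mk _ (f.val n)) =
      Ideal.Quotient.mk (J ^ m) (f.val n) := rfl
    rw [h4, eq_comm, Ideal.Quotient.eq]
    exact h3

lemma mapJ_compat (f : S →+* S) (hf : J ≤ J.comap f) {m n : ℕ} (hmn : m ≤ n) :
    (Ideal.Quotient.factorPow J hmn).comp
        ((Ideal.quotientMap (J ^ n) f (le_comapJ f hf n)).comp (evJ J n)) =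
      (Ideal.quotientMap (J ^ m) f (le_comapJ f hf m)).comp (evJ J m) := by
  have h1 : (Ideal.Quotient.factorPow J hmn).comp (Ideal.quotientMap (J ^ n) f (le_comapJ f hf n)) =
      (Ideal.quotientMap (J ^ m) f (le_comapJ f hf m)).comp (Ideal.Quotient.factorPow J hmn) := by
    apply Ideal.Quotient.ringHom_ext
    ext s
    simp
  rw [← RingHom.comp_assoc, h1, RingHom.comp_assoc]
  congr 1
  ext x
  exact factor_mk hmn x

/-- functoriality of the completion -/
noncomputable def mapJ (f : S →+* S) (hf : J ≤ J.comap f) :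
    AdicCompletion J S →+* AdicCompletion J S :=
  AdicCompletion.liftRingHom J
    (fun n => (Ideal.quotientMap _ f (le_comapJ f hf n)).comp (evJ J n)) (mapJ_compat f hf)

lemma evJ_mapJ (f : S →+* S) (hf : J ≤ J.comap f) (n : ℕ) (x : AdicCompletion J S) :
    evJ J n (mapJ f hf x) = Ideal.quotientMap _ f (le_comapJ f hf n) (evJ J n x) :=
  AdicCompletion.evalₐ_liftRingHom _ _ (mapJ_compat f hf) n x

lemma mapJ_ofJ (f : S →+* S) (hf : J ≤ J.comap f) (s : S) :
    mapJ f hf (ofJ J s) = ofJ J (f s) := by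
  apply ext_evJ
  intro n
  rw [evJ_mapJ, evJ_ofJ, evJ_ofJ, Ideal.quotientMap_mk]

end MP_7c08ba.Crys
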