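import Mathlib
import Pool.Agent.Lib.MP_7c08ba_nt.Crys.BM
import Pool.Agent.Lib.MP_7c08ba_nt.Crys.Adic

/-!
# `B_dR^+`
-/

namespace MP_7c08ba.Crys

open Finset

/-! ### An abstract lemma -/

namespace MaxSetup

variable {p : ℕ} {A R S : Type*} [CommRing A] [CommRing R] [CommRing S] (D : MaxSetup p A R S)

include D

lemma X_pow_dvd (n : ℕ) {s : S} (h : D.XM ^ n ∣ ofC p s) : D.X ^ n ∣ s := by
  induction n generalizing s with
  | zero => simp
  | succ n ih =>
    obtain ⟨y, hy⟩ := h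
    have h1 : D.thS s = 0 := by
      have := congrArg D.thM hy
      rw [map_mul, map_pow, thM_XM, zero_pow (Nat.succ_ne_zero n), zero_mul, thM_ofC] at this
      exact this
    obtain ⟨s', hs'⟩ := D.ker_thS h1
    have h2 : ofC p s' = D.XM ^ n * y := by
      apply D.XM_cancel
      have : D.XM * ofC p s' = ofC p s := by rw [hs', map_mul, XM]
      rw [this, hy]; ring
    obtain ⟨s'', h3⟩ := ih ⟨y, h2⟩
    exact ⟨s'', by rw [hs', h3]; ring⟩

lemma exists_expand (n : ℕ) (x : Cpl p S) : ∃ (s : S) (y : Cpl p S),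
    x = ofC p s + D.XM ^ n * y := by
  induction n with
  | zero => exact ⟨0, x, by simp⟩
  | succ n ih =>
    obtain ⟨s, y, h⟩ := ih
    obtain ⟨a, ha⟩ := D.thA_surj (D.thM y)
    have h1 : D.thM (y - D.toM a) = 0 := by rw [map_sub, thM_toM, ha, sub_self]
    obtain ⟨z, hz⟩ := D.ker_thM h1
    refine ⟨s + D.X ^ n * D.io a, z, ?_⟩
    have h2 : y = D.toM a + D.XM * z := by rw [← hz]; ring
    rw [h, h2, map_add, map_mul, map_pow, toM_apply, XM]; ring

end MaxSetup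

variable {p : ℕ} [hp : Fact p.Prime]

variable (p) in
/-- the kernel of `θ` on `A_inf[1/p]` -/
noncomputable abbrev Jp : Ideal (AP p) := RingHom.ker (fontaineThetaInvertP (OC p) p)

variable (p) in
/-- `B_dR^+`, as defined in Mathlib -/
abbrev BdRp : Type := AdicCompletion (Jp p) (AP p)

lemma fact_BdRp : BdRp p = BDeRhamPlus (OC p) p := rfl

lemma inj_away : Function.Injective
    (IsLocalization.Away.lift (S := Localization.Away ((p : ℕ) : OC p)) ((p : ℕ) : OC p)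
      (g := (oc : OC p →+* ℂ_[p])) (by rw [map_natCast]; exact isUnit_p_C)) := by
  rw [injective_iff_map_eq_zero]
  intro x hx
  obtain ⟨n, y, h⟩ := IsLocalization.Away.surj ((p : ℕ) : OC p) x
  have h1 := congrArg (IsLocalization.Away.lift (S := Localization.Away ((p : ℕ) : OC p))
    ((p : ℕ) : OC p) (g := (oc : OC p →+* ℂ_[p])) (by rw [map_natCast]; exact isUnit_p_C)) h
  rw [map_mul, hx, zero_mul, IsLocalization.Away.lift_eq] at h1
  have h2 : y = 0 := oc_inj (by rw [← h1, map_zero])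
  rw [h2, map_zero] at h
  have hu := (IsLocalization.Away.algebraMap_isUnit (S := Localization.Away ((p : ℕ) : OC p))
    ((p : ℕ) : OC p)).pow n
  exact (hu.mul_left_eq_zero).1 h

lemma thP_eq (x : AP p) : thP x =
    IsLocalization.Away.lift (S := Localization.Away ((p : ℕ) : OC p)) ((p : ℕ) : OC p)
      (g := (oc : OC p →+* ℂ_[p])) (by rw [map_natCast]; exact isUnit_p_C)
      (fontaineThetaInvertP (OC p) p x) := by
  have : (thP : AP p →+* ℂ_[p]) = (IsLocalization.Away.lift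
      (S := Localization.Away ((p : ℕ) : OC p)) ((p : ℕ) : OC p)
      (g := (oc : OC p →+* ℂ_[p])) (by rw [map_natCast]; exact isUnit_p_C)).comp
      (fontaineThetaInvertP (OC p) p) := by
    apply hom_ext_AP
    intro a
    rw [thP_io, RingHom.comp_apply]
    have h1 : fontaineThetaInvertP (OC p) p (io p a) =
        algebraMap (OC p) (Localization.Away ((p : ℕ) : OC p)) (theta a) :=
      IsLocalization.Away.lift_eq (S := AP p) ((p : ℕ) : Ainf p)
        (g := (algebraMap (OC p) (Localization.Away ((p : ℕ) : OC p))).comp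
          (WittVector.fontaineTheta (OC p) p)) (by
        simpa using IsLocalization.Away.algebraMap_isUnit ((p : ℕ) : OC p)) a
    rw [h1, IsLocalization.Away.lift_eq]
    rfl
  exact RingHom.congr_fun this x

lemma mem_Jp (x : AP p) : x ∈ Jp p ↔ thP x = 0 := by
  rw [RingHom.mem_ker, thP_eq]
  constructor
  · intro h; rw [h, map_zero]
  · intro h; exact inj_away (by rw [h, map_zero])

variable (p) in
/-- a generator of the kernel -/
noncomputable def wq : AP p := io p (om (ee p))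

lemma exists_io (x : AP p) : ∃ (n : ℕ) (a : Ainf p), (p : AP p) ^ n * x = io p a := by
  obtain ⟨n, y, h⟩ := IsLocalization.Away.surj ((p : ℕ) : Ainf p) x
  refine ⟨n, y, ?_⟩
  rw [io, ← h, map_natCast, mul_comm]

lemma Jp_eq : Jp p = Ideal.span {wq p} := by
  apply le_antisymm
  · intro x hx
    rw [mem_Jp] at hx
    obtain ⟨n, a, h⟩ := exists_io x
    have h1 : theta a = 0 := by
      have h2 := congrArg thP h
      rw [map_mul, hx, mul_zero, thP_io] at h2
      exact oc_inj (by rw [map_zero, h2]; rfl)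
    obtain ⟨c, hc⟩ := (hee (p := p)).gen_om h1
    obtain ⟨u, hu⟩ := (isUnit_p_AP (p := p)).pow n
    rw [Ideal.mem_span_singleton]
    refine ⟨↑u⁻¹ * io p c, ?_⟩
    apply (u.isUnit).mul_left_cancel
    rw [hu, h, hc, map_mul, ← hu, mul_left_comm (wq p), Units.mul_inv_cancel_left, wq]
  · rw [Ideal.span_singleton_le_iff_mem, mem_Jp, wq, thP_io, hee.theta_om]
    rfl

lemma wq_ne_zero : wq p ≠ 0 := by
  intro h
  exact om_ne_zero (hee (p := p)) (io_injective (by rw [← wq, h, map_zero]))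

lemma wq_tf (s : AP p) (h : wq p * s = 0) : s = 0 :=
  (mul_eq_zero.1 h).resolve_left wq_ne_zero

lemma Xm_mem : ((Xm (hee (p := p)) : AMax0 p) : AP p) ∈ Jp p := by
  rw [mem_Jp]
  have h := congrArg thP (coe_p_mul_Xm (hee (p := p)))
  rw [map_mul, map_natCast, thP_io, hee.theta_om] at h
  rcases mul_eq_zero.1 (h.trans rfl) with h1 | h1
  · exact absurd h1 p_ne_zero_C
  · exact h1

/-! ### The map `A_max → B_dR^+` -/

section cmap

variable (p) in
/-- the ideal `(X^n)` of `A_max` -/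
noncomputable def IX (n : ℕ) : Ideal (Cpl p (AMax0 p)) := Ideal.span {(FSe (p := p)).XM ^ n}

/-- `A_max⁰ → A_max / X^n` -/
noncomputable def alX (n : ℕ) : AMax0 p →+* Cpl p (AMax0 p) ⧸ IX p n :=
  (Ideal.Quotient.mk (IX p n)).comp (ofC p)

lemma alX_surj (n : ℕ) : Function.Surjective (alX (p := p) n) := by
  intro y
  obtain ⟨x, rfl⟩ := Ideal.Quotient.mk_surjective y
  obtain ⟨s, z, h⟩ := (FSe (p := p)).exists_expand n x
  refine ⟨s, ?_⟩
  rw [alX, RingHom.comp_apply, Ideal.Quotient.eq, IX, Ideal.mem_span_singleton, h]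
  exact ⟨-z, by ring⟩

/-- `A_max⁰ → A_inf[1/p] / J^n` -/
noncomputable def beX (n : ℕ) : AMax0 p →+* AP p ⧸ Jp p ^ n :=
  (Ideal.Quotient.mk (Jp p ^ n)).comp (AMax0 p).subtype

lemma beX_apply (n : ℕ) (s : AMax0 p) : beX n s = Ideal.Quotient.mk (Jp p ^ n) (s : AP p) := rfl

lemma ker_al_le (n : ℕ) : RingHom.ker (alX (p := p) n) ≤ RingHom.ker (beX n) := by
  intro s hs
  rw [RingHom.mem_ker, alX, RingHom.comp_apply, Ideal.Quotient.eq_zero_iff_mem, IX,
    Ideal.mem_span_singleton] at hs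
  obtain ⟨t, ht⟩ := (FSe (p := p)).X_pow_dvd n hs
  rw [RingHom.mem_ker, beX_apply, Ideal.Quotient.eq_zero_iff_mem, ht]
  have h1 : ((((FSe (p := p)).X ^ n * t : AMax0 p)) : AP p) =
      ((Xm (hee (p := p)) : AMax0 p) : AP p) ^ n * (t : AP p) := rfl
  rw [h1]
  exact Ideal.mul_mem_right _ _ (Ideal.pow_mem_pow Xm_mem n)

/-- `A_max → A_inf[1/p] / J^n` -/
noncomputable def cn (n : ℕ) : Cpl p (AMax0 p) →+* AP p ⧸ Jp p ^ n :=
  (RingHom.liftOfSurjective (alX n) (alX_surj n) ⟨beX n, ker_al_le n⟩).comp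
    (Ideal.Quotient.mk (IX p n))

lemma cn_ofC (n : ℕ) (s : AMax0 p) : cn n (ofC p s) = Ideal.Quotient.mk (Jp p ^ n) (s : AP p) := by
  have h := RingHom.liftOfSurjective_comp_apply (alX (p := p) n) (alX_surj n)
    ⟨beX n, ker_al_le n⟩ s
  exact h

variable (p) in
/-- `X` in `A_max` -/
noncomputable def XMp : Cpl p (AMax0 p) := ofC p (Xm (hee (p := p)))

lemma XMp_eq : XMp p = (FSe (p := p)).XM := rfl

lemma exists_expandp (n : ℕ) (x : Cpl p (AMax0 p)) : ∃ (s : AMax0 p) (y : Cpl p (AMax0 p)),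
    x = ofC p s + XMp p ^ n * y := (FSe (p := p)).exists_expand n x

lemma cn_XM_pow {m n : ℕ} (h : m ≤ n) : cn m (XMp p ^ n) = 0 := by
  rw [map_pow, XMp, cn_ofC, ← map_pow, Ideal.Quotient.eq_zero_iff_mem]
  exact Ideal.pow_le_pow_right h (Ideal.pow_mem_pow Xm_mem n)

lemma cn_compat {m n : ℕ} (hmn : m ≤ n) :
    (Ideal.Quotient.factorPow (Jp p) hmn).comp (cn n) = cn m := by
  ext x
  obtain ⟨s, y, rfl⟩ := exists_expandp n x
  rw [RingHom.comp_apply, (cn n).map_add, (cn n).map_mul, cn_XM_pow le_rfl, zero_mul, add_zero,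
    cn_ofC, (cn m).map_add, (cn m).map_mul, cn_XM_pow hmn, zero_mul, add_zero, cn_ofC]
  rfl

/-- `A_max → B_dR^+` -/
noncomputable def cM : Cpl p (AMax0 p) →+* BdRp p := AdicCompletion.liftRingHom (Jp p) cn cn_compat

lemma evJ_cM (n : ℕ) (x : Cpl p (AMax0 p)) : evJ (Jp p) n (cM x) = cn n x :=
  AdicCompletion.evalₐ_liftRingHom _ _ cn_compat n x

lemma cM_ofC (s : AMax0 p) : cM (ofC p s) = ofJ (Jp p) (s : AP p) := by
  apply ext_evJ
  intro n
  rw [evJ_cM, evJ_ofJ, cn_ofC]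

lemma isUnit_p_BdRp : IsUnit ((p : ℕ) : BdRp p) := by
  have := (isUnit_p_AP (p := p)).map (ofJ (Jp p))
  rwa [map_natCast] at this

/-- `A_max[1/p] → B_dR^+` -/
noncomputable def jDp : PM p →+* BdRp p := exPR cM isUnit_p_BdRp

lemma jDp_oM (x : Cpl p (AMax0 p)) : jDp (oM x) = cM x := exPR_oM _ _ _

lemma jDp_toPM (a : Ainf p) : jDp (toPM a) = ofJ (Jp p) (io p a) := by
  rw [toPM_apply, jDp_oM, cM_ofC, coe_ioM]

end cmap

/-! ### `θ` on `B_dR^+` -/

lemma thP_zero_of_mem (x : AP p) (hx : x ∈ Jp p ^ 1) : thP x = 0 := by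
  rw [pow_one, mem_Jp] at hx
  exact hx

/-- `θ : B_dR^+ → ℂ_p` -/
noncomputable def thD : BdRp p →+* ℂ_[p] :=
  (Ideal.Quotient.lift (Jp p ^ 1) thP thP_zero_of_mem).comp (evJ (Jp p) 1)

lemma thD_ofJ (s : AP p) : thD (ofJ (Jp p) s) = thP s := by
  rw [thD, RingHom.comp_apply, evJ_ofJ, Ideal.Quotient.lift_mk]

lemma thD_eq_zero {x : BdRp p} (h : thD x = 0) : ofJ (Jp p) (wq p) ∣ x := by
  obtain ⟨s, y, rfl⟩ := exists_approxJ Jp_eq 1 x
  rw [map_add, map_mul, thD_ofJ, map_pow, thD_ofJ, pow_one] at h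
  have h1 : thP (wq p) = 0 := by rw [← mem_Jp, Jp_eq]; exact Ideal.mem_span_singleton_self _
  rw [h1, zero_mul, add_zero, ← mem_Jp, Jp_eq, Ideal.mem_span_singleton] at h
  obtain ⟨t, ht⟩ := h
  exact ⟨ofJ (Jp p) t + y, by rw [ht, map_mul, pow_one]; ring⟩

lemma isUnit_of_thD {x : BdRp p} (h : thD x ≠ 0) : IsUnit x := by
  apply isUnit_of_evJ_one Jp_eq
  obtain ⟨s, hs⟩ := Ideal.Quotient.mk_surjective (evJ (Jp p) 1 x)
  rw [thD, RingHom.comp_apply, ← hs, Ideal.Quotient.lift_mk] at h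
  -- `AP / J` is a field: find an inverse of `thP s`
  obtain ⟨N, a, ha⟩ : ∃ (N : ℕ) (a : OC p), (p : ℂ_[p]) ^ N * (thP s)⁻¹ = (a : ℂ_[p]) := by
    have h2 : Filter.Tendsto (fun n : ℕ => ‖(p : ℂ_[p])‖ ^ n) Filter.atTop (nhds 0) :=
      tendsto_pow_atTop_nhds_zero_of_lt_one (norm_nonneg _) norm_p_lt_one
    have h3 : 0 < ‖thP s‖ := norm_pos_iff.2 h
    obtain ⟨N, hN⟩ := ((h2.eventually (gt_mem_nhds h3))).exists
    refine ⟨N, ⟨(p : ℂ_[p]) ^ N * (thP s)⁻¹, ?_⟩, rfl⟩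
    rw [mem_OC, norm_mul, norm_pow, norm_inv]
    rw [mul_inv_le_iff₀ h3, one_mul]
    exact hN.le
  obtain ⟨b, hb⟩ := theta_surj a
  obtain ⟨u, hu⟩ := (isUnit_p_AP (p := p)).pow N
  obtain ⟨v, hv⟩ : ∃ v : AP p, v * (p : AP p) ^ N = 1 := ⟨((u⁻¹ : (AP p)ˣ) : AP p), by
    rw [← hu, Units.inv_mul]⟩
  have h4 : thP (s * (v * io p b)) = 1 := by
    have h5 : thP v * (p : ℂ_[p]) ^ N = 1 := by
      have := congrArg thP hv
      rw [map_mul, map_pow, map_natCast, map_one] at this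
      exact this
    rw [map_mul, map_mul, thP_io, hb, ← ha]
    calc thP s * (thP v * ((p : ℂ_[p]) ^ N * (thP s)⁻¹))
        = (thP v * (p : ℂ_[p]) ^ N) * (thP s * (thP s)⁻¹) := by ring
      _ = 1 := by rw [h5, one_mul, mul_inv_cancel₀ h]
  rw [← hs]
  apply IsUnit.of_mul_eq_one (Ideal.Quotient.mk _ (v * io p b))
  rw [← map_mul, ← map_one (Ideal.Quotient.mk (Jp p ^ 1)), Ideal.Quotient.eq, pow_one, mem_Jp,
    map_sub, h4, map_one, sub_self]

lemma thD_XM : thD (cM (XMp p)) = 0 := by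
  rw [XMp, cM_ofC, thD_ofJ, ← mem_Jp]; exact Xm_mem

lemma thM_XMp : thM (XMp p) = 0 := by
  rw [XMp, thM_ofC, thM0_Xm]

lemma thD_jDp (x : PM p) : thD (jDp x) = thPM x := by
  have key : thD.comp jDp = (thPM : PM p →+* ℂ_[p]) := by
    apply hom_ext_PR
    intro y
    obtain ⟨s, z, rfl⟩ := exists_expandp 1 y
    rw [RingHom.comp_apply, jDp_oM, thPM_oM, cM.map_add, cM.map_mul, thD.map_add, thD.map_mul,
      pow_one, thD_XM, zero_mul, add_zero, cM_ofC, thD_ofJ, thM.map_add, thM.map_mul, thM_XMp,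
      zero_mul, add_zero, thM_ofC, oc_apply, coe_thM0]
  exact RingHom.congr_fun key x

end MP_7c08ba.Crys
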