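import Mathlib
import Pool.Agent.Lib.MP_7c08ba_nt.Crys.BdRp

/-!
# `B_dR` and the Galois action
-/

namespace MP_7c08ba.Crys

open Finset

variable {p : ℕ} [hp : Fact p.Prime]

/-! ### Galois action on `B_dR^+` -/

lemma Jp_le_comap (σ : GQp p) : Jp p ≤ (Jp p).comap (extP (galA σ)) := by
  intro x hx
  rw [Ideal.mem_comap, mem_Jp, thP_extP_gal, (mem_Jp x).1 hx, map_zero]

/-- Galois action on `B_dR^+` -/
noncomputable def galDp (σ : GQp p) : BdRp p →+* BdRp p := mapJ (extP (galA σ)) (Jp_le_comap σ)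

lemma galDp_ofJ (σ : GQp p) (s : AP p) : galDp σ (ofJ (Jp p) s) = ofJ (Jp p) (extP (galA σ) s) :=
  mapJ_ofJ _ _ _

lemma cn_gal_XM_pow (σ : GQp p) (n : ℕ) :
    cn n (endM (galA σ) (goodEnd_gal σ) (XMp p) ^ n) = 0 := by
  rw [map_pow, XMp, endM_ofC, cn_ofC, ← map_pow, Ideal.Quotient.eq_zero_iff_mem]
  apply Ideal.pow_mem_pow
  rw [coe_endM0]
  exact Jp_le_comap σ Xm_mem

lemma cM_gal (σ : GQp p) (x : Cpl p (AMax0 p)) :
    cM (endM (galA σ) (goodEnd_gal σ) x) = galDp σ (cM x) := by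
  apply ext_evJ
  intro n
  obtain ⟨s, y, rfl⟩ := exists_expandp n x
  rw [galDp, evJ_mapJ, evJ_cM, evJ_cM, (endM (galA σ) (goodEnd_gal σ)).map_add,
    (endM (galA σ) (goodEnd_gal σ)).map_mul, (endM (galA σ) (goodEnd_gal σ)).map_pow,
    (cn n).map_add, (cn n).map_mul, cn_gal_XM_pow, zero_mul, add_zero, endM_ofC, cn_ofC,
    (cn n).map_add, (cn n).map_mul, cn_XM_pow le_rfl, zero_mul, add_zero, cn_ofC,
    Ideal.quotientMap_mk, coe_endM0]

lemma jDp_gal (σ : GQp p) (x : PM p) :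
    jDp (endP (galA σ) (goodEnd_gal σ) x) = galDp σ (jDp x) := by
  have key : jDp.comp (endP (galA σ) (goodEnd_gal σ)) = (galDp σ).comp jDp := by
    apply hom_ext_PR
    intro y
    rw [RingHom.comp_apply, RingHom.comp_apply, endP_oM, jDp_oM, jDp_oM, cM_gal]
  exact RingHom.congr_fun key x

/-! ### `ℚ_p`-algebra structure -/

noncomputable instance algQpBdRp : Algebra ℚ_[p] (BdRp p) :=
  (qpLift (((ofJ (Jp p)).comp (io p)).comp zpA) isUnit_p_BdRp).toAlgebra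

lemma algebraMap_BdRp_coe (z : ℤ_[p]) :
    algebraMap ℚ_[p] (BdRp p) (z : ℚ_[p]) = ofJ (Jp p) (io p (zpA z)) :=
  qpLift_coe (((ofJ (Jp p)).comp (io p)).comp zpA) isUnit_p_BdRp z

lemma galDp_qp (σ : GQp p) (q : ℚ_[p]) :
    galDp σ (algebraMap ℚ_[p] (BdRp p) q) = algebraMap ℚ_[p] (BdRp p) q := by
  have : (galDp σ).comp (algebraMap ℚ_[p] (BdRp p)) = algebraMap ℚ_[p] (BdRp p) := by
    apply hom_ext_Qp
    intro z
    rw [RingHom.comp_apply, algebraMap_BdRp_coe, galDp_ofJ, extP_io, endo_zpA]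
  exact RingHom.congr_fun this q

/-- Galois action on `B_dR^+` -/
noncomputable def galDpa (σ : GQp p) : BdRp p →ₐ[ℚ_[p]] BdRp p :=
  { galDp σ with commutes' := galDp_qp σ }

lemma galDpa_apply (σ : GQp p) (x : BdRp p) : galDpa σ x = galDp σ x := rfl

lemma jDp_qp (q : ℚ_[p]) : jDp (algebraMap ℚ_[p] (PM p) q) = algebraMap ℚ_[p] (BdRp p) q := by
  have : jDp.comp (algebraMap ℚ_[p] (PM p)) = algebraMap ℚ_[p] (BdRp p) := by
    apply hom_ext_Qp
    intro z
    rw [RingHom.comp_apply, algebraMap_PM_coe, jDp_toPM, algebraMap_BdRp_coe]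
  exact RingHom.congr_fun this q

/-- `A_max[1/p] → B_dR^+` -/
noncomputable def jDpa : PM p →ₐ[ℚ_[p]] BdRp p := { jDp with commutes' := jDp_qp }

lemma jDpa_apply (x : PM p) : jDpa x = jDp x := rfl

/-! ### `B_dR` -/

variable (p) in
/-- the generators of `ker θ` in `B_dR^+` -/
noncomputable def genS : Submonoid (BdRp p) :=
  Submonoid.closure (AdicCompletion.of (Jp p) (AP p) '' {a | Jp p = Ideal.span {a}})

variable (p) in
/-- `B_dR`, as defined in Mathlib -/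
abbrev BdR : Type := LocS (genS p)

noncomputable instance algQpBdR : Algebra ℚ_[p] (BdR p) := LocS.algK (genS p) ℚ_[p]

instance towerQpBdR : IsScalarTower ℚ_[p] (BdRp p) (BdR p) := LocS.tower (genS p) ℚ_[p]

lemma fact_BdR : BdR p = BDeRham (OC p) p := rfl

/-- `B_dR^+ → B_dR` -/
noncomputable def jd : BdRp p →ₐ[ℚ_[p]] BdR p := IsScalarTower.toAlgHom ℚ_[p] (BdRp p) (BdR p)

lemma jd_apply (x : BdRp p) : jd x = algebraMap (BdRp p) (BdR p) x := rfl

lemma of_eq (s : AP p) : AdicCompletion.of (Jp p) (AP p) s = ofJ (Jp p) s := rfl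

variable (p) in
/-- the generator in `B_dR^+` -/
noncomputable def wD : BdRp p := ofJ (Jp p) (wq p)

lemma wD_mem : wD p ∈ genS p :=
  Submonoid.subset_closure ⟨wq p, Jp_eq, of_eq _⟩

lemma isUnit_jd_w : IsUnit (jd (wD p)) :=
  IsLocalization.map_units (BdR p) (⟨wD p, wD_mem⟩ : genS p)

lemma genS_form (g : BdRp p) (hg : g ∈ genS p) : ∃ (m : ℕ) (u : BdRp p), IsUnit u ∧
    g = wD p ^ m * u := by
  induction hg using Submonoid.closure_induction with
  | mem x hx =>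
    obtain ⟨a, ha, rfl⟩ := hx
    have ha' : Jp p = Ideal.span {a} := ha
    have h1 : a ∈ Ideal.span {wq p} := by
      rw [← Jp_eq, ha']; exact Ideal.mem_span_singleton_self _
    have h2 : wq p ∈ Ideal.span {a} := by
      rw [← ha', Jp_eq]; exact Ideal.mem_span_singleton_self _
    rw [Ideal.mem_span_singleton] at h1 h2
    obtain ⟨c, hc⟩ := h1
    obtain ⟨d, hd⟩ := h2
    have h3 : c * d = 1 := by
      apply mul_left_cancel₀ (wq_ne_zero (p := p))
      rw [← mul_assoc, ← hc, ← hd, mul_one]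
    refine ⟨1, ofJ (Jp p) c, (IsUnit.of_mul_eq_one _ h3).map _, ?_⟩
    rw [of_eq, hc, map_mul, pow_one, wD]
  | one => exact ⟨0, 1, isUnit_one, by simp⟩
  | mul x y _ _ hx hy =>
    obtain ⟨m, u, hu, rfl⟩ := hx
    obtain ⟨n, v, hv, rfl⟩ := hy
    exact ⟨m + n, u * v, hu.mul hv, by rw [pow_add]; ring⟩

lemma wD_nzd {x : BdRp p} (h : wD p * x = 0) : x = 0 := nzdJ Jp_eq wq_tf h

lemma wD_pow_nzd (n : ℕ) {x : BdRp p} (h : wD p ^ n * x = 0) : x = 0 := nzdJ_pow Jp_eq wq_tf n h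

lemma genS_le : genS p ≤ nonZeroDivisors (BdRp p) := by
  intro g hg
  obtain ⟨m, u, hu, rfl⟩ := genS_form g hg
  rw [mem_nonZeroDivisors_iff_right]
  intro x hx
  apply wD_pow_nzd m
  have h1 : (wD p ^ m * x) * u = 0 := by rw [← hx]; ring
  exact (hu.mul_left_eq_zero).1 h1

lemma jd_inj : Function.Injective (jd : BdRp p →ₐ[ℚ_[p]] BdR p) :=
  IsLocalization.injective (BdR p) genS_le

lemma exists_jd (d : BdR p) : ∃ (m : ℕ) (x : BdRp p), jd (wD p) ^ m * d = jd x := by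
  obtain ⟨⟨x, s⟩, h⟩ := IsLocalization.surj (genS p) d
  obtain ⟨m, u, hu, hs⟩ := genS_form (s : BdRp p) s.2
  obtain ⟨v, hv⟩ := hu.exists_right_inv
  refine ⟨m, x * v, ?_⟩
  have h1 : d * jd (s : BdRp p) = jd x := h
  rw [hs, map_mul, map_pow] at h1
  have h2 : jd u * jd v = (1 : BdR p) := by rw [← map_mul, hv, map_one]
  rw [map_mul, ← h1]
  calc jd (wD p) ^ m * d = d * jd (wD p) ^ m * (jd u * jd v) := by rw [h2]; ring
    _ = _ := by ring

lemma nontrivial_BdRp : Nontrivial (BdRp p) := (thD (p := p)).domain_nontrivial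

instance nontrivial_BdR : Nontrivial (BdR p) :=
  have := nontrivial_BdRp (p := p)
  Function.Injective.nontrivial (jd_inj (p := p))

/-! ### Galois action on `B_dR` -/

lemma galA_om (σ : GQp p) : ∃ c : Ainf p, IsUnit c ∧ galA σ (om (ee p)) = om (ee p) * c := by
  have h0 : ∀ τ : GQp p, ∃ c : Ainf p, galA τ (om (ee p)) = om (ee p) * c := by
    intro τ
    apply (hee (p := p)).gen_om
    rw [theta_galA, hee.theta_om, map_zero]
  obtain ⟨c, hc⟩ := h0 σ
  obtain ⟨d, hd⟩ := h0 σ⁻¹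
  refine ⟨c, ?_, hc⟩
  have h1 := congrArg (galA σ) hd
  rw [← galA_mul, mul_inv_cancel, galA_one, map_mul, hc] at h1
  apply IsUnit.of_mul_eq_one (galA σ d)
  apply mul_left_cancel₀ (om_ne_zero (hee (p := p)))
  rw [← mul_assoc, ← h1, mul_one]

lemma galDp_w (σ : GQp p) : ∃ c : BdRp p, IsUnit c ∧ galDp σ (wD p) = wD p * c := by
  obtain ⟨c, hc, h⟩ := galA_om σ
  refine ⟨ofJ (Jp p) (io p c), (hc.map (io p)).map _, ?_⟩
  rw [wD, galDp_ofJ, wq, extP_io, h, map_mul, map_mul]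

lemma isUnit_galDp (σ : GQp p) (g : genS p) : IsUnit (jd (galDp σ (g : BdRp p))) := by
  obtain ⟨m, u, hu, h⟩ := genS_form (g : BdRp p) g.2
  obtain ⟨c, hc, hc'⟩ := galDp_w σ
  rw [h, map_mul, map_pow, hc', map_mul, map_pow, map_mul]
  exact ((isUnit_jd_w.mul (hc.map jd)).pow m).mul ((hu.map (galDp σ)).map jd)

/-- the Galois action on `B_dR`, as a ring homomorphism -/
noncomputable def galDr (σ : GQp p) : BdR p →+* BdR p :=
  IsLocalization.lift (M := genS p) (S := BdR p)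
    (g := ((jd : BdRp p →ₐ[ℚ_[p]] BdR p) : BdRp p →+* BdR p).comp (galDp σ)) (isUnit_galDp σ)

lemma galDr_jd (σ : GQp p) (x : BdRp p) : galDr σ (jd x) = jd (galDp σ x) :=
  IsLocalization.lift_eq (M := genS p) (S := BdR p)
    (g := ((jd : BdRp p →ₐ[ℚ_[p]] BdR p) : BdRp p →+* BdR p).comp (galDp σ)) (isUnit_galDp σ) x

/-- the Galois action on `B_dR` -/
noncomputable def galD (σ : GQp p) : BdR p →ₐ[ℚ_[p]] BdR p :=
  { galDr σ with
    commutes' := fun q => by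
      have e2 : algebraMap ℚ_[p] (BdR p) q = jd (algebraMap ℚ_[p] (BdRp p) q) :=
        (jd.commutes _).symm
      change galDr σ (algebraMap ℚ_[p] (BdR p) q) = _
      rw [e2, galDr_jd, galDp_qp] }

lemma galD_jd (σ : GQp p) (x : BdRp p) : galD σ (jd x) = jd (galDp σ x) := galDr_jd σ x

lemma hom_ext_BdR {X : Type*} [CommRing X] {f g : BdR p →+* X}
    (h : ∀ a : BdRp p, f (jd a) = g (jd a)) : f = g :=
  IsLocalization.ringHom_ext (genS p) (RingHom.ext h)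

/-! ### `A_max[1/p,1/μ] → B_dR` -/

lemma jDp_mu : ∃ u : BdRp p, IsUnit u ∧ jDp (muP p) = wD p * u := by
  refine ⟨ofJ (Jp p) (io p (mu1 (ee p))), ?_, ?_⟩
  · apply isUnit_of_thD
    rw [thD_ofJ, thP_io]
    intro h
    exact (hee (p := p)).theta_mu1_ne (oc_inj (by rw [map_zero]; exact h))
  · rw [muP, jDp_toPM, mu_eq, map_mul, map_mul, wD, wq, mul_comm]

lemma isUnit_jd_mu : IsUnit (jd (jDp (muP p))) := by
  obtain ⟨u, hu, h⟩ := jDp_mu (p := p)
  rw [h, map_mul]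
  exact isUnit_jd_w.mul (hu.map jd)

/-- `A_max[1/p,1/μ] → B_dR`, as a ring homomorphism -/
noncomputable def jDr : BM p →+* BdR p :=
  IsLocalization.Away.lift (muP p)
    (g := ((jd : BdRp p →ₐ[ℚ_[p]] BdR p) : BdRp p →+* BdR p).comp jDp) isUnit_jd_mu

lemma jDr_jB (x : PM p) : jDr (jB x) = jd (jDp x) :=
  IsLocalization.Away.lift_eq (S := BM p) (muP p)
    (g := ((jd : BdRp p →ₐ[ℚ_[p]] BdR p) : BdRp p →+* BdR p).comp jDp) isUnit_jd_mu x

/-- `A_max[1/p,1/μ] → B_dR` -/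
noncomputable def jD : BM p →ₐ[ℚ_[p]] BdR p :=
  { jDr with
    commutes' := fun q => by
      have e1 : algebraMap ℚ_[p] (BM p) q = jB (algebraMap ℚ_[p] (PM p) q) :=
        (jB.commutes _).symm
      have e2 : algebraMap ℚ_[p] (BdR p) q = jd (algebraMap ℚ_[p] (BdRp p) q) :=
        (jd.commutes _).symm
      change jDr (algebraMap ℚ_[p] (BM p) q) = _
      rw [e1, jDr_jB, jDp_qp, e2] }

lemma jD_jB (x : PM p) : jD (jB x) = jd (jDp x) := jDr_jB x

lemma jD_gal (σ : GQp p) (x : BM p) : jD (galBM σ x) = galD σ (jD x) := by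
  have key : (jD : BM p →ₐ[ℚ_[p]] BdR p).toRingHom.comp
      (galBM σ : BM p →ₐ[ℚ_[p]] BM p).toRingHom =
      (galD σ : BdR p →ₐ[ℚ_[p]] BdR p).toRingHom.comp
      (jD : BM p →ₐ[ℚ_[p]] BdR p).toRingHom := by
    apply hom_ext_BM
    intro a
    have e1 : jD (galBM σ (jB a)) = jD (jB (endP (galA σ) (goodEnd_gal σ) a)) :=
      congrArg jD (galBM_jB σ a)
    have e2 : jD (jB (endP (galA σ) (goodEnd_gal σ) a)) =
        jd (jDp (endP (galA σ) (goodEnd_gal σ) a)) := jD_jB _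
    have e3 : jd (jDp (endP (galA σ) (goodEnd_gal σ) a)) = jd (galDp σ (jDp a)) :=
      congrArg jd (jDp_gal σ a)
    have e4 : galD σ (jD (jB a)) = galD σ (jd (jDp a)) := congrArg (galD σ) (jD_jB a)
    have e5 : galD σ (jd (jDp a)) = jd (galDp σ (jDp a)) := galD_jd σ _
    exact e1.trans (e2.trans (e3.trans (e5.symm.trans e4.symm)))
  exact RingHom.congr_fun key x

variable (p) in
/-- `B_dR^+` as a subalgebra of `B_dR` -/
noncomputable def DpS : Subalgebra ℚ_[p] (BdR p) := (jd : BdRp p →ₐ[ℚ_[p]] BdR p).range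

lemma mem_DpS (x : BdR p) : x ∈ DpS p ↔ ∃ y, jd y = x := Iff.rfl

lemma galD_DpS (σ : GQp p) (x : BdR p) (hx : x ∈ DpS p) : galD σ x ∈ DpS p := by
  obtain ⟨y, rfl⟩ := hx
  exact ⟨galDp σ y, (galD_jd σ y).symm⟩

end MP_7c08ba.Crys
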