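import Mathlib
import Pool.Agent.Lib.MP_7c08ba_nt.Crys.BdR
import Pool.Agent.Lib.MP_7c08ba_nt.Crys.DRAbs
import Pool.Agent.Lib.MP_7c08ba_nt.Crys.StmtDR

/-!
# The fundamental exact sequence
-/

namespace MP_7c08ba.Crys

open Finset

variable {p : ℕ} [hp : Fact p.Prime]

lemma endP_comp' {f g k : Ainf p →+* Ainf p} (hf : GoodEnd f) (hg : GoodEnd g)
    (hk : GoodEnd k) (h : ∀ a, g (f a) = k a) (x : PM p) :
    endP g hg (endP f hf x) = endP k hk x := by
  rw [endP_comm hf hg goodEnd_id hk (fun a => by rw [h, RingHom.id_apply]), endP_id]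

lemma galBM_mul (σ τ : GQp p) (x : BM p) : galBM (σ * τ) x = galBM σ (galBM τ x) := by
  have key : (galBM (σ * τ) : BM p →ₐ[ℚ_[p]] BM p).toRingHom =
      (galBM σ : BM p →ₐ[ℚ_[p]] BM p).toRingHom.comp
      (galBM τ : BM p →ₐ[ℚ_[p]] BM p).toRingHom := by
    apply hom_ext_BM
    intro a
    have e1 : galBM (σ * τ) (jB a) = jB (endP (galA (σ * τ)) (goodEnd_gal (σ * τ)) a) :=
      galBM_jB _ _
    have e2 : galBM σ (galBM τ (jB a)) = galBM σ (jB (endP (galA τ) (goodEnd_gal τ) a)) :=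
      congrArg (galBM σ) (galBM_jB τ a)
    have e3 : galBM σ (jB (endP (galA τ) (goodEnd_gal τ) a)) =
        jB (endP (galA σ) (goodEnd_gal σ) (endP (galA τ) (goodEnd_gal τ) a)) := galBM_jB _ _
    have e4 : endP (galA σ) (goodEnd_gal σ) (endP (galA τ) (goodEnd_gal τ) a) =
        endP (galA (σ * τ)) (goodEnd_gal (σ * τ)) a :=
      endP_comp' _ _ _ (fun a => (galA_mul σ τ a).symm) a
    exact e1.trans ((congrArg jB e4).symm.trans (e3.symm.trans e2.symm))
  exact RingHom.congr_fun key x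

lemma phBM_galBM (σ : GQp p) (x : BM p) : phBM (galBM σ x) = galBM σ (phBM x) := by
  have key : (phBM : BM p →ₐ[ℚ_[p]] BM p).toRingHom.comp
      (galBM σ : BM p →ₐ[ℚ_[p]] BM p).toRingHom =
      (galBM σ : BM p →ₐ[ℚ_[p]] BM p).toRingHom.comp
      (phBM : BM p →ₐ[ℚ_[p]] BM p).toRingHom := by
    apply hom_ext_BM
    intro a
    have e1 : phBM (galBM σ (jB a)) = phBM (jB (endP (galA σ) (goodEnd_gal σ) a)) :=
      congrArg phBM (galBM_jB σ a)
    have e2 : phBM (jB (endP (galA σ) (goodEnd_gal σ) a)) =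
        jB (endP phA goodEnd_phA (endP (galA σ) (goodEnd_gal σ) a)) := phBM_jB _
    have e3 : galBM σ (phBM (jB a)) = galBM σ (jB (endP phA goodEnd_phA a)) :=
      congrArg (galBM σ) (phBM_jB a)
    have e4 : galBM σ (jB (endP phA goodEnd_phA a)) =
        jB (endP (galA σ) (goodEnd_gal σ) (endP phA goodEnd_phA a)) := galBM_jB _ _
    have e5 : endP phA goodEnd_phA (endP (galA σ) (goodEnd_gal σ) a) =
        endP (galA σ) (goodEnd_gal σ) (endP phA goodEnd_phA a) :=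
      endP_comm _ _ _ _ (phA_galA σ) a
    exact e1.trans (e2.trans ((congrArg jB e5).trans (e4.symm.trans e3.symm)))
  exact RingHom.congr_fun key x

/-! ### `B^{φ=1} ∩ B_dR^+ = ℚ_p` -/

section abs

variable {P B Rp D C : Type} [CommRing P] [CommRing B] [CommRing Rp] [CommRing D] [CommRing C]

lemma fix_abs (phP : P →+* P) (phB : B →+* B) (iB : P →+* B) (iDp : P →+* Rp) (iD : B →+* D)
    (id' : Rp →+* D) (tD : Rp →+* C) (tP : P →+* C) (mu om : P) {R : Type} [CommRing R]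
    [Algebra R P] [Algebra R B]
    (h1 : ∀ x, iD (iB x) = id' (iDp x)) (h2 : ∀ x, phB (iB x) = iB (phP x))
    (h3 : ∀ x, tD (iDp x) = tP x) (h4 : Function.Injective iB) (h5 : Function.Injective id')
    (h6 : IsUnit (iB mu)) (h7 : tP mu = 0) (h8 : phP mu = mu * om)
    (h9 : ∀ x, phP x = x → ∃ c : R, x = algebraMap R P c)
    (h10 : ∀ c : R, iB (algebraMap R P c) = algebraMap R B c)
    (h11 : ∀ (m : ℕ) (x : P), phP x = om ^ m * x → tP x = 0 → ∃ y, x = mu * y) :
    ∀ (m : ℕ) (b : B), phB b = b → (∃ d, id' d = iD b) → (∃ x, iB mu ^ m * b = iB x) →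
      ∃ c : R, b = algebraMap R B c := by
  intro m
  induction m with
  | zero =>
    rintro b h - ⟨x, hx⟩
    rw [pow_zero, one_mul] at hx
    have e1 : phP x = x := by
      apply h4
      rw [← h2, ← hx, h]
    obtain ⟨c, hc⟩ := h9 x e1
    exact ⟨c, by rw [hx, hc, h10]⟩
  | succ m ih =>
    rintro b h ⟨d, hd⟩ ⟨x, hx⟩
    have e0 : phP x = om ^ (m + 1) * x := by
      apply h4
      have e1 := congrArg phB hx
      rw [map_mul, map_pow, h, h2, h2, h8, map_mul iB, mul_pow] at e1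
      rw [← e1, map_mul, map_pow, ← hx]; ring
    have e2 : tP x = 0 := by
      have e1 := congrArg iD hx
      rw [map_mul, map_pow, h1, h1, ← hd, ← map_pow, ← map_mul] at e1
      have e3 := congrArg tD (h5 e1)
      rw [map_mul, map_pow, h3, h3] at e3
      rw [← e3, h7, zero_pow (Nat.succ_ne_zero m), zero_mul]
    obtain ⟨y, hy⟩ := h11 (m + 1) x e0 e2
    apply ih b h ⟨d, hd⟩
    refine ⟨y, ?_⟩
    apply h6.mul_left_cancel
    rw [← mul_assoc, ← pow_succ', hx, hy, map_mul]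

lemma pow_abs (phP : P →+* P) (tP : P →+* C) (q : ℕ)
    (h : ∀ z, ∃ x, phP x = (q : P) * x ∧ tP x = z) (m : ℕ) (z : C) :
    ∃ x, phP x = (q : P) ^ (m + 1) * x ∧ tP x = z := by
  induction m with
  | zero =>
    obtain ⟨x, h1, h2⟩ := h z
    exact ⟨x, by rw [h1, zero_add, pow_one], h2⟩
  | succ m ih =>
    obtain ⟨x, h1, h2⟩ := ih
    obtain ⟨y, h3, h4⟩ := h 1
    refine ⟨x * y, ?_, ?_⟩
    · rw [map_mul, h1, h3, pow_succ _ (m + 1)]; ring
    · rw [map_mul, h2, h4, mul_one]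

lemma surj_abs (phP : P →+* P) (phB : B →+* B) (iB : P →+* B) (iDp : P →+* Rp) (iD : B →+* D)
    (id' : Rp →+* D) (tD : Rp →+* C) (tP : P →+* C) (q : ℕ) (mu : P) (w : Rp)
    (h1 : ∀ x, iD (iB x) = id' (iDp x)) (h2 : ∀ x, phB (iB x) = iB (phP x))
    (h3 : ∀ x, tD (iDp x) = tP x) (h6 : IsUnit (iB mu))
    (hth : ∀ z, ∃ x, phP x = (q : P) * x ∧ tP x = z)
    (hker : ∀ x, tD x = 0 → ∃ z, x = w * z) (hw : IsUnit (id' w))
    (hex : ∀ d : D, ∃ (m : ℕ) (x : Rp), id' w ^ m * d = id' x)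
    (hmu : ∃ u, IsUnit u ∧ iDp mu = w * u)
    (t U : P) (ht : t = mu * U) (hU : IsUnit U) (hpt : phP t = (q : P) * t) (d : D) :
    ∃ b : B, phB b = b ∧ ∃ x, id' x = iD b - d := by
  obtain ⟨u, hu, hmu⟩ := hmu
  -- `t` in `B` and its inverse
  have htB : IsUnit (iB t) := by
    rw [ht, map_mul]; exact h6.mul (hU.map iB)
  obtain ⟨s, hs⟩ := htB.exists_right_inv
  have hph : phB (iB t) = (q : B) * iB t := by
    rw [h2, hpt, map_mul, map_natCast]
  have hps : (q : B) * phB s = s := by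
    have h1 := congrArg phB hs
    rw [map_mul, hph, map_one] at h1
    calc (q : B) * phB s = (q : B) * phB s * (iB t * s) := by rw [hs, mul_one]
      _ = ((q : B) * iB t * phB s) * s := by ring
      _ = s := by rw [h1, one_mul]
  -- `t` in `B_dR^+`
  obtain ⟨v, hv, hvt⟩ : ∃ v : Rp, IsUnit v ∧ iDp t = w * v := by
    refine ⟨u * iDp U, hu.mul (hU.map iDp), ?_⟩
    rw [ht, map_mul, hmu]; ring
  obtain ⟨v', hv'⟩ := hv.exists_right_inv
  have key : ∀ (m : ℕ) (d : D), (∃ x : Rp, iD (iB t) ^ m * d = id' x) →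
      ∃ b : B, phB b = b ∧ ∃ x, id' x = iD b - d := by
    intro m
    induction m with
    | zero =>
      rintro d ⟨x, hx⟩
      refine ⟨0, map_zero _, -x, ?_⟩
      rw [pow_zero, one_mul] at hx
      rw [map_zero, zero_sub, hx, map_neg]
    | succ m ih =>
      rintro d ⟨x, hx⟩
      obtain ⟨y, hy, hy'⟩ := pow_abs phP tP q hth m (tD x)
      have hb0 : phB (s ^ (m + 1) * iB y) = s ^ (m + 1) * iB y := by
        rw [map_mul, map_pow, h2, hy, map_mul, map_pow, map_natCast]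
        conv_rhs => rw [← hps]
        rw [mul_pow]; ring
      have e1 : tD (x - iDp y) = 0 := by rw [map_sub, h3, hy', sub_self]
      obtain ⟨z, hz⟩ := hker _ e1
      have hts : iD (iB t) * iD s = 1 := by rw [← map_mul, hs, map_one]
      have e2 : iD (iB t) ^ (m + 1) * (d - iD (s ^ (m + 1) * iB y)) = id' (w * z) := by
        rw [← hz, map_sub id', mul_sub, hx, map_mul iD, map_pow, h1 y, ← mul_assoc, ← mul_pow,
          hts, one_pow, one_mul]
      have e3 : iD (iB t) = id' w * id' v := by rw [h1, hvt, map_mul]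
      have e4 : iD (iB t) ^ m * (d - iD (s ^ (m + 1) * iB y)) = id' (v' * z) := by
        apply hw.mul_left_cancel
        have hvv : id' v * id' v' = (1 : D) := by rw [← map_mul, hv', map_one]
        calc id' w * (iD (iB t) ^ m * (d - iD (s ^ (m + 1) * iB y)))
            = (id' w * id' v) * id' v' * (iD (iB t) ^ m * (d - iD (s ^ (m + 1) * iB y))) := by
              rw [mul_assoc (id' w), hvv, mul_one]
          _ = id' v' * (iD (iB t) ^ (m + 1) * (d - iD (s ^ (m + 1) * iB y))) := by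
              rw [← e3, pow_succ]; ring
          _ = id' w * id' (v' * z) := by rw [e2, map_mul, map_mul]; ring
      obtain ⟨b', hb', r, hr⟩ := ih _ ⟨_, e4⟩
      refine ⟨s ^ (m + 1) * iB y + b', by rw [map_add, hb0, hb'], r, ?_⟩
      rw [hr, map_add]; ring
  obtain ⟨m, x, hx⟩ := hex d
  apply key m
  refine ⟨v ^ m * x, ?_⟩
  have h3 : iD (iB t) = id' w * id' v := by rw [h1, hvt, map_mul]
  rw [h3, mul_pow, map_mul, map_pow, ← hx]; ring

end abs

lemma thPM_mu : thPM (muP p) = 0 := by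
  rw [muP, thPM_toPM, hee.theta_mu]; rfl

lemma fix_BM (b : BM p) (h : phBM b = b) (hD : jD b ∈ DpS p) :
    ∃ c : ℚ_[p], b = algebraMap ℚ_[p] (BM p) c := by
  obtain ⟨m, x, hx⟩ := exists_jB b
  obtain ⟨y, hy⟩ := (mem_DpS _).1 hD
  exact fix_abs (R := ℚ_[p]) (endP phA goodEnd_phA) (phBM : BM p →ₐ[ℚ_[p]] BM p).toRingHom
    (jB : PM p →ₐ[ℚ_[p]] BM p).toRingHom jDp (jD : BM p →ₐ[ℚ_[p]] BdR p).toRingHom
    (jd : BdRp p →ₐ[ℚ_[p]] BdR p).toRingHom thD thPM
    (muP p) omP jD_jB phBM_jB thD_jDp jB_inj jd_inj isUnit_jB_mu thPM_mu phP_mu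
    F1_PM (jB : PM p →ₐ[ℚ_[p]] BM p).commutes F2_PM m b h (Exists.intro y hy)
    (Exists.intro x hx)

/-! ### Surjectivity of `B^{φ=1} → B_dR / B_dR^+` -/

lemma surj_BM (hth : StTheta p) (htel : StTel p) (d : BdR p) :
    ∃ b : BM p, phBM b = b ∧ jD b - d ∈ DpS p := by
  obtain ⟨t, U, ht, hU, -, hpt, -⟩ := htel
  obtain ⟨b, hb, x, hx⟩ := surj_abs (endP phA goodEnd_phA)
    (phBM : BM p →ₐ[ℚ_[p]] BM p).toRingHom
    (jB : PM p →ₐ[ℚ_[p]] BM p).toRingHom jDp (jD : BM p →ₐ[ℚ_[p]] BdR p).toRingHom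
    (jd : BdRp p →ₐ[ℚ_[p]] BdR p).toRingHom thD thPM p
    (muP p) (wD p) jD_jB phBM_jB thD_jDp isUnit_jB_mu hth (fun x hx => thD_eq_zero hx)
    isUnit_jd_w exists_jd jDp_mu t U ht hU hpt d
  exact ⟨b, hb, (mem_DpS _).2 ⟨x, hx⟩⟩

/-- the fundamental exact sequence for a group `G` with a homomorphism to the Galois group -/
noncomputable def DS (hth : StTheta p) (htel : StTel p) {G : Type} [Group G] (a : G →* GQp p) :
    DRSetup ℚ_[p] G (BM p) (BdR p) where
  nt := inferInstance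
  ntD := inferInstance
  aB := fun g => galBM (a g)
  a_mul := fun g h x => by rw [map_mul, galBM_mul]
  phB := phBM
  ph_a := fun g x => phBM_galBM (a g) x
  aD := fun g => galD (a g)
  jD := jD
  jD_a := fun g x => jD_gal (a g) x
  Dp := DpS p
  aD_Dp := fun g x hx => galD_DpS (a g) x hx
  fix := fix_BM
  surj := surj_BM hth htel

end MP_7c08ba.Crys
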