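import Mathlib
import Pool.Agent.Lib.MP_7c08ba_nt.Crys.Cts
import Pool.Agent.Lib.MP_7c08ba_nt.Crys.DRInst
import Pool.Agent.Lib.MP_7c08ba_nt.Crys.Cont

set_option autoImplicit false

/-!
# The concrete smallness setup
-/

namespace MP_7c08ba.Crys

open Filter Topology

variable {p : ℕ} [hp : Fact p.Prime]

/-- `μ` in `A_max` -/
noncomputable def muM : Cpl p (AMax0 p) := ofC p (ioM (mu (ee p)))

lemma oM_muM : oM (muM (p := p)) = muP p := rfl

/-- abstract existence -/
lemma ex_abs {A P B : Type} [CommRing A] [CommRing P] [CommRing B] (o : A →+* P) (j : P →+* B)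
    (q : ℕ) (mu : A) (h1 : ∀ b : B, ∃ (m : ℕ) (x : P), j (o mu) ^ m * b = j x)
    (h2 : ∀ x : P, ∃ (n : ℕ) (y : A), (q : P) ^ n * x = o y) (b : B) :
    ∃ (N m : ℕ) (y : A), (q : B) ^ N * (j.comp o) mu ^ m * b = (j.comp o) y := by
  obtain ⟨m, x, hx⟩ := h1 b
  obtain ⟨N, y, hy⟩ := h2 x
  refine ⟨N, m, y, ?_⟩
  rw [RingHom.comp_apply, RingHom.comp_apply, ← hy, map_mul, map_pow, map_natCast, mul_assoc, hx]

lemma mudiv_aux (m : ℕ) : ∃ c : ℕ, ¬ (p : Cpl p (AMax0 p)) ^ c ∣ muM ^ m := by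
  by_contra hcon
  push Not at hcon
  have h1 : (muM (p := p)) ^ m = 0 := haus_Cpl _ hcon
  have h2 : (muP p) ^ m = 0 := by
    have := congrArg (oM : Cpl p (AMax0 p) →+* PM p) h1
    rw [map_pow, map_zero] at this
    exact this
  have h3 : IsUnit (0 : BM p) := by
    have h4 := (isUnit_jB_mu (p := p)).pow m
    have h5 : jB (muP p) ^ m = 0 := by
      rw [← map_pow, h2, map_zero]
    rw [h5] at h4
    exact h4
  exact not_isUnit_zero h3

variable (p) in
/-- the setup -/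
noncomputable def SmB : SmSetup p (Cpl p (AMax0 p)) (BM p) where
  i := (jB : PM p →ₐ[ℚ_[p]] BM p).toRingHom.comp oM
  inj := fun x y h => oM_inj (jB_inj h)
  mu := muM
  zp := ((ofC p).comp ioM).comp zpA
  i_zp := fun z => by
    have h1 : algebraMap ℚ_[p] (BM p) (z : ℚ_[p]) = jB (algebraMap ℚ_[p] (PM p) (z : ℚ_[p])) :=
      ((jB : PM p →ₐ[ℚ_[p]] BM p).commutes _).symm
    rw [h1, algebraMap_PM_coe]
    rfl
  ex := ex_abs (oM : Cpl p (AMax0 p) →+* PM p) (jB : PM p →ₐ[ℚ_[p]] BM p).toRingHom p muM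
    exists_jB exists_oM
  mudiv := mudiv_aux
  tf := (pcCpl tf_AMax0).tf

variable {G : Type} [Group G] [TopologicalSpace G]

lemma sml_gal (a : G →* GQp p) (ha : Continuous a) (b : BM p) :
    (SmB p).Sml (𝓝 1) (fun g => galBM (a g) b - b) := by
  have hinv : ∀ g : G, ∃ w' : Ainf p, wA (a g) * w' = 1 :=
    fun g => (isUnit_wA (a g)).exists_right_inv
  choose w' hw' using hinv
  refine SmSetup.sml_act (S := SmB p) (fun g => endM (galA (a g)) (goodEnd_gal (a g)))
    (fun g => (galBM (a g) : BM p →ₐ[ℚ_[p]] BM p).toRingHom) ?_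
    (fun g => ofC p (ioM (wA (a g)))) (fun g => ofC p (ioM (w' g))) ?_ ?_ ?_ b
  · intro g x
    have h1 : galBM (a g) (jB (oM x)) = jB (endP (galA (a g)) (goodEnd_gal (a g)) (oM x)) :=
      galBM_jB _ _
    have h2 : endP (galA (a g)) (goodEnd_gal (a g)) (oM x) =
        oM (endM (galA (a g)) (goodEnd_gal (a g)) x) := endP_oM _ _ _
    exact h1.trans (congrArg jB h2)
  · intro g
    have h1 : endM (galA (a g)) (goodEnd_gal (a g)) (ofC p (ioM (mu (ee p)))) =
        ofC p (endM0 (galA (a g)) (goodEnd_gal (a g)) (ioM (mu (ee p)))) := endM_ofC _ _ _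
    have h2 : endM0 (galA (a g)) (goodEnd_gal (a g)) (ioM (mu (ee p))) =
        ioM (galA (a g) (mu (ee p))) := endM0_ioM _ _ _
    have h3 : ioM (galA (a g) (mu (ee p))) = ioM (mu (ee p)) * ioM (wA (a g)) := by
      rw [galA_mu, map_mul]
    refine h1.trans ((congrArg (ofC p) (h2.trans h3)).trans ?_)
    exact map_mul (ofC p) _ _
  · intro g
    have h1 : ofC p (ioM (wA (a g))) * ofC p (ioM (w' g)) = ofC p (ioM (wA (a g) * w' g)) := by
      rw [map_mul, map_mul]
    refine h1.trans ?_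
    rw [hw', map_one, map_one]
  · intro y k
    obtain ⟨U, hU, h⟩ := stCont (p := p) y k
    have h1 : (U : Set (GQp p)) ∈ 𝓝 (1 : GQp p) := hU.mem_nhds U.one_mem
    have h2 : a ⁻¹' (U : Set (GQp p)) ∈ 𝓝 (1 : G) := by
      apply ha.continuousAt.preimage_mem_nhds
      rw [map_one]; exact h1
    filter_upwards [h2] with g hg
    exact h (a g) hg

end MP_7c08ba.Crys
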