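import Mathlib
import Pool.Agent.Lib.MP_7c08ba_nt.Crys.Hodge
import Pool.Agent.Lib.MP_7c08ba_nt.Crys.DRInst

set_option autoImplicit false

/-!
# The element `t⁻¹` of `B_dR`
-/

namespace MP_7c08ba.Crys

section abs

variable {k P B Rp D C : Type} [Field k] [CommRing P] [CommRing B] [CommRing Rp] [CommRing D]
  [CommRing C] [Nontrivial C] [Algebra k P] [Algebra k B] [Algebra k D]

lemma tinv_abs {Q : Type} (gP : Q → P →+* P) (gB : Q → B →ₐ[k] B) (gD : Q → D →ₐ[k] D)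
    (iB : P →ₐ[k] B) (iDp : P →+* Rp) (iD : B →ₐ[k] D)
    (id' : Rp →+* D) (tD : Rp →+* C) (mu : P) (w : Rp) (chi : Q → k)
    (h1 : ∀ x, iD (iB x) = id' (iDp x)) (h2 : ∀ σ x, gB σ (iB x) = iB (gP σ x))
    (h3 : ∀ σ x, iD (gB σ x) = gD σ (iD x)) (h5 : Function.Injective id')
    (h6 : IsUnit (iB mu)) (h7 : tD w = 0)
    (hmu : ∃ u, IsUnit u ∧ iDp mu = w * u)
    (t U : P) (ht : t = mu * U) (hU : IsUnit U)
    (hg : ∀ σ, gP σ t = algebraMap k P (chi σ) * t) :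
    ∃ s : D, IsUnit s ∧ (∀ σ, chi σ • gD σ s = s) ∧ ¬ ∃ y, id' y = s := by
  obtain ⟨u, hu, hmu⟩ := hmu
  have htB : IsUnit (iD (iB t)) := by
    have : IsUnit (iB t) := by rw [ht, map_mul]; exact h6.mul (hU.map iB)
    exact this.map iD
  obtain ⟨s, hs⟩ := htB.exists_right_inv
  have hs' : s * iD (iB t) = 1 := by rw [mul_comm]; exact hs
  have hgt : ∀ σ, gD σ (iD (iB t)) = chi σ • iD (iB t) := by
    intro σ
    rw [← h3, h2, hg, map_mul, iB.commutes, map_mul, iD.commutes, Algebra.smul_def]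
  refine ⟨s, IsUnit.of_mul_eq_one _ hs', fun σ => ?_, ?_⟩
  · have e1 := congrArg (gD σ) hs'
    rw [map_mul, hgt, map_one] at e1
    calc chi σ • gD σ s = (chi σ • gD σ s) * (iD (iB t) * s) := by rw [hs, mul_one]
      _ = (gD σ s * chi σ • iD (iB t)) * s := by
        rw [Algebra.smul_def, Algebra.smul_def]; ring
      _ = s := by rw [e1, one_mul]
  · rintro ⟨y, hy⟩
    have e1 : id' (y * (w * (u * iDp U))) = id' 1 := by
      rw [map_one, ← hs', ← hy, h1, map_mul id' y]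
      congr 2
      rw [ht, map_mul, hmu]; ring
    have e2 := congrArg tD (h5 e1)
    rw [map_mul, map_mul, h7, zero_mul, mul_zero, map_one] at e2
    exact zero_ne_one e2

end abs

variable {p : ℕ} [hp : Fact p.Prime]

lemma thD_w : thD (wD p) = 0 := by
  obtain ⟨u, hu, hmu⟩ := jDp_mu (p := p)
  have h1 := congrArg thD hmu
  rw [thD_jDp, thPM_mu, map_mul] at h1
  rcases mul_eq_zero.1 h1.symm with h2 | h2
  · exact h2
  · exact absurd h2 ((hu.map thD).ne_zero)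

lemma exists_tinv (htel : StTel p) : ∃ s : BdR p, IsUnit s ∧
    (∀ σ : GQp p, chiQ σ • galD σ s = s) ∧ s ∉ DpS p := by
  obtain ⟨t, U, ht, hU, -, -, hg⟩ := htel
  obtain ⟨s, h1, h2, h3⟩ := tinv_abs (k := ℚ_[p]) (fun σ : GQp p => endP (galA σ) (goodEnd_gal σ))
    galBM galD (jB : PM p →ₐ[ℚ_[p]] BM p) jDp (jD : BM p →ₐ[ℚ_[p]] BdR p)
    (jd : BdRp p →ₐ[ℚ_[p]] BdR p).toRingHom thD (muP p) (wD p) chiQ
    jD_jB galBM_jB jD_gal jd_inj isUnit_jB_mu thD_w jDp_mu t U ht hU hg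
  exact ⟨s, h1, h2, fun h => h3 ((mem_DpS _).1 h)⟩

lemma tInv_DS (hth : StTheta p) (htel : StTel p) {G : Type} [Group G] (a : G →* GQp p) :
    ∃ s : BdR p, (DS hth htel a).TInv (fun g => chiQ (a g)) s := by
  obtain ⟨s, h1, h2, h3⟩ := exists_tinv htel
  exact ⟨s, ⟨h1, fun g => h2 (a g), h3⟩⟩

end MP_7c08ba.Crys
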