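import Mathlib
import Pool.Agent.Lib.MP_7c08ba_nt.Crys.StmtDR

set_option autoImplicit false

/-!
# The element `t = μ ∏ (φ^(i+1)(ω) / p)` of `A_max[1/p]`
-/

namespace MP_7c08ba.Crys

open Finset

namespace FrobSetup

variable {p : ℕ} {A R S : Type*} [CommRing A] [CommRing R] [CommRing S] (D : FrobSetup p A R S)

include D

/-- the infinite product `∏ φ^i(φ(ω) / p)` in the completion -/
lemma exists_tel (hmu : D.phA D.mu1 = D.mu) (hom : ∀ k : ℕ, D.thA (D.phA^[k + 1] D.om) = p) :
    ∃ U : Cpl p S, IsUnit U ∧ D.thM U = 1 ∧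
      D.toM (D.phA D.om) * D.phM U = (p : Cpl p S) * U := by
  obtain ⟨h, hh⟩ := D.ph_om
  obtain ⟨q, hq⟩ : ∃ q : Cpl p S, q = D.qM := ⟨_, rfl⟩
  obtain ⟨h', hh'⟩ : ∃ h' : Cpl p S, h' = D.toM h := ⟨_, rfl⟩
  obtain ⟨v, hv⟩ : ∃ v : Cpl p S, v = 1 + q * h' := ⟨_, rfl⟩
  have hvu : IsUnit v := by rw [hv, hq]; exact D.isUnit_one_add_q _
  have hpq : (p : Cpl p S) * q = D.toM D.mu := by rw [hq]; exact D.p_mul_qM
  have hpv : (p : Cpl p S) * v = D.toM (D.phA D.om) := by
    rw [hh, map_add, map_natCast, map_mul, ← hpq, ← hh', hv]; ring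
  -- φ q = p q v
  have hphq : D.phM q = (p : Cpl p S) * (q * v) := by
    apply D.pcM.cancel 1
    rw [pow_one]
    have h1 : (p : Cpl p S) * D.phM q = D.phM (D.toM D.mu) := by
      rw [← hpq, map_mul, map_natCast]
    have h2 : D.phM (D.toM D.mu) = D.toM D.mu * D.toM (D.phA D.om) := by
      rw [D.phM_toM, ← map_mul]
      congr 1
      conv_lhs => rw [D.mu_eq, map_mul, hmu]
    rw [h1, h2, ← hpq, ← hpv]; ring
  -- iterates
  have hqi : ∀ i : ℕ, (p : Cpl p S) ^ i ∣ (D.phM ^ i) q := by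
    intro i
    induction i with
    | zero => rw [pow_zero]; exact one_dvd _
    | succ i ih =>
      obtain ⟨c, hc⟩ := ih
      have h1 : (D.phM ^ (i + 1)) q = (D.phM ^ i) (D.phM q) := by
        rw [← iter_map, ← iter_map, Function.iterate_succ_apply]
      refine ⟨c * (D.phM ^ i) v, ?_⟩
      rw [h1, hphq, map_mul, map_natCast, map_mul, hc, pow_succ]; ring
  have hvi : ∀ i : ℕ, ∃ c, (D.phM ^ i) v - 1 = (p : Cpl p S) ^ i * c := by
    intro i
    obtain ⟨c, hc⟩ := hqi i
    refine ⟨c * (D.phM ^ i) h', ?_⟩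
    rw [hv, map_add, map_one, map_mul, hc]; ring
  choose c hc using hvi
  obtain ⟨V, hV⟩ : ∃ V : ℕ → Cpl p S, V = fun n => ∏ i ∈ range n, (D.phM ^ i) v := ⟨_, rfl⟩
  have hV0 : V 0 = 1 := by rw [hV]; simp
  have hVs : ∀ n, V (n + 1) = V n * (D.phM ^ n) v := by
    intro n; rw [hV]; simp only [Finset.prod_range_succ]
  have hVs' : ∀ n, D.phM (V n) * v = V (n + 1) := by
    intro n
    rw [hV]
    simp only
    rw [map_prod, Finset.prod_range_succ' _ n]
    congr 1
    apply Finset.prod_congr rfl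
    intro i _
    rw [← iter_map, ← iter_map, Function.iterate_succ_apply']
  obtain ⟨s, hs⟩ := D.pcM.comp (fun n => V n * c n)
  have hsum : ∀ n, ∑ i ∈ range n, (p : Cpl p S) ^ i * (V i * c i) = V n - 1 := by
    intro n
    induction n with
    | zero => rw [hV0]; simp
    | succ n ih =>
      rw [Finset.sum_range_succ, ih, hVs]
      have h1 := hc n
      linear_combination (-(V n)) * h1
  obtain ⟨U, hU⟩ : ∃ U : Cpl p S, U = s + 1 := ⟨_, rfl⟩
  have hUn : ∀ n, (p : Cpl p S) ^ n ∣ U - V n := by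
    intro n
    obtain ⟨w, hw⟩ := hs n
    refine ⟨w, ?_⟩
    rw [hsum] at hw
    rw [hU, ← hw]; ring
  refine ⟨U, ?_, ?_, ?_⟩
  · apply D.pcM.isUnit_of_mod hvu
    have h1 := hUn 1
    rw [pow_one] at h1
    have h2 : V 1 = v := by
      have h3 := hVs 0
      rw [hV0, one_mul, pow_zero] at h3
      exact h3
    rw [h2] at h1
    exact h1
  · have hthv : ∀ i, D.thM ((D.phM ^ i) v) = 1 := by
      intro i
      apply D.pcR.cancel 1
      rw [pow_one, mul_one]
      have h1 : (p : Cpl p S) * (D.phM ^ i) v = D.toM (D.phA^[i + 1] D.om) := by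
        rw [Function.iterate_succ_apply, ← iter_toM, ← hpv, iter_map, map_mul, map_natCast]
      have h2 := congrArg D.thM h1
      rw [map_mul, map_natCast, MaxSetup.thM_toM, hom] at h2
      exact h2
    have hthV : ∀ n, D.thM (V n) = 1 := by
      intro n
      rw [hV]
      simp only
      rw [map_prod]
      exact Finset.prod_eq_one fun i _ => hthv i
    apply D.pcR.eq_of_forall
    intro n
    obtain ⟨w, hw⟩ := hUn n
    refine ⟨D.thM w, ?_⟩
    have h1 := congrArg D.thM hw
    rw [map_sub, hthV, map_mul, map_pow, map_natCast] at h1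
    exact h1
  · have key : D.phM U * v = U := by
      apply D.pcM.eq_of_forall
      intro n
      obtain ⟨w, hw⟩ := hUn n
      obtain ⟨w', hw'⟩ := hUn (n + 1)
      have h1 : U = V n + (p : Cpl p S) ^ n * w := by rw [← hw]; ring
      have h2 := congrArg D.phM h1
      rw [map_add, map_mul, map_pow, map_natCast] at h2
      refine ⟨D.phM w * v - (p : Cpl p S) * w', ?_⟩
      rw [h2]
      have h3 := hVs' n
      linear_combination h3 - hw'
    rw [← hpv]
    linear_combination (p : Cpl p S) * key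

end FrobSetup

variable (p : ℕ) [hp : Fact p.Prime]

lemma exists_telM : ∃ U : Cpl p (AMax0 p), IsUnit U ∧ thM U = 1 ∧
    (FSe (p := p)).toM (phA (om (ee p))) * endM phA goodEnd_phA U = (p : Cpl p (AMax0 p)) * U :=
  (FSe (p := p)).exists_tel (phA_mu1 (ee p)) (fun k => hee.theta_phA_om k)

/-- Module TEL -/
theorem stTel : StTel p := by
  obtain ⟨U, hU, hth, hph⟩ := exists_telM p
  obtain ⟨W, hW⟩ : ∃ W : PM p, W = oM U := ⟨_, rfl⟩
  have hWu : IsUnit W := by rw [hW]; exact hU.map oM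
  have hWth : thPM W = 1 := by
    rw [hW, thPM_oM, hth, map_one]
  have hWph : omP * endP phA goodEnd_phA W = (p : PM p) * W := by
    have h1 := congrArg (oM : Cpl p (AMax0 p) →+* PM p) hph
    rw [map_mul, map_mul, map_natCast] at h1
    rw [hW, endP_oM]
    exact h1
  obtain ⟨Wi, hWi⟩ := hWu.exists_right_inv
  have htph : endP phA goodEnd_phA (muP p * W) = (p : PM p) * (muP p * W) := by
    rw [map_mul, phP_mu]
    linear_combination (muP p) * hWph
  refine ⟨muP p * W, W, rfl, hWu, hWth, htph, ?_⟩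
  intro σ
  obtain ⟨y, hy⟩ : ∃ y : PM p, y = wP σ * endP (galA σ) (goodEnd_gal σ) W * Wi := ⟨_, rfl⟩
  have hσ : endP (galA σ) (goodEnd_gal σ) (muP p * W) = muP p * W * y := by
    rw [map_mul, galP_mu, hy]
    linear_combination (-(muP p) * wP σ * endP (galA σ) (goodEnd_gal σ) W) * hWi
  have hcomm : endP phA goodEnd_phA (endP (galA σ) (goodEnd_gal σ) (muP p * W)) =
      endP (galA σ) (goodEnd_gal σ) (endP phA goodEnd_phA (muP p * W)) :=
    endP_comm (goodEnd_gal σ) goodEnd_phA goodEnd_phA (goodEnd_gal σ)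
      (fun a => phA_galA σ a) _
  have hfix : endP phA goodEnd_phA y = y := by
    rw [htph, hσ, map_mul, map_mul _ ((p : ℕ) : PM p), map_natCast, hσ, htph] at hcomm
    rw [← sub_eq_zero]
    have h1 : muP p * (W * (endP phA goodEnd_phA y - y)) = 0 := by
      apply p_cancel_PR 1
      rw [pow_one, mul_zero]
      linear_combination hcomm
    have h2 := muP_nzd h1
    calc endP phA goodEnd_phA y - y = (W * Wi) * (endP phA goodEnd_phA y - y) := by
          rw [hWi, one_mul]
      _ = Wi * (W * (endP phA goodEnd_phA y - y)) := by ring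
      _ = 0 := by rw [h2, mul_zero]
  obtain ⟨c, hc⟩ := F1_PM y hfix
  have hthWi : thPM Wi = 1 := by
    have h1 := congrArg thPM hWi
    rw [map_mul, hWth, one_mul, map_one] at h1
    exact h1
  have hthy : thPM y = algebraMap ℚ_[p] ℂ_[p] (chiQ σ) := by
    rw [hy, map_mul, map_mul, thPM_gal, hWth, hthWi, map_one, mul_one, mul_one, wP, thPM_toPM,
      theta_wA, chiQ]
  have hcc : c = chiQ σ := by
    apply (algebraMap ℚ_[p] ℂ_[p]).injective
    rw [← hthy, hc, thPM_qp]
  rw [hσ, hc, hcc]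
  exact mul_comm _ _

end MP_7c08ba.Crys
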