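import Mathlib
import Pool.Agent.Lib.MP_7c08ba_nt.Crys.StmtDR

set_option autoImplicit false

/-!
# `θ` maps the elements with `φ x = p x` onto `ℂ_p`
-/

namespace MP_7c08ba.Crys

open Finset

section abs

variable {p : ℕ} {M : Type*} [CommRing M]

/-- the Frobenius of a two sided sum `∑ p^n [x^{1/p^n}]` -/
lemma PC.frob_sum (h : PC p M) (φ : M →+* M) (a r : ℕ → M) (h0 : r 0 = 0)
    (ha0 : φ (a 0) = (p : M) ^ 2 * r 1) (ha : ∀ n, φ (a (n + 1)) = a n)
    (hr : ∀ n, φ (r (n + 1)) = (p : M) ^ 2 * r (n + 2)) {s : M}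
    (hs : ∀ n, (p : M) ^ n ∣ s - ∑ i ∈ range n, (p : M) ^ i * (a i + r i)) :
    φ s = (p : M) * s := by
  have hsum : ∀ n, (p : M) * (∑ i ∈ range (n + 1), (p : M) ^ i * (a i + r i)) -
      φ (∑ i ∈ range (n + 1), (p : M) ^ i * (a i + r i)) =
      (p : M) ^ (n + 1) * a n - (p : M) ^ (n + 2) * r (n + 1) := by
    intro n
    induction n with
    | zero =>
      simp only [zero_add, Finset.sum_range_one, pow_zero, one_mul, h0, add_zero, ha0]
      ring
    | succ n ih =>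
      rw [Finset.sum_range_succ, mul_add, map_add, map_mul, map_pow, map_natCast, map_add, ha, hr]
      linear_combination ih
  symm
  apply h.eq_of_forall
  intro n
  obtain ⟨t, ht⟩ := hs (n + 1)
  have h1 : s = (∑ i ∈ range (n + 1), (p : M) ^ i * (a i + r i)) + (p : M) ^ (n + 1) * t := by
    rw [← ht]; ring
  have h2 := hsum n
  rw [h1, map_add, map_mul, map_pow, map_natCast]
  refine ⟨(p : M) * a n - (p : M) ^ 2 * r (n + 1) + (p : M) ^ 2 * t - (p : M) * φ t, ?_⟩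
  linear_combination h2

/-- successive approximation for `θ` -/
lemma PC.frob_iter {R : Type*} [CommRing R] (h : PC p M) (hR : PC p R) (φ : M →+* M)
    (θ : M →+* R) (P : R → Prop)
    (hP : ∀ z, P z → ∃ m z', φ m = (p : M) * m ∧ P z' ∧ z = θ m + (p : R) * z')
    {z : R} (hz : P z) : ∃ m, φ m = (p : M) * m ∧ θ m = z := by
  choose! m z' hm hz' hc using hP
  let it : ℕ → R := fun n => z'^[n] z
  have hit : ∀ n, P (it n) := by
    intro n
    induction n with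
    | zero => exact hz
    | succ n ih =>
      simp only [it, Function.iterate_succ_apply'] at ih ⊢
      exact hz' _ ih
  obtain ⟨s, hs⟩ := h.comp (fun n => m (it n))
  have hsum : ∀ n, z = θ (∑ i ∈ range n, (p : M) ^ i * m (it i)) + (p : R) ^ n * it n := by
    intro n
    induction n with
    | zero => simp [it]
    | succ n ih =>
      have h1 : it (n + 1) = z' (it n) := by simp only [it, Function.iterate_succ_apply']
      have h2 := hc _ (hit n)
      rw [← h1] at h2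
      conv_lhs => rw [ih]
      rw [Finset.sum_range_succ, map_add, map_mul, map_pow, map_natCast]
      linear_combination (p : R) ^ n * h2
  have hph : ∀ n, φ (∑ i ∈ range n, (p : M) ^ i * m (it i)) =
      (p : M) * ∑ i ∈ range n, (p : M) ^ i * m (it i) := by
    intro n
    induction n with
    | zero => simp
    | succ n ih =>
      rw [Finset.sum_range_succ, map_add, map_mul, map_pow, map_natCast, ih, hm _ (hit n)]
      ring
  refine ⟨s, ?_, ?_⟩
  · apply h.eq_of_forall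
    intro n
    obtain ⟨t, ht⟩ := hs n
    have h1 : s = (∑ i ∈ range n, (p : M) ^ i * m (it i)) + (p : M) ^ n * t := by
      rw [← ht]; ring
    have h2 := hph n
    rw [h1, map_add, map_mul, map_pow, map_natCast, h2]
    exact ⟨φ t - (p : M) * t, by ring⟩
  · apply hR.eq_of_forall
    intro n
    obtain ⟨t, ht⟩ := hs n
    have h1 : s = (∑ i ∈ range n, (p : M) ^ i * m (it i)) + (p : M) ^ n * t := by
      rw [← ht]; ring
    have h2 := hsum n
    rw [h1, map_add, map_mul, map_pow, map_natCast]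
    refine ⟨θ t - it n, ?_⟩
    linear_combination -h2

lemma multiset_aux {c : ℝ} (hc : 0 < c) (s : Multiset ℝ) (h : ∀ x ∈ s, c < x) :
    c ^ Multiset.card s ≤ s.prod ∧ (s ≠ 0 → c ^ Multiset.card s < s.prod) := by
  induction s using Multiset.induction_on with
  | empty => simp
  | cons a s ih =>
    have h1 : c < a := h a (Multiset.mem_cons_self a s)
    have h2 := (ih (fun x hx => h x (Multiset.mem_cons_of_mem hx))).1
    have h3 : c ^ Multiset.card (a ::ₘ s) < (a ::ₘ s).prod := by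
      rw [Multiset.card_cons, Multiset.prod_cons, pow_succ']
      have h4 : 0 < c ^ Multiset.card s := pow_pos hc _
      exact lt_of_lt_of_le (mul_lt_mul_of_pos_right h1 h4)
        (mul_le_mul_of_nonneg_left h2 (hc.trans h1).le)
    exact ⟨h3.le, fun _ => h3⟩

end abs

variable {p : ℕ} [hp : Fact p.Prime]

open Polynomial in
lemma exists_small_root (z : ℂ_[p]) (hz : ‖z‖ ≤ ‖(p : ℂ_[p])‖ ^ 2) :
    ∃ X : ℂ_[p], X ^ (p ^ 2) + (p : ℂ_[p]) * X ^ p + (p : ℂ_[p]) ^ 2 * X = z ∧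
      ‖X‖ ^ (p ^ 2) ≤ ‖(p : ℂ_[p])‖ ^ 2 := by
  have hp1 : 1 < p := hp.1.one_lt
  have hpp : p < p ^ 2 := by nlinarith
  set f : (ℂ_[p])[X] := X ^ (p ^ 2) + (C (p : ℂ_[p]) * X ^ p + C ((p : ℂ_[p]) ^ 2) * X - C z)
    with hf
  have hdeg : (C (p : ℂ_[p]) * X ^ p + C ((p : ℂ_[p]) ^ 2) * X - C z).natDegree ≤ p := by
    compute_degree
    omega
  have hdeg' : (C (p : ℂ_[p]) * X ^ p + C ((p : ℂ_[p]) ^ 2) * X - C z).degree <
      ((p ^ 2 : ℕ) : WithBot ℕ) := by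
    refine lt_of_le_of_lt Polynomial.degree_le_natDegree ?_
    exact_mod_cast lt_of_le_of_lt hdeg hpp
  have hmon : f.Monic := Polynomial.monic_X_pow_add hdeg'
  have hnd : f.natDegree = p ^ 2 := by
    rw [hf]
    apply Polynomial.natDegree_eq_of_degree_eq_some
    rw [Polynomial.degree_add_eq_left_of_degree_lt, Polynomial.degree_X_pow]
    rw [Polynomial.degree_X_pow]
    exact hdeg'
  have hspl : f.Splits := IsAlgClosed.splits f
  have hc0 : f.coeff 0 = -z := by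
    rw [Polynomial.coeff_zero_eq_eval_zero, hf]
    simp only [eval_add, eval_sub, eval_mul, eval_pow, eval_X, eval_C]
    rw [zero_pow (by omega), zero_pow (by omega)]
    ring
  have hcard : Multiset.card f.roots = p ^ 2 := by
    rw [← hnd]; exact (splits_iff_card_roots.1 hspl)
  have hprod : (f.roots.map (fun x => ‖x‖)).prod = ‖z‖ := by
    have h1 := hspl.coeff_zero_eq_prod_roots_of_monic hmon
    rw [hc0, hnd] at h1
    have h2 := congrArg norm h1
    rw [norm_neg, norm_mul, norm_pow, norm_neg, norm_one, one_pow, one_mul] at h2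
    rw [h2]
    exact (map_multiset_prod (normHom : ℂ_[p] →*₀ ℝ) f.roots).symm
  by_contra hcon
  push Not at hcon
  have hq : 0 < ‖(p : ℂ_[p])‖ ^ 2 := pow_pos norm_p_pos 2
  have hN : p ^ 2 ≠ 0 := by omega
  set c : ℝ := (‖(p : ℂ_[p])‖ ^ 2) ^ (((p ^ 2 : ℕ) : ℝ)⁻¹) with hc
  have hcpos : 0 < c := Real.rpow_pos_of_pos hq _
  have hcN : c ^ (p ^ 2) = ‖(p : ℂ_[p])‖ ^ 2 := Real.rpow_inv_natCast_pow hq.le hN
  have hall : ∀ x ∈ f.roots.map (fun x => ‖x‖), c < x := by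
    intro x hx
    rw [Multiset.mem_map] at hx
    obtain ⟨X0, hX0, rfl⟩ := hx
    have hroot := (Polynomial.mem_roots hmon.ne_zero).1 hX0
    rw [Polynomial.IsRoot.def, hf] at hroot
    simp only [eval_add, eval_sub, eval_mul, eval_pow, eval_X, eval_C] at hroot
    have h1 := hcon X0 (by linear_combination hroot)
    rw [← hcN] at h1
    exact lt_of_pow_lt_pow_left₀ _ (norm_nonneg _) h1
  have hfin := (multiset_aux hcpos _ hall).2 (by
    intro h0
    have h1 := congrArg Multiset.card h0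
    rw [Multiset.card_map, hcard, Multiset.card_zero] at h1
    exact hN h1)
  rw [Multiset.card_map, hcard, hcN, hprod] at hfin
  exact absurd hz (not_le.2 hfin)

lemma rt_succ_pow (n : ℕ) (x : Tl p) : rt (n + 1) x ^ p = rt n x := by
  rw [add_comm n 1, ← rt_add, rt_one_pow]

lemma exists_div_sq (x : Tl p) (hx : nT x ≤ ‖(p : ℂ_[p])‖ ^ 2) :
    ∃ c : AMax0 p, (p : AMax0 p) ^ 2 * c = ioM (tm x) := by
  obtain ⟨ϖ, hϖ⟩ := exists_sh ((p : ℕ) : OC p)
  have hth : theta (tm ϖ - (p : Ainf p)) = 0 := by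
    rw [map_sub, theta_tm, hϖ, map_natCast, sub_self]
  obtain ⟨y, hy, hy'⟩ := exists_div_p _ hth
  have h1 : (p : AMax0 p) * ⟨y, hy⟩ = ioM (tm ϖ - (p : Ainf p)) :=
    Subtype.ext (by rw [coe_ioM, ← hy']; rfl)
  generalize (⟨y, hy⟩ : AMax0 p) = Y at h1
  rw [map_sub, map_natCast] at h1
  have hn : nT x ≤ nT (ϖ ^ 2) := by
    rw [nT_pow]
    have : nT ϖ = ‖(p : ℂ_[p])‖ := by rw [nT, hϖ]; rfl
    rw [this]; exact hx
  obtain ⟨c, hc⟩ := tl_dvd hn
  have h2 : ioM (tm x) = ioM (tm ϖ) ^ 2 * ioM (tm c) := by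
    rw [hc, tm_mul, tm_pow, map_mul, map_pow]
  have h3 : ioM (tm ϖ) = (p : AMax0 p) * (Y + 1) := by
    rw [mul_add, h1, mul_one, sub_add_cancel]
  refine ⟨(Y + 1) ^ 2 * ioM (tm c), ?_⟩
  rw [h2, h3, mul_pow, mul_assoc]

lemma exists_rn (x : Tl p) (hx : nT x ≤ ‖(p : ℂ_[p])‖ ^ 2) (n : ℕ) :
    ∃ r : AMax0 p, (p : AMax0 p) ^ (2 * n) * r = ioM (tm (x ^ p ^ n)) := by
  obtain ⟨c, hc⟩ := exists_div_sq x hx
  have hlt : n < p ^ n := Nat.lt_pow_self hp.1.one_lt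
  refine ⟨(p : AMax0 p) ^ (2 * (p ^ n - n)) * c ^ p ^ n, ?_⟩
  rw [tm_pow, map_pow, ← hc, mul_pow, ← pow_mul, ← mul_assoc, ← pow_add]
  congr 2
  omega

/-- `φ` on `A_max` -/
noncomputable abbrev phM : Cpl p (AMax0 p) →+* Cpl p (AMax0 p) := endM phA goodEnd_phA

lemma phM_io (x : Tl p) : phM (ofC p (ioM (tm x))) = ofC p (ioM (tm (x ^ p))) := by
  rw [phM, endM_ofC, endM0_ioM, phA_tm]

lemma thM_io (x : Tl p) : thM (ofC p (ioM (tm x))) = sh x := by
  rw [thM_ofC, thM0_ioM, theta_tm]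

/-- the basic construction -/
lemma exists_lam (x : Tl p) (hx : nT x ≤ ‖(p : ℂ_[p])‖ ^ 2) :
    ∃ (m : Cpl p (AMax0 p)) (w : OC p), phM m = (p : Cpl p (AMax0 p)) * m ∧
      thM m = sh (rt 2 x) ^ (p ^ 2) + ((p : ℕ) : OC p) * sh (rt 2 x) ^ p +
        ((p : ℕ) : OC p) ^ 2 * sh (rt 2 x) + ((p : ℕ) : OC p) ^ 3 * w := by
  have hPC : PC p (Cpl p (AMax0 p)) := pcCpl tf_AMax0
  choose R hR using fun n => exists_rn x hx n
  let a : ℕ → Cpl p (AMax0 p) := fun n => ofC p (ioM (tm (rt n x)))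
  let r : ℕ → Cpl p (AMax0 p) := fun n => if n = 0 then 0 else ofC p (R n)
  have ha : ∀ n, a n = ofC p (ioM (tm (rt n x))) := fun n => rfl
  have hr0 : r 0 = 0 := if_pos rfl
  have hrs : ∀ n, r (n + 1) = ofC p (R (n + 1)) := fun n => if_neg (Nat.succ_ne_zero n)
  have hrn : ∀ n, (p : Cpl p (AMax0 p)) ^ (2 * (n + 1)) * r (n + 1) =
      ofC p (ioM (tm (x ^ p ^ (n + 1)))) := by
    intro n
    rw [hrs, ← hR (n + 1), map_mul, map_pow, map_natCast]
  clear_value a r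
  obtain ⟨s, hs⟩ := hPC.comp (fun n => a n + r n)
  have h1 : phM s = (p : Cpl p (AMax0 p)) * s := by
    refine hPC.frob_sum phM a r hr0 ?_ ?_ ?_ hs
    · have h2 := hrn 0
      rw [zero_add, mul_one, pow_one] at h2
      rw [ha, rt_zero, phM_io, h2]
    · intro n
      rw [ha, phM_io, rt_succ_pow, ha]
    · intro n
      apply hPC.cancel (2 * (n + 1))
      have h2 := congrArg phM (hrn n)
      rw [map_mul, map_pow, map_natCast, phM_io, ← pow_mul, ← pow_succ, ← hrn (n + 1)] at h2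
      rw [h2, ← mul_assoc, ← pow_add]
      congr 2
  -- theta of the r_n
  have hv : ((p : ℕ) : OC p) ^ 2 ∣ sh x := by
    rw [pow_dvd_iff]; exact hx
  have hth : ∀ n, ∃ t, thM (r (n + 1)) = ((p : ℕ) : OC p) ^ 2 * t := by
    intro n
    obtain ⟨v, hv⟩ := hv
    have h2 := congrArg thM (hrn n)
    rw [map_mul, map_pow, map_natCast, thM_io, sh_pow, hv, mul_pow, ← pow_mul] at h2
    have hlt : n + 1 < p ^ (n + 1) := Nat.lt_pow_self hp.1.one_lt
    refine ⟨((p : ℕ) : OC p) ^ (2 * (p ^ (n + 1) - (n + 1) - 1)) * v ^ p ^ (n + 1), ?_⟩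
    apply pcO.cancel (2 * (n + 1))
    rw [h2, ← mul_assoc, ← mul_assoc, ← pow_add, ← pow_add]
    congr 2
    omega
  obtain ⟨t1, ht1⟩ := hth 0
  obtain ⟨t2, ht2⟩ := hth 1
  obtain ⟨t, ht⟩ := hs 3
  refine ⟨s, t1 + ((p : ℕ) : OC p) * t2 + thM t, h1, ?_⟩
  have h3 : s = (∑ i ∈ range 3, (p : Cpl p (AMax0 p)) ^ i * (a i + r i)) +
      (p : Cpl p (AMax0 p)) ^ 3 * t := by
    rw [← ht]; ring
  have h4 := congrArg thM h3
  rw [Finset.sum_range_succ, Finset.sum_range_succ, Finset.sum_range_one] at h4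
  rw [map_add, map_add, map_add, map_mul, map_mul, map_mul, map_mul, map_add, map_add, map_add,
    map_pow, map_pow, map_pow, map_pow, map_natCast, hr0, map_zero, ha, ha, ha, thM_io, thM_io,
    thM_io, ht1, ht2, rt_zero] at h4
  have h5 := sh_rt_pow 2 x
  have h6 := sh_rt_succ 1 x
  rw [h4, ← h5, ← h6]
  ring

/-- the approximation step -/
lemma theta_step (z : OC p) (hz : ((p : ℕ) : OC p) ^ 2 ∣ z) :
    ∃ (m : Cpl p (AMax0 p)) (z' : OC p), phM m = (p : Cpl p (AMax0 p)) * m ∧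
      ((p : ℕ) : OC p) ^ 2 ∣ z' ∧ z = thM m + ((p : ℕ) : OC p) * z' := by
  obtain ⟨X, hX, hX'⟩ := exists_small_root (z : ℂ_[p]) (pow_dvd_iff.1 hz)
  have hX1 : ‖X‖ ≤ 1 := by
    have h1 : ‖X‖ ^ (p ^ 2) ≤ 1 :=
      hX'.trans (pow_le_one₀ (norm_nonneg _) norm_p_lt_one.le)
    exact (pow_le_one_iff_of_nonneg (norm_nonneg _) (pow_pos hp.1.pos 2).ne').1 h1
  obtain ⟨y, hy⟩ := exists_sh (⟨X, mem_OC.2 hX1⟩ : OC p)
  have hn : nT (y ^ p ^ 2) ≤ ‖(p : ℂ_[p])‖ ^ 2 := by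
    rw [nT_pow, nT, hy]; exact hX'
  obtain ⟨m, w, hm, hw⟩ := exists_lam (y ^ p ^ 2) hn
  rw [rt_of_pow, hy] at hw
  refine ⟨m, -(((p : ℕ) : OC p) ^ 2 * w), hm, (dvd_neg).2 (Dvd.intro _ rfl), ?_⟩
  have hz' : z = (⟨X, mem_OC.2 hX1⟩ : OC p) ^ (p ^ 2) +
      ((p : ℕ) : OC p) * (⟨X, mem_OC.2 hX1⟩ : OC p) ^ p +
      ((p : ℕ) : OC p) ^ 2 * (⟨X, mem_OC.2 hX1⟩ : OC p) := by
    apply Subtype.ext
    rw [← hX]
    push_cast
    rfl
  rw [hw, hz']
  ring

theorem stTheta : StTheta p := by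
  intro z
  have hPC : PC p (Cpl p (AMax0 p)) := pcCpl tf_AMax0
  -- `p ^ N z` is in `p ^ 2 OC`
  obtain ⟨N, hN⟩ : ∃ N : ℕ, ‖(p : ℂ_[p]) ^ N * z‖ ≤ ‖(p : ℂ_[p])‖ ^ 2 := by
    have h1 : Filter.Tendsto (fun n : ℕ => ‖(p : ℂ_[p])‖ ^ n * ‖z‖) Filter.atTop (nhds (0 * ‖z‖)) :=
      (tendsto_pow_atTop_nhds_zero_of_lt_one (norm_nonneg _) norm_p_lt_one).mul_const _
    rw [zero_mul] at h1
    have h2 := h1.eventually (gt_mem_nhds (pow_pos norm_p_pos 2 : 0 < ‖(p : ℂ_[p])‖ ^ 2))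
    obtain ⟨N, hN⟩ := h2.exists
    exact ⟨N, by rw [norm_mul, norm_pow]; exact hN.le⟩
  have hmem : (p : ℂ_[p]) ^ N * z ∈ 𝓞_ℂ_[p] := by
    rw [mem_OC]
    exact hN.trans (pow_le_one₀ (norm_nonneg _) norm_p_lt_one.le)
  have hdvd : ((p : ℕ) : OC p) ^ 2 ∣ (⟨(p : ℂ_[p]) ^ N * z, hmem⟩ : OC p) := by
    rw [pow_dvd_iff]; exact hN
  obtain ⟨m, hm, hm'⟩ := hPC.frob_iter pcO phM thM (fun z => ((p : ℕ) : OC p) ^ 2 ∣ z)
    theta_step hdvd
  obtain ⟨u, hu⟩ := (isUnit_p_PR (p := p) (S := AMax0 p)).pow N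
  have hx : (p : PM p) ^ N * (↑u⁻¹ * oM m) = oM m := by
    rw [← hu, Units.mul_inv_cancel_left]
  generalize (↑u⁻¹ * oM m : PM p) = x at hx
  refine ⟨x, ?_, ?_⟩
  · apply p_cancel_PR N
    have h1 := congrArg (endP phA goodEnd_phA) hx
    rw [map_mul, map_pow, map_natCast, endP_oM, show endM phA goodEnd_phA m = _ from hm, map_mul,
      map_natCast, ← hx] at h1
    rw [h1, mul_left_comm]
  · have h1 := congrArg thPM hx
    rw [map_mul, map_pow, map_natCast, thPM_oM, hm', oc_apply] at h1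
    exact mul_left_cancel₀ (pow_ne_zero N p_ne_zero_C) h1

end MP_7c08ba.Crys
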