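import Mathlib
import Pool.Agent.Lib.MP_7c08ba_nt.Crys.CrisAbs
import Pool.Agent.Lib.MP_7c08ba_nt.Crys.TInv
import Pool.Agent.Lib.MP_7c08ba_nt.Crys.SmInst
import Pool.Agent.Lib.MP_7c08ba_nt.Crys.Local
import Pool.Agent.Lib.MP_7c08ba_nt.Crys.Tel
import Pool.Agent.Lib.MP_7c08ba_nt.Crys.ThSurj

set_option autoImplicit false

/-!
# `H¹_f` for the concrete period rings
-/

namespace MP_7c08ba.Crys

open TensorProduct Matrix Filter Topology

/-- the dimension of `E / (E ∩ F)` -/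
noncomputable def rankQ {K M : Type} [Field K] [AddCommGroup M] [Module K M]
    (E F : Submodule K M) : Cardinal := Module.rank K (E ⧸ F.submoduleOf E)

variable {p : ℕ} [hp : Fact p.Prime]
variable {G : Type} [Group G]

section defs

variable (a : G →* GQp p) {L : Type} [Field L] [Algebra ℚ_[p] L] {n : ℕ}

/-- The representation is de Rham: there is a basis of `V ⊗ B_dR` over `L ⊗ B_dR` which consists
of invariants (the columns of `P`). -/
def IsDR (ρ : G →* GL (Fin n) L) : Prop :=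
  ∃ P : GL (Fin n) (L ⊗[ℚ_[p]] BdR p), ∀ g : G,
    mR ℚ_[p] (BdR p) (ρ g : Matrix (Fin n) (Fin n) L) *
      (P : Matrix (Fin n) (Fin n) (L ⊗[ℚ_[p]] BdR p)).map (gR L (galD (a g))) = P

/-- `D_dR(V) = (V ⊗ B_dR)^G` -/
noncomputable def DdR (ρ : G →* GL (Fin n) L) : Submodule L ((Fin n → L) ⊗[ℚ_[p]] BdR p) :=
  DB (rp ρ) (fun g => galD (a g))

/-- `dim D_dR(V) / Fil⁰ D_dR(V)`, where `Fil⁰ D_dR(V)` is the intersection of `D_dR(V)` and
`V ⊗ B_dR⁺` -/
noncomputable def rkdR (ρ : G →* GL (Fin n) L) : Cardinal :=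
  rankQ (DdR a ρ) (FilV L (Fin n → L) (DpS p))

/-- `φ - 1` is bijective on `D_cris(V)` -/
def IsPure (ρ : G →* GL (Fin n) L) : Prop := Function.Bijective (phSub a (rp ρ))

end defs

variable [TopologicalSpace G]

/-- the cocycles whose class is in `H¹_f`: continuous cocycles `c` with `c g = g b - b` for some
`b ∈ V ⊗ B_cris` -/
noncomputable def Zf (a : G →* GQp p) {L : Type} [NormedField L] [NormedAlgebra ℚ_[p] L] {n : ℕ}
    (ρ : G →* GL (Fin n) L) : Submodule L (G → Fin n → L) :=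
  BKOdd.Z1 ρ ⊓ ZCris a (rp ρ)

/-- the concrete system of period rings -/
noncomputable def CS (a : G →* GQp p) (ha : Continuous a) :
    CrisSetup p G (Cpl p (AMax0 p)) (BM p) (BdR p) (BCris p) where
  toDRSetup := DS stTheta (stTel p) a
  S := SmB p
  sml := sml_gal a ha
  ntC := inferInstance
  aC := gB a
  phC := phBa
  phC_a := ph_gB a
  psi := psiB
  kap := kap
  psi_a := fun g x => psiB_galBM (a g) x
  kap_a := fun g x => kap_galB (a g) x
  psi_kap := psiB_kap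
  kap_psi := kap_psiB
  kap_ph := kap_phB
  chi := fun g => chiQ (a g)
  s := (tInv_DS stTheta (stTel p) a).choose
  hs := (tInv_DS stTheta (stTel p) a).choose_spec

variable [IsTopologicalGroup G]

/-- **The local theorem of Bloch and Kato**, the part on `B_cris` and `B_dR`. -/
theorem hodgePair (a : G →* GQp p) (ha : Continuous a)
    {L : Type} [NormedField L] [NormedAlgebra ℚ_[p] L] [FiniteDimensional ℚ_[p] L] {n : ℕ}
    (ρ ρ' : G →* GL (Fin n) L) (hρ : Continuous ρ) (hρ' : Continuous ρ')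
    (χ : G →* L) (hχ : ∀ g, χ g = algebraMap ℚ_[p] L (chiQ (a g))) (hχc : Continuous χ)
    (hd : ∀ g, (ρ g : Matrix (Fin n) (Fin n) L)ᵀ * (ρ' g : Matrix (Fin n) (Fin n) L) =
      χ g • (1 : Matrix (Fin n) (Fin n) L))
    (hDR : IsDR a ρ) (h : IsPure a ρ) (h' : IsPure a ρ') :
    ∃ r r' : ℕ, BKOdd.HodgePair χ (Zf a) ρ ρ' r r' ∧
      (r : Cardinal) ≤ rkdR a ρ ∧ rkdR a ρ ≤ Module.rank L (BKOdd.cls ρ (Zf a ρ)) ∧
      (r' : Cardinal) ≤ rkdR a ρ' ∧
      rkdR a ρ' ≤ Module.rank L (BKOdd.cls ρ' (Zf a ρ')) :=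
  (CS a ha).hodgePair ρ ρ' hρ hρ' χ hχ hχc hd hDR h h'

end MP_7c08ba.Crys
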